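import Mathlib
import Pool.Agent.AbcE.Assemble

/-!
Definitions for the two further tools in the count of the exceptions to the weak abc inequality:
the multiplicative energy modulo a divisor of `y - 1`, and the determinant method on the curves
`v ^ f = A * u ^ e + B`.
-/

namespace Pool.Agent.AbcF

open NumberField IsDedekindDomain Pool.Agent.H7.Abc Pool.Agent.AbcE

section energy

variable {α G : Type*} [CommGroup G]

open Classical in
/-- The number of pairs of `k`-tuples from `A` with the same product of the values of `u`. -/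
noncomputable def energy (A : Finset α) (u : α → G) (k : ℕ) : ℕ :=
  (((Fintype.piFinset fun _ : Fin k => A) ×ˢ (Fintype.piFinset fun _ : Fin k => A)).filter
    (fun p => ∏ l, u (p.1 l) = ∏ l, u (p.2 l))).card

end energy

variable {K : Type*} [Field K] [NumberField K]

/-- The logarithm of the norm of the product of the primes in `X`. -/
noncomputable def LN (X : Finset (HeightOneSpectrum (𝓞 K))) : ℝ := ∑ v ∈ X, ln v

theorem LN_nonneg (X : Finset (HeightOneSpectrum (𝓞 K))) : 0 ≤ LN X :=
  Finset.sum_nonneg fun v _ => (tc_ln_pos v).le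

theorem mk_sub_le_max (v : HeightOneSpectrum (𝓞 K)) (x y : K) :
    FinitePlace.mk v (x + y) ≤ max (FinitePlace.mk v x) (FinitePlace.mk v y) :=
  FinitePlace.add_le (FinitePlace.mk v) x y

/-- The group of the elements which are congruent to `1` modulo `∏ v ^ (j v)`, the product over
`v ∈ V`. -/
def Hs (V : Finset (HeightOneSpectrum (𝓞 K))) (j : HeightOneSpectrum (𝓞 K) → ℕ) :
    Subgroup Kˣ where
  carrier := {z | ∀ v ∈ V, FinitePlace.mk v (z : K) = 1 ∧
    FinitePlace.mk v ((z : K) - 1) ≤ Real.exp (-((j v : ℝ) * ln v))}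
  one_mem' := by
    intro v _
    simp only [Units.val_one, map_one, sub_self, map_zero, true_and]
    positivity
  mul_mem' := by
    intro a b ha hb v hv
    obtain ⟨a1, a2⟩ := ha v hv
    obtain ⟨b1, b2⟩ := hb v hv
    refine ⟨by rw [Units.val_mul, map_mul, a1, b1, one_mul], ?_⟩
    have h : ((a * b : Kˣ) : K) - 1 = (a : K) * ((b : K) - 1) + ((a : K) - 1) := by
      rw [Units.val_mul]; ring
    rw [h]
    refine le_trans (mk_sub_le_max v _ _) (max_le ?_ a2)
    rw [map_mul, a1, one_mul]
    exact b2
  inv_mem' := by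
    intro a ha v hv
    obtain ⟨a1, a2⟩ := ha v hv
    have h0 : (a : K) ≠ 0 := a.ne_zero
    refine ⟨by rw [Units.val_inv_eq_inv_val, map_inv₀, a1, inv_one], ?_⟩
    have h : ((a⁻¹ : Kˣ) : K) - 1 = -((a : K)⁻¹ * ((a : K) - 1)) := by
      rw [Units.val_inv_eq_inv_val]
      field_simp
      ring
    rw [h]
    have h2 : FinitePlace.mk v (-((a : K)⁻¹ * ((a : K) - 1))) =
        FinitePlace.mk v ((a : K)⁻¹ * ((a : K) - 1)) := by
      rw [← neg_one_mul, map_mul]
      have h3 : FinitePlace.mk v (-1 : K) = 1 := by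
        have h4 : FinitePlace.mk v (-1 : K) * FinitePlace.mk v (-1 : K) = 1 := by
          rw [← map_mul]; norm_num
        nlinarith [apply_nonneg (FinitePlace.mk v) (-1 : K)]
      rw [h3, one_mul]
    rw [h2, map_mul, map_inv₀, a1, inv_one, one_mul]
    exact a2

open Classical in
/-- The set of the places at which `y` has the exponent `n` (for `n = 0` the empty set). -/
noncomputable def Zs (y : K) (n : ℕ) : Finset (HeightOneSpectrum (𝓞 K)) :=
  if h : {v : HeightOneSpectrum (𝓞 K) | n ≠ 0 ∧ ord v y = n}.Finite then h.toFinset else ∅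

/-- The size of the free radical of `y`. -/
noncomputable def Sf (T : Tool) (y : K) : ℝ := rd y T.F0 + rd y⁻¹ T.F1

/-- The cost of the energy argument beyond the kept radical. -/
noncomputable def Om (T : Tool) (y : K) : ℝ :=
  Sf T y / 2 + max 0 (Sf T y - sz (y - 1) T.Gᶜ) / 2

/-- The elements `y` of `P` have the same kept data as `y0`. -/
def SameData (T : Tool) (P : Finset K) (y0 : K) : Prop :=
  ∀ y ∈ P, (∀ v, kf T y v = kf T y0 v) ∧ (∀ v, jf T y v = jf T y0 v) ∧
    (∀ w : InfinitePlace K, ⌊Real.log (w y)⌋ = ⌊Real.log (w y0)⌋) ∧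
    (∀ w : InfinitePlace K, ⌊Real.log (w (y - 1))⌋ = ⌊Real.log (w (y0 - 1))⌋)

/-- The tool with exactly the exponent `e` free in the zero divisor of `y` and exactly the
exponent `f` free in the pole divisor of `y`. -/
def TB (e f : ℕ) : Tool where
  e := 1
  F0 := {e}
  F1 := {f}
  G := ∅
  he := le_rfl
  h0 := fun _ _ => one_dvd _
  h1 := fun _ _ => one_dvd _

/-- The cost of the determinant method beyond the kept radical. -/
noncomputable def Ob (e f I J : ℕ) (y : K) : ℝ :=
  (((I : ℝ) - 1) * rd y {e} + ((J : ℝ) - 1) * rd y⁻¹ {f}) / ((I : ℝ) * J - 1)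

end Pool.Agent.AbcF
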