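import Mathlib
import Pool.Agent.AbcF.Defs

/-!
Module B: balanced generators and bounded units.
-/

namespace Pool.Agent.AbcF

open NumberField IsDedekindDomain Pool.Agent.H7.Abc Pool.Agent.AbcE

open scoped nonZeroDivisors

theorem units_bdd (K : Type*) [Field K] [NumberField K] (B : ℝ) :
    Set.Finite {η : K | η ≠ 0 ∧ (∀ v : HeightOneSpectrum (𝓞 K), ord v η = 0) ∧
      ∀ w : InfinitePlace K, |Real.log (w η)| ≤ B} := by
  refine (NumberField.finite_setOfPred_logHeight₁_le (K := K)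
    (∑ w : InfinitePlace K, (w.mult : ℝ) * |B|)).subset ?_
  rintro η ⟨h0, hv, hw⟩
  show Height.logHeight₁ η ≤ _
  rw [← hgt_eq]
  unfold hgt
  have h1 : ∀ v : HeightOneSpectrum (𝓞 K), Real.log (max 1 (FinitePlace.mk v η)) = 0 := by
    intro v
    rw [(ord_eq_zero_iff v h0).1 (hv v), max_self, Real.log_one]
  rw [finsum_congr h1, finsum_zero, add_zero]
  refine Finset.sum_le_sum fun w _ => mul_le_mul_of_nonneg_left ?_ (Nat.cast_nonneg _)
  rcases le_total 1 (w η) with h | h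
  · rw [max_eq_right h]
    exact (le_abs_self _).trans ((hw w).trans (le_abs_self _))
  · rw [max_eq_left h, Real.log_one]
    exact abs_nonneg _

open Units.dirichletUnitTheorem in
theorem bal_unit0 (K : Type*) [Field K] [NumberField K] :
    ∃ C : ℝ, 0 ≤ C ∧ ∀ m : InfinitePlace K → ℝ, ∃ u : (𝓞 K)ˣ,
      ∀ w : InfinitePlace K, w ≠ w₀ →
        |m w + (w.mult : ℝ) * Real.log (w ((u : 𝓞 K) : K))| ≤ C := by
  classical
  set b := (Units.basisUnitLattice K).ofZLatticeBasis ℝ (Units.unitLattice K) with hb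
  refine ⟨∑ i, ‖b i‖, Finset.sum_nonneg fun i _ => norm_nonneg _, fun m => ?_⟩
  set m' : logSpace K := fun w => m w.1 with hm'
  have hsp : Submodule.span ℤ (Set.range b) = Units.unitLattice K :=
    Module.Basis.ofZLatticeBasis_span ℝ _ _
  have h1 : ((ZSpan.floor b m' : Submodule.span ℤ (Set.range b)) : logSpace K) ∈
      Units.unitLattice K := hsp.le (ZSpan.floor b m').2
  unfold Units.unitLattice at h1
  obtain ⟨u0, -, hu0⟩ := h1
  refine ⟨(Additive.toMul u0)⁻¹, fun w hw => ?_⟩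
  have h3 : m w + (w.mult : ℝ) *
      Real.log (w ((((Additive.toMul u0)⁻¹ : (𝓞 K)ˣ) : 𝓞 K) : K)) =
      ZSpan.fract b m' ⟨w, hw⟩ := by
    rw [ZSpan.fract_apply, Pi.sub_apply, ← hu0]
    have h4 : (Units.logEmbedding K).toIntLinearMap u0 ⟨w, hw⟩ =
        (w.mult : ℝ) * Real.log (w (((Additive.toMul u0 : (𝓞 K)ˣ) : 𝓞 K) : K)) := rfl
    rw [h4]
    have h5 : w ((((Additive.toMul u0)⁻¹ : (𝓞 K)ˣ) : 𝓞 K) : K) =
        (w (((Additive.toMul u0 : (𝓞 K)ˣ) : 𝓞 K) : K))⁻¹ := by
      have h6 : ((((Additive.toMul u0)⁻¹ : (𝓞 K)ˣ) : 𝓞 K) : K) *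
          (((Additive.toMul u0 : (𝓞 K)ˣ) : 𝓞 K) : K) = 1 := by
        have h7 : (((Additive.toMul u0)⁻¹ : (𝓞 K)ˣ) : 𝓞 K) *
            ((Additive.toMul u0 : (𝓞 K)ˣ) : 𝓞 K) = 1 := Units.inv_mul _
        have h8 := congrArg (algebraMap (𝓞 K) K) h7
        rw [map_mul, map_one] at h8
        exact h8
      have h9 := congrArg w h6
      rw [map_mul, map_one] at h9
      exact eq_inv_of_mul_eq_one_left h9
    rw [h5, Real.log_inv]
    simp only [hm']
    ring
  rw [h3]
  have h10 := norm_le_pi_norm (ZSpan.fract b m') ⟨w, hw⟩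
  rw [Real.norm_eq_abs] at h10
  exact h10.trans (ZSpan.norm_fract_le b m')

open Units.dirichletUnitTheorem in
theorem bal_unit (K : Type*) [Field K] [NumberField K] :
    ∃ C : ℝ, 0 < C ∧ ∀ z : K, z ≠ 0 →
      |∑ w : InfinitePlace K, (w.mult : ℝ) * Real.log (w z)| ≤ 1 →
        ∃ u : (𝓞 K)ˣ, ∀ w : InfinitePlace K,
          |Real.log (w (z * ((u : 𝓞 K) : K)))| ≤ C := by
  classical
  obtain ⟨C1, hC1, H⟩ := bal_unit0 K
  refine ⟨1 + (Fintype.card (InfinitePlace K) : ℝ) * C1 + C1, by positivity, fun z hz hs => ?_⟩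
  obtain ⟨u, hu⟩ := H fun w => (w.mult : ℝ) * Real.log (w z)
  refine ⟨u, ?_⟩
  have hu0 : ((u : 𝓞 K) : K) ≠ 0 := by
    have : (u : 𝓞 K) ≠ 0 := u.ne_zero
    simpa using this
  have hlog : ∀ w : InfinitePlace K, Real.log (w (z * ((u : 𝓞 K) : K))) =
      Real.log (w z) + Real.log (w ((u : 𝓞 K) : K)) := by
    intro w
    rw [map_mul, Real.log_mul (by simpa using hz) (by simpa using hu0)]
  have h1 : ∀ w : InfinitePlace K, w ≠ w₀ →
      |(w.mult : ℝ) * Real.log (w (z * ((u : 𝓞 K) : K)))| ≤ C1 := by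
    intro w hw
    rw [hlog, mul_add]
    exact hu w hw
  have h2 : ∑ w : InfinitePlace K, (w.mult : ℝ) * Real.log (w (z * ((u : 𝓞 K) : K))) =
      ∑ w : InfinitePlace K, (w.mult : ℝ) * Real.log (w z) := by
    have h3 := Units.sum_mult_mul_log u
    calc _ = ∑ w : InfinitePlace K, ((w.mult : ℝ) * Real.log (w z) +
          (w.mult : ℝ) * Real.log (w ((u : 𝓞 K) : K))) := by
            refine Finset.sum_congr rfl fun w _ => ?_
            rw [hlog, mul_add]
      _ = _ := by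
            rw [Finset.sum_add_distrib]
            rw [h3, add_zero]
  have hred : ∀ w : InfinitePlace K, ∀ t : ℝ, |t| ≤ |(w.mult : ℝ) * t| := by
    intro w t
    rw [abs_mul, abs_of_nonneg (Nat.cast_nonneg _ : (0 : ℝ) ≤ (w.mult : ℝ))]
    have := InfinitePlace.one_le_mult (w := w)
    nlinarith [abs_nonneg t]
  intro w
  refine (hred w _).trans ?_
  by_cases hw : w = w₀
  · subst hw
    have h4 := Finset.sum_erase_add Finset.univ
      (fun w : InfinitePlace K => (w.mult : ℝ) * Real.log (w (z * ((u : 𝓞 K) : K))))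
      (Finset.mem_univ (w₀ : InfinitePlace K))
    have h5 : |∑ w ∈ Finset.univ.erase (w₀ : InfinitePlace K),
        (w.mult : ℝ) * Real.log (w (z * ((u : 𝓞 K) : K)))| ≤
        (Fintype.card (InfinitePlace K) : ℝ) * C1 := by
      refine (Finset.abs_sum_le_sum_abs _ _).trans ?_
      refine (Finset.sum_le_card_nsmul _ _ C1
        (fun w hw => h1 w (Finset.ne_of_mem_erase hw))).trans ?_
      rw [nsmul_eq_mul]
      refine mul_le_mul_of_nonneg_right ?_ hC1
      exact_mod_cast Finset.card_le_univ _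
    rw [h2] at h4
    have h6 := abs_le.1 h5
    have h7 := abs_le.1 hs
    refine abs_le.2 ⟨?_, ?_⟩ <;> linarith
  · refine (h1 w hw).trans ?_
    have : 0 ≤ (Fintype.card (InfinitePlace K) : ℝ) * C1 := by positivity
    linarith

variable {K : Type*} [Field K] [NumberField K]

open Classical in
/-- The exponent of `v` in an ideal. -/
noncomputable def bcnt (v : HeightOneSpectrum (𝓞 K)) (I : Ideal (𝓞 K)) : ℕ :=
  (Associates.mk v.asIdeal).count (Associates.mk I).factors

theorem bcnt_mul (v : HeightOneSpectrum (𝓞 K)) {I J : Ideal (𝓞 K)} (hI : I ≠ 0) (hJ : J ≠ 0) :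
    bcnt v (I * J) = bcnt v I + bcnt v J := by
  classical
  unfold bcnt
  rw [← Associates.mk_mul_mk, Associates.count_mul (Associates.mk_ne_zero.2 hI)
    (Associates.mk_ne_zero.2 hJ) v.associates_irreducible]

theorem bcnt_one (v : HeightOneSpectrum (𝓞 K)) : bcnt v (1 : Ideal (𝓞 K)) = 0 := by
  have h := bcnt_mul v (one_ne_zero : (1 : Ideal (𝓞 K)) ≠ 0) one_ne_zero
  rw [one_mul] at h
  omega

open Classical in
theorem bcnt_prime (v u : HeightOneSpectrum (𝓞 K)) :
    bcnt v u.asIdeal = if v = u then 1 else 0 := by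
  unfold bcnt
  split_ifs with h
  · subst h
    exact Associates.count_self v.associates_irreducible
  · refine Associates.count_eq_zero_of_ne v.associates_irreducible u.associates_irreducible ?_
    intro h2
    apply h
    apply HeightOneSpectrum.ext
    exact (Associates.mk_eq_mk_iff_associated.1 h2).eq_of_normalized
      (normalize_eq _) (normalize_eq _)

theorem prod_ne_zero' (X : Finset (HeightOneSpectrum (𝓞 K))) :
    (∏ u ∈ X, u.asIdeal) ≠ 0 :=
  Finset.prod_ne_zero_iff.2 fun u _ => u.ne_bot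

open Classical in
theorem bcnt_prod (v : HeightOneSpectrum (𝓞 K)) (X : Finset (HeightOneSpectrum (𝓞 K))) :
    bcnt v (∏ u ∈ X, u.asIdeal) = if v ∈ X then 1 else 0 := by
  induction X using Finset.induction_on with
  | empty =>
    rw [Finset.prod_empty, bcnt_one]
    simp
  | insert u X hu ih =>
    rw [Finset.prod_insert hu, bcnt_mul v u.ne_bot (prod_ne_zero' X), ih, bcnt_prime]
    by_cases h1 : v = u
    · subst h1
      simp [hu]
    · simp [h1]

open Classical in
theorem balanced (K : Type*) [Field K] [NumberField K] :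
    ∃ (C : ℝ) (M : ℕ) (cl : Finset (HeightOneSpectrum (𝓞 K)) → Fin M), 0 < C ∧
      ∀ X Y, cl X = cl Y → |LN X - LN Y| ≤ 1 →
        ∃ ξ : K, ξ ≠ 0 ∧ (∀ v, ord v ξ = (if v ∈ X then 1 else 0) - (if v ∈ Y then 1 else 0)) ∧
          ∀ w : InfinitePlace K, |Real.log (w ξ)| ≤ C := by
  obtain ⟨C, hC, HU⟩ := bal_unit K
  let E := Fintype.equivFin (ClassGroup (𝓞 K))
  have hmem : ∀ X : Finset (HeightOneSpectrum (𝓞 K)),
      (∏ u ∈ X, u.asIdeal) ∈ (Ideal (𝓞 K))⁰ := fun X =>
    mem_nonZeroDivisors_iff_ne_zero.2 (prod_ne_zero' X)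
  refine ⟨C, _, fun X => E (ClassGroup.mk0 ⟨∏ u ∈ X, u.asIdeal, hmem X⟩), hC,
    fun X Y hXY hL => ?_⟩
  obtain ⟨x, y, hx, hy, hxy⟩ := ClassGroup.mk0_eq_mk0_iff.1 (E.injective hXY)
  simp only at hxy
  have hxK : (algebraMap (𝓞 K) K x) ≠ 0 := by simpa using hx
  have hyK : (algebraMap (𝓞 K) K y) ≠ 0 := by simpa using hy
  have hsx : (Ideal.span {x} : Ideal (𝓞 K)) ≠ 0 := by
    rw [Ideal.zero_eq_bot]
    exact fun h => hx (Ideal.span_singleton_eq_bot.1 h)
  have hsy : (Ideal.span {y} : Ideal (𝓞 K)) ≠ 0 := by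
    rw [Ideal.zero_eq_bot]
    exact fun h => hy (Ideal.span_singleton_eq_bot.1 h)
  have hord : ∀ v, ord v (algebraMap (𝓞 K) K y / algebraMap (𝓞 K) K x) =
      (if v ∈ X then 1 else 0) - (if v ∈ Y then 1 else 0) := by
    intro v
    have h1 := congrArg (bcnt v) hxy
    rw [bcnt_mul v hsx (prod_ne_zero' X), bcnt_mul v hsy (prod_ne_zero' Y), bcnt_prod,
      bcnt_prod] at h1
    rw [ord_div v hyK hxK, SelmerAux.ord_int v hx, SelmerAux.ord_int v hy]
    unfold bcnt at h1
    have h2 := congrArg (fun n : ℕ => (n : ℤ)) h1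
    push_cast at h2
    linarith
  set z : K := algebraMap (𝓞 K) K y / algebraMap (𝓞 K) K x with hz
  have hz0 : z ≠ 0 := div_ne_zero hyK hxK
  -- the archimedean size
  have hmk : ∀ v, FinitePlace.mk v z ≠ 1 → v ∈ X ∪ Y := by
    intro v hv
    by_contra hn
    rw [Finset.mem_union, not_or] at hn
    apply hv
    rw [← ord_eq_zero_iff v hz0, hord v, if_neg hn.1, if_neg hn.2, sub_self]
  have h1 := gap_prod hz0 (X ∪ Y) hmk
  have h2 : ∑ v ∈ X ∪ Y, Real.log (FinitePlace.mk v z) = -(LN X - LN Y) := by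
    have h3 : ∀ v ∈ X ∪ Y, Real.log (FinitePlace.mk v z) =
        (if v ∈ Y then ln v else 0) - (if v ∈ X then ln v else 0) := by
      intro v _
      rw [log_mk v hz0, hord v]
      unfold ln
      split_ifs <;> push_cast <;> ring
    rw [Finset.sum_congr rfl h3, Finset.sum_sub_distrib, ← Finset.sum_filter,
      ← Finset.sum_filter]
    have h4 : (X ∪ Y).filter (· ∈ Y) = Y := by
      ext v; simp
    have h5 : (X ∪ Y).filter (· ∈ X) = X := by
      ext v; simp
    rw [h4, h5]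
    unfold LN
    ring
  rw [h2] at h1
  have h6 : |∑ w : InfinitePlace K, (w.mult : ℝ) * Real.log (w z)| ≤ 1 := by
    have : ∑ w : InfinitePlace K, (w.mult : ℝ) * Real.log (w z) = LN X - LN Y := by linarith
    rw [this]
    exact hL
  obtain ⟨u, hu⟩ := HU z hz0 h6
  have hu0 : (algebraMap (𝓞 K) K (u : 𝓞 K)) ≠ 0 := by
    simp
  refine ⟨z * algebraMap (𝓞 K) K (u : 𝓞 K), mul_ne_zero hz0 hu0, fun v => ?_, hu⟩
  have hou : ord v (algebraMap (𝓞 K) K (u : 𝓞 K)) = 0 := by
    rw [SelmerAux.ord_int v u.ne_zero]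
    have h7 : (Ideal.span {(u : 𝓞 K)} : Ideal (𝓞 K)) = 1 := by
      rw [Ideal.one_eq_top]
      exact Ideal.span_singleton_eq_top.2 u.isUnit
    rw [h7]
    have h8 := bcnt_one v
    unfold bcnt at h8
    rw [h8]
    rfl
  rw [SelmerAux.ord_mul v hz0 hu0, hou, add_zero, hord v]

end Pool.Agent.AbcF
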