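import Mathlib

/-!
A checker for branch and bound certificates of the linear programme.  A vector has the entries
`(g, i)`, `g < 3`, `i < 12` (`i < 10`: the radical of the exponent `i + 1`; `i = 10`: the radical of
the exponents `≥ 11`; `i = 11`: the size of the exponents `≥ 11`) and a last entry for the height.
-/

namespace Pool.Agent.AbcF.Cert

/-- The vector with the entries `f g i` and the last entry `c`. -/
def mk (f : ℕ → ℕ → ℤ) (c : ℤ) : List ℤ :=
  (List.range 12).map (f 0) ++ ((List.range 12).map (f 1) ++ ((List.range 12).map (f 2) ++ [c]))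

/-- The point with the coordinates `x g i` and `h`. -/
def pt (x : ℕ → ℕ → ℝ) (h : ℝ) : List ℝ :=
  (List.range 12).map (x 0) ++ ((List.range 12).map (x 1) ++ ((List.range 12).map (x 2) ++ [h]))

/-- The scalar product. -/
def dot : List ℤ → List ℝ → ℝ
  | [], _ => 0
  | _ :: _, [] => 0
  | a :: c, x :: X => (a : ℝ) * x + dot c X

/-- `acc + k c`. -/
def addM (k : ℤ) : List ℤ → List ℤ → List ℤ
  | [], acc => acc
  | a :: c, [] => (k * a) :: addM k c []
  | a :: c, b :: acc => (k * a + b) :: addM k c acc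

/-- The size weight of the class `i`. -/
def wt (i : ℕ) : ℤ := if i < 10 then (i : ℤ) + 1 else if i = 10 then 0 else 1

/-- Is the class belonging to the entry `i` in the set `s`? -/
def bit (s i : ℕ) : Bool := if i < 10 then s.testBit i else s.testBit 10

/-- The tools: `gap e r s0 s1 s2`, `en r m`, `bp g g' e f`. -/
inductive Tl
  | gap (e r s0 s1 s2 : ℕ)
  | en (r m : ℕ)
  | bp (g g' e f : ℕ)

/-- The set belonging to the group `g`. -/
def sel (s0 s1 s2 g : ℕ) : ℕ := if g = 0 then s0 else if g = 1 then s1 else s2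

/-- The cost without the overshoot, minus `4 / 7` of the radical, scaled. -/
def cK : Tl → ℕ → ℕ → ℤ
  | .gap e _ s0 s1 s2, g, i =>
      if i = 11 then 0 else (if bit (sel s0 s1 s2 g) i then 0 else 7 * (e : ℤ)) - 4 * e
  | .en r m, g, i =>
      if i = 11 then 0 else if g = r then (if bit m i then 14 else 0) - 8 else -1
  | .bp g1 g2 e f, g, i =>
      if i = 11 then 0 else 3 * (f : ℤ) - (if g = g1 ∧ i + 1 = e then 7 * (f : ℤ) - 7 else 0) -
        (if g = g2 ∧ i + 1 = f then 7 * (f : ℤ) else 0)

/-- The overshoot, scaled. -/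
def cO : Tl → ℕ → ℕ → ℤ
  | .gap e r s0 s1 s2, g, i =>
      if bit (sel s0 s1 s2 g) i then (if g = r then 7 * (e : ℤ) else 7) * wt i else 0
  | .en r m, g, i =>
      if g = r then (if bit m i then -7 * wt i else 0) else if i = 11 then 0 else 7
  | .bp _ _ _ _, _, _ => 0

/-- The height coordinate of the overshoot, scaled. -/
def cH : Tl → ℤ
  | .gap e _ _ _ _ => -7 * (e : ℤ)
  | .en _ _ => 0
  | .bp _ _ _ _ => 0

/-- The tool is admissible. -/
def val : Tl → Bool
  | .gap e r s0 s1 s2 => decide (1 ≤ e) && decide (e ≤ 10) && decide (r < 3) && (decide (e = 1) ||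
      (List.range 3).all (fun g => decide (g = r) ||
        (List.range 11).all (fun i => !(bit (sel s0 s1 s2 g) i) ||
          (decide (i < 10) && decide ((i + 1) % e = 0)))))
  | .en r _ => decide (r < 3)
  | .bp g g' e f => decide (g < 3) && decide (g' < 3) && decide (g ≠ g') && decide (1 ≤ e) &&
      decide (e ≤ 10) && decide (2 ≤ f) && decide (f ≤ 10)

/-- The certificates. -/
inductive Tr
  | leaf (n : ℕ)
  | lin (t : Tl) (c : Tr)
  | split (t : Tl) (a b : Tr)

/-- The base of the packed vectors. -/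
def BB : ℕ := 281474976710656

/-- Half of the base. -/
def HB : ℕ := 140737488355328

/-- The packed vector. -/
def ev : List ℤ → ℤ
  | [] => 0
  | a :: c => a + BB * ev c

/-- `∑_{j < n} f (i + j) BB ^ j`. -/
def pk (f : ℕ → ℕ) : ℕ → ℕ → ℕ
  | 0, _ => 0
  | n + 1, i => f i + BB * pk f n (i + 1)

/-- The twelfth power of the base. -/
def B12 : ℕ := BB ^ 12

/-- The radical entries of one group. -/
def RAD : ℕ := pk (fun _ => 1) 11 0

/-- The radical entries of all groups. -/
def RAD3 : ℕ := RAD + B12 * (RAD + B12 * RAD)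

/-- The radical entries in the set `s`. -/
def SP (s : ℕ) : ℕ := pk (fun i => bif bit s i then 1 else 0) 11 0

/-- The size weight, as a natural number. -/
def wn (i : ℕ) : ℕ := bif Nat.blt i 10 then i + 1 else bif Nat.beq i 10 then 0 else 1

/-- The size of the set `s`. -/
def SW (s : ℕ) : ℕ := pk (fun i => bif bit s i then wn i else 0) 12 0

/-- Positive part of the packed cost. -/
def kP : Tl → ℕ
  | .gap e _ _ _ _ => 3 * e * RAD3
  | .en r m => 14 * SP m * B12 ^ r
  | .bp _ _ _ f => 3 * f * RAD3

/-- Negative part of the packed cost. -/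
def kN : Tl → ℕ
  | .gap e _ s0 s1 s2 => 7 * e * (SP s0 + B12 * (SP s1 + B12 * SP s2))
  | .en r _ => RAD3 + 7 * RAD * B12 ^ r
  | .bp g g' e f => (7 * f - 7) * BB ^ (12 * g + (e - 1)) + 7 * f * BB ^ (12 * g' + (f - 1))

/-- Positive part of the packed overshoot. -/
def oP : Tl → ℕ
  | .gap e r s0 s1 s2 => (bif Nat.beq r 0 then 7 * e else 7) * SW s0 +
      B12 * ((bif Nat.beq r 1 then 7 * e else 7) * SW s1 +
      B12 * ((bif Nat.beq r 2 then 7 * e else 7) * SW s2))
  | .en _ _ => 7 * RAD3
  | .bp _ _ _ _ => 0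

/-- Negative part of the packed overshoot. -/
def oN : Tl → ℕ
  | .gap e _ _ _ _ => 7 * e * B12 ^ 3
  | .en r m => (7 * SW m + 7 * RAD) * B12 ^ r
  | .bp _ _ _ _ => 0

/-- Lists of packed constraints. -/
inductive Cs
  | nil
  | cons (b : Bool) (P N : ℕ) (cs : Cs)

/-- All digits are small. -/
def digs : ℕ → ℕ → Bool
  | 0, _ => true
  | f + 1, m => Nat.blt (m % BB) HB && digs f (m / BB)

/-- The check of a leaf. -/
def leafc : ℕ → Cs → ℕ → ℕ → ℕ → Bool → Bool
  | _, .nil, P, N, k, st => st && Nat.ble P N && Nat.blt (2048 * k) HB && digs 37 (N - P)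
  | n, .cons b P1 N1 cs, P, N, k, st =>
      leafc (n / 262144) cs (P + (n % 262144) * P1) (N + (n % 262144) * N1) (k + n % 262144)
        (st || (b && !(Nat.beq (n % 262144) 0)))

/-- Is it a determinant tool? -/
def isBp : Tl → Bool
  | .bp _ _ _ _ => true
  | _ => false

/-- The checker. -/
def check : Tr → Cs → Bool
  | .leaf n, cs => leafc n cs 0 0 0 false
  | .lin t c, cs => val t && isBp t && check c (.cons true (kP t) (kN t) cs)
  | .split t a b, cs => val t &&
      check a (.cons true (kP t) (kN t) (.cons false (oN t) (oP t) cs)) &&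
      check b (.cons true (kP t + oP t) (kN t + oN t) (.cons false (oP t) (oN t) cs))

end Pool.Agent.AbcF.Cert
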