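import Mathlib
import Pool.Agent.AbcF.Check

/-! Soundness of the checker. -/

namespace Pool.Agent.AbcF.Cert

/-- `-c`. -/
def negV (c : List ℤ) : List ℤ := c.map (fun a => -a)

theorem dot_addM (k : ℤ) (c acc : List ℤ) (X : List ℝ) :
    dot (addM k c acc) X = k * dot c X + dot acc X := by
  induction c generalizing acc X with
  | nil => simp [addM, dot]
  | cons a c ih =>
    cases acc with
    | nil =>
      cases X with
      | nil => simp [addM, dot]
      | cons x X =>
        have := ih [] X
        simp only [addM, dot] at this ⊢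
        rw [this]
        push_cast
        ring
    | cons b acc =>
      cases X with
      | nil => simp [addM, dot]
      | cons x X =>
        have := ih acc X
        simp only [addM, dot] at this ⊢
        rw [this]
        push_cast
        ring

theorem dot_negV (c : List ℤ) (X : List ℝ) : dot (negV c) X = -dot c X := by
  induction c generalizing X with
  | nil => simp [negV, dot]
  | cons a c ih =>
    cases X with
    | nil => simp [negV, dot]
    | cons x X =>
      have := ih X
      simp only [negV, List.map_cons, dot] at this ⊢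
      rw [this]
      push_cast
      ring

theorem ev_addM (k : ℤ) (c acc : List ℤ) : ev (addM k c acc) = k * ev c + ev acc := by
  induction c generalizing acc with
  | nil => simp [addM, ev]
  | cons a c ih =>
    cases acc with
    | nil =>
      have := ih []
      simp only [addM, ev] at this ⊢
      rw [this]
      ring
    | cons b acc =>
      have := ih acc
      simp only [addM, ev] at this ⊢
      rw [this]
      ring

theorem ev_negV (c : List ℤ) : ev (negV c) = -ev c := by
  induction c with
  | nil => simp [negV, ev]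
  | cons a c ih =>
    simp only [negV, List.map_cons, ev] at ih ⊢
    rw [ih]
    ring

/-- Length at most `37` and entries at most `M`. -/
def bdd (M : ℤ) (c : List ℤ) : Prop := c.length ≤ 37 ∧ ∀ a ∈ c, |a| ≤ M

theorem length_addM (k : ℤ) (c acc : List ℤ) :
    (addM k c acc).length = max c.length acc.length := by
  induction c generalizing acc with
  | nil => simp [addM]
  | cons a c ih =>
    cases acc with
    | nil =>
      simp only [addM, List.length_cons, ih []]
      simp
    | cons b acc =>
      simp only [addM, List.length_cons, ih acc]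
      omega

theorem entry_addM {k : ℤ} {A B : ℤ} (hA : 0 ≤ A) (hB : 0 ≤ B) (c acc : List ℤ)
    (hc : ∀ a ∈ c, |a| ≤ A) (ha : ∀ a ∈ acc, |a| ≤ B) :
    ∀ a ∈ addM k c acc, |a| ≤ |k| * A + B := by
  have hk := abs_nonneg k
  induction c generalizing acc with
  | nil =>
    intro a h
    simp only [addM] at h
    have := ha a h
    nlinarith
  | cons a c ih =>
    cases acc with
    | nil =>
      intro x hx
      simp only [addM, List.mem_cons] at hx
      rcases hx with rfl | hx
      · rw [abs_mul]
        have := hc a List.mem_cons_self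
        nlinarith
      · exact ih [] (fun y hy => hc y (List.mem_cons_of_mem _ hy)) ha x hx
    | cons b acc =>
      intro x hx
      simp only [addM, List.mem_cons] at hx
      rcases hx with rfl | hx
      · have h1 := hc a List.mem_cons_self
        have h2 := ha b List.mem_cons_self
        have h3 := abs_add_le (k * a) b
        rw [abs_mul] at h3
        nlinarith
      · exact ih acc (fun y hy => hc y (List.mem_cons_of_mem _ hy))
          (fun y hy => ha y (List.mem_cons_of_mem _ hy)) x hx

theorem bdd_addM {k : ℤ} {A B : ℤ} (hA : 0 ≤ A) (hB : 0 ≤ B) {c acc : List ℤ}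
    (hc : bdd A c) (ha : bdd B acc) : bdd (|k| * A + B) (addM k c acc) := by
  refine ⟨?_, entry_addM hA hB c acc hc.2 ha.2⟩
  rw [length_addM]
  exact max_le hc.1 ha.1

theorem bdd_negV {A : ℤ} {c : List ℤ} (hc : bdd A c) : bdd A (negV c) := by
  refine ⟨by unfold negV; rw [List.length_map]; exact hc.1, ?_⟩
  intro a ha
  unfold negV at ha
  rw [List.mem_map] at ha
  obtain ⟨b, hb, rfl⟩ := ha
  rw [abs_neg]
  exact hc.2 b hb

/-- The packed constraint `(b, P, N)` belongs to a vector and holds. -/
def good (X : List ℝ) (b : Bool) (P N : ℕ) : Prop :=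
  ∃ v : List ℤ, bdd 2048 v ∧ (P : ℤ) - N = ev v ∧ 0 ≤ dot v X ∧ (b = true → 0 < dot v X)

/-- All constraints of the list hold. -/
def goods (X : List ℝ) : Cs → Prop
  | .nil => True
  | .cons b P N cs => good X b P N ∧ goods X cs

theorem digs_sound : ∀ (n m : ℕ) (v : List ℤ), v.length ≤ n → (∀ a ∈ v, |a| < (HB : ℤ)) →
    ev v = (m : ℤ) → digs n m = true → ∀ a ∈ v, 0 ≤ a := by
  intro n
  induction n with
  | zero =>
    intro m v hv
    have : v = [] := List.length_eq_zero_iff.1 (by omega)
    subst this
    intro _ _ _ a ha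
    exact absurd ha (by simp)
  | succ n ih =>
    intro m v hv hb he hd
    cases v with
    | nil => intro a ha; exact absurd ha (by simp)
    | cons a v =>
      simp only [digs, Bool.and_eq_true, Nat.blt_eq] at hd
      simp only [ev] at he
      have ha := abs_lt.1 (hb a List.mem_cons_self)
      have h1 : (m : ℤ) = (m % BB : ℕ) + BB * (m / BB : ℕ) := by
        have := Nat.mod_add_div m BB
        exact_mod_cast this.symm
      have h2 : ((m % BB : ℕ) : ℤ) < HB := by exact_mod_cast hd.1
      have h3 : (0 : ℤ) ≤ ((m % BB : ℕ) : ℤ) := Int.natCast_nonneg _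
      set q : ℤ := ((m / BB : ℕ) : ℤ) with hq
      set d : ℤ := ((m % BB : ℕ) : ℤ) with hd'
      have hBB : (BB : ℤ) = 281474976710656 := by norm_num [BB]
      have hHB : (HB : ℤ) = 140737488355328 := by norm_num [HB]
      rw [h1, hBB] at he
      rw [hHB] at h2 ha
      have h4 : ev v = q := by omega
      have h5 : a = d := by omega
      intro x hx
      rcases List.mem_cons.1 hx with rfl | hx
      · omega
      · exact ih (m / BB) v (by simpa using hv) (fun y hy => hb y (List.mem_cons_of_mem _ hy))
          h4 hd.2 x hx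

theorem dot_nonpos (c : List ℤ) (X : List ℝ) (hX : ∀ x ∈ X, 0 ≤ x) (hc : ∀ a ∈ c, a ≤ 0) :
    dot c X ≤ 0 := by
  induction c generalizing X with
  | nil => simp [dot]
  | cons a c ih =>
    cases X with
    | nil => simp [dot]
    | cons x X =>
      have h1 := ih X (fun y hy => hX y (List.mem_cons_of_mem _ hy))
        (fun y hy => hc y (List.mem_cons_of_mem _ hy))
      have h2 : (a : ℝ) ≤ 0 := by exact_mod_cast hc a List.mem_cons_self
      have h3 := hX x List.mem_cons_self
      simp only [dot]
      nlinarith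

theorem leafc_sound (X : List ℝ) (hX : ∀ x ∈ X, 0 ≤ x) : ∀ (cs : Cs) (n P N k : ℕ) (st : Bool)
    (v : List ℤ), goods X cs → bdd (2048 * k) v → (P : ℤ) - N = ev v → 0 ≤ dot v X →
      (st = true → 0 < dot v X) → leafc n cs P N k st = true → False := by
  intro cs
  induction cs with
  | nil =>
    intro n P N k st v _ hb he h0 hst hc
    simp only [leafc, Bool.and_eq_true, Nat.ble_eq, Nat.blt_eq] at hc
    obtain ⟨⟨⟨h1, h2⟩, h3⟩, h4⟩ := hc
    have h5 := hst h1
    have h6 : ∀ a ∈ negV v, 0 ≤ a := by
      refine digs_sound 37 (N - P) (negV v) (bdd_negV hb).1 ?_ ?_ h4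
      · intro a ha
        refine lt_of_le_of_lt ((bdd_negV hb).2 a ha) ?_
        exact_mod_cast h3
      · rw [ev_negV, ← he]
        push_cast [Nat.cast_sub h2]
        ring
    have h7 : dot v X ≤ 0 := by
      refine dot_nonpos v X hX fun a ha => ?_
      have := h6 (-a) (by unfold negV; exact List.mem_map.2 ⟨a, ha, rfl⟩)
      omega
    linarith
  | cons b P1 N1 cs ih =>
    intro n P N k st v hg hb he h0 hst hc
    simp only [leafc] at hc
    obtain ⟨⟨w, hw1, hw2, hw3, hw4⟩, hg2⟩ := hg
    set c : ℕ := n % 262144 with hcd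
    have hc0 : (0 : ℝ) ≤ ((c : ℤ) : ℝ) := by exact_mod_cast Nat.zero_le c
    refine ih _ _ _ _ _ (addM (c : ℤ) w v) hg2 ?_ ?_ ?_ ?_ hc
    · have := bdd_addM (k := (c : ℤ)) (by norm_num) (by positivity) hw1 hb
      have h1 : |(c : ℤ)| * 2048 + 2048 * (k : ℤ) = 2048 * ((k + c : ℕ) : ℤ) := by
        rw [abs_of_nonneg (Int.natCast_nonneg _)]
        push_cast
        ring
      rw [h1] at this
      exact this
    · rw [ev_addM, ← he, ← hw2]
      push_cast
      ring
    · rw [dot_addM]
      have := mul_nonneg hc0 hw3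
      linarith
    · intro h
      rw [dot_addM]
      rw [Bool.or_eq_true, Bool.and_eq_true] at h
      rcases h with h | ⟨h, h2⟩
      · have := mul_nonneg hc0 hw3
        have := hst h
        linarith
      · have hc1 : c ≠ 0 := by
          intro h3
          rw [h3] at h2
          exact absurd h2 (by decide)
        have hc2 : (0 : ℝ) < ((c : ℤ) : ℝ) := by exact_mod_cast Nat.pos_of_ne_zero hc1
        have := mul_pos hc2 (hw4 h)
        linarith

/-! ### The packed vectors of the tools -/

theorem pk_eq (f : ℕ → ℕ) (n i : ℕ) : pk f n i = ∑ j ∈ Finset.range n, f (i + j) * BB ^ j := by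
  induction n generalizing i with
  | zero => simp [pk]
  | succ n ih =>
    rw [pk, ih, Finset.sum_range_succ', Finset.mul_sum, add_comm]
    simp only [pow_zero, mul_one, add_zero]
    congr 1
    refine Finset.sum_congr rfl fun j _ => ?_
    rw [show i + 1 + j = i + (j + 1) by ring, pow_succ]
    ring

theorem ev_append (l : List ℕ) (f : ℕ → ℤ) (c : List ℤ) :
    ev (l.map f ++ c) = ev (l.map f) + BB ^ l.length * ev c := by
  induction l with
  | nil => simp [ev]
  | cons a l ih =>
    simp only [List.map_cons, List.cons_append, ev, ih, List.length_cons, pow_succ]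
    ring

theorem ev_range (f : ℕ → ℤ) (n : ℕ) :
    ev ((List.range n).map f) = ∑ j ∈ Finset.range n, f j * (BB : ℤ) ^ j := by
  induction n with
  | zero => simp [ev]
  | succ n ih =>
    rw [List.range_succ, List.map_append, Finset.sum_range_succ, ← ih]
    have := ev_append (List.range n) f ([n].map f)
    rw [this]
    simp [ev, List.length_range]
    ring

theorem ev_mk (f : ℕ → ℕ → ℤ) (c : ℤ) :
    ev (mk f c) = (∑ j ∈ Finset.range 12, f 0 j * (BB : ℤ) ^ j) +
      (B12 : ℤ) * ((∑ j ∈ Finset.range 12, f 1 j * (BB : ℤ) ^ j) +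
      (B12 : ℤ) * ((∑ j ∈ Finset.range 12, f 2 j * (BB : ℤ) ^ j) + (B12 : ℤ) * c)) := by
  unfold mk
  rw [ev_append, ev_append, ev_append, ev_range, ev_range, ev_range]
  simp only [List.length_range, ev, B12]
  push_cast
  ring

theorem sum_RAD (c : ℤ) :
    ∑ j ∈ Finset.range 12, (if j = 11 then 0 else c) * (BB : ℤ) ^ j = c * RAD := by
  unfold RAD
  rw [pk_eq, Finset.sum_range_succ, if_pos rfl, zero_mul, add_zero]
  push_cast
  rw [Finset.mul_sum]
  refine Finset.sum_congr rfl fun j hj => ?_
  rw [if_neg (by have := Finset.mem_range.1 hj; omega)]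
  ring

theorem sum_SP (s : ℕ) (c d : ℤ) :
    ∑ j ∈ Finset.range 12, (if j = 11 then 0 else (if bit s j then c else 0) - d) *
      (BB : ℤ) ^ j = c * SP s - d * RAD := by
  unfold RAD SP
  rw [pk_eq, pk_eq, Finset.sum_range_succ, if_pos rfl, zero_mul, add_zero]
  push_cast
  rw [Finset.mul_sum, Finset.mul_sum, ← Finset.sum_sub_distrib]
  refine Finset.sum_congr rfl fun j hj => ?_
  rw [if_neg (by have := Finset.mem_range.1 hj; omega), zero_add]
  cases bit s j <;> simp <;> ring

theorem sum_SP' (s : ℕ) (c d : ℤ) :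
    ∑ j ∈ Finset.range 12, (if j = 11 then 0 else (if bit s j then 0 else c) - d) *
      (BB : ℤ) ^ j = (c - d) * RAD - c * SP s := by
  unfold RAD SP
  rw [pk_eq, pk_eq, Finset.sum_range_succ, if_pos rfl, zero_mul, add_zero]
  push_cast
  rw [Finset.mul_sum, Finset.mul_sum, ← Finset.sum_sub_distrib]
  refine Finset.sum_congr rfl fun j hj => ?_
  rw [if_neg (by have := Finset.mem_range.1 hj; omega), zero_add]
  cases bit s j <;> simp <;> ring

theorem wn_eq (i : ℕ) (hi : i < 12) : (wn i : ℤ) = wt i := by
  interval_cases i <;> decide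

theorem sum_SW (s : ℕ) (c : ℤ) :
    ∑ j ∈ Finset.range 12, (if bit s j then c * wt j else 0) * (BB : ℤ) ^ j = c * SW s := by
  unfold SW
  rw [pk_eq]
  push_cast
  rw [Finset.mul_sum]
  refine Finset.sum_congr rfl fun j hj => ?_
  rw [← wn_eq j (Finset.mem_range.1 hj), zero_add]
  cases bit s j <;> simp <;> ring

theorem packed_bp_all : ((List.range 3).all fun g => (List.range 3).all fun g' =>
    (List.range 11).all fun e => (List.range 11).all fun f =>
      decide (g = g') || (decide (e = 0) || (decide (f < 2) ||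
        decide ((kP (.bp g g' e f) : ℤ) - kN (.bp g g' e f) =
          ev (mk (cK (.bp g g' e f)) 0))))) = true := by
  decide +kernel

theorem packed_bp (g g' e f : ℕ) (h1 : g < 3) (h2 : g' < 3) (h3 : g ≠ g') (h4 : 1 ≤ e)
    (h5 : e < 11) (h6 : 2 ≤ f) (h7 : f < 11) :
    (kP (.bp g g' e f) : ℤ) - kN (.bp g g' e f) = ev (mk (cK (.bp g g' e f)) 0) := by
  have h := packed_bp_all
  rw [List.all_eq_true] at h
  have h := h g (List.mem_range.2 h1)
  rw [List.all_eq_true] at h
  have h := h g' (List.mem_range.2 h2)
  rw [List.all_eq_true] at h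
  have h := h e (List.mem_range.2 h5)
  rw [List.all_eq_true] at h
  have h := h f (List.mem_range.2 h7)
  rw [Bool.or_eq_true, Bool.or_eq_true, Bool.or_eq_true, decide_eq_true_eq, decide_eq_true_eq,
    decide_eq_true_eq, decide_eq_true_eq] at h
  rcases h with h | h | h | h
  · exact absurd h h3
  · omega
  · omega
  · exact h

theorem packed_K (t : Tl) (h : val t = true) :
    (kP t : ℤ) - kN t = ev (mk (cK t) 0) := by
  cases t with
  | gap e r s0 s1 s2 =>
    have h1 : ∀ g, (fun j => cK (.gap e r s0 s1 s2) g j) = fun j =>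
        (if j = 11 then 0 else (if bit (sel s0 s1 s2 g) j then 0 else 7 * (e : ℤ)) - 4 * e) :=
      fun g => rfl
    have h2 : ∀ g, ∑ j ∈ Finset.range 12, cK (.gap e r s0 s1 s2) g j * (BB : ℤ) ^ j =
        (7 * (e : ℤ) - 4 * e) * RAD - 7 * (e : ℤ) * SP (sel s0 s1 s2 g) :=
      fun g => sum_SP' _ _ _
    rw [ev_mk, h2, h2, h2]
    simp only [kP, kN, RAD3, sel, if_true, if_false, one_ne_zero, OfNat.ofNat_ne_zero,
      OfNat.ofNat_ne_one]
    push_cast
    ring
  | en r m =>
    simp only [val, decide_eq_true_eq] at h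
    have h2 : ∑ j ∈ Finset.range 12, cK (.en r m) r j * (BB : ℤ) ^ j =
        14 * SP m - 8 * RAD := by
      rw [← sum_SP]
      refine Finset.sum_congr rfl fun j _ => ?_
      simp only [cK, if_true]
    have h3 : ∀ g, g ≠ r → ∑ j ∈ Finset.range 12, cK (.en r m) g j * (BB : ℤ) ^ j =
        (-1) * RAD := by
      intro g hg
      rw [← sum_RAD]
      refine Finset.sum_congr rfl fun j _ => ?_
      simp only [cK, if_neg hg]
    rw [ev_mk]
    rcases (by omega : r = 0 ∨ r = 1 ∨ r = 2) with rfl | rfl | rfl
    · rw [h2, h3 1 (by norm_num), h3 2 (by norm_num)]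
      simp only [kP, kN, RAD3]
      push_cast
      ring
    · rw [h2, h3 0 (by norm_num), h3 2 (by norm_num)]
      simp only [kP, kN, RAD3]
      push_cast
      ring
    · rw [h2, h3 0 (by norm_num), h3 1 (by norm_num)]
      simp only [kP, kN, RAD3]
      push_cast
      ring
  | bp g g' e f =>
    simp only [val, Bool.and_eq_true, decide_eq_true_eq] at h
    obtain ⟨⟨⟨⟨⟨⟨h1, h2⟩, h3⟩, h4⟩, h5⟩, h6⟩, h7⟩ := h
    exact packed_bp g g' e f h1 h2 h3 h4 (by omega) h6 (by omega)

theorem packed_O (t : Tl) (h : val t = true) :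
    (oP t : ℤ) - oN t = ev (mk (cO t) (cH t)) := by
  cases t with
  | gap e r s0 s1 s2 =>
    simp only [val, Bool.and_eq_true, decide_eq_true_eq] at h
    have hr : r < 3 := h.1.2
    have h2 : ∀ g, ∑ j ∈ Finset.range 12, cO (.gap e r s0 s1 s2) g j * (BB : ℤ) ^ j =
        (if g = r then 7 * (e : ℤ) else 7) * SW (sel s0 s1 s2 g) := by
      intro g
      rw [← sum_SW]
      refine Finset.sum_congr rfl fun j _ => ?_
      simp only [cO]
    rw [ev_mk, h2, h2, h2]
    have b00 : Nat.beq 0 0 = true := rfl
    have b01 : Nat.beq 0 1 = false := rfl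
    have b02 : Nat.beq 0 2 = false := rfl
    have b10 : Nat.beq 1 0 = false := rfl
    have b11 : Nat.beq 1 1 = true := rfl
    have b12 : Nat.beq 1 2 = false := rfl
    have b20 : Nat.beq 2 0 = false := rfl
    have b21 : Nat.beq 2 1 = false := rfl
    have b22 : Nat.beq 2 2 = true := rfl
    rcases (by omega : r = 0 ∨ r = 1 ∨ r = 2) with rfl | rfl | rfl
    · simp only [oP, oN, cH, sel, if_true, if_false, one_ne_zero, OfNat.ofNat_ne_zero,
        OfNat.ofNat_ne_one, b00, b01, b02, cond_true, cond_false]
      push_cast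
      ring
    · simp only [oP, oN, cH, sel, if_true, if_false, one_ne_zero, zero_ne_one,
        OfNat.ofNat_ne_zero, OfNat.ofNat_ne_one, b10, b11, b12, cond_true, cond_false]
      push_cast
      ring
    · simp only [oP, oN, cH, sel, if_true, if_false, one_ne_zero, OfNat.ofNat_ne_zero,
        OfNat.ofNat_ne_one, Nat.reduceEqDiff, b20, b21, b22, cond_true, cond_false]
      push_cast
      ring
  | en r m =>
    simp only [val, decide_eq_true_eq] at h
    have h2 : ∑ j ∈ Finset.range 12, cO (.en r m) r j * (BB : ℤ) ^ j = (-7) * SW m := by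
      rw [← sum_SW]
      refine Finset.sum_congr rfl fun j _ => ?_
      simp only [cO, if_true]
    have h3 : ∀ g, g ≠ r → ∑ j ∈ Finset.range 12, cO (.en r m) g j * (BB : ℤ) ^ j =
        7 * RAD := by
      intro g hg
      rw [← sum_RAD]
      refine Finset.sum_congr rfl fun j _ => ?_
      simp only [cO, if_neg hg]
    rw [ev_mk]
    rcases (by omega : r = 0 ∨ r = 1 ∨ r = 2) with rfl | rfl | rfl
    · rw [h2, h3 1 (by norm_num), h3 2 (by norm_num)]
      simp only [oP, oN, cH, RAD3]
      push_cast
      ring
    · rw [h2, h3 0 (by norm_num), h3 2 (by norm_num)]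
      simp only [oP, oN, cH, RAD3]
      push_cast
      ring
    · rw [h2, h3 0 (by norm_num), h3 1 (by norm_num)]
      simp only [oP, oN, cH, RAD3]
      push_cast
      ring
  | bp g g' e f =>
    have e1 : cO (Tl.bp g g' e f) = fun _ _ => 0 := rfl
    have e2 : cH (Tl.bp g g' e f) = 0 := rfl
    have e3 : oP (Tl.bp g g' e f) = 0 := rfl
    have e4 : oN (Tl.bp g g' e f) = 0 := rfl
    rw [e1, e2, e3, e4, ev_mk]
    simp only [zero_mul, Finset.sum_const_zero]
    push_cast
    ring

theorem bdd_mk {M : ℤ} {f : ℕ → ℕ → ℤ} {c : ℤ} (hf : ∀ g < 3, ∀ i < 12, |f g i| ≤ M)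
    (hc : |c| ≤ M) : bdd M (mk f c) := by
  constructor
  · simp [mk]
  · intro a ha
    unfold mk at ha
    simp only [List.mem_append, List.mem_map, List.mem_range, List.mem_singleton] at ha
    rcases ha with ⟨i, hi, rfl⟩ | ⟨i, hi, rfl⟩ | ⟨i, hi, rfl⟩ | rfl
    · exact hf 0 (by norm_num) i hi
    · exact hf 1 (by norm_num) i hi
    · exact hf 2 (by norm_num) i hi
    · exact hc

theorem abs_wt (i : ℕ) (hi : i < 12) : 0 ≤ wt i ∧ wt i ≤ 10 := by
  interval_cases i <;> decide

theorem bdd_K (t : Tl) (h : val t = true) : bdd 1000 (mk (cK t) 0) := by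
  refine bdd_mk (fun g _ i _ => ?_) (by norm_num)
  rw [abs_le]
  cases t with
  | gap e r s0 s1 s2 =>
    simp only [val, Bool.and_eq_true, decide_eq_true_eq] at h
    have h1 : (e : ℤ) ≤ 10 := by exact_mod_cast h.1.1.2
    have h2 : (0 : ℤ) ≤ e := Int.natCast_nonneg _
    simp only [cK]
    split_ifs <;> constructor <;> omega
  | en r m =>
    simp only [cK]
    split_ifs <;> constructor <;> omega
  | bp g1 g2 e f =>
    simp only [val, Bool.and_eq_true, decide_eq_true_eq] at h
    have h1 : (f : ℤ) ≤ 10 := by exact_mod_cast h.2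
    have h2 : (0 : ℤ) ≤ f := Int.natCast_nonneg _
    simp only [cK]
    split_ifs <;> constructor <;> omega

theorem bdd_O (t : Tl) (h : val t = true) : bdd 1000 (mk (cO t) (cH t)) := by
  refine bdd_mk (fun g _ i hi => ?_) ?_
  · have hw := abs_wt i hi
    rw [abs_le]
    cases t with
    | gap e r s0 s1 s2 =>
      simp only [val, Bool.and_eq_true, decide_eq_true_eq] at h
      have h1 : (e : ℤ) ≤ 10 := by exact_mod_cast h.1.1.2
      have h2 : (0 : ℤ) ≤ e := Int.natCast_nonneg _
      simp only [cO]
      split_ifs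
      · constructor <;> nlinarith
      · constructor <;> nlinarith
      · constructor <;> norm_num
    | en r m =>
      simp only [cO]
      split_ifs <;> constructor <;> nlinarith
    | bp g1 g2 e f =>
      simp only [cO]
      constructor <;> norm_num
  · rw [abs_le]
    cases t with
    | gap e r s0 s1 s2 =>
      simp only [val, Bool.and_eq_true, decide_eq_true_eq] at h
      have h1 : (e : ℤ) ≤ 10 := by exact_mod_cast h.1.1.2
      have h2 : (0 : ℤ) ≤ e := Int.natCast_nonneg _
      simp only [cH]
      constructor <;> nlinarith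
    | en r m =>
      simp only [cH]
      constructor <;> norm_num
    | bp g1 g2 e f =>
      simp only [cH]
      constructor <;> norm_num

theorem bdd_mono {M N : ℤ} (h : M ≤ N) {c : List ℤ} (hc : bdd M c) : bdd N c :=
  ⟨hc.1, fun a ha => le_trans (hc.2 a ha) h⟩

theorem check_sound (X : List ℝ) (hX : ∀ x ∈ X, 0 ≤ x) (tr : Tr) :
    ∀ cs : Cs, goods X cs → check tr cs = true →
      ∃ t : Tl, val t = true ∧
        dot (mk (cK t) 0) X + max 0 (dot (mk (cO t) (cH t)) X) ≤ 0 := by
  induction tr with
  | leaf n =>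
    intro cs hcs hc
    simp only [check] at hc
    exact (leafc_sound X hX cs n 0 0 0 false [] hcs ⟨by simp, by simp⟩ (by simp [ev])
      (by simp [dot]) (by simp) hc).elim
  | lin t c ih =>
    intro cs hcs hc
    simp only [check, Bool.and_eq_true] at hc
    obtain ⟨⟨hv, hb⟩, hc⟩ := hc
    by_contra hcon
    push Not at hcon
    have h1 := hcon t hv
    have h2 : dot (mk (cO t) (cH t)) X ≤ 0 := by
      cases t with
      | gap => simp [isBp] at hb
      | en => simp [isBp] at hb
      | bp g g' e f =>
        refine dot_nonpos _ X hX ?_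
        have e1 : cO (Tl.bp g g' e f) = fun _ _ => 0 := rfl
        have e2 : cH (Tl.bp g g' e f) = 0 := rfl
        rw [e1, e2]
        decide
    rw [max_eq_left h2, add_zero] at h1
    obtain ⟨t', ht', h3⟩ := ih _ (show goods X (.cons true (kP t) (kN t) cs) from
      ⟨⟨mk (cK t) 0, bdd_mono (by norm_num) (bdd_K t hv), packed_K t hv, h1.le, fun _ => h1⟩,
        hcs⟩) hc
    exact absurd h3 (not_le.2 (hcon t' ht'))
  | split t a b iha ihb =>
    intro cs hcs hc
    simp only [check, Bool.and_eq_true] at hc
    obtain ⟨⟨hv, hca⟩, hcb⟩ := hc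
    by_contra hcon
    push Not at hcon
    have h1 := hcon t hv
    rcases le_total (dot (mk (cO t) (cH t)) X) 0 with h2 | h2
    · rw [max_eq_left h2, add_zero] at h1
      obtain ⟨t', ht', h3⟩ := iha _ (show goods X (.cons true (kP t) (kN t)
          (.cons false (oN t) (oP t) cs)) from
        ⟨⟨mk (cK t) 0, bdd_mono (by norm_num) (bdd_K t hv), packed_K t hv, h1.le, fun _ => h1⟩,
          ⟨negV (mk (cO t) (cH t)), bdd_negV (bdd_mono (by norm_num) (bdd_O t hv)), by
            rw [ev_negV, ← packed_O t hv]; ring, by rw [dot_negV]; linarith,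
            fun h => absurd h (by simp)⟩, hcs⟩) hca
      exact absurd h3 (not_le.2 (hcon t' ht'))
    · rw [max_eq_right h2] at h1
      have hs : dot (addM 1 (mk (cK t) 0) (mk (cO t) (cH t))) X =
          dot (mk (cK t) 0) X + dot (mk (cO t) (cH t)) X := by
        rw [dot_addM]; push_cast; ring
      obtain ⟨t', ht', h3⟩ := ihb _ (show goods X (.cons true (kP t + oP t) (kN t + oN t)
          (.cons false (oP t) (oN t) cs)) from
        ⟨⟨addM 1 (mk (cK t) 0) (mk (cO t) (cH t)),
          bdd_mono (by norm_num) (bdd_addM (k := 1) (by norm_num) (by norm_num)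
            (bdd_K t hv) (bdd_O t hv)), by
            rw [ev_addM, ← packed_K t hv, ← packed_O t hv]; push_cast; ring, by
            rw [hs]; exact h1.le, fun _ => by rw [hs]; exact h1⟩,
          ⟨mk (cO t) (cH t), bdd_mono (by norm_num) (bdd_O t hv), packed_O t hv, h2,
            fun h => absurd h (by simp)⟩, hcs⟩) hcb
      exact absurd h3 (not_le.2 (hcon t' ht'))

end Pool.Agent.AbcF.Cert
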