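import Mathlib
import Pool.Agent.AbcF.Sound

/-! From the classes of exponents to the exponents. -/

namespace Pool.Agent.AbcF.Cert

/-- The class of an exponent. -/
def cl (n : ℕ) : ℕ := if n ≤ 10 then n - 1 else 10

/-- The coordinates of one group. -/
noncomputable def xx (E : ℕ) (a : ℕ → ℝ) (i : ℕ) : ℝ :=
  if i = 11 then ∑ n ∈ Finset.range (E + 1), (if cl n = 10 then (n : ℝ) * a n else 0)
  else ∑ n ∈ Finset.range (E + 1), (if cl n = i then a n else 0)

/-- The set of exponents belonging to a set of classes. -/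
def SS (E s : ℕ) : Finset ℕ := (Finset.range (E + 1)).filter (fun n => bit s (cl n) = true)

theorem cl_lt (n : ℕ) : cl n < 11 := by unfold cl; split_ifs <;> omega

theorem fiber (E : ℕ) (b : ℕ → ℝ) :
    ∑ n ∈ Finset.range (E + 1), b n =
      ∑ i ∈ Finset.range 11, ∑ n ∈ Finset.range (E + 1), (if cl n = i then b n else 0) := by
  rw [Finset.sum_comm]
  refine Finset.sum_congr rfl fun n _ => ?_
  rw [Finset.sum_ite_eq (Finset.range 11) (cl n) (fun _ => b n)]
  rw [if_pos (Finset.mem_range.2 (cl_lt n))]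

theorem xx_nonneg (E : ℕ) {a : ℕ → ℝ} (ha : ∀ n, 0 ≤ a n) (i : ℕ) : 0 ≤ xx E a i := by
  unfold xx
  split_ifs
  · refine Finset.sum_nonneg fun n _ => ?_
    split_ifs
    · exact mul_nonneg (Nat.cast_nonneg _) (ha n)
    · exact le_rfl
  · refine Finset.sum_nonneg fun n _ => ?_
    split_ifs
    · exact ha n
    · exact le_rfl

theorem rad_SS (E s : ℕ) (a : ℕ → ℝ) :
    ∑ n ∈ SS E s, a n = ∑ i ∈ Finset.range 11, (if bit s i = true then xx E a i else 0) := by
  unfold SS
  rw [Finset.sum_filter, fiber]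
  refine Finset.sum_congr rfl fun i hi => ?_
  have hi11 : i ≠ 11 := by have := Finset.mem_range.1 hi; omega
  unfold xx
  rw [if_neg hi11]
  split_ifs with h
  · refine Finset.sum_congr rfl fun n _ => ?_
    split_ifs with h1 h2
    · rfl
    · rw [h1] at h2; exact absurd h h2
    · rfl
  · refine Finset.sum_eq_zero fun n _ => ?_
    split_ifs with h1 h2
    · rw [h1] at h2; exact absurd h2 h
    · rfl
    · rfl

theorem rad_all (E : ℕ) (a : ℕ → ℝ) :
    ∑ n ∈ Finset.range (E + 1), a n = ∑ i ∈ Finset.range 11, xx E a i := by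
  rw [fiber]
  refine Finset.sum_congr rfl fun i hi => ?_
  have hi11 : i ≠ 11 := by have := Finset.mem_range.1 hi; omega
  unfold xx
  rw [if_neg hi11]

theorem size_class (E : ℕ) {a : ℕ → ℝ} (h0 : a 0 = 0) {i : ℕ} (hi : i < 10) :
    ∑ n ∈ Finset.range (E + 1), (if cl n = i then (n : ℝ) * a n else 0) =
      ((i : ℝ) + 1) * xx E a i := by
  have hi11 : i ≠ 11 := by omega
  unfold xx
  rw [if_neg hi11, Finset.mul_sum]
  refine Finset.sum_congr rfl fun n _ => ?_
  split_ifs with h
  · rcases Nat.eq_zero_or_pos n with rfl | hn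
    · rw [h0]; ring
    · have : n = i + 1 := by unfold cl at h; split_ifs at h <;> omega
      rw [this]; push_cast; ring
  · ring

theorem size_SS (E s : ℕ) {a : ℕ → ℝ} (h0 : a 0 = 0) :
    ∑ n ∈ SS E s, (n : ℝ) * a n =
      ∑ i ∈ Finset.range 12, (if bit s i = true then (wt i : ℝ) * xx E a i else 0) := by
  have h1 : ∑ n ∈ SS E s, (n : ℝ) * a n = ∑ i ∈ Finset.range 11,
      (if bit s i = true then ∑ n ∈ Finset.range (E + 1),
        (if cl n = i then (n : ℝ) * a n else 0) else 0) := by
    unfold SS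
    rw [Finset.sum_filter, fiber]
    refine Finset.sum_congr rfl fun i hi => ?_
    split_ifs with h
    · refine Finset.sum_congr rfl fun n _ => ?_
      split_ifs with h1 h2
      · rfl
      · rw [h1] at h2; exact absurd h h2
      · rfl
    · refine Finset.sum_eq_zero fun n _ => ?_
      split_ifs with h1 h2
      · rw [h1] at h2; exact absurd h2 h
      · rfl
      · rfl
  rw [h1, Finset.sum_range_succ, Finset.sum_range_succ _ 11, Finset.sum_range_succ _ 10]
  have h2 : ∑ i ∈ Finset.range 10, (if bit s i = true then ∑ n ∈ Finset.range (E + 1),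
        (if cl n = i then (n : ℝ) * a n else 0) else 0) =
      ∑ i ∈ Finset.range 10, (if bit s i = true then (wt i : ℝ) * xx E a i else 0) := by
    refine Finset.sum_congr rfl fun i hi => ?_
    have hi := Finset.mem_range.1 hi
    rw [size_class E h0 hi]
    have : (wt i : ℝ) = (i : ℝ) + 1 := by unfold wt; rw [if_pos hi]; push_cast; ring
    rw [this]
  rw [h2]
  have h3 : bit s 11 = bit s 10 := rfl
  have h4 : (wt 10 : ℝ) = 0 := by norm_num [wt]
  have h5 : (wt 11 : ℝ) = 1 := by norm_num [wt]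
  rw [h3, h4, h5]
  have h6 : xx E a 11 = ∑ n ∈ Finset.range (E + 1), (if cl n = 10 then (n : ℝ) * a n else 0) := by
    unfold xx; rw [if_pos rfl]
  rw [h6]
  split_ifs <;> ring

theorem bit_full (i : ℕ) (hi : i < 12) : bit 2047 i = true := by
  interval_cases i <;> decide

theorem SS_full (E : ℕ) : SS E 2047 = Finset.range (E + 1) := by
  unfold SS
  rw [Finset.filter_eq_self]
  intro n _
  exact bit_full _ (by have := cl_lt n; omega)

theorem size_all (E : ℕ) {a : ℕ → ℝ} (h0 : a 0 = 0) :
    ∑ n ∈ Finset.range (E + 1), (n : ℝ) * a n =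
      ∑ i ∈ Finset.range 12, (wt i : ℝ) * xx E a i := by
  have := size_SS E 2047 h0
  rw [SS_full] at this
  rw [this]
  refine Finset.sum_congr rfl fun i hi => ?_
  rw [if_pos (bit_full i (Finset.mem_range.1 hi))]

theorem tail_le (E : ℕ) {a : ℕ → ℝ} (ha : ∀ n, 0 ≤ a n) :
    11 * xx E a 10 ≤ xx E a 11 := by
  unfold xx
  rw [if_pos rfl, if_neg (by norm_num), Finset.mul_sum]
  refine Finset.sum_le_sum fun n _ => ?_
  split_ifs with h
  · have : 11 ≤ n := by unfold cl at h; split_ifs at h <;> omega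
    have h2 : (11 : ℝ) ≤ n := by exact_mod_cast this
    exact mul_le_mul_of_nonneg_right h2 (ha n)
  · simp

theorem xx_single (E : ℕ) {a : ℕ → ℝ} (h0 : a 0 = 0) {e : ℕ} (he : 1 ≤ e) (he2 : e ≤ 10)
    (heE : e ≤ E) : xx E a (e - 1) = a e := by
  unfold xx
  rw [if_neg (by omega), Finset.sum_eq_single e]
  · rw [if_pos]
    unfold cl
    rw [if_pos he2]
  · intro n _ hn
    split_ifs with h
    · rcases Nat.eq_zero_or_pos n with rfl | hn0
      · exact h0
      · exfalso
        unfold cl at h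
        split_ifs at h <;> omega
    · rfl
  · intro h
    exact absurd (Finset.mem_range.2 (by omega)) h

theorem xx_zero (E : ℕ) {a : ℕ → ℝ} (h0 : a 0 = 0) {e : ℕ} (he : 1 ≤ e) (he2 : e ≤ 10)
    (heE : E < e) : xx E a (e - 1) = 0 := by
  unfold xx
  rw [if_neg (by omega)]
  refine Finset.sum_eq_zero fun n hn => ?_
  have hn := Finset.mem_range.1 hn
  split_ifs with h
  · rcases Nat.eq_zero_or_pos n with rfl | hn0
    · exact h0
    · exfalso
      unfold cl at h
      split_ifs at h <;> omega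
  · rfl

theorem dot_mk (f : ℕ → ℕ → ℤ) (c : ℤ) (x : ℕ → ℕ → ℝ) (h : ℝ) :
    dot (mk f c) (pt x h) = (∑ i ∈ Finset.range 12, (f 0 i : ℝ) * x 0 i) +
      (∑ i ∈ Finset.range 12, (f 1 i : ℝ) * x 1 i) +
      (∑ i ∈ Finset.range 12, (f 2 i : ℝ) * x 2 i) + (c : ℝ) * h := by
  have key : ∀ (l : List ℕ) (f : ℕ → ℤ) (x : ℕ → ℝ) (c : List ℤ) (X : List ℝ),
      dot (l.map f ++ c) (l.map x ++ X) = (l.map fun i => (f i : ℝ) * x i).sum + dot c X := by
    intro l f x c X
    induction l with
    | nil => simp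
    | cons a l ih =>
      simp only [List.map_cons, List.cons_append, dot, List.sum_cons, ih]
      ring
  have hs : ∀ g : ℕ → ℝ, ((List.range 12).map g).sum = ∑ i ∈ Finset.range 12, g i := by
    intro g
    rw [Finset.sum_range]
    simp [List.range_succ, Fin.sum_univ_succ]
  unfold mk pt
  rw [key, key, key, hs, hs, hs]
  simp only [dot]
  ring

end Pool.Agent.AbcF.Cert
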