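import Mathlib
import Pool.Agent.AbcF.Classes
import Pool.Agent.AbcF.Verify

/-! The constraints of the linear programme. -/

namespace Pool.Agent.AbcF.Cert

/-- The constraint holds. -/
def holds (X : List ℝ) (p : Bool × List ℤ) : Prop :=
  0 ≤ dot p.2 X ∧ (p.1 = true → 0 < dot p.2 X)

/-- The constraints of the linear programme, the last one first. -/
def base : List (Bool × List ℤ) :=
  [(true, mk (fun _ _ => 0) 1),
   (false, mk (fun g i => if i = 11 then 0 else if g = 1 then 1 else if g = 2 then -1 else 0) 0),
   (false, mk (fun g i => if i = 11 then 0 else if g = 0 then 1 else if g = 1 then -1 else 0) 0),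
   (false, mk (fun _ i => if i = 11 then 0 else 50) (-21)),
   (false, mk (fun _ i => if i = 11 then 0 else -1) 1),
   (false, mk (fun g i => if g = 2 then (if i = 11 then 1 else if i = 10 then -11 else 0) else 0) 0),
   (false, mk (fun g i => if g = 1 then (if i = 11 then 1 else if i = 10 then -11 else 0) else 0) 0),
   (false, mk (fun g i => if g = 0 then (if i = 11 then 1 else if i = 10 then -11 else 0) else 0) 0),
   (false, mk (fun g i => if g = 2 then -wt i else 0) 1),
   (false, mk (fun g i => if g = 1 then -wt i else 0) 1),
   (false, mk (fun g i => if g = 0 then -wt i else 0) 1)]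

/-- The packed list belongs to the list. -/
def match2 : List (Bool × List ℤ) → Cs → Bool
  | [], .nil => true
  | (b, v) :: l, .cons b' P N cs => decide (b = b') && (decide (v.length ≤ 37) &&
      (v.all (fun a => decide (|a| ≤ 2048)) && (decide ((P : ℤ) - N = ev v) && match2 l cs)))
  | _, _ => false

theorem match2_sound (X : List ℝ) : ∀ (l : List (Bool × List ℤ)) (cs : Cs),
    match2 l cs = true → (∀ p ∈ l, holds X p) → goods X cs := by
  intro l
  induction l with
  | nil =>
    intro cs h _
    cases cs with
    | nil => trivial
    | cons b P N cs => simp [match2] at h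
  | cons p l ih =>
    obtain ⟨b, v⟩ := p
    intro cs h hl
    cases cs with
    | nil => simp [match2] at h
    | cons b' P N cs =>
      simp only [match2, Bool.and_eq_true, decide_eq_true_eq, List.all_eq_true] at h
      obtain ⟨rfl, h2, h3, h4, h5⟩ := h
      have h6 := hl (b, v) List.mem_cons_self
      exact ⟨⟨v, ⟨h2, h3⟩, h4, h6.1, h6.2⟩, ih cs h5 fun p hp => hl p (List.mem_cons_of_mem _ hp)⟩

theorem match_base : match2 base pbase = true := by decide +kernel

end Pool.Agent.AbcF.Cert
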