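import Mathlib
import Pool.Agent.AbcF.Defs

/-! Module P: elementary facts on the sets `Zs` and the unit part. -/

namespace Pool.Agent.AbcF

open NumberField IsDedekindDomain Pool.Agent.H7.Abc Pool.Agent.AbcE

theorem pt_ord_finite {K : Type*} [Field K] [NumberField K] {y : K} (hy : y ≠ 0) :
    {v : HeightOneSpectrum (𝓞 K) | ord v y ≠ 0}.Finite := by
  refine (finite_support hy).subset ?_
  intro v hv h
  exact hv ((ord_eq_zero_iff v hy).2 h)

theorem pt_Zs_finite {K : Type*} [Field K] [NumberField K] {y : K} (hy : y ≠ 0) (n : ℕ) :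
    {v : HeightOneSpectrum (𝓞 K) | n ≠ 0 ∧ ord v y = n}.Finite := by
  refine (pt_ord_finite hy).subset ?_
  rintro v ⟨h1, h2⟩ h3
  apply h1
  rw [h3] at h2
  exact_mod_cast h2.symm

theorem mem_Zs {K : Type*} [Field K] [NumberField K] {y : K} (hy : y ≠ 0) {n : ℕ} (hn : 1 ≤ n)
    (v : HeightOneSpectrum (𝓞 K)) : v ∈ Zs y n ↔ ord v y = n := by
  unfold Zs
  rw [dif_pos (pt_Zs_finite hy n), Set.Finite.mem_toFinset, Set.mem_ofPred_eq]
  constructor
  · exact fun h => h.2
  · exact fun h => ⟨by omega, h⟩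

theorem Zs_zero {K : Type*} [Field K] [NumberField K] (y : K) : Zs y 0 = ∅ := by
  unfold Zs
  split_ifs with h
  · ext v
    simp
  · rfl

theorem rd_single {K : Type*} [Field K] [NumberField K] {y : K} (hy : y ≠ 0) {n : ℕ}
    (hn : 1 ≤ n) : rd y {n} = LN (Zs y n) := by
  classical
  rw [tc_rd_eq y {n} ((pt_ord_finite hy).toFinset) (by
    intro v hv
    by_contra h
    exact hv ((Set.Finite.mem_toFinset _).2 h))]
  unfold LN
  rw [← Finset.sum_filter]
  apply Finset.sum_congr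
  · ext v
    rw [Finset.mem_filter, Set.Finite.mem_toFinset, Set.mem_ofPred_eq, mem_Zs hy hn,
      Set.mem_singleton_iff]
    constructor
    · rintro ⟨_, h2, h3⟩
      omega
    · intro h
      refine ⟨?_, ?_, ?_⟩ <;> omega
  · intro v _
    rfl

theorem rd_eq_sum {K : Type*} [Field K] [NumberField K] {y : K} (hy : y ≠ 0) (A : Set ℕ)
    [DecidablePred (· ∈ A)] (E : ℕ) (hA : ∀ n ∈ A, 1 ≤ n ∧ n ≤ E) :
    rd y A = ∑ n ∈ Finset.range (E + 1), if n ∈ A then LN (Zs y n) else 0 := by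
  classical
  set F := (pt_ord_finite hy).toFinset with hF
  have hF0 : ∀ v, v ∉ F → ord v y = 0 := by
    intro v hv
    by_contra h
    exact hv ((Set.Finite.mem_toFinset _).2 h)
  rw [tc_rd_eq y A F hF0]
  have h1 : ∀ n ∈ Finset.range (E + 1), (if n ∈ A then LN (Zs y n) else 0)
      = ∑ v ∈ F, if n ∈ A ∧ ord v y = n then ln v else 0 := by
    intro n _
    by_cases hn : n ∈ A
    · rw [if_pos hn, ← rd_single hy (hA n hn).1, tc_rd_eq y {n} F hF0]
      apply Finset.sum_congr rfl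
      intro v _
      have hn1 := (hA n hn).1
      by_cases h2 : ord v y = n
      · rw [if_pos, if_pos ⟨hn, h2⟩]
        rw [Set.mem_singleton_iff]
        constructor <;> omega
      · rw [if_neg, if_neg]
        · rintro ⟨_, h3⟩
          exact h2 h3
        · rw [Set.mem_singleton_iff]
          rintro ⟨h3, h4⟩
          omega
    · rw [if_neg hn]
      symm
      apply Finset.sum_eq_zero
      intro v _
      rw [if_neg (fun h => hn h.1)]
  rw [Finset.sum_congr rfl h1, Finset.sum_comm]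
  apply Finset.sum_congr rfl
  intro v _
  by_cases h2 : 0 < ord v y ∧ (ord v y).toNat ∈ A
  · rw [if_pos h2]
    obtain ⟨h3, h4⟩ := h2
    have h5 := hA _ h4
    rw [Finset.sum_eq_single (ord v y).toNat]
    · rw [if_pos ⟨h4, by omega⟩]
    · intro b _ hb
      rw [if_neg]
      rintro ⟨_, h6⟩
      omega
    · intro h6
      exact absurd (Finset.mem_range.2 (by omega)) h6
  · rw [if_neg h2]
    symm
    apply Finset.sum_eq_zero
    intro n _
    rw [if_neg]
    rintro ⟨h3, h4⟩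
    apply h2
    have h5 := hA _ h3
    have h6 : (ord v y).toNat = n := by omega
    rw [h6]
    exact ⟨by omega, h3⟩

theorem pt_ord_one {K : Type*} [Field K] [NumberField K] (v : HeightOneSpectrum (𝓞 K)) :
    ord v (1 : K) = 0 := by
  rw [ord, map_one, WithZero.log_one, neg_zero]

theorem pt_ord_mul {K : Type*} [Field K] [NumberField K] (v : HeightOneSpectrum (𝓞 K)) {x y : K}
    (hx : x ≠ 0) (hy : y ≠ 0) : ord v (x * y) = ord v x + ord v y := by
  have h := ord_div v hx (inv_ne_zero hy)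
  rw [div_inv_eq_mul, tc_ord_inv v hy] at h
  rw [h]
  ring

theorem pt_ord_pow {K : Type*} [Field K] [NumberField K] (v : HeightOneSpectrum (𝓞 K)) {x : K}
    (hx : x ≠ 0) (n : ℕ) : ord v (x ^ n) = n * ord v x := by
  induction n with
  | zero => rw [pow_zero, pt_ord_one]; simp
  | succ n ih =>
    rw [pow_succ, pt_ord_mul v (pow_ne_zero n hx) hx, ih]
    push_cast
    ring

theorem pt_ord_prod {K : Type*} [Field K] [NumberField K] (v : HeightOneSpectrum (𝓞 K))
    (s : Finset ℕ) (f : ℕ → K) (hf : ∀ n ∈ s, f n ≠ 0) :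
    ord v (∏ n ∈ s, f n) = ∑ n ∈ s, ord v (f n) := by
  classical
  induction s using Finset.induction_on with
  | empty => rw [Finset.prod_empty, Finset.sum_empty, pt_ord_one]
  | insert a s ha ih =>
    rw [Finset.prod_insert ha, Finset.sum_insert ha, pt_ord_mul v, ih]
    · exact fun n hn => hf n (Finset.mem_insert_of_mem hn)
    · exact hf a (Finset.mem_insert_self _ _)
    · exact Finset.prod_ne_zero_iff.2 fun n hn => hf n (Finset.mem_insert_of_mem hn)

/-- The sum of the exponents over the free part. -/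
theorem pt_sum_free (A : Set ℕ) [DecidablePred (· ∈ A)] (E : ℕ) (hA : ∀ n ∈ A, 1 ≤ n ∧ n ≤ E)
    (a : ℤ) : ∑ n ∈ Finset.range (E + 1), (n : ℤ) * (if n ∈ A then (if a = n then 1 else 0) else 0)
      = if 0 < a ∧ a.toNat ∈ A then a else 0 := by
  classical
  by_cases h : 0 < a ∧ a.toNat ∈ A
  · rw [if_pos h, Finset.sum_eq_single a.toNat]
    · rw [if_pos h.2, if_pos (by omega)]
      omega
    · intro b _ hb
      by_cases h1 : b ∈ A
      · rw [if_pos h1, if_neg (by omega), mul_zero]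
      · rw [if_neg h1, mul_zero]
    · intro h1
      have := hA _ h.2
      exact absurd (Finset.mem_range.2 (by omega)) h1
  · rw [if_neg h]
    apply Finset.sum_eq_zero
    intro n _
    by_cases h1 : n ∈ A
    · rw [if_pos h1]
      by_cases h2 : a = n
      · exfalso
        apply h
        have := hA n h1
        have h3 : a.toNat = n := by omega
        rw [h3]
        exact ⟨by omega, h1⟩
      · rw [if_neg h2, mul_zero]
    · rw [if_neg h1, mul_zero]

open Classical in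
theorem unit_part (K : Type*) [Field K] [NumberField K] (T : Tool) (E : ℕ)
    (h0 : ∀ n ∈ T.F0, 1 ≤ n ∧ n ≤ E) (h1 : ∀ n ∈ T.F1, 1 ≤ n ∧ n ≤ E) (y y0 : K) (hy : y ≠ 0)
    (hy0 : y0 ≠ 0) (hk : ∀ v, kf T y v = kf T y0 v) (ξ υ : ℕ → K)
    (hne : ∀ n ∈ Finset.range (E + 1), ξ n ≠ 0 ∧ υ n ≠ 0)
    (hξ : ∀ n ∈ Finset.range (E + 1), ∀ v, ord v (ξ n) = if n ∈ T.F0 then
      (if v ∈ Zs y n then 1 else 0) - (if v ∈ Zs y0 n then 1 else 0) else 0)
    (hυ : ∀ n ∈ Finset.range (E + 1), ∀ v, ord v (υ n) = if n ∈ T.F1 then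
      (if v ∈ Zs y⁻¹ n then 1 else 0) - (if v ∈ Zs y0⁻¹ n then 1 else 0) else 0) :
    ∀ v, ord v (y / (y0 * (∏ n ∈ Finset.range (E + 1), ξ n ^ n) /
      (∏ n ∈ Finset.range (E + 1), υ n ^ n))) = 0 := by
  intro v
  have hX : (∏ n ∈ Finset.range (E + 1), ξ n ^ n) ≠ 0 :=
    Finset.prod_ne_zero_iff.2 fun n hn => pow_ne_zero _ (hne n hn).1
  have hU : (∏ n ∈ Finset.range (E + 1), υ n ^ n) ≠ 0 :=
    Finset.prod_ne_zero_iff.2 fun n hn => pow_ne_zero _ (hne n hn).2
  rw [ord_div v hy (div_ne_zero (mul_ne_zero hy0 hX) hU), ord_div v (mul_ne_zero hy0 hX) hU,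
    pt_ord_mul v hy0 hX, pt_ord_prod v _ _ (fun n hn => pow_ne_zero _ (hne n hn).1),
    pt_ord_prod v _ _ (fun n hn => pow_ne_zero _ (hne n hn).2)]
  have e1 : ∑ n ∈ Finset.range (E + 1), ord v (ξ n ^ n)
      = (if 0 < ord v y ∧ (ord v y).toNat ∈ T.F0 then ord v y else 0)
        - (if 0 < ord v y0 ∧ (ord v y0).toNat ∈ T.F0 then ord v y0 else 0) := by
    rw [← pt_sum_free T.F0 E h0 (ord v y), ← pt_sum_free T.F0 E h0 (ord v y0),
      ← Finset.sum_sub_distrib]
    apply Finset.sum_congr rfl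
    intro n hn
    rw [pt_ord_pow v (hne n hn).1, hξ n hn v]
    by_cases hm : n ∈ T.F0
    · have hn1 := (h0 n hm).1
      simp only [if_pos hm, mem_Zs hy hn1, mem_Zs hy0 hn1]
      ring
    · simp only [if_neg hm]
      ring
  have e2 : ∑ n ∈ Finset.range (E + 1), ord v (υ n ^ n)
      = (if 0 < -ord v y ∧ (-ord v y).toNat ∈ T.F1 then -ord v y else 0)
        - (if 0 < -ord v y0 ∧ (-ord v y0).toNat ∈ T.F1 then -ord v y0 else 0) := by
    rw [← pt_sum_free T.F1 E h1 (-ord v y), ← pt_sum_free T.F1 E h1 (-ord v y0),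
      ← Finset.sum_sub_distrib]
    apply Finset.sum_congr rfl
    intro n hn
    rw [pt_ord_pow v (hne n hn).2, hυ n hn v]
    by_cases hm : n ∈ T.F1
    · have hn1 := (h1 n hm).1
      simp only [if_pos hm, mem_Zs (inv_ne_zero hy) hn1, mem_Zs (inv_ne_zero hy0) hn1,
        tc_ord_inv v hy, tc_ord_inv v hy0]
      ring
    · simp only [if_neg hm]
      ring
  rw [e1, e2]
  have hkv := hk v
  unfold kf at hkv
  have key : ∀ a : ℤ, (if (0 < a ∧ a.toNat ∈ T.F0) ∨ (a < 0 ∧ (-a).toNat ∈ T.F1) then 0 else a)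
      = a - (if 0 < a ∧ a.toNat ∈ T.F0 then a else 0)
        + (if 0 < -a ∧ (-a).toNat ∈ T.F1 then -a else 0) := by
    intro a
    by_cases c1 : 0 < a ∧ a.toNat ∈ T.F0
    · have c2 : ¬ (0 < -a ∧ (-a).toNat ∈ T.F1) := by
        rintro ⟨h, _⟩
        have := c1.1
        omega
      rw [if_pos (Or.inl c1), if_pos c1, if_neg c2]
      ring
    · by_cases c2 : a < 0 ∧ (-a).toNat ∈ T.F1
      · have c3 : 0 < -a ∧ (-a).toNat ∈ T.F1 := ⟨by omega, c2.2⟩
        rw [if_pos (Or.inr c2), if_neg c1, if_pos c3]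
        ring
      · have c3 : ¬ (0 < -a ∧ (-a).toNat ∈ T.F1) := fun h => c2 ⟨by omega, h.2⟩
        rw [if_neg (by tauto), if_neg c1, if_neg c3]
        ring
  rw [key, key] at hkv
  linarith

end Pool.Agent.AbcF
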