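import Mathlib

/-! Module H2: a determinant whose columns are polynomials with bounded coefficients in small
numbers. -/

namespace Pool.Agent.AbcF

lemma dp_sum_ge (S : Finset ℕ) : S.card * (S.card - 1) / 2 ≤ ∑ i ∈ S, i := by
  classical
  generalize hn : S.card = n
  induction n generalizing S with
  | zero => simp
  | succ n ih =>
    have hne : S.Nonempty := Finset.card_pos.mp (by omega)
    set x := S.max' hne with hx
    have hxm : x ∈ S := Finset.max'_mem _ _
    have h1 := ih (S.erase x) (by rw [Finset.card_erase_of_mem hxm, hn]; rfl)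
    have h2 : n ≤ x := by
      have h3 : S ⊆ Finset.range (x + 1) := by
        intro y hy
        rw [Finset.mem_range]
        have := Finset.le_max' S y hy
        omega
      have h4 := Finset.card_le_card h3
      rw [hn, Finset.card_range] at h4
      omega
    rw [← Finset.add_sum_erase S _ hxm]
    have h5 : (n + 1) * (n + 1 - 1) / 2 = n + n * (n - 1) / 2 := by
      rw [← Finset.sum_range_id, ← Finset.sum_range_id, Finset.sum_range_succ]
      ring
    rw [h5]
    omega

lemma dp_inj_sum {ι : Type} [Fintype ι] (κ : ι → ℕ) (h : Function.Injective κ) :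
    Fintype.card ι * (Fintype.card ι - 1) / 2 ≤ ∑ i, κ i := by
  classical
  have h1 := dp_sum_ge (Finset.univ.image κ)
  rw [Finset.card_image_of_injective _ h, Finset.card_univ,
    Finset.sum_image (fun a _ b _ hab => h hab)] at h1
  exact h1

lemma dp_det_bound {ι : Type} [Fintype ι] [DecidableEq ι] (β ρ : ℝ) (hβ : 0 ≤ β) (hρ : 0 ≤ ρ)
    (M : Matrix ι ι ℂ) (w : ι → ℕ) (h : ∀ p m, ‖M p m‖ ≤ β * ρ ^ w m) :
    ‖M.det‖ ≤ (Fintype.card ι).factorial * (β ^ Fintype.card ι * ρ ^ (∑ m, w m)) := by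
  rw [Matrix.det_apply]
  refine (norm_sum_le _ _).trans ?_
  have h1 : ∀ σ ∈ (Finset.univ : Finset (Equiv.Perm ι)),
      ‖Equiv.Perm.sign σ • ∏ i, M (σ i) i‖ ≤ β ^ Fintype.card ι * ρ ^ (∑ m, w m) := by
    intro σ _
    have h2 : ‖Equiv.Perm.sign σ • ∏ i, M (σ i) i‖ = ‖∏ i, M (σ i) i‖ := by
      rcases Int.units_eq_one_or (Equiv.Perm.sign σ) with h | h <;> rw [h] <;> simp
    rw [h2, norm_prod]
    calc ∏ i, ‖M (σ i) i‖ ≤ ∏ i, (β * ρ ^ w i) :=
          Finset.prod_le_prod (fun _ _ => norm_nonneg _) (fun i _ => h _ _)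
      _ = β ^ Fintype.card ι * ρ ^ (∑ m, w m) := by
          rw [Finset.prod_mul_distrib, Finset.prod_pow_eq_pow_sum]
          simp
  refine (Finset.sum_le_card_nsmul _ _ _ h1).trans ?_
  rw [Finset.card_univ, Fintype.card_perm, nsmul_eq_mul]

/-- the entries of the expanded matrices -/
noncomputable def dpEntry {ι : Type} (Dg : ℕ) (c : ι → ℕ → ℂ) (t : ι → ℂ) (E : ι → ι → ℂ) (m : ι)
    (a : Option (Fin Dg)) (p : ι) : ℂ :=
  match a with
  | none => E p m
  | some k => c m k * t p ^ (k : ℕ)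

lemma dp_term {ι : Type} [Fintype ι] [DecidableEq ι] (Dg : ℕ) (β ρ : ℝ) (hβ : 1 ≤ β)
    (hρ : 0 < ρ) (hρ1 : ρ ≤ 1) (c : ι → ℕ → ℂ) (t : ι → ℂ) (E : ι → ι → ℂ)
    (hc : ∀ m k, ‖c m k‖ ≤ β) (ht : ∀ p, ‖t p‖ ≤ ρ)
    (hE : ∀ p m, ‖E p m‖ ≤ β * ρ ^ (Fintype.card ι * (Fintype.card ι - 1) / 2))
    (κ : ι → Option (Fin Dg)) :
    ‖Matrix.det (Matrix.of fun p m : ι => dpEntry Dg c t E m (κ m) p)‖ ≤
      (Fintype.card ι).factorial * (β ^ Fintype.card ι *
        ρ ^ (Fintype.card ι * (Fintype.card ι - 1) / 2)) := by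
  classical
  set M := Fintype.card ι * (Fintype.card ι - 1) / 2 with hM
  set w : ι → ℕ := fun m => match κ m with
    | none => M
    | some k => (k : ℕ) with hw
  have hβ0 : 0 ≤ β := by linarith
  have hent : ∀ p m, ‖(Matrix.of fun p m : ι => dpEntry Dg c t E m (κ m) p) p m‖
      ≤ β * ρ ^ w m := by
    intro p m
    rw [Matrix.of_apply, hw]
    simp only
    unfold dpEntry
    cases h : κ m with
    | none => exact hE p m
    | some k =>
      simp only
      rw [norm_mul, norm_pow]
      exact mul_le_mul (hc _ _) (pow_le_pow_left₀ (norm_nonneg _) (ht p) _)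
        (pow_nonneg (norm_nonneg _) _) hβ0
  have hmain := dp_det_bound β ρ hβ0 hρ.le _ w hent
  by_cases hge : M ≤ ∑ m, w m
  · refine hmain.trans ?_
    have : ρ ^ (∑ m, w m) ≤ ρ ^ M := pow_le_pow_of_le_one hρ.le hρ1 hge
    gcongr
  · -- two columns are proportional
    have hsome : ∀ m, ∃ k, κ m = some k := by
      intro m
      cases h : κ m with
      | some k => exact ⟨k, rfl⟩
      | none =>
        exfalso
        apply hge
        have : w m = M := by rw [hw]; simp only [h]
        rw [← this]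
        exact Finset.single_le_sum (fun _ _ => Nat.zero_le _) (Finset.mem_univ m)
    choose k hk using hsome
    have hwk : ∀ m, w m = (k m : ℕ) := by
      intro m
      rw [hw]
      simp only [hk]
    have hninj : ¬ Function.Injective (fun m => (k m : ℕ)) := by
      intro hinj
      apply hge
      have := dp_inj_sum _ hinj
      rw [hM]
      refine this.trans (le_of_eq ?_)
      exact Finset.sum_congr rfl (fun m _ => (hwk m).symm)
    rw [Function.not_injective_iff] at hninj
    obtain ⟨m1, m2, h12, hne⟩ := hninj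
    have hz : Matrix.det (Matrix.of fun p m : ι => dpEntry Dg c t E m (κ m) p) = 0 := by
      have : (Matrix.of fun p m : ι => dpEntry Dg c t E m (κ m) p)
          = Matrix.of fun p m => (c m (k m)) * (Matrix.of fun p m : ι => t p ^ (k m : ℕ)) p m := by
        ext p m
        simp only [Matrix.of_apply, dpEntry, hk]
      rw [this, Matrix.det_mul_row, Matrix.det_zero_of_column_eq hne, mul_zero]
      intro p
      simp only [Matrix.of_apply, h12]
    rw [hz, norm_zero]
    positivity

theorem det_poly (s : ℕ) (Dg : ℕ) (B : ℝ) :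
    ∃ C : ℝ, 0 < C ∧ ∀ (ι : Type) [Fintype ι] [DecidableEq ι] (ρ : ℝ) (c : ι → ℕ → ℂ)
      (t : ι → ℂ) (E : ι → ι → ℂ), Fintype.card ι = s → 0 < ρ → ρ ≤ 1 →
      (∀ m k, ‖c m k‖ ≤ B) → (∀ p, ‖t p‖ ≤ ρ) →
      (∀ p m, ‖E p m‖ ≤ B * ρ ^ (s * (s - 1) / 2)) →
        ‖Matrix.det (Matrix.of fun p m : ι =>
          (∑ k ∈ Finset.range Dg, c m k * t p ^ k) + E p m)‖ ≤ C * ρ ^ (s * (s - 1) / 2) := by
  classical
  set β : ℝ := |B| + 1 with hβ
  have hβ1 : 1 ≤ β := by
    have := abs_nonneg B
    linarith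
  have hBβ : B ≤ β := by
    have := le_abs_self B
    linarith
  refine ⟨(Dg + 1 : ℝ) ^ s * ((s.factorial : ℝ) * β ^ s), by positivity, ?_⟩
  intro ι _ _ ρ c t E hs hρ hρ1 hc ht hE
  subst hs
  have hdet : Matrix.det (Matrix.of fun p m : ι =>
      (∑ k ∈ Finset.range Dg, c m k * t p ^ k) + E p m)
      = ∑ κ : ι → Option (Fin Dg),
        Matrix.det (Matrix.of fun p m : ι => dpEntry Dg c t E m (κ m) p) := by
    rw [← Matrix.det_transpose]
    have h1 : (Matrix.of fun p m : ι =>
        (∑ k ∈ Finset.range Dg, c m k * t p ^ k) + E p m).transpose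
        = fun m => ∑ a : Option (Fin Dg), dpEntry Dg c t E m a := by
      ext m p
      rw [Matrix.transpose_apply, Matrix.of_apply, Finset.sum_apply, Fintype.sum_option]
      simp only [dpEntry]
      rw [add_comm, Finset.sum_range]
    rw [h1]
    have h2 := (Matrix.detRowAlternating (n := ι) (R := ℂ)).toMultilinearMap.map_sum
      (fun m (a : Option (Fin Dg)) => dpEntry Dg c t E m a)
    refine Eq.trans h2 ?_
    apply Finset.sum_congr rfl
    intro κ _
    rw [← Matrix.det_transpose]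
    rfl
  rw [hdet]
  refine (norm_sum_le _ _).trans ?_
  have hterm : ∀ κ ∈ (Finset.univ : Finset (ι → Option (Fin Dg))),
      ‖Matrix.det (Matrix.of fun p m : ι => dpEntry Dg c t E m (κ m) p)‖ ≤
      (Fintype.card ι).factorial * (β ^ Fintype.card ι *
        ρ ^ (Fintype.card ι * (Fintype.card ι - 1) / 2)) := by
    intro κ _
    apply dp_term Dg β ρ hβ1 hρ hρ1 c t E (fun m k => (hc m k).trans hBβ) ht _ κ
    intro p m
    refine (hE p m).trans ?_
    have : (0 : ℝ) ≤ ρ ^ (Fintype.card ι * (Fintype.card ι - 1) / 2) := by positivity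
    exact mul_le_mul_of_nonneg_right hBβ this
  refine (Finset.sum_le_card_nsmul _ _ _ hterm).trans (le_of_eq ?_)
  rw [Finset.card_univ, Fintype.card_fun, Fintype.card_option, Fintype.card_fin, nsmul_eq_mul]
  push_cast
  ring

end Pool.Agent.AbcF
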