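import Mathlib

/-!
Approximation of a `g`-th root of `1 + u` near `1` by a polynomial in `u`.
-/

namespace Pool.Agent.AbcF

open Polynomial

theorem root_poly_formal (g : ℕ) (hg : 1 ≤ g) (M : ℕ) :
    ∃ T R : Polynomial ℂ, T.coeff 0 = 1 ∧ T ^ g = 1 + X + X ^ (M + 1) * R := by
  induction M with
  | zero => exact ⟨1, -1, by simp, by simp⟩
  | succ M ih =>
    obtain ⟨T, R, hT, hR⟩ := ih
    have hg0 : (g : ℂ) ≠ 0 := by
      have : g ≠ 0 := by omega
      exact_mod_cast this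
    set Y : Polynomial ℂ := -(C (R.coeff 0 / g) * X ^ (M + 1)) with hY
    obtain ⟨Q, hQ⟩ := Polynomial.powAddExpansion T Y g
    have h0 : (R - (g : Polynomial ℂ) * T ^ (g - 1) * C (R.coeff 0 / g) +
        Q * (C (R.coeff 0 / g)) ^ 2 * X ^ (M + 1)).coeff 0 = 0 := by
      have hT' : (T ^ (g - 1)).coeff 0 = 1 := by
        rw [Polynomial.coeff_zero_eq_eval_zero, Polynomial.eval_pow,
          ← Polynomial.coeff_zero_eq_eval_zero, hT, one_pow]
      simp only [Polynomial.coeff_add, Polynomial.coeff_sub, Polynomial.mul_coeff_zero, hT']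
      have h1 : ((X : Polynomial ℂ) ^ (M + 1)).coeff 0 = 0 := by simp
      have h2 : ((g : Polynomial ℂ)).coeff 0 = (g : ℂ) := by simp
      rw [h1, h2]
      simp only [Polynomial.coeff_C_zero, mul_zero, add_zero, mul_one]
      field_simp
      ring
    obtain ⟨R', hR'⟩ := Polynomial.X_dvd_iff.2 h0
    refine ⟨T + Y, R', ?_, ?_⟩
    · simp [hY, hT]
    · rw [hQ, hR]
      have : 1 + X + X ^ (M + 1) * R + (g : Polynomial ℂ) * T ^ (g - 1) * Y + Q * Y ^ 2 =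
          1 + X + X ^ (M + 1) * (R - (g : Polynomial ℂ) * T ^ (g - 1) * C (R.coeff 0 / g) +
            Q * (C (R.coeff 0 / g)) ^ 2 * X ^ (M + 1)) := by
        rw [hY]; ring
      rw [this, hR']
      ring

theorem root_poly (g M : ℕ) (hg : 1 ≤ g) :
    ∃ (T : Polynomial ℂ) (C r : ℝ), 0 < C ∧ 0 < r ∧ ∀ z u : ℂ, z ^ g = 1 + u →
      ‖z - 1‖ ≤ r → ‖u‖ ≤ r → ‖z - T.eval u‖ ≤ C * ‖u‖ ^ M := by
  obtain ⟨T, R, hT, hR⟩ := root_poly_formal g hg M
  have hT0 : T.eval 0 = 1 := by rw [← Polynomial.coeff_zero_eq_eval_zero, hT]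
  -- the sum
  have hc : Filter.Tendsto (fun p : ℂ × ℂ => ∑ i ∈ Finset.range g, p.1 ^ i * p.2 ^ (g - 1 - i))
      (nhds (1, 1)) (nhds (g : ℂ)) := by
    have hcont : Continuous
        (fun p : ℂ × ℂ => ∑ i ∈ Finset.range g, p.1 ^ i * p.2 ^ (g - 1 - i)) := by
      fun_prop
    have := hcont.tendsto (1, 1)
    simpa using this
  have hS : ∀ᶠ p : ℂ × ℂ in nhds (1, 1),
      ‖(∑ i ∈ Finset.range g, p.1 ^ i * p.2 ^ (g - 1 - i)) - (g : ℂ)‖ < 1 / 2 := by
    have h := hc.eventually (Metric.ball_mem_nhds (g : ℂ) (by norm_num : (0 : ℝ) < 1 / 2))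
    filter_upwards [h] with p hp
    rw [← dist_eq_norm]
    exact hp
  obtain ⟨r0, hr0, hS0⟩ := Metric.eventually_nhds_iff.1 hS
  have hTu : ∀ᶠ u : ℂ in nhds 0, ‖T.eval u - 1‖ < r0 := by
    have h1 : Filter.Tendsto (fun u : ℂ => T.eval u) (nhds 0) (nhds 1) := by
      have := T.continuous.tendsto (0 : ℂ)
      rwa [hT0] at this
    have h := h1.eventually (Metric.ball_mem_nhds (1 : ℂ) hr0)
    filter_upwards [h] with u hu
    rw [← dist_eq_norm]
    exact hu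
  have hRu : ∀ᶠ u : ℂ in nhds 0, ‖R.eval u‖ < ‖R.eval 0‖ + 1 := by
    have h1 : Filter.Tendsto (fun u : ℂ => ‖R.eval u‖) (nhds 0) (nhds ‖R.eval 0‖) :=
      (R.continuous.norm).tendsto (0 : ℂ)
    exact h1.eventually (gt_mem_nhds (lt_add_one _))
  obtain ⟨r1, hr1, h1⟩ := Metric.eventually_nhds_iff.1 (hTu.and hRu)
  set r : ℝ := min (min (r0 / 2) (r1 / 2)) 1 with hr
  have hrpos : 0 < r := by
    rw [hr]; positivity
  set B : ℝ := ‖R.eval 0‖ + 1 with hB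
  have hBpos : 0 < B := by positivity
  refine ⟨T, 2 * B, r, by positivity, hrpos, ?_⟩
  intro z u hz hz1 hu
  have hra : r ≤ r0 / 2 := le_trans (min_le_left _ _) (min_le_left _ _)
  have hrb : r ≤ r1 / 2 := le_trans (min_le_left _ _) (min_le_right _ _)
  have hrc : r ≤ 1 := min_le_right _ _
  have hu1 : dist u 0 < r1 := by
    rw [dist_zero_right]; linarith
  obtain ⟨hw, hRb⟩ := h1 hu1
  set w : ℂ := T.eval u with hwdef
  have hpq : dist ((z, w) : ℂ × ℂ) (1, 1) < r0 := by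
    rw [Prod.dist_eq, max_lt_iff]
    refine ⟨?_, ?_⟩
    · simp only; rw [dist_eq_norm]; linarith
    · simp only; rw [dist_eq_norm]; exact hw
  have hS1 := hS0 hpq
  simp only at hS1
  set S : ℂ := ∑ i ∈ Finset.range g, z ^ i * w ^ (g - 1 - i) with hSdef
  have hgn : (1 : ℝ) ≤ ‖(g : ℂ)‖ := by
    rw [Complex.norm_natCast]
    exact_mod_cast hg
  have hSn : 1 / 2 ≤ ‖S‖ := by
    have := norm_sub_norm_le (g : ℂ) ((g : ℂ) - S)
    have h2 : (g : ℂ) - ((g : ℂ) - S) = S := by ring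
    rw [h2] at this
    have h3 : ‖(g : ℂ) - S‖ < 1 / 2 := by
      rw [norm_sub_rev]; exact hS1
    linarith
  have hmul : S * (z - w) = z ^ g - w ^ g := by
    rw [hSdef]
    exact (Commute.all z w).geom_sum₂_mul g
  have hwg : w ^ g = 1 + u + u ^ (M + 1) * R.eval u := by
    rw [hwdef, ← Polynomial.eval_pow, hR]
    simp
  have hdiff : z ^ g - w ^ g = -(u ^ (M + 1) * R.eval u) := by
    rw [hz, hwg]; ring
  have hn : ‖S‖ * ‖z - w‖ = ‖u‖ ^ (M + 1) * ‖R.eval u‖ := by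
    rw [← norm_mul, hmul, hdiff, norm_neg, norm_mul, norm_pow]
  have hu_le : ‖u‖ ≤ 1 := le_trans hu hrc
  have h5 : ‖u‖ ^ (M + 1) * ‖R.eval u‖ ≤ ‖u‖ ^ M * B := by
    rw [pow_succ]
    have : ‖u‖ ^ M * ‖u‖ ≤ ‖u‖ ^ M * 1 := by
      apply mul_le_mul_of_nonneg_left hu_le (by positivity)
    calc ‖u‖ ^ M * ‖u‖ * ‖R.eval u‖ ≤ ‖u‖ ^ M * 1 * B := by
          apply mul_le_mul this hRb.le (norm_nonneg _) (by positivity)
      _ = ‖u‖ ^ M * B := by ring
  have h6 : 1 / 2 * ‖z - w‖ ≤ ‖S‖ * ‖z - w‖ :=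
    mul_le_mul_of_nonneg_right hSn (norm_nonneg _)
  nlinarith [norm_nonneg (z - w)]

end Pool.Agent.AbcF
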