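import Mathlib
import Pool.Agent.AbcF.Defs
import Pool.Agent.AbcF.RootPoly
import Pool.Agent.AbcF.DetPoly

/-!
The generalised Vandermonde determinant of the monomials `x ^ i * y ^ j` at points of the curve
`y ^ f = A * x ^ e + B'` which are close to each other is small.
-/

namespace Pool.Agent.AbcF

open Polynomial

/-- The degrees and the coefficients of a family of polynomials are bounded on a set of
parameters. -/
def DetUB {π : Type*} (Θ : Set π) (P : π → ℂ[X]) : Prop :=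
  ∃ (D : ℕ) (b : ℝ), 0 ≤ b ∧ ∀ θ ∈ Θ, (P θ).natDegree ≤ D ∧ ∀ k, ‖(P θ).coeff k‖ ≤ b

namespace DetUB

variable {π : Type*} {Θ : Set π} {P Q : π → ℂ[X]}

theorem const {c : π → ℂ} {b : ℝ} (hb : 0 ≤ b) (hc : ∀ θ ∈ Θ, ‖c θ‖ ≤ b) :
    DetUB Θ (fun θ => C (c θ)) := by
  refine ⟨0, b, hb, fun θ hθ => ⟨by simp, fun k => ?_⟩⟩
  rw [coeff_C]
  split_ifs
  · exact hc θ hθ
  · simpa using hb

theorem var : DetUB Θ (fun _ => X) := by
  refine ⟨1, 1, zero_le_one, fun θ _ => ⟨natDegree_X_le, fun k => ?_⟩⟩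
  rw [coeff_X]
  split_ifs <;> simp

theorem add (hP : DetUB Θ P) (hQ : DetUB Θ Q) : DetUB Θ (fun θ => P θ + Q θ) := by
  obtain ⟨D1, b1, hb1, h1⟩ := hP
  obtain ⟨D2, b2, hb2, h2⟩ := hQ
  refine ⟨max D1 D2, b1 + b2, by positivity, fun θ hθ => ⟨?_, fun k => ?_⟩⟩
  · exact (natDegree_add_le _ _).trans (max_le_max (h1 θ hθ).1 (h2 θ hθ).1)
  · rw [coeff_add]
    exact (norm_add_le _ _).trans (add_le_add ((h1 θ hθ).2 k) ((h2 θ hθ).2 k))

theorem mul (hP : DetUB Θ P) (hQ : DetUB Θ Q) : DetUB Θ (fun θ => P θ * Q θ) := by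
  obtain ⟨D1, b1, hb1, h1⟩ := hP
  obtain ⟨D2, b2, hb2, h2⟩ := hQ
  refine ⟨D1 + D2, ((D1 : ℝ) + D2 + 1) * (b1 * b2), by positivity,
    fun θ hθ => ⟨?_, fun k => ?_⟩⟩
  · exact natDegree_mul_le.trans (add_le_add (h1 θ hθ).1 (h2 θ hθ).1)
  · by_cases hk : k ≤ D1 + D2
    · rw [coeff_mul]
      refine (norm_sum_le _ _).trans ?_
      refine (Finset.sum_le_card_nsmul _ _ (b1 * b2) (fun x _ => ?_)).trans ?_
      · rw [norm_mul]
        exact mul_le_mul ((h1 θ hθ).2 _) ((h2 θ hθ).2 _) (norm_nonneg _) hb1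
      · rw [Finset.Nat.card_antidiagonal, nsmul_eq_mul]
        have h3 : ((k + 1 : ℕ) : ℝ) ≤ (D1 : ℝ) + D2 + 1 := by
          push_cast
          have : (k : ℝ) ≤ D1 + D2 := by exact_mod_cast hk
          linarith
        exact mul_le_mul_of_nonneg_right h3 (by positivity)
    · rw [coeff_eq_zero_of_natDegree_lt]
      · rw [norm_zero]
        positivity
      · exact lt_of_le_of_lt (natDegree_mul_le.trans (add_le_add (h1 θ hθ).1 (h2 θ hθ).1))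
          (not_le.mp hk)

theorem pow (hP : DetUB Θ P) (n : ℕ) : DetUB Θ (fun θ => P θ ^ n) := by
  induction n with
  | zero =>
    have h := const (Θ := Θ) (c := fun _ => (1 : ℂ)) zero_le_one (fun θ _ => by simp)
    simpa using h
  | succ n ih =>
    simp only [pow_succ]
    exact ih.mul hP

theorem sum {ι : Type*} (s : Finset ι) {P : ι → π → ℂ[X]} (h : ∀ i ∈ s, DetUB Θ (P i)) :
    DetUB Θ (fun θ => ∑ i ∈ s, P i θ) := by
  classical
  induction s using Finset.induction_on with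
  | empty =>
    have h := const (Θ := Θ) (c := fun _ => (0 : ℂ)) (le_refl (0 : ℝ)) (fun θ _ => by simp)
    simpa using h
  | insert a s ha ih =>
    simp only [Finset.sum_insert ha]
    exact (h a (Finset.mem_insert_self _ _)).add
      (ih fun i hi => h i (Finset.mem_insert_of_mem hi))

theorem comp (T : ℂ[X]) (hP : DetUB Θ P) : DetUB Θ (fun θ => T.comp (P θ)) := by
  have h : (fun θ => T.comp (P θ)) =
      fun θ => ∑ k ∈ Finset.range (T.natDegree + 1), C (T.coeff k) * P θ ^ k := by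
    funext θ
    rw [Polynomial.comp, eval₂_eq_sum_range]
  rw [h]
  exact sum _ fun k _ => (const (norm_nonneg (T.coeff k)) fun _ _ => le_rfl).mul (hP.pow k)

end DetUB

theorem ds_pow_sub_le (n : ℕ) {R : ℝ} (hR : 1 ≤ R) {x y : ℂ} (hx : ‖x‖ ≤ R) (hy : ‖y‖ ≤ R) :
    ‖x ^ n - y ^ n‖ ≤ n * R ^ n * ‖x - y‖ := by
  induction n with
  | zero => simp
  | succ n ih =>
    have h1 : x ^ (n + 1) - y ^ (n + 1) = x ^ n * (x - y) + (x ^ n - y ^ n) * y := by ring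
    rw [h1]
    refine (norm_add_le _ _).trans ?_
    rw [norm_mul, norm_mul, norm_pow]
    have hR0 : 0 ≤ R := zero_le_one.trans hR
    have h2 : ‖x‖ ^ n ≤ R ^ n := pow_le_pow_left₀ (norm_nonneg _) hx n
    have h3 : R ^ n ≤ R ^ (n + 1) := pow_le_pow_right₀ hR (Nat.le_succ n)
    have h4 : ‖x‖ ^ n * ‖x - y‖ ≤ R ^ (n + 1) * ‖x - y‖ :=
      mul_le_mul_of_nonneg_right (h2.trans h3) (norm_nonneg _)
    have h5 : ‖x ^ n - y ^ n‖ * ‖y‖ ≤ (n * R ^ n * ‖x - y‖) * R :=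
      mul_le_mul ih hy (norm_nonneg _) (by positivity)
    calc _ ≤ R ^ (n + 1) * ‖x - y‖ + (n * R ^ n * ‖x - y‖) * R := add_le_add h4 h5
      _ = ((n + 1 : ℕ) : ℝ) * R ^ (n + 1) * ‖x - y‖ := by push_cast; ring

/-- The trivial bound of the determinant. -/
theorem ds_trivial (ι : Type) [Fintype ι] [DecidableEq ι] (i j : ι → ℕ) {R : ℝ} (hR : 1 ≤ R)
    (a b : ι → ℂ) (ha : ∀ p, ‖a p‖ ≤ R) (hb : ∀ p, ‖b p‖ ≤ R) :
    ‖Matrix.det (Matrix.of fun p m : ι => a p ^ i m * b p ^ j m)‖ ≤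
      (Fintype.card (Equiv.Perm ι) : ℝ) * ∏ m, (R ^ i m * R ^ j m) := by
  have hR0 : 0 ≤ R := zero_le_one.trans hR
  rw [Matrix.det_apply]
  refine (norm_sum_le _ _).trans ?_
  refine (Finset.sum_le_card_nsmul _ _ (∏ m, (R ^ i m * R ^ j m)) (fun σ _ => ?_)).trans ?_
  · have h1 : ‖Equiv.Perm.sign σ • ∏ m, Matrix.of (fun p m : ι => a p ^ i m * b p ^ j m) (σ m) m‖
        = ‖∏ m, (a (σ m) ^ i m * b (σ m) ^ j m)‖ := by
      rcases Int.units_eq_one_or (Equiv.Perm.sign σ) with h | h <;> simp [h, Matrix.of_apply]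
    rw [h1, norm_prod]
    refine Finset.prod_le_prod (fun m _ => norm_nonneg _) (fun m _ => ?_)
    rw [norm_mul, norm_pow, norm_pow]
    exact mul_le_mul (pow_le_pow_left₀ (norm_nonneg _) (ha _) _)
      (pow_le_pow_left₀ (norm_nonneg _) (hb _) _) (by positivity) (by positivity)
  · rw [Finset.card_univ, nsmul_eq_mul]

/-- The polynomial `α * ((X + x0) ^ h - x0 ^ h) / y0 ^ g`. -/
noncomputable def dsU (g h : ℕ) (θ : ℂ × ℂ × ℂ) : ℂ[X] :=
  C (θ.2.2 * (θ.2.1 ^ g)⁻¹) * ((X + C θ.1) ^ h + C (-(θ.1 ^ h)))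

/-- The polynomial approximation of the entry with exponents `i`, `j`. -/
noncomputable def dsPhi (T : ℂ[X]) (g h i j : ℕ) (θ : ℂ × ℂ × ℂ) : ℂ[X] :=
  (X + C θ.1) ^ i * (C θ.2.1 * T.comp (dsU g h θ)) ^ j

/-- The set of the parameters `(x0, y0, α)`. -/
def dsTh (R : ℝ) : Set (ℂ × ℂ × ℂ) :=
  {θ | ‖θ.1‖ ≤ R ∧ R⁻¹ ≤ ‖θ.2.1‖ ∧ ‖θ.2.1‖ ≤ R ∧ ‖θ.2.2‖ ≤ 1}

theorem dsPhi_ub (T : ℂ[X]) (g h i j : ℕ) {R : ℝ} (hR : 1 ≤ R) :
    DetUB (dsTh R) (dsPhi T g h i j) := by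
  have hR0 : 0 < R := zero_lt_one.trans_le hR
  have h1 : DetUB (dsTh R) (fun θ => X + C θ.1) :=
    DetUB.var.add (DetUB.const (c := fun θ : ℂ × ℂ × ℂ => θ.1) hR0.le fun θ hθ => hθ.1)
  have h2 : DetUB (dsTh R) (fun θ => C (-(θ.1 ^ h))) := by
    refine DetUB.const (c := fun θ : ℂ × ℂ × ℂ => -(θ.1 ^ h)) (b := R ^ h) (by positivity) fun θ hθ => ?_
    rw [norm_neg, norm_pow]
    exact pow_le_pow_left₀ (norm_nonneg _) hθ.1 _
  have h3 : DetUB (dsTh R) (fun θ => C (θ.2.2 * (θ.2.1 ^ g)⁻¹)) := by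
    refine DetUB.const (c := fun θ : ℂ × ℂ × ℂ => θ.2.2 * (θ.2.1 ^ g)⁻¹) (b := R ^ g)
      (by positivity) fun θ hθ => ?_
    rw [norm_mul, norm_inv, norm_pow]
    have h4 : (‖θ.2.1‖ ^ g)⁻¹ ≤ R ^ g := by
      rw [← inv_pow]
      refine pow_le_pow_left₀ (by positivity) ?_ _
      exact inv_le_of_inv_le₀ hR0 hθ.2.1
    calc ‖θ.2.2‖ * (‖θ.2.1‖ ^ g)⁻¹ ≤ 1 * R ^ g :=
          mul_le_mul hθ.2.2.2 h4 (by positivity) zero_le_one
      _ = R ^ g := one_mul _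
  have h5 : DetUB (dsTh R) (fun θ => C θ.2.1) :=
    DetUB.const (c := fun θ : ℂ × ℂ × ℂ => θ.2.1) hR0.le fun θ hθ => hθ.2.2.1
  exact (h1.pow i).mul ((h5.mul (DetUB.comp T (h3.mul ((h1.pow h).add h2)))).pow j)

theorem dsU_eval (g h : ℕ) (θ : ℂ × ℂ × ℂ) (t : ℂ) :
    (dsU g h θ).eval t = θ.2.2 * (θ.2.1 ^ g)⁻¹ * ((t + θ.1) ^ h - θ.1 ^ h) := by
  simp [dsU, sub_eq_add_neg]

theorem dsPhi_eval (T : ℂ[X]) (g h i j : ℕ) (θ : ℂ × ℂ × ℂ) (t : ℂ) :
    (dsPhi T g h i j θ).eval t =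
      (t + θ.1) ^ i * (θ.2.1 * T.eval ((dsU g h θ).eval t)) ^ j := by
  simp [dsPhi, eval_comp]

theorem det_core (ι : Type) [Fintype ι] [DecidableEq ι] (i j : ι → ℕ) (g h : ℕ) (hg : 1 ≤ g)
    (B : ℝ) :
    ∃ C r : ℝ, 0 < C ∧ 0 < r ∧ ∀ (ρ : ℝ) (α β : ℂ) (a b : ι → ℂ), 0 < ρ → ρ ≤ 1 →
      (∀ p, Real.exp (-B) ≤ ‖a p‖ ∧ ‖a p‖ ≤ Real.exp B ∧
        Real.exp (-B) ≤ ‖b p‖ ∧ ‖b p‖ ≤ Real.exp B) →
      (∀ p, b p ^ g = α * a p ^ h + β) → ‖α‖ ≤ 1 →
      (∀ p q, ‖a p - a q‖ ≤ ρ ∧ ‖b p - b q‖ ≤ r) →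
      ‖Matrix.det (Matrix.of fun p m : ι => a p ^ i m * b p ^ j m)‖ ≤
        C * ρ ^ (Fintype.card ι * (Fintype.card ι - 1) / 2) := by
  set s := Fintype.card ι with hs
  set M := s * (s - 1) / 2 with hM
  obtain ⟨R, hRdef⟩ : ∃ R : ℝ, R = Real.exp |B| := ⟨_, rfl⟩
  have hR : 1 ≤ R := by rw [hRdef]; exact Real.one_le_exp (abs_nonneg B)
  have hR0 : 0 < R := zero_lt_one.trans_le hR
  have hRu : Real.exp B ≤ R := by rw [hRdef]; exact Real.exp_le_exp.mpr (le_abs_self B)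
  have hRl : R⁻¹ ≤ Real.exp (-B) := by
    rw [hRdef, ← Real.exp_neg]
    exact Real.exp_le_exp.mpr (neg_le_neg (le_abs_self B))
  obtain ⟨T, C0, r0, hC0, hr0, hT⟩ := root_poly g M hg
  obtain ⟨C1, hC1def⟩ : ∃ C1 : ℝ, C1 = h * R ^ h * R ^ g + 1 := ⟨_, rfl⟩
  have hC1 : 0 < C1 := by rw [hC1def]; positivity
  choose D b0 hb0 hDb using fun m : ι => dsPhi_ub T g h (i m) (j m) hR
  obtain ⟨K, hK⟩ : ∃ K : ℝ, K = R * C0 * C1 ^ M := ⟨_, rfl⟩
  have hK0 : 0 < K := by rw [hK]; positivity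
  obtain ⟨bE, hbE⟩ : ∃ bE : ι → ℝ, bE = fun m => R ^ i m * ((j m) * (R + K) ^ j m * K) :=
    ⟨_, rfl⟩
  have hbE0 : ∀ m, 0 ≤ bE m := fun m => by rw [hbE]; positivity
  obtain ⟨C3, hC3, hdet⟩ := det_poly s (∑ m, D m + 1) (∑ m, (b0 m + bE m))
  obtain ⟨D0, hD0⟩ : ∃ D0 : ℝ,
      D0 = (Fintype.card (Equiv.Perm ι) : ℝ) * ∏ m, (R ^ i m * R ^ j m) := ⟨_, rfl⟩
  have hD00 : 0 ≤ D0 := by rw [hD0]; positivity
  refine ⟨C3 + D0 * (C1 / r0) ^ M + 1, r0 * R⁻¹, by positivity, by positivity, ?_⟩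
  intro ρ α β a b hρ hρ1 hab hcurve hα hclose
  have hρM : 0 < ρ ^ M := by positivity
  have haR : ∀ p, ‖a p‖ ≤ R := fun p => (hab p).2.1.trans hRu
  have hbR : ∀ p, ‖b p‖ ≤ R := fun p => (hab p).2.2.2.trans hRu
  have hbL : ∀ p, R⁻¹ ≤ ‖b p‖ := fun p => hRl.trans (hab p).2.2.1
  rcases isEmpty_or_nonempty ι with hι | ⟨⟨p0⟩⟩
  · have hs0 : s = 0 := by rw [hs]; exact Fintype.card_eq_zero
    have hM0 : M = 0 := by rw [hM, hs0]
    rw [hM0, pow_zero, pow_zero, mul_one, mul_one, Matrix.det_isEmpty, norm_one]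
    linarith
  by_cases hsmall : C1 * ρ ≤ r0
  · -- the main case
    have hy0 : b p0 ≠ 0 := by
      intro h0
      have := hbL p0
      rw [h0, norm_zero] at this
      exact absurd this (not_le.mpr (by positivity))
    set θ : ℂ × ℂ × ℂ := (a p0, b p0, α) with hθ
    have hθm : θ ∈ dsTh R := ⟨haR p0, hbL p0, hbR p0, hα⟩
    have hu : ∀ p, (dsU g h θ).eval (a p - a p0) = α * (b p0 ^ g)⁻¹ * (a p ^ h - a p0 ^ h) := by
      intro p
      rw [dsU_eval]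
      simp [hθ]
    have huz : ∀ p, (b p / b p0) ^ g = 1 + (dsU g h θ).eval (a p - a p0) := by
      intro p
      have h1 : b p ^ g = b p0 ^ g + α * (a p ^ h - a p0 ^ h) := by
        rw [hcurve p, hcurve p0]; ring
      rw [hu, div_pow, h1]
      have h2 : b p0 ^ g ≠ 0 := pow_ne_zero _ hy0
      field_simp
    have hun : ∀ p, ‖(dsU g h θ).eval (a p - a p0)‖ ≤ C1 * ρ := by
      intro p
      rw [hu, norm_mul, norm_mul, norm_inv, norm_pow]
      have h1 : (‖b p0‖ ^ g)⁻¹ ≤ R ^ g := by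
        rw [← inv_pow]
        exact pow_le_pow_left₀ (by positivity) (inv_le_of_inv_le₀ hR0 (hbL p0)) _
      have h2 : ‖a p ^ h - a p0 ^ h‖ ≤ h * R ^ h * ρ :=
        (ds_pow_sub_le h hR (haR p) (haR p0)).trans
          (mul_le_mul_of_nonneg_left (hclose p p0).1 (by positivity))
      calc ‖α‖ * (‖b p0‖ ^ g)⁻¹ * ‖a p ^ h - a p0 ^ h‖
          ≤ (1 * R ^ g) * (h * R ^ h * ρ) :=
            mul_le_mul (mul_le_mul hα h1 (by positivity) zero_le_one) h2 (norm_nonneg _)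
              (by positivity)
        _ = (h * R ^ h * R ^ g) * ρ := by ring
        _ ≤ C1 * ρ := by
            rw [hC1def]
            exact mul_le_mul_of_nonneg_right (by linarith) hρ.le
    have hz : ∀ p, ‖b p / b p0 - 1‖ ≤ r0 := by
      intro p
      have h1 : b p / b p0 - 1 = (b p - b p0) * (b p0)⁻¹ := by field_simp
      rw [h1, norm_mul, norm_inv]
      have h2 : ‖b p0‖⁻¹ ≤ R := inv_le_of_inv_le₀ hR0 (hbL p0)
      calc ‖b p - b p0‖ * ‖b p0‖⁻¹ ≤ (r0 * R⁻¹) * R :=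
            mul_le_mul (hclose p p0).2 h2 (by positivity) (by positivity)
        _ = r0 := by field_simp
    have hδ : ∀ p, ‖b p - b p0 * T.eval ((dsU g h θ).eval (a p - a p0))‖ ≤ K * ρ ^ M := by
      intro p
      have h1 := hT _ _ (huz p) (hz p) ((hun p).trans hsmall)
      have h2 : b p - b p0 * T.eval ((dsU g h θ).eval (a p - a p0)) =
          b p0 * (b p / b p0 - T.eval ((dsU g h θ).eval (a p - a p0))) := by
        field_simp
      rw [h2, norm_mul]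
      calc ‖b p0‖ * ‖b p / b p0 - T.eval ((dsU g h θ).eval (a p - a p0))‖
          ≤ R * (C0 * (C1 * ρ) ^ M) := by
            refine mul_le_mul (hbR p0) (h1.trans ?_) (norm_nonneg _) hR0.le
            exact mul_le_mul_of_nonneg_left (pow_le_pow_left₀ (norm_nonneg _) (hun p) _) hC0.le
        _ = K * ρ ^ M := by rw [hK, mul_pow]; ring
    obtain ⟨E, hE⟩ : ∃ E : ι → ι → ℂ, E = fun p m => a p ^ i m * (b p ^ j m -
        (b p0 * T.eval ((dsU g h θ).eval (a p - a p0))) ^ j m) := ⟨_, rfl⟩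
    have hEb : ∀ p m, ‖E p m‖ ≤ bE m * ρ ^ M := by
      intro p m
      have hρM1 : ρ ^ M ≤ 1 := pow_le_one₀ hρ.le hρ1
      have h1 : ‖b p0 * T.eval ((dsU g h θ).eval (a p - a p0))‖ ≤ R + K := by
        have h2 : b p0 * T.eval ((dsU g h θ).eval (a p - a p0)) =
            b p - (b p - b p0 * T.eval ((dsU g h θ).eval (a p - a p0))) := by ring
        rw [h2]
        refine (norm_sub_le _ _).trans (add_le_add (hbR p) ((hδ p).trans ?_))
        calc K * ρ ^ M ≤ K * 1 := mul_le_mul_of_nonneg_left hρM1 hK0.le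
          _ = K := mul_one K
      have h3 := ds_pow_sub_le (j m) (R := R + K) (by linarith)
        ((hbR p).trans (by linarith)) h1
      rw [hE, hbE]
      simp only
      rw [norm_mul, norm_pow]
      calc ‖a p‖ ^ i m * ‖b p ^ j m - (b p0 * T.eval ((dsU g h θ).eval (a p - a p0))) ^ j m‖
          ≤ R ^ i m * ((j m) * (R + K) ^ j m * (K * ρ ^ M)) := by
            refine mul_le_mul (pow_le_pow_left₀ (norm_nonneg _) (haR p) _) (h3.trans ?_)
              (norm_nonneg _) (by positivity)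
            exact mul_le_mul_of_nonneg_left (hδ p) (by positivity)
        _ = _ := by ring
    have hle : ∀ m, b0 m + bE m ≤ ∑ m, (b0 m + bE m) := fun m =>
      Finset.single_le_sum (f := fun m => b0 m + bE m)
        (fun m _ => add_nonneg (hb0 m) (hbE0 m)) (Finset.mem_univ m)
    have hDle : ∀ m, D m < ∑ m, D m + 1 := fun m =>
      Nat.lt_succ_of_le (Finset.single_le_sum (f := fun m => D m)
        (fun m _ => Nat.zero_le _) (Finset.mem_univ m))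
    have key := hdet ι ρ (fun m k => (dsPhi T g h (i m) (j m) θ).coeff k)
      (fun p => a p - a p0) E hs.symm hρ hρ1
      (fun m k => ((hDb m θ hθm).2 k).trans
        ((le_add_of_nonneg_right (hbE0 m)).trans (hle m)))
      (fun p => (hclose p p0).1)
      (fun p m => (hEb p m).trans (mul_le_mul_of_nonneg_right
        ((le_add_of_nonneg_left (hb0 m)).trans (hle m)) hρM.le))
    have hmat : (Matrix.of fun p m : ι => a p ^ i m * b p ^ j m) =
        Matrix.of fun p m : ι => (∑ k ∈ Finset.range (∑ m, D m + 1),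
          (dsPhi T g h (i m) (j m) θ).coeff k * (a p - a p0) ^ k) + E p m := by
      ext p m
      simp only [Matrix.of_apply]
      rw [← eval_eq_sum_range' (lt_of_le_of_lt (hDb m θ hθm).1 (hDle m)), dsPhi_eval, hE]
      have h1 : a p - a p0 + θ.1 = a p := by simp [hθ]
      have h2 : θ.2.1 = b p0 := rfl
      rw [h1, h2]
      ring
    rw [hmat]
    refine key.trans (mul_le_mul_of_nonneg_right ?_ hρM.le)
    have : 0 ≤ D0 * (C1 / r0) ^ M := by positivity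
    linarith
  · -- the trivial bound
    push Not at hsmall
    have h1 := ds_trivial ι i j hR a b haR hbR
    rw [← hD0] at h1
    refine h1.trans ?_
    have h2 : 1 ≤ (C1 / r0) ^ M * ρ ^ M := by
      rw [← mul_pow]
      refine one_le_pow₀ ?_
      rw [div_mul_eq_mul_div, le_div_iff₀ hr0, one_mul]
      exact hsmall.le
    calc D0 = D0 * 1 := (mul_one _).symm
      _ ≤ D0 * ((C1 / r0) ^ M * ρ ^ M) := mul_le_mul_of_nonneg_left h2 hD00
      _ = (D0 * (C1 / r0) ^ M) * ρ ^ M := by ring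
      _ ≤ (C3 + D0 * (C1 / r0) ^ M + 1) * ρ ^ M :=
          mul_le_mul_of_nonneg_right (by linarith) hρM.le

theorem det_small (e f I J : ℕ) (he : 1 ≤ e) (hf : 1 ≤ f) (B : ℝ) :
    ∃ C r : ℝ, 0 < C ∧ 0 < r ∧ ∀ (ρ : ℝ) (A B' : ℂ) (x y : Fin I × Fin J → ℂ),
      0 < ρ → ρ ≤ 1 →
      (∀ p, Real.exp (-B) ≤ ‖x p‖ ∧ ‖x p‖ ≤ Real.exp B ∧
        Real.exp (-B) ≤ ‖y p‖ ∧ ‖y p‖ ≤ Real.exp B) →
      (∀ p, y p ^ f = A * x p ^ e + B') →
      ((‖A‖ ≤ 1 ∧ ∀ p q, ‖x p - x q‖ ≤ ρ ∧ ‖y p - y q‖ ≤ r) ∨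
        (1 ≤ ‖A‖ ∧ ∀ p q, ‖y p - y q‖ ≤ ρ ∧ ‖x p - x q‖ ≤ r)) →
        ‖Matrix.det (Matrix.of fun p m : Fin I × Fin J =>
          x p ^ (m.1 : ℕ) * y p ^ (m.2 : ℕ))‖ ≤ C * ρ ^ (I * J * (I * J - 1) / 2) := by
  obtain ⟨C1, r1, hC1, hr1, h1⟩ := det_core (Fin I × Fin J) (fun m => (m.1 : ℕ))
    (fun m => (m.2 : ℕ)) f e hf B
  obtain ⟨C2, r2, hC2, hr2, h2⟩ := det_core (Fin I × Fin J) (fun m => (m.2 : ℕ))
    (fun m => (m.1 : ℕ)) e f he B
  have hcard : Fintype.card (Fin I × Fin J) = I * J := by simp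
  rw [hcard] at h1 h2
  refine ⟨max C1 C2, min r1 r2, lt_max_of_lt_left hC1, lt_min hr1 hr2, ?_⟩
  intro ρ A B' x y hρ hρ1 hxy hcurve hcase
  have hρM : 0 ≤ ρ ^ (I * J * (I * J - 1) / 2) := by positivity
  rcases hcase with ⟨hA, hcl⟩ | ⟨hA, hcl⟩
  · refine (h1 ρ A B' x y hρ hρ1 hxy hcurve hA fun p q => ⟨(hcl p q).1,
      (hcl p q).2.trans (min_le_left _ _)⟩).trans ?_
    exact mul_le_mul_of_nonneg_right (le_max_left _ _) hρM
  · have hA0 : A ≠ 0 := by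
      rintro rfl
      rw [norm_zero] at hA
      linarith
    have h3 := h2 ρ A⁻¹ (-(A⁻¹ * B')) y x hρ hρ1
      (fun p => ⟨(hxy p).2.2.1, (hxy p).2.2.2, (hxy p).1, (hxy p).2.1⟩)
      (fun p => by
        have h4 := hcurve p
        rw [h4]
        field_simp
        ring)
      (by rw [norm_inv]; exact inv_le_one_of_one_le₀ hA)
      (fun p q => ⟨(hcl p q).1, (hcl p q).2.trans (min_le_right _ _)⟩)
    have h5 : (Matrix.of fun p m : Fin I × Fin J => x p ^ (m.1 : ℕ) * y p ^ (m.2 : ℕ)) =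
        Matrix.of fun p m : Fin I × Fin J => y p ^ (m.2 : ℕ) * x p ^ (m.1 : ℕ) := by
      ext p m
      simp only [Matrix.of_apply]
      ring
    rw [h5]
    exact h3.trans (mul_le_mul_of_nonneg_right (le_max_right _ _) hρM)

end Pool.Agent.AbcF
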