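import Mathlib
import Pool.Agent.AbcF.Defs

set_option autoImplicit false

/-! # Module I: a grid of cells at one infinite place -/

namespace Pool.Agent.AbcF

open NumberField

/-- the index of the cell of a real number in the grid of mesh `s` starting at `-M` -/
noncomputable def cellIdx (M s : ℝ) (u : ℝ) : ℕ := min ⌊(u + M) / s⌋₊ ⌊2 * M / s⌋₊

theorem cellIdx_le (M s u : ℝ) : cellIdx M s u < ⌊2 * M / s⌋₊ + 1 :=
  Nat.lt_succ_of_le (min_le_right _ _)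

theorem cellIdx_eq {M s u : ℝ} (hs : 0 < s) (hu : |u| ≤ M) : cellIdx M s u = ⌊(u + M) / s⌋₊ := by
  refine min_eq_left (Nat.floor_le_floor ?_)
  have := (abs_le.1 hu).2
  gcongr
  linarith

theorem cellIdx_close {M s u v : ℝ} (hs : 0 < s) (hu : |u| ≤ M) (hv : |v| ≤ M)
    (h : cellIdx M s u = cellIdx M s v) : |u - v| ≤ s := by
  rw [cellIdx_eq hs hu, cellIdx_eq hs hv] at h
  have hu0 : 0 ≤ (u + M) / s := div_nonneg (by linarith [(abs_le.1 hu).1]) hs.le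
  have hv0 : 0 ≤ (v + M) / s := div_nonneg (by linarith [(abs_le.1 hv).1]) hs.le
  have h1 := Nat.floor_le hu0
  have h2 := Nat.lt_floor_add_one ((u + M) / s)
  have h3 := Nat.floor_le hv0
  have h4 := Nat.lt_floor_add_one ((v + M) / s)
  rw [h] at h1 h2
  have h5 : |(u + M) / s - (v + M) / s| ≤ 1 := by
    rw [abs_le]; constructor <;> linarith
  have h6 : (u + M) / s - (v + M) / s = (u - v) / s := by ring
  rw [h6, abs_div, abs_of_pos hs, div_le_one hs] at h5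
  exact h5

theorem norm_sub_le_re_im (z1 z2 : ℂ) : ‖z1 - z2‖ ≤ |z1.re - z2.re| + |z1.im - z2.im| := by
  have := Complex.norm_le_abs_re_add_abs_im (z1 - z2)
  simpa using this

theorem floor_count {M s : ℝ} (hM : 0 ≤ M) (hs : 0 < s) :
    ((⌊2 * M / s⌋₊ + 1 : ℕ) : ℝ) ≤ 2 * M / s + 1 := by
  push_cast
  have : (⌊2 * M / s⌋₊ : ℝ) ≤ 2 * M / s := Nat.floor_le (by positivity)
  linarith

theorem grid_class (K : Type*) [Field K] [NumberField K] (B r : ℝ) (hr : 0 < r) :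
    ∃ C : ℝ, 0 < C ∧ ∀ (w : InfinitePlace K) (ρ : ℝ), 0 < ρ → ρ ≤ 1 →
      ∃ (N : ℕ) (c : K → K → Fin N), (N : ℝ) ≤ C * (ρ⁻¹) ^ w.mult ∧
        ∀ x1 y1 x2 y2 : K, w x1 ≤ Real.exp B → w y1 ≤ Real.exp B → w x2 ≤ Real.exp B →
          w y2 ≤ Real.exp B → c x1 y1 = c x2 y2 → w (x1 - x2) ≤ ρ ∧ w (y1 - y2) ≤ r := by
  obtain ⟨M, hMB⟩ : ∃ M : ℝ, M = Real.exp B := ⟨_, rfl⟩
  have hM : 0 < M := hMB ▸ Real.exp_pos B
  obtain ⟨t, ht⟩ : ∃ t : ℝ, t = r / 2 := ⟨_, rfl⟩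
  have ht0 : 0 < t := by rw [ht]; positivity
  refine ⟨(4 * M + 1) ^ 2 * (2 * M / t + 1) ^ 2, by positivity, ?_⟩
  intro w ρ hρ hρ1
  obtain ⟨s, hs⟩ : ∃ s : ℝ, s = ρ / 2 := ⟨_, rfl⟩
  have hs0 : 0 < s := by rw [hs]; positivity
  have hx : ∀ x : K, w x ≤ Real.exp B → |(w.embedding x).re| ≤ M ∧ |(w.embedding x).im| ≤ M := by
    intro x hx
    rw [← InfinitePlace.norm_embedding_eq w x, ← hMB] at hx
    exact ⟨(Complex.abs_re_le_norm _).trans hx, (Complex.abs_im_le_norm _).trans hx⟩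
  have hclose : ∀ x1 x2 : K, ∀ q : ℝ, |(w.embedding x1).re - (w.embedding x2).re| ≤ q / 2 →
      |(w.embedding x1).im - (w.embedding x2).im| ≤ q / 2 → w (x1 - x2) ≤ q := by
    intro x1 x2 q h1 h2
    rw [← InfinitePlace.norm_embedding_eq w, map_sub]
    exact (norm_sub_le_re_im _ _).trans (by linarith)
  have hcs : (2 * M / s + 1 : ℝ) ≤ (4 * M + 1) * ρ⁻¹ := by
    have h1 : 2 * M / s = 4 * M * ρ⁻¹ := by rw [hs]; field_simp; ring
    have h2 : 1 ≤ ρ⁻¹ := (one_le_inv₀ hρ).2 hρ1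
    rw [h1]; nlinarith
  obtain ⟨a, ha⟩ : ∃ a : ℕ, a = ⌊2 * M / s⌋₊ + 1 := ⟨_, rfl⟩
  obtain ⟨b, hb⟩ : ∃ b : ℕ, b = ⌊2 * M / t⌋₊ + 1 := ⟨_, rfl⟩
  have haR : (a : ℝ) ≤ (4 * M + 1) * ρ⁻¹ := by
    rw [ha]; exact (floor_count hM.le hs0).trans hcs
  have hbR : (b : ℝ) ≤ 2 * M / t + 1 := by rw [hb]; exact floor_count hM.le ht0
  have ha0 : (0 : ℝ) ≤ a := Nat.cast_nonneg _
  have hb0 : (0 : ℝ) ≤ b := Nat.cast_nonneg _
  have hy : ∀ y1 y2 : K, w y1 ≤ Real.exp B → w y2 ≤ Real.exp B →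
      cellIdx M t (w.embedding y1).re = cellIdx M t (w.embedding y2).re →
      cellIdx M t (w.embedding y1).im = cellIdx M t (w.embedding y2).im → w (y1 - y2) ≤ r := by
    intro y1 y2 h1 h2 h3 h4
    refine hclose _ _ _ ?_ ?_
    · rw [← ht]; exact cellIdx_close ht0 (hx y1 h1).1 (hx y2 h2).1 h3
    · rw [← ht]; exact cellIdx_close ht0 (hx y1 h1).2 (hx y2 h2).2 h4
  by_cases hw : w.IsReal
  · have him : ∀ x : K, (w.embedding x).im = 0 := by
      intro x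
      have h1 : ComplexEmbedding.IsReal w.embedding := InfinitePlace.isReal_iff.1 hw
      rw [ComplexEmbedding.isReal_iff] at h1
      have h2 : (starRingEnd ℂ) (w.embedding x) = w.embedding x := by
        have := congrArg (fun φ : K →+* ℂ => φ x) h1
        simpa using this
      exact Complex.conj_eq_iff_im.1 h2
    refine ⟨Fintype.card (Fin a × Fin b × Fin b), fun x y => Fintype.equivFin _
      (⟨cellIdx M s (w.embedding x).re, by rw [ha]; exact cellIdx_le _ _ _⟩,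
        ⟨cellIdx M t (w.embedding y).re, by rw [hb]; exact cellIdx_le _ _ _⟩,
        ⟨cellIdx M t (w.embedding y).im, by rw [hb]; exact cellIdx_le _ _ _⟩), ?_, ?_⟩
    · rw [InfinitePlace.mult, if_pos hw, pow_one]
      simp only [Fintype.card_prod, Fintype.card_fin]
      push_cast
      have h1 : (b : ℝ) * b ≤ (2 * M / t + 1) ^ 2 := by rw [sq]; gcongr
      have h2 : (a : ℝ) * (b * b) ≤ (4 * M + 1) * ρ⁻¹ * (2 * M / t + 1) ^ 2 := by gcongr
      refine h2.trans ?_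
      have h3 : (4 * M + 1) ≤ (4 * M + 1) ^ 2 := by nlinarith
      calc (4 * M + 1) * ρ⁻¹ * (2 * M / t + 1) ^ 2
          = (4 * M + 1) * (2 * M / t + 1) ^ 2 * ρ⁻¹ := by ring
        _ ≤ (4 * M + 1) ^ 2 * (2 * M / t + 1) ^ 2 * ρ⁻¹ := by gcongr
    · intro x1 y1 x2 y2 hx1 hy1 hx2 hy2 h
      have h' := (Fintype.equivFin (Fin a × Fin b × Fin b)).injective h
      simp only [Prod.mk.injEq, Fin.mk.injEq] at h'
      refine ⟨hclose _ _ _ ?_ ?_, hy _ _ hy1 hy2 h'.2.1 h'.2.2⟩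
      · rw [← hs]; exact cellIdx_close hs0 (hx x1 hx1).1 (hx x2 hx2).1 h'.1
      · rw [him, him, sub_zero, abs_zero]; positivity
  · refine ⟨Fintype.card ((Fin a × Fin a) × Fin b × Fin b), fun x y => Fintype.equivFin _
      ((⟨cellIdx M s (w.embedding x).re, by rw [ha]; exact cellIdx_le _ _ _⟩,
        ⟨cellIdx M s (w.embedding x).im, by rw [ha]; exact cellIdx_le _ _ _⟩),
        ⟨cellIdx M t (w.embedding y).re, by rw [hb]; exact cellIdx_le _ _ _⟩,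
        ⟨cellIdx M t (w.embedding y).im, by rw [hb]; exact cellIdx_le _ _ _⟩), ?_, ?_⟩
    · rw [InfinitePlace.mult, if_neg hw]
      simp only [Fintype.card_prod, Fintype.card_fin]
      push_cast
      have h1 : (b : ℝ) * b ≤ (2 * M / t + 1) ^ 2 := by rw [sq]; gcongr
      have h2 : (a : ℝ) * a ≤ ((4 * M + 1) * ρ⁻¹) ^ 2 := by rw [sq]; gcongr
      calc (a : ℝ) * a * (b * b) ≤ ((4 * M + 1) * ρ⁻¹) ^ 2 * (2 * M / t + 1) ^ 2 := by gcongr
        _ = (4 * M + 1) ^ 2 * (2 * M / t + 1) ^ 2 * ρ⁻¹ ^ 2 := by ring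
    · intro x1 y1 x2 y2 hx1 hy1 hx2 hy2 h
      have h' := (Fintype.equivFin ((Fin a × Fin a) × Fin b × Fin b)).injective h
      simp only [Prod.mk.injEq, Fin.mk.injEq] at h'
      refine ⟨hclose _ _ _ ?_ ?_, hy _ _ hy1 hy2 h'.2.1 h'.2.2⟩
      · rw [← hs]; exact cellIdx_close hs0 (hx x1 hx1).1 (hx x2 hx2).1 h'.1.1
      · rw [← hs]; exact cellIdx_close hs0 (hx x1 hx1).2 (hx x2 hx2).2 h'.1.2

end Pool.Agent.AbcF
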