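import Mathlib

/-! Module J: intersection of the curve `y ^ f = A x ^ e + B` with a curve of bounded degree. -/

namespace Pool.Agent.AbcF

open Polynomial

lemma J_natDegree_det {R : Type*} [CommRing R] (k D : ℕ) (M : Matrix (Fin k) (Fin k) R[X])
    (hM : ∀ i j, (M i j).natDegree ≤ D) : M.det.natDegree ≤ k * D := by
  rw [Matrix.det_apply]
  apply Polynomial.natDegree_sum_le_of_forall_le
  intro σ _
  refine (Polynomial.natDegree_smul_le _ _).trans ?_
  refine (Polynomial.natDegree_prod_le _ _).trans ?_
  refine (Finset.sum_le_card_nsmul _ _ D (fun i _ => hM _ _)).trans ?_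
  simp

lemma J_sylvester_entry {R : Type*} [CommRing R] (g P : R[X][X]) (m n D : ℕ)
    (hg : ∀ i, (g.coeff i).natDegree ≤ D) (hP : ∀ i, (P.coeff i).natDegree ≤ D) (i j) :
    ((sylvester g P m n) i j).natDegree ≤ D := by
  induction j using Fin.addCases <;> simp only [sylvester, Matrix.of_apply, Fin.addCases_left,
    Fin.addCases_right] <;> split_ifs <;> simp [hg, hP]

/-- the polynomial `A X ^ e + B` -/
noncomputable def Jh {F : Type*} [Field F] (A B : F) (e : ℕ) : F[X] := C A * X ^ e + C B

lemma Jh_natDegree {F : Type*} [Field F] (A B : F) (e : ℕ) (hA : A ≠ 0) :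
    (Jh A B e).natDegree = e := by
  unfold Jh
  rw [natDegree_add_C, natDegree_C_mul_X_pow _ _ hA]

lemma Jh_squarefree {F : Type*} [Field F] [CharZero F] (A B : F) (e : ℕ) (he : 1 ≤ e)
    (hA : A ≠ 0) (hB : B ≠ 0) : Squarefree (Jh A B e) := by
  apply Polynomial.Separable.squarefree
  rw [Polynomial.separable_def]
  have heF : (e : F) ≠ 0 := by exact_mod_cast (by omega : e ≠ 0)
  have key : C ((e : F)) * Jh A B e - X * derivative (Jh A B e) = C ((e : F) * B) := by
    obtain ⟨n, rfl⟩ : ∃ n, e = n + 1 := ⟨e - 1, by omega⟩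
    unfold Jh
    simp only [derivative_add, derivative_C_mul_X_pow, derivative_C, C_mul, map_mul]
    simp only [Nat.add_sub_cancel, pow_succ]
    ring
  refine ⟨C (((e : F) * B)⁻¹) * C (e : F), - (C (((e : F) * B)⁻¹) * X), ?_⟩
  have : C (((e : F) * B)⁻¹) * C (e : F) * Jh A B e
      + - (C (((e : F) * B)⁻¹) * X) * derivative (Jh A B e)
      = C (((e : F) * B)⁻¹) * (C ((e : F)) * Jh A B e - X * derivative (Jh A B e)) := by ring
  rw [this, key, ← C_mul, inv_mul_cancel₀ (mul_ne_zero heF hB), C_1]

/-- the polynomial `Y ^ f - (A X ^ e + B)` -/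
noncomputable def Jg {F : Type*} [Field F] (A B : F) (e f : ℕ) : F[X][X] :=
  X ^ f - C (Jh A B e)

lemma Jg_monic {F : Type*} [Field F] (A B : F) (e f : ℕ) (hf : 1 ≤ f) : (Jg A B e f).Monic := by
  unfold Jg
  exact monic_X_pow_sub_C _ (by omega)

lemma Jg_natDegree {F : Type*} [Field F] (A B : F) (e f : ℕ) :
    (Jg A B e f).natDegree = f := by
  unfold Jg
  exact natDegree_X_pow_sub_C

lemma Jg_irreducible {F : Type*} [Field F] [CharZero F] (A B : F) (e f : ℕ) (he : 1 ≤ e)
    (hf : 1 ≤ f) (hA : A ≠ 0) (hB : B ≠ 0) : Irreducible (Jg A B e f) := by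
  have hdeg := Jh_natDegree A B e hA
  have hnu : ¬ IsUnit (Jh A B e) := by
    intro h
    have := Polynomial.natDegree_eq_zero_of_isUnit h
    omega
  have hne : Jh A B e ≠ 0 := by
    intro h
    rw [h] at hdeg
    simp at hdeg
    omega
  obtain ⟨p, hp, hpd⟩ := WfDvdMonoid.exists_irreducible_factor hnu hne
  have hpr : Prime p := hp.prime
  have hP : (Ideal.span {p}).IsPrime := (Ideal.span_singleton_prime hpr.ne_zero).mpr hpr
  refine irreducible_of_eisenstein_criterion hP ?_ ?_ ?_ ?_ (Jg_monic A B e f hf).isPrimitive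
  · rw [(Jg_monic A B e f hf).leadingCoeff]
    intro h
    exact hP.ne_top ((Ideal.eq_top_iff_one _).mpr h)
  · intro n hn
    rw [Polynomial.degree_eq_natDegree (Jg_monic A B e f hf).ne_zero, Jg_natDegree] at hn
    have hn' : n < f := by exact_mod_cast hn
    unfold Jg
    rw [coeff_sub, coeff_X_pow, if_neg (by omega), coeff_C]
    split_ifs with h0
    · rw [zero_sub]
      exact neg_mem (Ideal.mem_span_singleton.mpr hpd)
    · simp
  · rw [← natDegree_pos_iff_degree_pos, Jg_natDegree]
    omega
  · unfold Jg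
    rw [coeff_sub, coeff_X_pow, if_neg (by omega), coeff_C_zero, zero_sub, neg_mem_iff,
      Ideal.span_singleton_pow, Ideal.mem_span_singleton, pow_two]
    intro h
    exact hp.not_isUnit (Jh_squarefree A B e he hA hB p h)

/-- the polynomial of the second curve -/
noncomputable def JP {F : Type*} [Field F] (I J : ℕ) (c : Fin I → Fin J → F) : F[X][X] :=
  ∑ l : Fin J, C (∑ i : Fin I, C (c i l) * X ^ (i : ℕ)) * X ^ (l : ℕ)

lemma JP_coeff {F : Type*} [Field F] (I J : ℕ) (c : Fin I → Fin J → F) (l : Fin J) :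
    (JP I J c).coeff l = ∑ i : Fin I, C (c i l) * X ^ (i : ℕ) := by
  unfold JP
  rw [finsetSum_coeff]
  simp only [coeff_C_mul, coeff_X_pow]
  rw [Finset.sum_eq_single l]
  · simp
  · intro b _ hb
    rw [if_neg (fun h => hb (Fin.ext h.symm)), mul_zero]
  · intro h
    exact absurd (Finset.mem_univ l) h

lemma JP_coeff_big {F : Type*} [Field F] (I J : ℕ) (c : Fin I → Fin J → F) (n : ℕ)
    (hn : J ≤ n) : (JP I J c).coeff n = 0 := by
  unfold JP
  rw [finsetSum_coeff]
  apply Finset.sum_eq_zero
  intro l _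
  rw [coeff_C_mul, coeff_X_pow, if_neg (by have := l.2; omega), mul_zero]

lemma JP_coeff_natDegree {F : Type*} [Field F] (I J : ℕ) (c : Fin I → Fin J → F) (n : ℕ) :
    ((JP I J c).coeff n).natDegree ≤ I := by
  by_cases hn : n < J
  · have := JP_coeff I J c ⟨n, hn⟩
    simp only at this
    rw [this]
    apply Polynomial.natDegree_sum_le_of_forall_le
    intro i _
    refine (natDegree_C_mul_X_pow_le _ _).trans ?_
    have := i.2
    omega
  · rw [JP_coeff_big I J c n (by omega)]
    simp

lemma JP_ne_zero {F : Type*} [Field F] (I J : ℕ) (c : Fin I → Fin J → F) (hc : c ≠ 0) :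
    JP I J c ≠ 0 := by
  intro h
  apply hc
  funext i l
  have h1 := JP_coeff I J c l
  rw [h, coeff_zero] at h1
  have h2 : (∑ i : Fin I, C (c i l) * X ^ (i : ℕ) : F[X]).coeff (i : ℕ) = c i l := by
    rw [finsetSum_coeff]
    simp only [coeff_C_mul, coeff_X_pow]
    rw [Finset.sum_eq_single i]
    · simp
    · intro b _ hb
      rw [if_neg (fun h => hb (Fin.ext h.symm)), mul_zero]
    · intro h
      exact absurd (Finset.mem_univ i) h
  rw [← h1, coeff_zero] at h2
  exact h2.symm

lemma JP_degree_lt {F : Type*} [Field F] (I J : ℕ) (c : Fin I → Fin J → F) (hc : c ≠ 0) :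
    (JP I J c).natDegree < J := by
  by_contra h
  push Not at h
  have h1 := JP_coeff_big I J c _ h
  rw [coeff_natDegree, leadingCoeff_eq_zero] at h1
  exact JP_ne_zero I J c hc h1

lemma J_coprime {F : Type*} [Field F] [CharZero F] (A B : F) (e f : ℕ) (he : 1 ≤ e)
    (hf : 1 ≤ f) (hA : A ≠ 0) (hB : B ≠ 0) (P : F[X][X]) (hP : P ≠ 0) (hd : P.natDegree < f) :
    resultant (Jg A B e f) P ≠ 0 := by
  classical
  have hirr := Jg_irreducible A B e f he hf hA hB
  have hirr' : Irreducible ((Jg A B e f).map (algebraMap F[X] (FractionRing F[X]))) :=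
    ((Jg_monic A B e f hf).irreducible_iff_irreducible_map_fraction_map).mp hirr
  have hinj : Function.Injective (algebraMap F[X] (FractionRing F[X])) :=
    IsFractionRing.injective _ _
  have hcop : IsCoprime ((Jg A B e f).map (algebraMap F[X] (FractionRing F[X])))
      (P.map (algebraMap F[X] (FractionRing F[X]))) := by
    rw [hirr'.coprime_iff_not_dvd]
    intro hdvd
    have hne : P.map (algebraMap F[X] (FractionRing F[X])) ≠ 0 := by
      rwa [Ne, Polynomial.map_eq_zero_iff hinj]
    have h1 := Polynomial.natDegree_le_of_dvd hdvd hne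
    rw [natDegree_map_eq_of_injective hinj, natDegree_map_eq_of_injective hinj,
      Jg_natDegree] at h1
    omega
  have h2 := resultant_ne_zero _ _ hcop
  rw [natDegree_map_eq_of_injective hinj, natDegree_map_eq_of_injective hinj,
    resultant_map_map] at h2
  intro h
  rw [h, map_zero] at h2
  exact h2 rfl

theorem inter_bound (F : Type*) [Field F] [CharZero F] (e f I J : ℕ) (he : 1 ≤ e) (hf : 1 ≤ f)
    (hJ : J ≤ f) :
    ∃ N : ℕ, ∀ (A B : F), A ≠ 0 → B ≠ 0 → ∀ c : Fin I → Fin J → F, c ≠ 0 →
      ∀ S : Finset (F × F), (∀ p ∈ S, p.2 ^ f = A * p.1 ^ e + B ∧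
        ∑ i, ∑ l, c i l * p.1 ^ (i : ℕ) * p.2 ^ (l : ℕ) = 0) → S.card ≤ N := by
  classical
  refine ⟨f * ((f + f) * (e + I)), fun A B hA hB c hc S hS => ?_⟩
  have hd := JP_degree_lt I J c hc
  have hne := JP_ne_zero I J c hc
  have hres := J_coprime A B e f he hf hA hB (JP I J c) hne (by omega)
  have hdeg : (resultant (Jg A B e f) (JP I J c)).natDegree ≤ (f + f) * (e + I) := by
    rw [resultant, Jg_natDegree]
    refine (J_natDegree_det _ (e + I) _ ?_).trans ?_
    · intro i j
      apply J_sylvester_entry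
      · intro n
        unfold Jg
        rw [coeff_sub, coeff_X_pow, coeff_C]
        refine (natDegree_sub_le _ _).trans ?_
        apply max_le
        · split_ifs <;> simp
        · split_ifs
          · rw [Jh_natDegree A B e hA]
            omega
          · simp
      · intro n
        exact (JP_coeff_natDegree I J c n).trans (by omega)
    · apply Nat.mul_le_mul_right
      omega
  obtain ⟨p, q, -, -, hpq⟩ := exists_mul_add_mul_eq_C_resultant (Jg A B e f) (JP I J c)
    (m := (Jg A B e f).natDegree) (n := (JP I J c).natDegree) le_rfl le_rfl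
    (Or.inl (by rw [Jg_natDegree]; omega))
  have hroot : ∀ z ∈ S, (resultant (Jg A B e f) (JP I J c)).IsRoot z.1 := by
    intro z hz
    obtain ⟨h1, h2⟩ := hS z hz
    have hev := congrArg (fun Q : F[X][X] => (Q.eval (C z.2)).eval z.1) hpq
    simp only [eval_add, eval_mul, eval_C] at hev
    have hg0 : ((Jg A B e f).eval (C z.2)).eval z.1 = 0 := by
      unfold Jg Jh
      simp only [eval_sub, eval_pow, eval_X, eval_C, eval_add, eval_mul]
      rw [h1]
      ring
    have hP0 : ((JP I J c).eval (C z.2)).eval z.1 = 0 := by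
      unfold JP
      simp only [eval_finsetSum, eval_mul, eval_C, eval_pow, eval_X]
      rw [← h2, Finset.sum_comm]
      apply Finset.sum_congr rfl
      intro l _
      rw [Finset.sum_mul]
    rw [hg0, hP0] at hev
    simp only [zero_mul, add_zero] at hev
    exact hev.symm
  have himg : (S.image Prod.fst).card ≤ (f + f) * (e + I) := by
    refine le_trans ?_ hdeg
    refine le_trans ?_ (Polynomial.card_roots' _)
    refine le_trans ?_ (Multiset.toFinset_card_le _)
    apply Finset.card_le_card
    intro x hx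
    obtain ⟨z, hz, rfl⟩ := Finset.mem_image.mp hx
    rw [Multiset.mem_toFinset, mem_roots hres]
    exact hroot z hz
  have hfib : ∀ x ∈ S.image Prod.fst, (S.filter (fun z => z.1 = x)).card ≤ f := by
    intro x _
    have hinj : ((S.filter (fun z => z.1 = x)).image Prod.snd).card
        = (S.filter (fun z => z.1 = x)).card := by
      apply Finset.card_image_of_injOn
      intro z hz w hw hzw
      have hz' := (Finset.mem_filter.mp (Finset.mem_coe.mp hz)).2
      have hw' := (Finset.mem_filter.mp (Finset.mem_coe.mp hw)).2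
      exact Prod.ext (hz'.trans hw'.symm) hzw
    rw [← hinj]
    have hmon : (X ^ f - C (A * x ^ e + B) : F[X]) ≠ 0 := (monic_X_pow_sub_C _ (by omega)).ne_zero
    have hnd : (X ^ f - C (A * x ^ e + B) : F[X]).natDegree = f := natDegree_X_pow_sub_C
    calc ((S.filter (fun z => z.1 = x)).image Prod.snd).card
        ≤ (X ^ f - C (A * x ^ e + B) : F[X]).roots.toFinset.card := by
          apply Finset.card_le_card
          intro y hy
          obtain ⟨z, hz, rfl⟩ := Finset.mem_image.mp hy
          obtain ⟨hzS, hzx⟩ := Finset.mem_filter.mp hz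
          rw [Multiset.mem_toFinset, mem_roots hmon, IsRoot.def]
          simp only [eval_sub, eval_pow, eval_X, eval_C]
          rw [(hS z hzS).1, hzx, sub_self]
      _ ≤ Multiset.card (X ^ f - C (A * x ^ e + B) : F[X]).roots := Multiset.toFinset_card_le _
      _ ≤ (X ^ f - C (A * x ^ e + B) : F[X]).natDegree := Polynomial.card_roots' _
      _ = f := hnd
  refine (Finset.card_le_mul_card_image (f := Prod.fst) S f hfib).trans ?_
  exact Nat.mul_le_mul_left _ himg

end Pool.Agent.AbcF
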