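import Mathlib
import Pool.Agent.AbcF.Defs
import Pool.Agent.AbcF.DetSmall
import Pool.Agent.AbcF.Grid
import Pool.Agent.AbcF.Inter

/-!
The determinant method on the curves `v ^ f = A * u ^ e + B`: the number of points.
-/

namespace Pool.Agent.AbcF

open NumberField IsDedekindDomain Pool.Agent.H7.Abc Pool.Agent.AbcE

section place

variable {K : Type*} [Field K] [NumberField K]

theorem bpp_sum_le (v : HeightOneSpectrum (𝓞 K)) {ι : Type*} (s : Finset ι) (a : ι → K) {C : ℝ}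
    (hC : 0 ≤ C) (h : ∀ i ∈ s, FinitePlace.mk v (a i) ≤ C) :
    FinitePlace.mk v (∑ i ∈ s, a i) ≤ C := by
  classical
  induction s using Finset.induction_on with
  | empty => simpa using hC
  | insert i s hi ih =>
    rw [Finset.sum_insert hi]
    exact le_trans (mk_sub_le_max v _ _) (max_le (h i (Finset.mem_insert_self _ _))
      (ih fun j hj => h j (Finset.mem_insert_of_mem hj)))

theorem bpp_mk_neg (v : HeightOneSpectrum (𝓞 K)) (x : K) :
    FinitePlace.mk v (-x) = FinitePlace.mk v x := by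
  have h3 : FinitePlace.mk v (-1 : K) = 1 := by
    have h4 : FinitePlace.mk v (-1 : K) * FinitePlace.mk v (-1 : K) = 1 := by
      rw [← map_mul]; norm_num
    nlinarith [apply_nonneg (FinitePlace.mk v) (-1 : K)]
  rw [← neg_one_mul, map_mul, h3, one_mul]

theorem bpp_mk_le (v : HeightOneSpectrum (𝓞 K)) {x : K} (hx : x ≠ 0) {b : ℝ}
    (h : -b ≤ (ord v x : ℝ)) : FinitePlace.mk v x ≤ Real.exp (b * ln v) := by
  have hpos : 0 < FinitePlace.mk v x := FinitePlace.pos_iff.2 hx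
  rw [← Real.exp_log hpos, log_mk v hx]
  apply Real.exp_le_exp.2
  have h1 : 0 < ln v := tc_ln_pos v
  have h2 : Real.log (Ideal.absNorm v.asIdeal : ℝ) = ln v := rfl
  rw [h2]
  nlinarith

theorem bpp_finite (v : HeightOneSpectrum (𝓞 K)) (I J : ℕ) (x y : Fin I × Fin J → K) {a b : ℝ}
    (hx : ∀ p, FinitePlace.mk v (x p) ≤ Real.exp a)
    (hy : ∀ p, FinitePlace.mk v (y p) ≤ Real.exp b) :
    FinitePlace.mk v (Matrix.det (Matrix.of fun p m : Fin I × Fin J =>
      x p ^ (m.1 : ℕ) * y p ^ (m.2 : ℕ))) ≤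
      Real.exp ((∑ m : Fin I × Fin J, ((m.1 : ℕ) : ℝ)) * a +
        (∑ m : Fin I × Fin J, ((m.2 : ℕ) : ℝ)) * b) := by
  rw [Matrix.det_apply]
  refine bpp_sum_le v _ _ (Real.exp_pos _).le fun σ _ => ?_
  have h1 : FinitePlace.mk v (Equiv.Perm.sign σ • ∏ i, (Matrix.of fun p m : Fin I × Fin J =>
      x p ^ (m.1 : ℕ) * y p ^ (m.2 : ℕ)) (σ i) i) =
      FinitePlace.mk v (∏ i : Fin I × Fin J, (x (σ i) ^ (i.1 : ℕ) * y (σ i) ^ (i.2 : ℕ))) := by
    rcases Int.units_eq_one_or (Equiv.Perm.sign σ) with h | h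
    · rw [h, one_smul]; rfl
    · rw [h, Units.neg_smul, one_smul, bpp_mk_neg]; rfl
  rw [h1, map_prod]
  have h2 : Real.exp ((∑ m : Fin I × Fin J, ((m.1 : ℕ) : ℝ)) * a +
        (∑ m : Fin I × Fin J, ((m.2 : ℕ) : ℝ)) * b) =
      ∏ m : Fin I × Fin J, (Real.exp a ^ (m.1 : ℕ) * Real.exp b ^ (m.2 : ℕ)) := by
    rw [Finset.sum_mul, Finset.sum_mul, ← Finset.sum_add_distrib, Real.exp_sum]
    refine Finset.prod_congr rfl fun m _ => ?_
    rw [Real.exp_add, Real.exp_nat_mul, Real.exp_nat_mul]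
  rw [h2]
  refine Finset.prod_le_prod (fun m _ => apply_nonneg _ _) fun m _ => ?_
  rw [map_mul, map_pow, map_pow]
  exact mul_le_mul (pow_le_pow_left₀ (apply_nonneg _ _) (hx _) _)
    (pow_le_pow_left₀ (apply_nonneg _ _) (hy _) _) (pow_nonneg (apply_nonneg _ _) _)
    (pow_nonneg (Real.exp_pos _).le _)

end place

theorem bpp_sum_fst (I J : ℕ) :
    (∑ m : Fin I × Fin J, ((m.1 : ℕ) : ℝ)) = (I : ℝ) * J * ((I : ℝ) - 1) / 2 := by
  rw [Fintype.sum_prod_type]
  simp only [Finset.sum_const, Finset.card_univ, Fintype.card_fin, nsmul_eq_mul]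
  rw [← Finset.mul_sum, Fin.sum_univ_eq_sum_range (fun i => (i : ℝ)) I]
  have h : (∑ i ∈ Finset.range I, (i : ℝ)) = (I : ℝ) * ((I : ℝ) - 1) / 2 := by
    induction I with
    | zero => simp
    | succ n ih => rw [Finset.sum_range_succ, ih]; push_cast; ring
  rw [h]; ring

theorem bpp_sum_snd (I J : ℕ) :
    (∑ m : Fin I × Fin J, ((m.2 : ℕ) : ℝ)) = (I : ℝ) * J * ((J : ℝ) - 1) / 2 := by
  rw [Fintype.sum_prod_type_right]
  simp only [Finset.sum_const, Finset.card_univ, Fintype.card_fin, nsmul_eq_mul]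
  rw [← Finset.mul_sum, Fin.sum_univ_eq_sum_range (fun i => (i : ℝ)) J]
  have h : (∑ i ∈ Finset.range J, (i : ℝ)) = (J : ℝ) * ((J : ℝ) - 1) / 2 := by
    induction J with
    | zero => simp
    | succ n ih => rw [Finset.sum_range_succ, ih]; push_cast; ring
  rw [h]; ring

theorem bpp_lin {K ι : Type*} [Field K] [Fintype ι] [DecidableEq ι] (T : Set (ι → K))
    (h : ∀ g : ι → (ι → K), (∀ i, g i ∈ T) → Matrix.det (Matrix.of g) = 0) :
    ∃ c : ι → K, c ≠ 0 ∧ ∀ t ∈ T, ∑ i, c i * t i = 0 := by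
  have hne : Submodule.span K T ≠ ⊤ := by
    intro htop
    obtain ⟨b, hbT, hspan, hli⟩ := exists_linearIndependent K T
    rw [htop] at hspan
    have hB : ⊤ ≤ Submodule.span K (Set.range ((↑) : b → (ι → K))) := by
      rw [Subtype.range_coe, hspan]
    let Bs : Module.Basis b K (ι → K) := Module.Basis.mk hli hB
    let ε : ι ≃ b := (Pi.basisFun K ι).indexEquiv Bs
    have h1 := h (fun i => (ε i : ι → K)) (fun i => hbT (ε i).2)
    have h2 : LinearIndependent K (fun i => (ε i : ι → K)) := hli.comp ε ε.injective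
    have h3 : IsUnit (Matrix.of fun i => (ε i : ι → K)) :=
      Matrix.linearIndependent_rows_iff_isUnit.1 h2
    rw [Matrix.isUnit_iff_isUnit_det, h1] at h3
    exact not_isUnit_zero h3
  obtain ⟨φ, hφ, hle⟩ := Submodule.exists_le_ker_of_lt_top _ (lt_top_iff_ne_top.2 hne)
  have hφ2 : ∀ t : ι → K, φ t = ∑ i, φ (Pi.single i 1) * t i := by
    intro t
    conv_lhs => rw [pi_eq_sum_univ' t]
    rw [map_sum]
    refine Finset.sum_congr rfl fun i _ => ?_
    rw [map_smul, smul_eq_mul, mul_comm]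
  refine ⟨fun i => φ (Pi.single i 1), ?_, fun t ht => ?_⟩
  · intro h0
    apply hφ
    ext t
    simp only [LinearMap.comp_apply, LinearMap.zero_apply]
    exact congrFun h0 t
  · rw [← hφ2 t]
    exact hle (Submodule.subset_span ht)

section main

variable {K : Type*} [Field K] [NumberField K]

open Classical in
theorem bpp_vanish (e f I J : ℕ) (hIJ : 2 ≤ I * J) {B C r : ℝ} (hC : 0 < C)
    (hds : ∀ (ρ : ℝ) (A B' : ℂ) (x y : Fin I × Fin J → ℂ),
      0 < ρ → ρ ≤ 1 →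
      (∀ p, Real.exp (-B) ≤ ‖x p‖ ∧ ‖x p‖ ≤ Real.exp B ∧
        Real.exp (-B) ≤ ‖y p‖ ∧ ‖y p‖ ≤ Real.exp B) →
      (∀ p, y p ^ f = A * x p ^ e + B') →
      ((‖A‖ ≤ 1 ∧ ∀ p q, ‖x p - x q‖ ≤ ρ ∧ ‖y p - y q‖ ≤ r) ∨
        (1 ≤ ‖A‖ ∧ ∀ p q, ‖y p - y q‖ ≤ ρ ∧ ‖x p - x q‖ ≤ r)) →
        ‖Matrix.det (Matrix.of fun p m : Fin I × Fin J =>
          x p ^ (m.1 : ℕ) * y p ^ (m.2 : ℕ))‖ ≤ C * ρ ^ (I * J * (I * J - 1) / 2))
    {ρ : ℝ} (hρ : 0 < ρ) (hρ1 : ρ ≤ 1) (A B' : K)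
    (X0 Y0 : Finset (HeightOneSpectrum (𝓞 K))) (x y : Fin I × Fin J → K)
    (hne : ∀ p, x p ≠ 0 ∧ y p ≠ 0) (hcurve : ∀ p, y p ^ f = A * x p ^ e + B')
    (hord : ∀ p v, -(if v ∈ X0 then 1 else 0) ≤ ord v (x p) ∧
        -(if v ∈ Y0 then 1 else 0) ≤ ord v (y p))
    (harch : ∀ p, ∀ w : InfinitePlace K, |Real.log (w (x p))| ≤ B ∧ |Real.log (w (y p))| ≤ B)
    (hcl : ∀ w : InfinitePlace K,
      (w A ≤ 1 ∧ ∀ p q, w (x p - x q) ≤ ρ ∧ w (y p - y q) ≤ r) ∨
      (1 ≤ w A ∧ ∀ p q, w (y p - y q) ≤ ρ ∧ w (x p - x q) ≤ r))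
    (hbig : (Module.finrank ℚ K : ℝ) *
      (Real.log C + ((I : ℝ) * J * ((I : ℝ) * J - 1) / 2) * Real.log ρ) +
      ((I : ℝ) * J / 2) * (((I : ℝ) - 1) * LN X0 + ((J : ℝ) - 1) * LN Y0) < 0) :
    Matrix.det (Matrix.of fun p m : Fin I × Fin J =>
      x p ^ (m.1 : ℕ) * y p ^ (m.2 : ℕ)) = 0 := by
  by_contra hdet
  set Δ : K := Matrix.det (Matrix.of fun p m : Fin I × Fin J =>
      x p ^ (m.1 : ℕ) * y p ^ (m.2 : ℕ)) with hΔ
  have hI : 1 ≤ I := by
    rcases Nat.eq_zero_or_pos I with h | h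
    · rw [h] at hIJ; omega
    · exact h
  have hJ : 1 ≤ J := by
    rcases Nat.eq_zero_or_pos J with h | h
    · rw [h] at hIJ; omega
    · exact h
  have hI' : (1 : ℝ) ≤ I := by exact_mod_cast hI
  have hJ' : (1 : ℝ) ≤ J := by exact_mod_cast hJ
  -- the infinite places
  have hw : ∀ w : InfinitePlace K, Real.log (w Δ) ≤
      Real.log C + ((I : ℝ) * J * ((I : ℝ) * J - 1) / 2) * Real.log ρ := by
    intro w
    have hpos : 0 < w Δ := InfinitePlace.pos_iff.2 hdet
    have hb : ∀ z : K, z ≠ 0 → |Real.log (w z)| ≤ B →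
        Real.exp (-B) ≤ ‖w.embedding z‖ ∧ ‖w.embedding z‖ ≤ Real.exp B := by
      intro z hz hzB
      rw [InfinitePlace.norm_embedding_eq]
      have hzp : 0 < w z := InfinitePlace.pos_iff.2 hz
      obtain ⟨h1, h2⟩ := abs_le.1 hzB
      constructor
      · rw [← Real.exp_log hzp]; exact Real.exp_le_exp.2 h1
      · rw [← Real.exp_log hzp]; exact Real.exp_le_exp.2 h2
    have h1 := hds ρ (w.embedding A) (w.embedding B') (fun p => w.embedding (x p))
      (fun p => w.embedding (y p)) hρ hρ1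
      (fun p => ⟨(hb _ (hne p).1 (harch p w).1).1, (hb _ (hne p).1 (harch p w).1).2,
        (hb _ (hne p).2 (harch p w).2).1, (hb _ (hne p).2 (harch p w).2).2⟩)
      (fun p => by rw [← map_pow, ← map_pow, ← map_mul, ← map_add, hcurve p])
      (by
        simp only [← map_sub, InfinitePlace.norm_embedding_eq]
        exact hcl w)
    have h2 : Matrix.det (Matrix.of fun p m : Fin I × Fin J =>
          w.embedding (x p) ^ (m.1 : ℕ) * w.embedding (y p) ^ (m.2 : ℕ)) = w.embedding Δ := by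
      rw [hΔ, RingHom.map_det]
      congr 1
      ext p m
      simp
    rw [h2, InfinitePlace.norm_embedding_eq] at h1
    have h3 : Real.log (w Δ) ≤ Real.log (C * ρ ^ (I * J * (I * J - 1) / 2)) :=
      Real.log_le_log hpos h1
    rw [Real.log_mul hC.ne' (pow_ne_zero _ hρ.ne'), Real.log_pow] at h3
    have h4 : ((I * J * (I * J - 1) / 2 : ℕ) : ℝ) = (I : ℝ) * J * ((I : ℝ) * J - 1) / 2 := by
      rw [Nat.cast_div (even_iff_two_dvd.1 (Nat.even_mul_pred_self _)) (by norm_num)]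
      rw [Nat.cast_mul, Nat.cast_sub (by omega)]
      push_cast
      ring
    rw [h4] at h3
    exact h3
  -- the finite places
  have hv : ∀ v : HeightOneSpectrum (𝓞 K), Real.log (FinitePlace.mk v Δ) ≤
      ((I : ℝ) * J / 2) * (((I : ℝ) - 1) * (if v ∈ X0 then ln v else 0) +
        ((J : ℝ) - 1) * (if v ∈ Y0 then ln v else 0)) := by
    intro v
    have hpos : 0 < FinitePlace.mk v Δ := FinitePlace.pos_iff.2 hdet
    have h1 := bpp_finite v I J x y (a := (if v ∈ X0 then (1 : ℝ) else 0) * ln v)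
      (b := (if v ∈ Y0 then (1 : ℝ) else 0) * ln v)
      (fun p => bpp_mk_le v (hne p).1 (by
        have := (hord p v).1
        have h2 : ((-(if v ∈ X0 then 1 else 0) : ℤ) : ℝ) ≤ (ord v (x p) : ℝ) := by
          exact_mod_cast this
        rw [Int.cast_neg] at h2
        split_ifs at h2 ⊢ <;> simpa using h2))
      (fun p => bpp_mk_le v (hne p).2 (by
        have := (hord p v).2
        have h2 : ((-(if v ∈ Y0 then 1 else 0) : ℤ) : ℝ) ≤ (ord v (y p) : ℝ) := by
          exact_mod_cast this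
        rw [Int.cast_neg] at h2
        split_ifs at h2 ⊢ <;> simpa using h2))
    have h3 := Real.log_le_log hpos h1
    rw [Real.log_exp, bpp_sum_fst, bpp_sum_snd] at h3
    refine h3.trans (le_of_eq ?_)
    split_ifs <;> ring
  set BB := (finite_support hdet).toFinset ∪ (X0 ∪ Y0) with hBB
  have hprod := gap_prod hdet BB (by
    intro v hv1
    rw [hBB, Finset.mem_union]
    exact Or.inl ((Set.Finite.mem_toFinset _).2 hv1))
  have hfin : ∑ v ∈ BB, Real.log (FinitePlace.mk v Δ) ≤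
      ((I : ℝ) * J / 2) * (((I : ℝ) - 1) * LN X0 + ((J : ℝ) - 1) * LN Y0) := by
    refine (Finset.sum_le_sum fun v _ => hv v).trans (le_of_eq ?_)
    rw [← Finset.mul_sum, Finset.sum_add_distrib, ← Finset.mul_sum, ← Finset.mul_sum]
    have hX : ∑ v ∈ BB, (if v ∈ X0 then ln v else 0) = LN X0 := by
      unfold LN
      rw [← Finset.sum_filter]
      congr 1
      ext v
      rw [Finset.mem_filter, hBB, Finset.mem_union, Finset.mem_union]
      tauto
    have hY : ∑ v ∈ BB, (if v ∈ Y0 then ln v else 0) = LN Y0 := by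
      unfold LN
      rw [← Finset.sum_filter]
      congr 1
      ext v
      rw [Finset.mem_filter, hBB, Finset.mem_union, Finset.mem_union]
      tauto
    rw [hX, hY]
  have hinf : (∑ w : InfinitePlace K, (w.mult : ℝ) * Real.log (w Δ)) ≤
      (Module.finrank ℚ K : ℝ) *
      (Real.log C + ((I : ℝ) * J * ((I : ℝ) * J - 1) / 2) * Real.log ρ) := by
    have h1 : (Module.finrank ℚ K : ℝ) = ∑ w : InfinitePlace K, (w.mult : ℝ) := by
      rw [← Nat.cast_sum, InfinitePlace.sum_mult_eq]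
    rw [h1, Finset.sum_mul]
    exact Finset.sum_le_sum fun w _ => mul_le_mul_of_nonneg_left (hw w) (Nat.cast_nonneg _)
  linarith

open Classical in
theorem bp_points (K : Type*) [Field K] [NumberField K] (e f I J : ℕ) (he : 1 ≤ e) (hf : 1 ≤ f)
    (hI : 1 ≤ I) (hJ : 1 ≤ J) (hJf : J ≤ f) (hIJ : 2 ≤ I * J) (B : ℝ) :
    ∃ C : ℝ, 0 < C ∧ ∀ (A B' : K) (X0 Y0 : Finset (HeightOneSpectrum (𝓞 K)))
      (S : Finset (K × K)), A ≠ 0 → B' ≠ 0 →
      (∀ p ∈ S, p.1 ≠ 0 ∧ p.2 ≠ 0 ∧ p.2 ^ f = A * p.1 ^ e + B') →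
      (∀ p ∈ S, ∀ v, -(if v ∈ X0 then 1 else 0) ≤ ord v p.1 ∧
        -(if v ∈ Y0 then 1 else 0) ≤ ord v p.2) →
      (∀ p ∈ S, ∀ w : InfinitePlace K, |Real.log (w p.1)| ≤ B ∧ |Real.log (w p.2)| ≤ B) →
        (S.card : ℝ) ≤ C * Real.exp
          ((((I : ℝ) - 1) * LN X0 + ((J : ℝ) - 1) * LN Y0) / ((I : ℝ) * J - 1)) := by
  obtain ⟨C, r, hC, hr, hds⟩ := det_small e f I J he hf B
  obtain ⟨G, hG, hgrid⟩ := grid_class K B r hr
  obtain ⟨N, hN⟩ := inter_bound K e f I J he hf hJf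
  have hI' : (1 : ℝ) ≤ I := by exact_mod_cast hI
  have hJ' : (1 : ℝ) ≤ J := by exact_mod_cast hJ
  have hs2 : (2 : ℝ) ≤ (I : ℝ) * J := by exact_mod_cast hIJ
  have hs1 : (0 : ℝ) < (I : ℝ) * J - 1 := by linarith
  have hd0 : 0 < Module.finrank ℚ K := Module.finrank_pos
  set d : ℝ := (Module.finrank ℚ K : ℝ) with hd
  have hdpos : 0 < d := by rw [hd]; exact_mod_cast hd0
  set C1 : ℝ := max 0 (d * Real.log C) + 1 with hC1
  have hC1pos : 0 < C1 := by have := le_max_left 0 (d * Real.log C); linarith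
  have hC1big : d * Real.log C < C1 := by have := le_max_right 0 (d * Real.log C); linarith
  refine ⟨(N + 1) * G ^ Fintype.card (InfinitePlace K) * Real.exp C1, by positivity, ?_⟩
  intro A B' X0 Y0 S hA hB' hcurve hord harch
  set L : ℝ := ((I : ℝ) - 1) * LN X0 + ((J : ℝ) - 1) * LN Y0 with hL
  have hL0 : 0 ≤ L := by
    have h1 := LN_nonneg X0
    have h2 := LN_nonneg Y0
    have h3 : 0 ≤ ((I : ℝ) - 1) * LN X0 := mul_nonneg (by linarith) h1
    have h4 : 0 ≤ ((J : ℝ) - 1) * LN Y0 := mul_nonneg (by linarith) h2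
    linarith
  set ρ : ℝ := Real.exp (-(L / ((I : ℝ) * J - 1) + C1) / d) with hρdef
  have hρ : 0 < ρ := Real.exp_pos _
  have hLs : 0 ≤ L / ((I : ℝ) * J - 1) := div_nonneg hL0 hs1.le
  have hρ1 : ρ ≤ 1 := by
    rw [hρdef, Real.exp_le_one_iff]
    exact div_nonpos_of_nonpos_of_nonneg (by linarith) hdpos.le
  have hlogρ : d * Real.log ρ = -(L / ((I : ℝ) * J - 1) + C1) := by
    rw [hρdef, Real.log_exp]
    field_simp
  have hbig : d * (Real.log C + ((I : ℝ) * J * ((I : ℝ) * J - 1) / 2) * Real.log ρ) +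
      ((I : ℝ) * J / 2) * L < 0 := by
    have h1 : d * (Real.log C + ((I : ℝ) * J * ((I : ℝ) * J - 1) / 2) * Real.log ρ) +
      ((I : ℝ) * J / 2) * L = d * Real.log C +
        ((I : ℝ) * J * ((I : ℝ) * J - 1) / 2) * (d * Real.log ρ) + ((I : ℝ) * J / 2) * L := by
      ring
    rw [h1, hlogρ]
    have h2 : ((I : ℝ) * J * ((I : ℝ) * J - 1) / 2) * (-(L / ((I : ℝ) * J - 1) + C1)) =
        -(((I : ℝ) * J / 2) * L) - ((I : ℝ) * J * ((I : ℝ) * J - 1) / 2) * C1 := by
      field_simp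
      ring
    rw [h2]
    have h3 : (1 : ℝ) ≤ (I : ℝ) * J * ((I : ℝ) * J - 1) / 2 := by nlinarith
    nlinarith
  -- the classes
  choose Nw c hNw hc using fun w : InfinitePlace K => hgrid w ρ hρ hρ1
  let cls : K × K → (∀ w : InfinitePlace K, Fin (Nw w)) := fun p w =>
    if w A ≤ 1 then c w p.1 p.2 else c w p.2 p.1
  have hbd : ∀ z : K, z ≠ 0 → ∀ w : InfinitePlace K, |Real.log (w z)| ≤ B →
      w z ≤ Real.exp B := by
    intro z hz w hzB
    have hzp : 0 < w z := InfinitePlace.pos_iff.2 hz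
    rw [← Real.exp_log hzp]
    exact Real.exp_le_exp.2 (abs_le.1 hzB).2
  have hclose : ∀ p ∈ S, ∀ q ∈ S, cls p = cls q → ∀ w : InfinitePlace K,
      (w A ≤ 1 → w (p.1 - q.1) ≤ ρ ∧ w (p.2 - q.2) ≤ r) ∧
      (¬ w A ≤ 1 → w (p.2 - q.2) ≤ ρ ∧ w (p.1 - q.1) ≤ r) := by
    intro p hp q hq hpq w
    have h1 : cls p w = cls q w := congrFun hpq w
    have hp1 := hbd p.1 (hcurve p hp).1 w (harch p hp w).1
    have hp2 := hbd p.2 (hcurve p hp).2.1 w (harch p hp w).2
    have hq1 := hbd q.1 (hcurve q hq).1 w (harch q hq w).1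
    have hq2 := hbd q.2 (hcurve q hq).2.1 w (harch q hq w).2
    constructor
    · intro hw
      simp only [cls, if_pos hw] at h1
      exact hc w p.1 p.2 q.1 q.2 hp1 hp2 hq1 hq2 h1
    · intro hw
      simp only [cls, if_neg hw] at h1
      exact hc w p.2 p.1 q.2 q.1 hp2 hp1 hq2 hq1 h1
  -- every class has at most N points
  have hfib : ∀ a ∈ (Finset.univ : Finset (∀ w : InfinitePlace K, Fin (Nw w))),
      (S.filter fun p => cls p = a).card ≤ N := by
    intro a _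
    obtain ⟨cc, hcc, hcv⟩ := bpp_lin
      {t : Fin I × Fin J → K | ∃ p ∈ S, cls p = a ∧
        t = fun m => p.1 ^ (m.1 : ℕ) * p.2 ^ (m.2 : ℕ)} (by
      intro g hg
      choose p hpS hpa hpg using hg
      have h0 := bpp_vanish e f I J hIJ hC hds hρ hρ1 A B' X0 Y0 (fun m => (p m).1)
        (fun m => (p m).2) (fun m => ⟨(hcurve _ (hpS m)).1, (hcurve _ (hpS m)).2.1⟩)
        (fun m => (hcurve _ (hpS m)).2.2) (fun m v => hord _ (hpS m) v)
        (fun m w => harch _ (hpS m) w) (fun w => by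
          by_cases hw : w A ≤ 1
          · exact Or.inl ⟨hw, fun m n => (hclose _ (hpS m) _ (hpS n)
              ((hpa m).trans (hpa n).symm) w).1 hw⟩
          · exact Or.inr ⟨(not_le.1 hw).le, fun m n => (hclose _ (hpS m) _ (hpS n)
              ((hpa m).trans (hpa n).symm) w).2 hw⟩) hbig
      rw [← h0]
      congr 1
      ext i m
      simp only [Matrix.of_apply]
      rw [hpg i])
    refine hN A B' hA hB' (fun i l => cc (i, l)) (fun h => hcc ?_) _ ?_
    · ext m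
      exact congrFun (congrFun h m.1) m.2
    · intro p hp
      rw [Finset.mem_filter] at hp
      refine ⟨(hcurve p hp.1).2.2, ?_⟩
      have h1 := hcv _ ⟨p, hp.1, hp.2, rfl⟩
      rw [Fintype.sum_prod_type] at h1
      rw [← h1]
      refine Finset.sum_congr rfl fun i _ => Finset.sum_congr rfl fun l _ => ?_
      ring
  have hcard : S.card ≤ N * (Finset.univ : Finset (∀ w : InfinitePlace K, Fin (Nw w))).card :=
    Finset.card_le_mul_card_image_of_maps_to (fun p _ => Finset.mem_univ (cls p)) N hfib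
  have hcard2 : ((Finset.univ : Finset (∀ w : InfinitePlace K, Fin (Nw w))).card : ℝ) ≤
      G ^ Fintype.card (InfinitePlace K) *
        Real.exp (L / ((I : ℝ) * J - 1) + C1) := by
    rw [Finset.card_univ, Fintype.card_pi]
    simp only [Fintype.card_fin]
    rw [Nat.cast_prod]
    refine (Finset.prod_le_prod (fun w _ => Nat.cast_nonneg _) fun w _ => hNw w).trans
      (le_of_eq ?_)
    rw [Finset.prod_mul_distrib, Finset.prod_const, Finset.card_univ, Finset.prod_pow_eq_pow_sum,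
      InfinitePlace.sum_mult_eq]
    congr 1
    rw [← Real.exp_log (inv_pos.2 hρ), ← Real.exp_nat_mul, Real.log_inv, mul_neg, hlogρ, neg_neg]
  calc (S.card : ℝ) ≤ (N : ℝ) *
        ((Finset.univ : Finset (∀ w : InfinitePlace K, Fin (Nw w))).card : ℝ) := by
        exact_mod_cast hcard
    _ ≤ ((N : ℝ) + 1) * (G ^ Fintype.card (InfinitePlace K) *
        Real.exp (L / ((I : ℝ) * J - 1) + C1)) :=
        mul_le_mul (by linarith) hcard2 (Nat.cast_nonneg _) (by positivity)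
    _ = _ := by rw [Real.exp_add]; ring

end main

end Pool.Agent.AbcF
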