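import Mathlib
import Pool.Agent.AbcF.Defs
import Pool.Agent.AbcF.Balanced
import Pool.Agent.AbcF.Parts
import Pool.Agent.AbcF.Points

/-!
The count of one cell by the determinant method: the elements of the cell lie on finitely many
curves `v ^ f = A * u ^ e + B`.
-/

namespace Pool.Agent.AbcF

open NumberField IsDedekindDomain Pool.Agent.H7.Abc Pool.Agent.AbcE

namespace CellBPAux

variable {K : Type*} [Field K] [NumberField K]

open Classical in
theorem ord_eq (e f : ℕ) (he : 1 ≤ e) (hf : 1 ≤ f) {y : K} (hy : y ≠ 0)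
    (v : HeightOneSpectrum (𝓞 K)) :
    ord v y = kf (TB e f) y v + (e : ℤ) * (if v ∈ Zs y e then 1 else 0) -
      (f : ℤ) * (if v ∈ Zs y⁻¹ f then 1 else 0) := by
  have h1 := mem_Zs hy he v
  have h2 := mem_Zs (inv_ne_zero hy) hf v
  rw [tc_ord_inv v hy] at h2
  unfold kf
  simp only [TB, Set.mem_singleton_iff]
  by_cases hX : v ∈ Zs y e
  · have h3 := h1.1 hX
    have h4 : v ∉ Zs y⁻¹ f := fun h => by
      have := h2.1 h
      omega
    rw [if_pos hX, if_neg h4, if_pos (Or.inl ⟨by omega, by omega⟩)]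
    omega
  · by_cases hY : v ∈ Zs y⁻¹ f
    · have h3 := h2.1 hY
      rw [if_neg hX, if_pos hY, if_pos (Or.inr ⟨by omega, by omega⟩)]
      omega
    · have h3 : ord v y ≠ e := fun h => hX (h1.2 h)
      have h4 : -ord v y ≠ f := fun h => hY (h2.2 h)
      rw [if_neg hX, if_neg hY, if_neg]
      · omega
      · rintro (⟨a, b⟩ | ⟨a, b⟩)
        · omega
        · omega

open Classical in
theorem ord_sub_eq (e f : ℕ) (he : 1 ≤ e) (hf : 1 ≤ f) {y : K} (hy : y ≠ 0) (hy1 : y ≠ 1)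
    (v : HeightOneSpectrum (𝓞 K)) :
    ord v (y - 1) = jf (TB e f) y v + min 0 (kf (TB e f) y v) -
      (f : ℤ) * (if v ∈ Zs y⁻¹ f then 1 else 0) := by
  have h0 := ord_eq e f he hf hy v
  obtain ⟨a1, a2, a3, a4⟩ := RolesAux.ord_sub_one v hy hy1
  have h1 := mem_Zs hy he v
  have h2 := mem_Zs (inv_ne_zero hy) hf v
  rw [tc_ord_inv v hy] at h2
  have hj : jf (TB e f) y v = max 0 (ord v (y - 1)) := by
    unfold jf
    simp only [TB, Set.mem_empty_iff_false, not_false_eq_true, and_true]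
    split_ifs with h
    · rw [max_eq_right h.le]
    · rw [max_eq_left (by omega)]
  rw [hj]
  have hmin : min 0 (ord v y) = min 0 (kf (TB e f) y v) -
      (f : ℤ) * (if v ∈ Zs y⁻¹ f then 1 else 0) := by
    by_cases hX : v ∈ Zs y e
    · have h3 := h1.1 hX
      have h4 : v ∉ Zs y⁻¹ f := fun h => by
        have := h2.1 h
        omega
      rw [if_pos hX, if_neg h4] at h0
      rw [if_neg h4]
      have : kf (TB e f) y v = 0 := by omega
      rw [this]
      omega
    · by_cases hY : v ∈ Zs y⁻¹ f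
      · have h3 := h2.1 hY
        rw [if_neg hX, if_pos hY] at h0
        rw [if_pos hY]
        have : kf (TB e f) y v = 0 := by omega
        rw [this]
        omega
      · rw [if_neg hX, if_neg hY] at h0
        rw [if_neg hY]
        omega
  have hmin2 : min 0 (ord v (y - 1)) = min 0 (ord v y) := by
    rcases lt_or_ge (ord v y) 0 with h | h
    · rw [a1 h]
    · rcases lt_or_ge (ord v (y - 1)) 0 with h' | h'
      · rw [a2 h']
      · omega
  omega

theorem LN_Zs_le {n : ℕ} (hn : 1 ≤ n) {y : K} (hy : y ≠ 0) : LN (Zs y n) ≤ 2 * hgt y := by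
  refine le_trans ?_ (sum_abs_ord_le hy (Zs y n))
  unfold LN
  refine Finset.sum_le_sum fun v hv => ?_
  have h := (mem_Zs hy hn v).1 hv
  have h1 : (1 : ℝ) ≤ |(ord v y : ℝ)| := by
    rw [h]
    have : (1 : ℝ) ≤ (n : ℝ) := by exact_mod_cast hn
    rw [Int.cast_natCast, abs_of_nonneg (by positivity)]
    exact this
  have h2 := tc_ln_pos v
  show ln v ≤ |(ord v y : ℝ)| * ln v
  nlinarith

theorem card_le_of_maps {α β : Type*} [DecidableEq β] (P : Finset α) (Q : Finset β) (g : α → β)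
    (hg : ∀ a ∈ P, g a ∈ Q) (c : ℝ) (hc : ∀ b ∈ Q, ((P.filter (fun a => g a = b)).card : ℝ) ≤ c) :
    (P.card : ℝ) ≤ Q.card * c := by
  rw [Finset.card_eq_sum_card_fiberwise (f := g) (t := Q) (s := P) (fun a ha => hg a ha),
    Nat.cast_sum]
  refine (Finset.sum_le_sum fun b hb => hc b hb).trans ?_
  rw [Finset.sum_const, nsmul_eq_mul]

end CellBPAux

open CellBPAux

theorem cell_bp (K : Type*) [Field K] [NumberField K] (e f I J : ℕ) (he : 1 ≤ e) (hf : 1 ≤ f)
    (hI : 1 ≤ I) (hJ : 1 ≤ J) (hJf : J ≤ f) (hIJ : 2 ≤ I * J) {δ : ℝ} (hδ : 0 < δ) :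
    ∃ C : ℝ, 0 < C ∧ ∀ (D W : ℝ) (P : Finset K) (y0 : K), 0 ≤ D → y0 ∈ P →
      (∀ y ∈ P, y ≠ 0 ∧ y ≠ 1 ∧ hgt y ≤ D ∧ Ob e f I J y ≤ W) → SameData (TB e f) P y0 →
        (P.card : ℝ) ≤ C * Real.exp (δ * D) * Real.exp W := by
  classical
  obtain ⟨C0, M, cl, hC0, hbal⟩ := balanced K
  set B1 : ℝ := 1 + f * C0 + e * C0 with hB1
  have hU := units_bdd K B1
  set U : Finset K := hU.toFinset with hUdef
  obtain ⟨C1, hC1, hbp⟩ := bp_points K e f I J he hf hI hJ hJf hIJ C0
  obtain ⟨CP, hCP, hP⟩ := tc_poly_le_exp 2 4 (by norm_num) (show 0 < δ / 2 by positivity)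
  refine ⟨(M * M * CP) * ((U.card : ℝ) * U.card * C1) + 1, by positivity,
    fun D W P y0 hD hy0 hPy hSD => ?_⟩
  -- the classes
  set κ : K → (Fin M × Fin M) × (Fin 2 → ℤ) := fun y =>
    ((cl (Zs y e), cl (Zs y⁻¹ f)), ![⌊LN (Zs y e)⌋, ⌊LN (Zs y⁻¹ f)⌋]) with hκ
  set Q : Finset (Fin 2 → ℤ) :=
    Fintype.piFinset (fun _ : Fin 2 => Finset.Icc (-⌈2 * D⌉ - 1) ⌈2 * D⌉) with hQ
  set R : Finset ((Fin M × Fin M) × (Fin 2 → ℤ)) := Finset.univ ×ˢ Q with hR
  have hRc : (R.card : ℝ) ≤ M * M * (CP * Real.exp (δ * D)) := by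
    rw [hR, Finset.card_product, Nat.cast_mul, Finset.card_univ, Fintype.card_prod,
      Fintype.card_fin, Nat.cast_mul]
    refine mul_le_mul_of_nonneg_left ?_ (by positivity)
    have h1 := tc_card_box (Fin 2) (2 * D) (by positivity)
    rw [Fintype.card_fin] at h1
    have h2 := hP (2 * D) (by positivity)
    have h3 : δ / 2 * (2 * D) = δ * D := by ring
    rw [h3] at h2
    exact h1.trans h2
  have hmaps : ∀ y ∈ P, κ y ∈ R := by
    intro y hy
    obtain ⟨h1, h2, h3, h4⟩ := hPy y hy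
    rw [hR, Finset.mem_product]
    refine ⟨Finset.mem_univ _, ?_⟩
    rw [hQ, Fintype.mem_piFinset]
    have hX := LN_Zs_le he h1
    have hY := LN_Zs_le hf (inv_ne_zero h1)
    rw [hgt_inv] at hY
    intro i
    fin_cases i
    · refine tc_floor_mem (2 * D) _ ?_
      rw [abs_of_nonneg (LN_nonneg _)]
      linarith
    · refine tc_floor_mem (2 * D) _ ?_
      rw [abs_of_nonneg (LN_nonneg _)]
      linarith
  have hclass : ∀ s ∈ R, ((P.filter (fun y => κ y = s)).card : ℝ) ≤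
      ((U.card : ℝ) * U.card) * (C1 * Real.exp W) := by
    intro s hs
    set P' := P.filter (fun y => κ y = s) with hP'
    rcases P'.eq_empty_or_nonempty with h0 | ⟨y1, hy1⟩
    · rw [h0, Finset.card_empty, Nat.cast_zero]
      positivity
    have hP'1 : ∀ y ∈ P', y ∈ P ∧ κ y = s := by
      intro y hy
      rw [hP', Finset.mem_filter] at hy
      exact hy
    obtain ⟨hy1P, hy1s⟩ := hP'1 y1 hy1
    obtain ⟨hy10, hy11, hy1D, hy1W⟩ := hPy y1 hy1P
    have hex : ∀ y ∈ P', ∃ ξ υ : K, (ξ ≠ 0 ∧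
        (∀ v, ord v ξ = (if v ∈ Zs y e then 1 else 0) - (if v ∈ Zs y1 e then 1 else 0)) ∧
        ∀ w : InfinitePlace K, |Real.log (w ξ)| ≤ C0) ∧ (υ ≠ 0 ∧
        (∀ v, ord v υ = (if v ∈ Zs y⁻¹ f then 1 else 0) - (if v ∈ Zs y1⁻¹ f then 1 else 0)) ∧
        ∀ w : InfinitePlace K, |Real.log (w υ)| ≤ C0) := by
      intro y hy
      obtain ⟨hyP, hys⟩ := hP'1 y hy
      have hκe : κ y = κ y1 := hys.trans hy1s.symm
      have e1 : cl (Zs y e) = cl (Zs y1 e) := congrArg (fun z => z.1.1) hκe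
      have e2 : cl (Zs y⁻¹ f) = cl (Zs y1⁻¹ f) := congrArg (fun z => z.1.2) hκe
      have e3 : ⌊LN (Zs y e)⌋ = ⌊LN (Zs y1 e)⌋ := congrArg (fun z => z.2 0) hκe
      have e4 : ⌊LN (Zs y⁻¹ f)⌋ = ⌊LN (Zs y1⁻¹ f)⌋ := congrArg (fun z => z.2 1) hκe
      obtain ⟨ξ, hξ⟩ := hbal _ _ e1 (Int.abs_sub_lt_one_of_floor_eq_floor e3).le
      obtain ⟨υ, hυ⟩ := hbal _ _ e2 (Int.abs_sub_lt_one_of_floor_eq_floor e4).le
      exact ⟨ξ, υ, hξ, hυ⟩
    choose! ξ υ hξυ using hex
    have hy1m : y1 - 1 ≠ 0 := sub_ne_zero.2 hy11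
    set σ : K → K × K := fun y => (y * υ y ^ f / (y1 * ξ y ^ e), (y - 1) * υ y ^ f / (y1 - 1))
      with hσ
    have hσU : ∀ y ∈ P', σ y ∈ U ×ˢ U := by
      intro y hy
      obtain ⟨hyP, hys⟩ := hP'1 y hy
      obtain ⟨hy0', hy1', hyD, hyW⟩ := hPy y hyP
      obtain ⟨⟨x1, x2, x3⟩, ⟨u1, u2, u3⟩⟩ := hξυ y hy
      obtain ⟨k1, k2, k3, k4⟩ := hSD y hyP
      obtain ⟨l1, l2, l3, l4⟩ := hSD y1 hy1P
      have hym : y - 1 ≠ 0 := sub_ne_zero.2 hy1'
      have hξe : ξ y ^ e ≠ 0 := pow_ne_zero _ x1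
      have hυf : υ y ^ f ≠ 0 := pow_ne_zero _ u1
      rw [Finset.mem_product, hUdef, Set.Finite.mem_toFinset, Set.Finite.mem_toFinset]
      refine ⟨⟨div_ne_zero (mul_ne_zero hy0' hυf) (mul_ne_zero hy10 hξe), fun v => ?_,
        fun w => ?_⟩, ⟨div_ne_zero (mul_ne_zero hym hυf) hy1m, fun v => ?_, fun w => ?_⟩⟩
      · show ord v (y * υ y ^ f / (y1 * ξ y ^ e)) = 0
        rw [ord_div v (mul_ne_zero hy0' hυf) (mul_ne_zero hy10 hξe),
          SelmerAux.ord_mul v hy0' hυf, SelmerAux.ord_mul v hy10 hξe, SelmerAux.ord_pow v u1,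
          SelmerAux.ord_pow v x1, x2, u2, ord_eq e f he hf hy0' v, ord_eq e f he hf hy10 v,
          k1 v, l1 v]
        ring
      · show |Real.log (w (y * υ y ^ f / (y1 * ξ y ^ e)))| ≤ B1
        have p1 : 0 < w y := InfinitePlace.pos_iff.2 hy0'
        have p2 : 0 < w y1 := InfinitePlace.pos_iff.2 hy10
        have p3 : 0 < w (ξ y) := InfinitePlace.pos_iff.2 x1
        have p4 : 0 < w (υ y) := InfinitePlace.pos_iff.2 u1
        rw [map_div₀, map_mul, map_mul, map_pow, map_pow, Real.log_div (by positivity)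
          (by positivity), Real.log_mul (by positivity) (by positivity),
          Real.log_mul (by positivity) (by positivity), Real.log_pow, Real.log_pow]
        have q1 := (Int.abs_sub_lt_one_of_floor_eq_floor ((k3 w).trans (l3 w).symm)).le
        have q2 := abs_le.1 (x3 w)
        have q3 := abs_le.1 (u3 w)
        have q4 := abs_le.1 q1
        have ef0 : (0 : ℝ) ≤ e := Nat.cast_nonneg _
        have ff0 : (0 : ℝ) ≤ f := Nat.cast_nonneg _
        have r1 := mul_le_mul_of_nonneg_left q2.1 ef0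
        have r2 := mul_le_mul_of_nonneg_left q2.2 ef0
        have r3 := mul_le_mul_of_nonneg_left q3.1 ff0
        have r4 := mul_le_mul_of_nonneg_left q3.2 ff0
        rw [abs_le, hB1]
        constructor <;> linarith
      · show ord v ((y - 1) * υ y ^ f / (y1 - 1)) = 0
        rw [ord_div v (mul_ne_zero hym hυf) hy1m, SelmerAux.ord_mul v hym hυf,
          SelmerAux.ord_pow v u1, u2, ord_sub_eq e f he hf hy0' hy1' v,
          ord_sub_eq e f he hf hy10 hy11 v, k1 v, l1 v, k2 v, l2 v]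
        ring
      · show |Real.log (w ((y - 1) * υ y ^ f / (y1 - 1)))| ≤ B1
        have p1 : 0 < w (y - 1) := InfinitePlace.pos_iff.2 hym
        have p2 : 0 < w (y1 - 1) := InfinitePlace.pos_iff.2 hy1m
        have p4 : 0 < w (υ y) := InfinitePlace.pos_iff.2 u1
        rw [map_div₀, map_mul, map_pow, Real.log_div (by positivity)
          (by positivity), Real.log_mul (by positivity) (by positivity), Real.log_pow]
        have q1 := (Int.abs_sub_lt_one_of_floor_eq_floor ((k4 w).trans (l4 w).symm)).le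
        have q3 := abs_le.1 (u3 w)
        have q4 := abs_le.1 q1
        have ef0 : (0 : ℝ) ≤ e := Nat.cast_nonneg _
        have ff0 : (0 : ℝ) ≤ f := Nat.cast_nonneg _
        have r0 : 0 ≤ (e : ℝ) * C0 := mul_nonneg ef0 hC0.le
        have r3 := mul_le_mul_of_nonneg_left q3.1 ff0
        have r4 := mul_le_mul_of_nonneg_left q3.2 ff0
        rw [abs_le, hB1]
        constructor <;> linarith
    have hfib : ∀ b ∈ U ×ˢ U, ((P'.filter (fun y => σ y = b)).card : ℝ) ≤
        C1 * Real.exp W := by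
      intro b hb
      rw [Finset.mem_product, hUdef, Set.Finite.mem_toFinset, Set.Finite.mem_toFinset] at hb
      obtain ⟨⟨b10, -, -⟩, ⟨b20, -, -⟩⟩ := hb
      set P'' := P'.filter (fun y => σ y = b) with hP''
      have hP''1 : ∀ y ∈ P'', y ∈ P' ∧ σ y = b := by
        intro y hy
        rw [hP'', Finset.mem_filter] at hy
        exact hy
      have hinj : Set.InjOn (fun y => (ξ y, υ y)) (P'' : Set K) := by
        intro y hy z hz hyz
        obtain ⟨hyP', hyb⟩ := hP''1 y hy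
        obtain ⟨hzP', hzb⟩ := hP''1 z hz
        obtain ⟨⟨x1, -, -⟩, ⟨u1, -, -⟩⟩ := hξυ y hyP'
        have e1 : ξ y = ξ z := congrArg Prod.fst hyz
        have e2 : υ y = υ z := congrArg Prod.snd hyz
        have e3 : y * υ y ^ f / (y1 * ξ y ^ e) = z * υ z ^ f / (y1 * ξ z ^ e) :=
          (congrArg Prod.fst hyb).trans (congrArg Prod.fst hzb).symm
        rw [← e1, ← e2] at e3
        have hξe : ξ y ^ e ≠ 0 := pow_ne_zero _ x1
        have hυf : υ y ^ f ≠ 0 := pow_ne_zero _ u1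
        have h5 : y1 * ξ y ^ e ≠ 0 := mul_ne_zero hy10 hξe
        rw [div_left_inj' h5] at e3
        exact mul_right_cancel₀ hυf e3
      rw [← Finset.card_image_of_injOn hinj]
      refine (hbp (y1 * b.1) (-((y1 - 1) * b.2)) (Zs y1 e) (Zs y1⁻¹ f) _ (mul_ne_zero hy10 b10)
        (neg_ne_zero.2 (mul_ne_zero hy1m b20)) ?_ ?_ ?_).trans ?_
      · intro p hp
        obtain ⟨y, hy, rfl⟩ := Finset.mem_image.1 hp
        obtain ⟨hyP', hyb⟩ := hP''1 y hy
        obtain ⟨⟨x1, -, -⟩, ⟨u1, -, -⟩⟩ := hξυ y hyP'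
        have hξe : ξ y ^ e ≠ 0 := pow_ne_zero _ x1
        refine ⟨x1, u1, ?_⟩
        show υ y ^ f = y1 * b.1 * ξ y ^ e + -((y1 - 1) * b.2)
        rw [← hyb, hσ]
        field_simp
        ring
      · intro p hp v
        obtain ⟨y, hy, rfl⟩ := Finset.mem_image.1 hp
        obtain ⟨hyP', hyb⟩ := hP''1 y hy
        obtain ⟨⟨x1, x2, -⟩, ⟨u1, u2, -⟩⟩ := hξυ y hyP'
        show -(if v ∈ Zs y1 e then 1 else 0) ≤ ord v (ξ y) ∧
          -(if v ∈ Zs y1⁻¹ f then 1 else 0) ≤ ord v (υ y)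
        rw [x2, u2]
        constructor <;> split_ifs <;> norm_num
      · intro p hp w
        obtain ⟨y, hy, rfl⟩ := Finset.mem_image.1 hp
        obtain ⟨hyP', hyb⟩ := hP''1 y hy
        obtain ⟨⟨-, -, x3⟩, ⟨-, -, u3⟩⟩ := hξυ y hyP'
        exact ⟨x3 w, u3 w⟩
      · refine mul_le_mul_of_nonneg_left (Real.exp_le_exp.2 ?_) hC1.le
        have h1 := hy1W
        unfold Ob at h1
        rw [rd_single hy10 he, rd_single (inv_ne_zero hy10) hf] at h1
        exact h1
    have h := card_le_of_maps P' (U ×ˢ U) σ hσU _ hfib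
    rw [Finset.card_product, Nat.cast_mul] at h
    exact h
  have h := card_le_of_maps P R κ hmaps _ hclass
  refine h.trans ?_
  have hE1 := Real.exp_pos (δ * D)
  have hE2 := Real.exp_pos W
  calc (R.card : ℝ) * (((U.card : ℝ) * U.card) * (C1 * Real.exp W)) ≤
      (M * M * (CP * Real.exp (δ * D))) * (((U.card : ℝ) * U.card) * (C1 * Real.exp W)) :=
        mul_le_mul_of_nonneg_right hRc (by positivity)
    _ = ((M * M * CP) * ((U.card : ℝ) * U.card * C1)) * Real.exp (δ * D) * Real.exp W := by ring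
    _ ≤ _ := by
        refine mul_le_mul_of_nonneg_right (mul_le_mul_of_nonneg_right ?_ hE1.le) hE2.le
        linarith

end Pool.Agent.AbcF
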