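import Mathlib
import Pool.Agent.AbcF.Defs

/-!
Hoelder's inequality for the number of solutions of a multiplicative equation, in terms of the
multiplicative energies.
-/

namespace Pool.Agent.AbcF

section kraft

variable {R : Type*} [CommMonoid R]

/-- A family of functions which is submultiplicative with a shift: pairing up the entries. -/
theorem kraft_pair (n : ℕ → R → ℝ) (hn0 : ∀ k x, 0 ≤ n k x)
    (h1 : ∀ k, n k 1 ≤ 1) (hm : ∀ k x y, n k (x * y) ≤ n (k + 1) x * n (k + 1) y) (k : ℕ) :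
    ∀ t : List R, ∃ t' : List R, 2 * t'.length ≤ t.length + 1 ∧ t'.prod = t.prod ∧
      (t'.map (n k)).prod ≤ (t.map (n (k + 1))).prod
  | [] => ⟨[], by simp, by simp, by simp⟩
  | [a] => ⟨[a], by simp, by simp, by
      have h := hm k a 1
      rw [mul_one] at h
      have h2 : n (k + 1) a * n (k + 1) 1 ≤ n (k + 1) a * 1 :=
        mul_le_mul_of_nonneg_left (h1 _) (hn0 _ _)
      simp only [List.map_cons, List.map_nil, List.prod_cons, List.prod_nil, mul_one]
      linarith⟩
  | a :: b :: l => by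
      obtain ⟨t', h1', h2', h3'⟩ := kraft_pair n hn0 h1 hm k l
      refine ⟨(a * b) :: t', ?_, ?_, ?_⟩
      · simp only [List.length_cons]; omega
      · simp only [List.prod_cons, h2', mul_assoc]
      · simp only [List.map_cons, List.prod_cons, ← mul_assoc]
        refine mul_le_mul (hm k a b) h3' ?_ (mul_nonneg (hn0 _ _) (hn0 _ _))
        exact List.prod_nonneg (by
          intro x hx
          obtain ⟨y, _, rfl⟩ := List.mem_map.mp hx
          exact hn0 _ _)

/-- The generalised Hoelder inequality for a family of functions which is submultiplicative with a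
shift. -/
theorem kraft (n : ℕ → R → ℝ) (hn0 : ∀ k x, 0 ≤ n k x)
    (h1 : ∀ k, n k 1 ≤ 1) (hm : ∀ k x y, n k (x * y) ≤ n (k + 1) x * n (k + 1) y)
    {ι : Type*} (x : ι → R) (e : ι → ℕ) :
    ∀ (M : ℕ) (s : Finset ι) (t : List R), (∀ i ∈ s, e i ≤ M) →
      (∑ i ∈ s, 2 ^ (M - e i)) + t.length ≤ 2 ^ M →
      n 0 ((∏ i ∈ s, x i) * t.prod) ≤ (∏ i ∈ s, n (e i) (x i)) * (t.map (n M)).prod := by
  classical
  intro M
  induction M with
  | zero =>
    intro s t hs hsum
    have hc : (∑ i ∈ s, 2 ^ (0 - e i)) = s.card := by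
      rw [Finset.card_eq_sum_ones]
      refine Finset.sum_congr rfl fun i _ => by simp
    rw [hc, pow_zero] at hsum
    rcases Finset.eq_empty_or_nonempty s with rfl | hne
    · rcases t with _ | ⟨a, _ | ⟨b, l⟩⟩
      · simpa using h1 0
      · simp
      · simp only [Finset.card_empty, List.length_cons] at hsum; omega
    · have hc1 : 1 ≤ s.card := Finset.card_pos.mpr hne
      have hs1 : s.card = 1 := by omega
      obtain ⟨i, rfl⟩ := Finset.card_eq_one.mp hs1
      have ht : t = [] := by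
        rw [← List.length_eq_zero_iff]; omega
      subst ht
      have he : e i = 0 := Nat.le_zero.mp (hs i (Finset.mem_singleton_self i))
      simp [he]
  | succ M ih =>
    intro s t hs hsum
    set s1 := s.filter (fun i => e i = M + 1) with hs1
    set s2 := s.filter (fun i => ¬ e i = M + 1) with hs2
    obtain ⟨t', hl, hp, hn⟩ := kraft_pair n hn0 h1 hm M ((s1.toList.map x) ++ t)
    have hsplit : ∀ f : ι → ℕ, (∑ i ∈ s1, f i) + (∑ i ∈ s2, f i) = ∑ i ∈ s, f i :=
      fun f => Finset.sum_filter_add_sum_filter_not s _ f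
    have hlen : ((s1.toList.map x) ++ t).length = s1.card + t.length := by simp
    have hA : ∑ i ∈ s1, 2 ^ (M + 1 - e i) = s1.card := by
      rw [Finset.card_eq_sum_ones]
      refine Finset.sum_congr rfl fun i hi => ?_
      rw [(Finset.mem_filter.mp hi).2]; simp
    have hB : ∑ i ∈ s2, 2 ^ (M + 1 - e i) = 2 * ∑ i ∈ s2, 2 ^ (M - e i) := by
      rw [Finset.mul_sum]
      refine Finset.sum_congr rfl fun i hi => ?_
      have h := Finset.mem_filter.mp hi
      have h2 := hs i h.1
      have h3 : M + 1 - e i = (M - e i) + 1 := by omega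
      rw [h3, pow_succ]; ring
    have hs2M : ∀ i ∈ s2, e i ≤ M := by
      intro i hi
      have h := Finset.mem_filter.mp hi
      have h2 := hs i h.1
      omega
    have hsum2 : (∑ i ∈ s2, 2 ^ (M - e i)) + t'.length ≤ 2 ^ M := by
      have h := hsplit (fun i => 2 ^ (M + 1 - e i))
      rw [hA, hB] at h
      rw [← h] at hsum
      rw [hlen] at hl
      have hpw : (2 : ℕ) ^ (M + 1) = 2 * 2 ^ M := by rw [pow_succ]; ring
      rw [hpw] at hsum
      omega
    have key := ih s2 t' hs2M hsum2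
    have e1 : (∏ i ∈ s, x i) * t.prod = (∏ i ∈ s2, x i) * t'.prod := by
      rw [hp, List.prod_append, Finset.prod_map_toList, ← mul_assoc,
        mul_comm (∏ i ∈ s2, x i), Finset.prod_filter_mul_prod_filter_not]
    have e2 : (∏ i ∈ s, n (e i) (x i)) =
        (∏ i ∈ s1, n (M + 1) (x i)) * ∏ i ∈ s2, n (e i) (x i) := by
      rw [← Finset.prod_filter_mul_prod_filter_not s (fun i => e i = M + 1)]
      congr 1
      refine Finset.prod_congr rfl fun i hi => ?_
      rw [(Finset.mem_filter.mp hi).2]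
    have e3 : (((s1.toList.map x) ++ t).map (n (M + 1))).prod =
        (∏ i ∈ s1, n (M + 1) (x i)) * (t.map (n (M + 1))).prod := by
      rw [List.map_append, List.prod_append, List.map_map]
      congr 1
      exact Finset.prod_map_toList s1 (fun i => n (M + 1) (x i))
    rw [e1]
    refine key.trans ?_
    have h5 : 0 ≤ ∏ i ∈ s2, n (e i) (x i) := Finset.prod_nonneg fun i _ => hn0 _ _
    calc (∏ i ∈ s2, n (e i) (x i)) * (t'.map (n M)).prod
        ≤ (∏ i ∈ s2, n (e i) (x i)) *
          ((∏ i ∈ s1, n (M + 1) (x i)) * (t.map (n (M + 1))).prod) := by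
            refine mul_le_mul_of_nonneg_left ?_ h5
            rw [← e3]; exact hn
      _ = _ := by rw [e2]; ring

end kraft

section cauchy

variable {G : Type*} [CommGroup G]

/-- The involution of the group algebra. -/
noncomputable def st (G : Type*) [CommGroup G] : MonoidAlgebra ℝ G →+* MonoidAlgebra ℝ G :=
  MonoidAlgebra.mapDomainRingHom ℝ (invMonoidHom : G →* G)

theorem st_coeff (F : MonoidAlgebra ℝ G) (g : G) : (st G F).coeff g = F.coeff g⁻¹ := by
  have h : (st G F).coeff = Finsupp.mapDomain (invMonoidHom : G →* G) F.coeff := rfl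
  rw [h]
  have h2 : g = (invMonoidHom : G →* G) g⁻¹ := by simp
  conv_lhs => rw [h2]
  exact Finsupp.mapDomain_apply (by intro a b hab; simpa using hab) _ _

theorem st_st (F : MonoidAlgebra ℝ G) : st G (st G F) = F := by
  apply MonoidAlgebra.ext
  apply Finsupp.ext
  intro g
  rw [st_coeff, st_coeff, inv_inv]

/-- The pairing of the group algebra. -/
noncomputable def ip (F H : MonoidAlgebra ℝ G) : ℝ := (F * st G H).coeff 1

theorem ip_eq (F H : MonoidAlgebra ℝ G) (s : Finset G) (hs : F.coeff.support ⊆ s) :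
    ip F H = ∑ g ∈ s, F.coeff g * H.coeff g := by
  unfold ip
  rw [MonoidAlgebra.coeff_mul_apply_left, Finsupp.sum_of_support_subset _ hs _ (by simp)]
  refine Finset.sum_congr rfl fun g _ => ?_
  rw [mul_one, st_coeff, inv_inv]

theorem ip_self_nonneg (F : MonoidAlgebra ℝ G) : 0 ≤ ip F F := by
  rw [ip_eq F F _ (Finset.Subset.refl _)]
  exact Finset.sum_nonneg fun g _ => mul_self_nonneg _

theorem ip_sq_le (F H : MonoidAlgebra ℝ G) : ip F H ^ 2 ≤ ip F F * ip H H := by
  classical
  rw [ip_eq F H (F.coeff.support ∪ H.coeff.support) Finset.subset_union_left,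
    ip_eq F F (F.coeff.support ∪ H.coeff.support) Finset.subset_union_left,
    ip_eq H H (F.coeff.support ∪ H.coeff.support) Finset.subset_union_right]
  have h := Finset.sum_mul_sq_le_sq_mul_sq (F.coeff.support ∪ H.coeff.support)
    (fun g => F.coeff g) (fun g => H.coeff g)
  simpa [sq] using h

/-- The square of the `L^2` norm. -/
noncomputable def nrm (F : MonoidAlgebra ℝ G) : ℝ := ip F F

theorem nrm_mul_sq_le (F H : MonoidAlgebra ℝ G) :
    nrm (F * H) ^ 2 ≤ nrm (F ^ 2) * nrm (H ^ 2) := by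
  have e1 : nrm (F * H) = ip (F * st G F) (H * st G H) := by
    have h : (F * H) * st G (F * H) = (F * st G F) * st G (H * st G H) := by
      rw [map_mul, map_mul, st_st]
      ring
    unfold nrm ip
    rw [h]
  have e2 : ∀ F : MonoidAlgebra ℝ G, nrm (F ^ 2) = ip (F * st G F) (F * st G F) := by
    intro F
    have h : F ^ 2 * st G (F ^ 2) = (F * st G F) * st G (F * st G F) := by
      rw [map_mul, st_st, map_pow]
      ring
    unfold nrm ip
    rw [h]
  rw [e1, e2, e2]
  exact ip_sq_le _ _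

/-- The norms which are submultiplicative with a shift. -/
noncomputable def nn (q : G) : ℕ → MonoidAlgebra ℝ G → ℝ
  | 0, F => |F.coeff q|
  | m + 1, F => nrm (F ^ (2 ^ m)) ^ ((1 : ℝ) / 2 ^ (m + 1))

theorem nn_nonneg (q : G) (k : ℕ) (F : MonoidAlgebra ℝ G) : 0 ≤ nn q k F := by
  cases k with
  | zero => exact abs_nonneg _
  | succ m => exact Real.rpow_nonneg (ip_self_nonneg _) _

theorem st_of (g : G) : st G (MonoidAlgebra.of ℝ G g) = MonoidAlgebra.of ℝ G g⁻¹ := by
  unfold st
  simp [MonoidAlgebra.mapDomainRingHom_apply]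

theorem nrm_mul_of (F : MonoidAlgebra ℝ G) (g : G) : nrm (F * MonoidAlgebra.of ℝ G g) = nrm F := by
  have h : F * MonoidAlgebra.of ℝ G g * st G (F * MonoidAlgebra.of ℝ G g) = F * st G F := by
    have h1 : MonoidAlgebra.of ℝ G g * MonoidAlgebra.of ℝ G g⁻¹ = 1 := by
      rw [← map_mul, mul_inv_cancel, map_one]
    rw [map_mul, st_of]
    calc F * MonoidAlgebra.of ℝ G g * (st G F * MonoidAlgebra.of ℝ G g⁻¹)
        = F * st G F * (MonoidAlgebra.of ℝ G g * MonoidAlgebra.of ℝ G g⁻¹) := by ring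
      _ = F * st G F := by rw [h1, mul_one]
  unfold nrm ip
  rw [h]

theorem nrm_one : nrm (1 : MonoidAlgebra ℝ G) = 1 := by
  unfold nrm ip
  rw [(st G).map_one, mul_one]
  simp [MonoidAlgebra.one_def]

theorem nn_one (q : G) (k : ℕ) : nn q k (1 : MonoidAlgebra ℝ G) ≤ 1 := by
  classical
  cases k with
  | zero =>
    show |(1 : MonoidAlgebra ℝ G).coeff q| ≤ 1
    rw [MonoidAlgebra.one_def, MonoidAlgebra.coeff_single, Finsupp.single_apply]
    split_ifs <;> simp
  | succ m =>
    show nrm ((1 : MonoidAlgebra ℝ G) ^ (2 ^ m)) ^ ((1 : ℝ) / 2 ^ (m + 1)) ≤ 1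
    rw [one_pow, nrm_one, Real.one_rpow]

theorem nn_mul (q : G) (k : ℕ) (F H : MonoidAlgebra ℝ G) :
    nn q k (F * H) ≤ nn q (k + 1) F * nn q (k + 1) H := by
  cases k with
  | zero =>
    show |(F * H).coeff q| ≤ nrm (F ^ (2 ^ 0)) ^ ((1 : ℝ) / 2 ^ (0 + 1)) *
      nrm (H ^ (2 ^ 0)) ^ ((1 : ℝ) / 2 ^ (0 + 1))
    have h1 : (F * H).coeff q = ip F (st G (H * MonoidAlgebra.of ℝ G q⁻¹)) := by
      unfold ip
      rw [st_st, ← mul_assoc, MonoidAlgebra.of_apply, MonoidAlgebra.coeff_mul_single_apply]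
      simp
    have h2 : nrm (st G (H * MonoidAlgebra.of ℝ G q⁻¹)) = nrm H := by
      rw [← nrm_mul_of H q⁻¹]
      unfold nrm ip
      rw [st_st, mul_comm]
    have h3 := ip_sq_le F (st G (H * MonoidAlgebra.of ℝ G q⁻¹))
    have h4 : ip (st G (H * MonoidAlgebra.of ℝ G q⁻¹)) (st G (H * MonoidAlgebra.of ℝ G q⁻¹)) =
      nrm H := h2
    rw [h4] at h3
    rw [h1]
    simp only [pow_zero, pow_one, zero_add, ← Real.sqrt_eq_rpow]
    rw [← Real.sqrt_mul (show 0 ≤ nrm F from ip_self_nonneg F)]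
    exact Real.abs_le_sqrt h3
  | succ m =>
    show nrm ((F * H) ^ (2 ^ m)) ^ ((1 : ℝ) / 2 ^ (m + 1)) ≤
      nrm (F ^ (2 ^ (m + 1))) ^ ((1 : ℝ) / 2 ^ (m + 1 + 1)) *
        nrm (H ^ (2 ^ (m + 1))) ^ ((1 : ℝ) / 2 ^ (m + 1 + 1))
    have h1 := nrm_mul_sq_le (F ^ (2 ^ m)) (H ^ (2 ^ m))
    rw [← mul_pow, ← pow_mul, ← pow_mul, ← pow_succ] at h1
    have h0 : 0 ≤ nrm ((F * H) ^ (2 ^ m)) := ip_self_nonneg _
    have hF : 0 ≤ nrm (F ^ (2 ^ (m + 1))) := ip_self_nonneg _
    have hH : 0 ≤ nrm (H ^ (2 ^ (m + 1))) := ip_self_nonneg _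
    rw [← Real.mul_rpow hF hH]
    calc nrm ((F * H) ^ (2 ^ m)) ^ ((1 : ℝ) / 2 ^ (m + 1))
        = (nrm ((F * H) ^ (2 ^ m)) ^ 2) ^ ((1 : ℝ) / 2 ^ (m + 1 + 1)) := by
          rw [← Real.rpow_natCast (nrm ((F * H) ^ (2 ^ m))) 2, ← Real.rpow_mul h0]
          congr 1
          rw [pow_succ (2 : ℝ) (m + 1)]
          push_cast
          field_simp
      _ ≤ _ := Real.rpow_le_rpow (by positivity) h1 (by positivity)

end cauchy

section energy

variable {α G : Type*} [CommGroup G]

/-- The element of the group algebra of a finite family. -/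
noncomputable def fam (A : Finset α) (u : α → G) : MonoidAlgebra ℝ G :=
  ∑ a ∈ A, MonoidAlgebra.of ℝ G (u a)

theorem prod_fam {ι : Type*} [Fintype ι] [DecidableEq ι] (A : ι → Finset α) (u : ι → α → G) :
    ∏ i, fam (A i) (u i) = fam (Fintype.piFinset A) (fun x => ∏ i, u i (x i)) := by
  unfold fam
  rw [Finset.prod_univ_sum]
  refine Finset.sum_congr rfl fun x _ => ?_
  rw [map_prod]

theorem fam_pow (A : Finset α) (u : α → G) (k : ℕ) :
    fam A u ^ k = fam (Fintype.piFinset fun _ : Fin k => A) (fun x => ∏ l, u (x l)) := by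
  rw [← prod_fam (fun _ : Fin k => A) (fun _ => u), Finset.prod_const, Finset.card_univ,
    Fintype.card_fin]

theorem coeff_sum_of {β : Type*} (X : Finset β) (w : β → G) (g : G) [DecidableEq G] :
    (∑ a ∈ X, MonoidAlgebra.of ℝ G (w a)).coeff g = ((X.filter (fun a => w a = g)).card : ℝ) := by
  classical
  induction X using Finset.induction_on with
  | empty => simp
  | insert a X ha ih =>
    rw [Finset.sum_insert ha, MonoidAlgebra.coeff_add, Finsupp.add_apply, ih,
      Finset.filter_insert]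
    have h : (MonoidAlgebra.of ℝ G (w a)).coeff g = if w a = g then 1 else 0 := by
      rw [MonoidAlgebra.of_apply, MonoidAlgebra.coeff_single, Finsupp.single_apply]
    rw [h]
    split_ifs with h1
    · rw [Finset.card_insert_of_notMem (by simp [ha])]
      push_cast
      ring
    · simp

open Classical in
theorem nrm_fam (A : Finset α) (u : α → G) :
    nrm (fam A u) = (((A ×ˢ A).filter (fun p => u p.1 = u p.2)).card : ℝ) := by
  unfold nrm ip fam
  have h1 : st G (∑ a ∈ A, MonoidAlgebra.of ℝ G (u a)) =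
      ∑ a ∈ A, MonoidAlgebra.of ℝ G ((u a)⁻¹) := by
    rw [map_sum]
    exact Finset.sum_congr rfl fun a _ => st_of (u a)
  rw [h1, Finset.sum_mul_sum, ← Finset.sum_product']
  have h2 : ∀ p ∈ A ×ˢ A, MonoidAlgebra.of ℝ G (u p.1) * MonoidAlgebra.of ℝ G ((u p.2)⁻¹) =
      MonoidAlgebra.of ℝ G (u p.1 * (u p.2)⁻¹) := fun p _ => by rw [map_mul]
  rw [Finset.sum_congr rfl h2, coeff_sum_of]
  congr 2
  ext p
  simp only [mul_inv_eq_one]

theorem energy_eq_nrm (A : Finset α) (u : α → G) (k : ℕ) :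
    (energy A u k : ℝ) = nrm (fam A u ^ k) := by
  classical
  rw [fam_pow, nrm_fam]
  unfold energy
  congr!

open Classical in
theorem energy_holder {ι α G : Type*} [Fintype ι] [CommGroup G] (A : ι → Finset α)
    (u : ι → α → G) (m : ι → ℕ) (hm : ∑ i, ((1 : ℝ) / 2) ^ m i ≤ 2) (q : G) :
    ((((Fintype.piFinset A).filter (fun x => ∏ i, u i (x i) = q)).card : ℕ) : ℝ) ≤
      ∏ i, (energy (A i) (u i) (2 ^ m i) : ℝ) ^ ((1 : ℝ) / 2 ^ (m i + 1)) := by
  classical
  -- the extra factor `q⁻¹`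
  set M : ℕ := (Finset.univ.sup m) + 1 with hM
  have hle : ∀ i, m i + 1 ≤ M := fun i =>
    Nat.succ_le_succ (Finset.le_sup (f := m) (Finset.mem_univ i))
  have hnat : (∑ i : ι, 2 ^ (M - (m i + 1))) + ([] : List (MonoidAlgebra ℝ G)).length ≤ 2 ^ M := by
    have h1 : (((∑ i : ι, 2 ^ (M - (m i + 1)) : ℕ)) : ℝ) ≤ ((2 ^ M : ℕ) : ℝ) := by
      push_cast
      have h2 : ∀ i ∈ (Finset.univ : Finset ι), (2 : ℝ) ^ (M - (m i + 1)) =
          2 ^ M / 2 * ((1 : ℝ) / 2) ^ m i := by
        intro i _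
        have h3 : (2 : ℝ) ^ M = 2 ^ (M - (m i + 1)) * 2 ^ (m i + 1) := by
          rw [← pow_add]; congr 1; have := hle i; omega
        rw [h3, pow_succ, one_div, inv_pow]
        field_simp
      rw [Finset.sum_congr rfl h2, ← Finset.mul_sum]
      have h4 : (0 : ℝ) ≤ 2 ^ M / 2 := by positivity
      nlinarith [mul_le_mul_of_nonneg_left hm h4]
    have h5 := Nat.cast_le.mp h1
    simpa using h5
  have key := kraft (nn q) (nn_nonneg q) (nn_one q) (nn_mul q) (fun i => fam (A i) (u i))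
    (fun i => m i + 1) M Finset.univ [] (fun i _ => hle i) hnat
  simp only [List.prod_nil, mul_one, List.map_nil] at key
  have hL : nn q 0 (∏ i, fam (A i) (u i)) =
      ((((Fintype.piFinset A).filter (fun x => ∏ i, u i (x i) = q)).card : ℕ) : ℝ) := by
    rw [prod_fam]
    show |(∑ x ∈ Fintype.piFinset A, MonoidAlgebra.of ℝ G (∏ i, u i (x i))).coeff q| = _
    rw [coeff_sum_of, abs_of_nonneg (Nat.cast_nonneg _)]
  have hR : ∀ i ∈ (Finset.univ : Finset ι), nn q (m i + 1) (fam (A i) (u i)) =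
      (energy (A i) (u i) (2 ^ m i) : ℝ) ^ ((1 : ℝ) / 2 ^ (m i + 1)) := by
    intro i _
    rw [energy_eq_nrm]
    rfl
  rw [hL, Finset.prod_congr rfl hR] at key
  exact key

theorem energy_inv {α G : Type*} [CommGroup G] (A : Finset α) (u : α → G) (k : ℕ) :
    energy A (fun a => (u a)⁻¹) k = energy A u k := by
  classical
  unfold energy
  congr 1
  ext p
  simp only [Finset.mem_filter, Finset.prod_inv_distrib, inv_inj]

end energy

end Pool.Agent.AbcF
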