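import Mathlib
import Pool.Agent.AbcF.Defs

/-!
The gap principle for elements whose `e`-th powers are congruent to `1` modulo a divisor.
-/

namespace Pool.Agent.AbcF

open NumberField IsDedekindDomain Pool.Agent.H7.Abc Pool.Agent.AbcE

variable {K : Type*} [Field K] [NumberField K]

open ArchAux in
/-- The grid at an infinite place. -/
theorem pg_grid (K : Type*) [Field K] [NumberField K] (B : ℝ) :
    ∃ C : ℝ, 0 < C ∧ ∀ (w : InfinitePlace K) (ρ : ℝ), 0 < ρ → ρ ≤ 1 →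
      ∃ (N : ℕ) (c : K → Fin N), (N : ℝ) ≤ C * (ρ⁻¹) ^ w.mult ∧
        ∀ z1 z2 : K, z1 ≠ 0 → z2 ≠ 0 → |Real.log (w z1)| ≤ B → |Real.log (w z2)| ≤ B →
          c z1 = c z2 → w (z1 / z2 - 1) ≤ ρ := by
  classical
  set E : ℝ := 4 * Real.exp (2 * B) + 3 with hE
  have hE1 : 1 ≤ E := by rw [hE]; linarith [Real.exp_pos (2 * B)]
  refine ⟨E ^ 2 + 1, by positivity, ?_⟩
  intro w ρ hρ hρ1
  have hr : (0 : ℝ) < ρ * Real.exp (-B) / 2 := by positivity
  set r : ℝ := ρ * Real.exp (-B) / 2 with hrdef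
  set L : ℤ := ⌈2 * Real.exp (2 * B) / ρ⌉ with hL
  set S : Finset (ℤ × ℤ) :=
    Finset.Icc (-L) L ×ˢ (if w.IsReal then {0} else Finset.Icc (-L) L) with hS
  set g : K → ℤ × ℤ := fun z => gi r (w.embedding z) with hg
  obtain ⟨c, hc⟩ := exists_class g S
  have hinv : 1 ≤ ρ⁻¹ := (one_le_inv₀ hρ).mpr hρ1
  refine ⟨S.card + 1, c, ?_, ?_⟩
  · have hL0 : 0 ≤ L := Int.ceil_nonneg (by positivity)
    have h1 : ((Finset.Icc (-L) L).card : ℝ) ≤ E * ρ⁻¹ := by
      have h1 : ((Finset.Icc (-L) L).card : ℤ) = 2 * L + 1 := by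
        rw [Int.card_Icc, Int.toNat_of_nonneg (by omega)]
        ring
      have h2 : ((Finset.Icc (-L) L).card : ℝ) = 2 * (L : ℝ) + 1 := by exact_mod_cast h1
      rw [h2]
      have h3 := (Int.ceil_lt_add_one (2 * Real.exp (2 * B) / ρ)).le
      rw [← hL, div_eq_mul_inv] at h3
      rw [hE]
      nlinarith
    have h3 : (((Finset.Icc (-L) L).card : ℝ) *
        ((if w.IsReal then ({0} : Finset ℤ) else Finset.Icc (-L) L).card : ℝ)) ≤
        E ^ 2 * (ρ⁻¹) ^ w.mult := by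
      by_cases hw : w.IsReal
      · rw [if_pos hw, InfinitePlace.mult, if_pos hw]
        simp only [Finset.card_singleton, Nat.cast_one, mul_one, pow_one]
        have : E * ρ⁻¹ ≤ E ^ 2 * ρ⁻¹ := by
          have : E ≤ E ^ 2 := by nlinarith
          gcongr
        linarith
      · rw [if_neg hw, InfinitePlace.mult, if_neg hw]
        calc ((Finset.Icc (-L) L).card : ℝ) * (Finset.Icc (-L) L).card
            ≤ (E * ρ⁻¹) * (E * ρ⁻¹) := mul_le_mul h1 h1 (Nat.cast_nonneg _) (by positivity)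
          _ = E ^ 2 * ρ⁻¹ ^ 2 := by ring
    have h4 : 1 ≤ (ρ⁻¹) ^ w.mult := one_le_pow₀ hinv
    push_cast
    rw [hS, Finset.card_product]
    push_cast
    nlinarith
  · intro z1 z2 hz1 hz2 hb1 hb2 hcc
    have hnorm : ∀ x : K, ‖w.embedding x‖ = w x := fun x => InfinitePlace.norm_embedding_eq w x
    have hup : ∀ z : K, z ≠ 0 → |Real.log (w z)| ≤ B → w z ≤ Real.exp B ∧ Real.exp (-B) ≤ w z := by
      intro z hz hb
      have hpos : 0 < w z := InfinitePlace.pos_iff.2 hz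
      rw [abs_le] at hb
      constructor
      · rw [← Real.log_le_iff_le_exp hpos]; exact hb.2
      · rw [← Real.le_log_iff_exp_le hpos]; exact hb.1
    have hmem : ∀ z : K, z ≠ 0 → |Real.log (w z)| ≤ B → g z ∈ S := by
      intro z hz hb
      have hw := (hup z hz hb).1
      have hbd : ∀ a : ℝ, |a| ≤ w z → |a / r| ≤ 2 * Real.exp (2 * B) / ρ := by
        intro a ha
        rw [abs_div, abs_of_pos hr]
        have h1 : |a| / r ≤ Real.exp B / r := by
          gcongr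
          exact ha.trans hw
        refine h1.trans (le_of_eq ?_)
        rw [hrdef, div_div_eq_mul_div, div_eq_div_iff (by positivity) hρ.ne']
        have : Real.exp (2 * B) * Real.exp (-B) = Real.exp B := by
          rw [← Real.exp_add]; congr 1; ring
        rw [← this]; ring
      have hre := hbd (w.embedding z).re (by rw [← hnorm]; exact Complex.abs_re_le_norm _)
      have him := hbd (w.embedding z).im (by rw [← hnorm]; exact Complex.abs_im_le_norm _)
      simp only [hS, hg, gi, Finset.mem_product]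
      refine ⟨floor_mem hre, ?_⟩
      by_cases hw : w.IsReal
      · have h0 : (w.embedding z).im = 0 := by
          have := InfinitePlace.isReal_iff.mp hw
          rw [← ComplexEmbedding.IsReal.coe_embedding_apply this z]
          exact Complex.ofReal_im _
        rw [if_pos hw, h0, zero_div, Int.floor_zero]
        exact Finset.mem_singleton_self _
      · rw [if_neg hw]
        exact floor_mem him
    have hgeq := hc z1 z2 (hmem z1 hz1 hb1) (hmem z2 hz2 hb2) hcc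
    have hclose := norm_sub_le_of_gi hr hgeq
    have hz2w := (hup z2 hz2 hb2).2
    have hz2p : 0 < w z2 := InfinitePlace.pos_iff.2 hz2
    have h5 : w (z1 / z2 - 1) = w (z1 - z2) / w z2 := by
      rw [show z1 / z2 - 1 = (z1 - z2) / z2 by field_simp, map_div₀]
    rw [h5, div_le_iff₀ hz2p, ← hnorm, map_sub]
    refine hclose.trans ?_
    rw [hrdef]
    nlinarith

open Classical in
/-- The bound at one finite place. -/
theorem pg_finite (e : ℕ) (he : 1 ≤ e) {V : Finset (HeightOneSpectrum (𝓞 K))}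
    {j : HeightOneSpectrum (𝓞 K) → ℕ} {z1 z2 : K} (h1 : z1 ≠ 0) (h2 : z2 ≠ 0) (hne : z1 ≠ z2)
    (v : HeightOneSpectrum (𝓞 K)) {c : K → Fin e}
    (hc : ∀ t1 t2 : K, FinitePlace.mk v t1 = 1 → FinitePlace.mk v t2 = 1 →
      FinitePlace.mk v (t1 ^ e - 1) < FinitePlace.mk v (e : K) ^ e →
      FinitePlace.mk v (t2 ^ e - 1) < FinitePlace.mk v (e : K) ^ e →
      c t1 = c t2 →
        FinitePlace.mk v (t1 - t2) * FinitePlace.mk v (e : K) ≤
          FinitePlace.mk v (t1 ^ e - t2 ^ e))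
    (hz1 : v ∈ V → FinitePlace.mk v z1 = 1 ∧
        FinitePlace.mk v (z1 ^ e - 1) ≤ Real.exp (-((j v : ℝ) * ln v)))
    (hz2 : v ∈ V → FinitePlace.mk v z2 = 1 ∧
        FinitePlace.mk v (z2 ^ e - 1) ≤ Real.exp (-((j v : ℝ) * ln v)))
    (hcc : v ∈ V → c z1 = c z2) :
    Real.log (FinitePlace.mk v (z1 / z2 - 1)) + e * Real.log (FinitePlace.mk v (e : K)) +
      (if v ∈ V then (j v : ℝ) * ln v else 0) ≤
      if 0 < ord v (z1 / z2)⁻¹ ∧ (ord v (z1 / z2)⁻¹).toNat ∈ (Set.univ : Set ℕ) then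
        (ord v (z1 / z2)⁻¹ : ℝ) * ln v else 0 := by
  have heK : (e : K) ≠ 0 := by exact_mod_cast (by omega : e ≠ 0)
  have hs : z1 / z2 ≠ 0 := div_ne_zero h1 h2
  have hs1 : z1 / z2 - 1 ≠ 0 := by
    rw [sub_ne_zero]
    intro h
    exact hne ((div_eq_one_iff_eq h2).1 h)
  have hp1 : 0 < FinitePlace.mk v (z1 / z2 - 1) := FinitePlace.pos_iff.2 hs1
  have hpe : 0 < FinitePlace.mk v (e : K) := FinitePlace.pos_iff.2 heK
  have hE1 : FinitePlace.mk v (e : K) ≤ 1 := Cell.mk_nat_le_one v e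
  have hln := gap_ln_pos v
  by_cases hv : v ∈ V
  · obtain ⟨a1, b1⟩ := hz1 hv
    obtain ⟨a2, b2⟩ := hz2 hv
    have hs2 : FinitePlace.mk v (z1 / z2 - 1) = FinitePlace.mk v (z1 - z2) := by
      rw [show z1 / z2 - 1 = (z1 - z2) / z2 by field_simp, map_div₀, a2, div_one]
    have hle1 : FinitePlace.mk v (z1 - z2) ≤ 1 := Cell.mk_sub_le v a1.le a2.le
    have hdiff : FinitePlace.mk v (z1 ^ e - z2 ^ e) ≤ Real.exp (-((j v : ℝ) * ln v)) := by
      rw [show z1 ^ e - z2 ^ e = (z1 ^ e - 1) - (z2 ^ e - 1) by ring]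
      exact Cell.mk_sub_le v b1 b2
    have hkey : FinitePlace.mk v (z1 - z2) * FinitePlace.mk v (e : K) ^ e ≤
        Real.exp (-((j v : ℝ) * ln v)) := by
      by_cases hcase : Real.exp (-((j v : ℝ) * ln v)) < FinitePlace.mk v (e : K) ^ e
      · have h3 := hc z1 z2 a1 a2 (b1.trans_lt hcase) (b2.trans_lt hcase) (hcc hv)
        refine le_trans (mul_le_mul_of_nonneg_left ?_ (apply_nonneg _ _)) (h3.trans hdiff)
        calc FinitePlace.mk v (e : K) ^ e ≤ FinitePlace.mk v (e : K) ^ 1 :=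
              pow_le_pow_of_le_one hpe.le hE1 he
          _ = FinitePlace.mk v (e : K) := pow_one _
      · push Not at hcase
        calc FinitePlace.mk v (z1 - z2) * FinitePlace.mk v (e : K) ^ e
            ≤ 1 * FinitePlace.mk v (e : K) ^ e :=
              mul_le_mul_of_nonneg_right hle1 (pow_nonneg hpe.le _)
          _ ≤ _ := by rw [one_mul]; exact hcase
    rw [← hs2] at hkey
    have h4 := Real.log_le_log (by positivity) hkey
    rw [Real.log_mul hp1.ne' (pow_ne_zero _ hpe.ne'), Real.log_pow, Real.log_exp] at h4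
    rw [if_pos hv]
    have h5 : 0 ≤ (if 0 < ord v (z1 / z2)⁻¹ ∧ (ord v (z1 / z2)⁻¹).toNat ∈ (Set.univ : Set ℕ) then
        (ord v (z1 / z2)⁻¹ : ℝ) * ln v else 0) := by
      split_ifs with h
      · have : (0 : ℝ) < ord v (z1 / z2)⁻¹ := by exact_mod_cast h.1
        positivity
      · exact le_rfl
    linarith
  · rw [if_neg hv, add_zero]
    have hle : Real.log (FinitePlace.mk v (e : K)) ≤ 0 := Real.log_nonpos hpe.le hE1
    have hle' : (e : ℝ) * Real.log (FinitePlace.mk v (e : K)) ≤ 0 :=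
      mul_nonpos_of_nonneg_of_nonpos (Nat.cast_nonneg _) hle
    have hult : FinitePlace.mk v (z1 / z2 - 1) ≤ max (FinitePlace.mk v (z1 / z2)) 1 := by
      have := fp_sub_le (FinitePlace.mk v) (z1 / z2) 1
      rwa [map_one] at this
    have hl := log_mk v hs
    have hl' : Real.log (Ideal.absNorm v.asIdeal : ℝ) = ln v := rfl
    rw [hl'] at hl
    have hps : 0 < FinitePlace.mk v (z1 / z2) := FinitePlace.pos_iff.2 hs
    rw [gap_ord_inv v hs]
    by_cases h0 : 0 ≤ ord v (z1 / z2)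
    · have h3 : FinitePlace.mk v (z1 / z2) ≤ 1 := by
        have : (0 : ℝ) ≤ ord v (z1 / z2) := by exact_mod_cast h0
        refine (Real.log_nonpos_iff hps.le).1 ?_
        rw [hl]
        nlinarith
      rw [max_eq_right h3] at hult
      have h4 := Real.log_nonpos hp1.le hult
      rw [if_neg (fun h => by have := h.1; omega)]
      linarith
    · push Not at h0
      have h0' : (ord v (z1 / z2) : ℝ) < 0 := by exact_mod_cast h0
      have h3 : 1 ≤ FinitePlace.mk v (z1 / z2) := by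
        refine (Real.log_nonneg_iff hps).1 ?_
        rw [hl]
        nlinarith
      rw [max_eq_left h3] at hult
      have h4 := Real.log_le_log hp1 hult
      rw [hl] at h4
      rw [if_pos ⟨by omega, Set.mem_univ _⟩]
      push_cast
      linarith

theorem pg_gap (e : ℕ) (he : 1 ≤ e) {V : Finset (HeightOneSpectrum (𝓞 K))}
    {j : HeightOneSpectrum (𝓞 K) → ℕ} {X ρ : ℝ} (hρ : 0 < ρ) {z1 z2 : K} (h1 : z1 ≠ 0)
    (h2 : z2 ≠ 0) (hne : z1 ≠ z2) {c : HeightOneSpectrum (𝓞 K) → K → Fin e}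
    (hc : ∀ v, ∀ t1 t2 : K, FinitePlace.mk v t1 = 1 → FinitePlace.mk v t2 = 1 →
      FinitePlace.mk v (t1 ^ e - 1) < FinitePlace.mk v (e : K) ^ e →
      FinitePlace.mk v (t2 ^ e - 1) < FinitePlace.mk v (e : K) ^ e →
      c v t1 = c v t2 →
        FinitePlace.mk v (t1 - t2) * FinitePlace.mk v (e : K) ≤
          FinitePlace.mk v (t1 ^ e - t2 ^ e))
    (hz1 : ∀ v ∈ V, FinitePlace.mk v z1 = 1 ∧
        FinitePlace.mk v (z1 ^ e - 1) ≤ Real.exp (-((j v : ℝ) * ln v)))
    (hz2 : ∀ v ∈ V, FinitePlace.mk v z2 = 1 ∧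
        FinitePlace.mk v (z2 ^ e - 1) ≤ Real.exp (-((j v : ℝ) * ln v)))
    (hcc : ∀ v ∈ V, c v z1 = c v z2)
    (hw : ∀ w : InfinitePlace K, w (z1 / z2 - 1) ≤ ρ)
    (hX : sz (z1 / z2)⁻¹ Set.univ ≤ X) :
    0 ≤ (Module.finrank ℚ K : ℝ) * Real.log ρ + (e : ℝ) * (Module.finrank ℚ K * Real.log e) +
      (X - ∑ v ∈ V, (j v : ℝ) * ln v) := by
  classical
  have heK : (e : K) ≠ 0 := by exact_mod_cast (by omega : e ≠ 0)
  have hs : z1 / z2 ≠ 0 := div_ne_zero h1 h2
  have hs1 : z1 / z2 - 1 ≠ 0 := by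
    rw [sub_ne_zero]
    intro h
    exact hne ((div_eq_one_iff_eq h2).1 h)
  have hd : (Module.finrank ℚ K : ℝ) = ∑ w : InfinitePlace K, (w.mult : ℝ) := by
    rw [← Nat.cast_sum, InfinitePlace.sum_mult_eq]
  set B := (finite_support hs1).toFinset ∪ (finite_support heK).toFinset ∪
    (finite_support (inv_ne_zero hs)).toFinset ∪ V with hBdef
  have hBz : ∀ v, FinitePlace.mk v (z1 / z2 - 1) ≠ 1 → v ∈ B := by
    intro v hv
    simp only [hBdef, Finset.mem_union, Set.Finite.mem_toFinset, Set.mem_ofPred_eq]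
    exact Or.inl (Or.inl (Or.inl hv))
  have hBe : ∀ v, FinitePlace.mk v (e : K) ≠ 1 → v ∈ B := by
    intro v hv
    simp only [hBdef, Finset.mem_union, Set.Finite.mem_toFinset, Set.mem_ofPred_eq]
    exact Or.inl (Or.inl (Or.inr hv))
  have hBs : ∀ v, FinitePlace.mk v (z1 / z2)⁻¹ ≠ 1 → v ∈ B := by
    intro v hv
    simp only [hBdef, Finset.mem_union, Set.Finite.mem_toFinset, Set.mem_ofPred_eq]
    exact Or.inl (Or.inr hv)
  have hVB : V ⊆ B := Finset.subset_union_right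
  have p1 := gap_prod hs1 B hBz
  have p2 := gap_prod heK B hBe
  have hsz := gap_sz (inv_ne_zero hs) Set.univ B hBs
  have hwe : ∀ w : InfinitePlace K, w (e : K) = e := by
    intro w
    rw [← InfinitePlace.norm_embedding_eq, map_natCast]
    simp
  have p2' : (Module.finrank ℚ K : ℝ) * Real.log e +
      ∑ v ∈ B, Real.log (FinitePlace.mk v (e : K)) = 0 := by
    rw [← p2, hd, Finset.sum_mul]
    congr 1
    exact Finset.sum_congr rfl fun w _ => by rw [hwe w]
  have hloc := Finset.sum_le_sum fun v (_ : v ∈ B) =>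
    pg_finite (V := V) (j := j) e he h1 h2 hne v (hc v) (hz1 v) (hz2 v) (hcc v)
  replace hloc := hloc.trans (le_of_eq (show _ = sz (z1 / z2)⁻¹ Set.univ by
    rw [hsz]
    exact Finset.sum_congr rfl fun v _ => by congr))
  rw [Finset.sum_add_distrib, Finset.sum_add_distrib, ← Finset.mul_sum, ← Finset.sum_filter,
    Finset.filter_mem_eq_inter, Finset.inter_eq_right.2 hVB] at hloc
  have harch : ∑ w : InfinitePlace K, (w.mult : ℝ) * Real.log (w (z1 / z2 - 1)) ≤
      (Module.finrank ℚ K : ℝ) * Real.log ρ := by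
    rw [hd, Finset.sum_mul]
    refine Finset.sum_le_sum fun w _ => ?_
    have hp : 0 < w (z1 / z2 - 1) := InfinitePlace.pos_iff.2 hs1
    exact mul_le_mul_of_nonneg_left (Real.log_le_log hp (hw w)) (Nat.cast_nonneg _)
  have h6 : ∑ v ∈ B, Real.log (FinitePlace.mk v (e : K)) =
    -((Module.finrank ℚ K : ℝ) * Real.log e) := by linarith
  rw [h6] at hloc
  linarith

theorem pow_gap (K : Type*) [Field K] [NumberField K] (e : ℕ) (he : 1 ≤ e) (B : ℝ) :
    ∃ C : ℝ, 0 < C ∧ ∀ (V : Finset (HeightOneSpectrum (𝓞 K)))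
      (j : HeightOneSpectrum (𝓞 K) → ℕ) (X : ℝ) (Z : Finset K),
      (∀ z ∈ Z, z ≠ 0) →
      (∀ z ∈ Z, ∀ v ∈ V, FinitePlace.mk v z = 1 ∧
        FinitePlace.mk v (z ^ e - 1) ≤ Real.exp (-((j v : ℝ) * ln v))) →
      (∀ z ∈ Z, ∀ w : InfinitePlace K, |Real.log (w z)| ≤ B) →
      (∀ z1 ∈ Z, ∀ z2 ∈ Z, sz (z1 / z2)⁻¹ Set.univ ≤ X) →
        (Z.card : ℝ) ≤ C * (e : ℝ) ^ V.card *
          Real.exp (max 0 (X - ∑ v ∈ V, (j v : ℝ) * ln v)) := by
  classical
  obtain ⟨C0, hC0, hgrid⟩ := pg_grid K B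
  choose c hc using fun v : HeightOneSpectrum (𝓞 K) => local_class e he v
  set d : ℕ := Module.finrank ℚ K with hd
  have hd0 : (0 : ℝ) < d := by exact_mod_cast (Module.finrank_pos : 0 < Module.finrank ℚ K)
  have he1 : (1 : ℝ) ≤ e := by exact_mod_cast he
  set C1 : ℝ := (e : ℝ) * (d * Real.log e) with hC1
  have hC1nn : 0 ≤ C1 := by
    have := Real.log_nonneg he1
    positivity
  set r : ℕ := Fintype.card (InfinitePlace K) with hr
  refine ⟨C0 ^ r * Real.exp (C1 + 1), by positivity, ?_⟩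
  intro V j X Z hZ0 hZV hZw hZX
  set Ω : ℝ := max 0 (X - ∑ v ∈ V, (j v : ℝ) * ln v) with hΩ
  have hΩ0 : 0 ≤ Ω := le_max_left _ _
  have hΩ1 : X - ∑ v ∈ V, (j v : ℝ) * ln v ≤ Ω := le_max_right _ _
  set ρ : ℝ := Real.exp (-(Ω + C1 + 1) / d) with hρdef
  have hρ : 0 < ρ := Real.exp_pos _
  have hρ1 : ρ ≤ 1 := by
    rw [hρdef, Real.exp_le_one_iff]
    apply div_nonpos_of_nonpos_of_nonneg _ hd0.le
    linarith
  have hρlog : (d : ℝ) * Real.log ρ = -(Ω + C1 + 1) := by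
    rw [hρdef, Real.log_exp]
    field_simp
  choose N cw hN hcw using fun w : InfinitePlace K => hgrid w ρ hρ hρ1
  let Φ : K → (V → Fin e) × (∀ w : InfinitePlace K, Fin (N w)) := fun z =>
    (fun v => c v.1 z, fun w => cw w z)
  have hinj : Set.InjOn Φ (Z : Set K) := by
    intro z1 hz1 z2 hz2 hΦ
    have hz1 : z1 ∈ Z := hz1
    have hz2 : z2 ∈ Z := hz2
    simp only [Φ, Prod.mk.injEq] at hΦ
    obtain ⟨hΦ1, hΦ2⟩ := hΦ
    by_contra hne
    have hgap := pg_gap (V := V) (j := j) e he hρ (hZ0 z1 hz1) (hZ0 z2 hz2) hne hc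
      (hZV z1 hz1) (hZV z2 hz2) (fun v hv => congrFun hΦ1 ⟨v, hv⟩)
      (fun w => hcw w z1 z2 (hZ0 z1 hz1) (hZ0 z2 hz2) (hZw z1 hz1 w) (hZw z2 hz2 w)
        (congrFun hΦ2 w)) (hZX z1 hz1 z2 hz2)
    rw [← hd, hρlog, ← hC1] at hgap
    linarith
  have hcard : Z.card ≤ Fintype.card ((V → Fin e) × (∀ w : InfinitePlace K, Fin (N w))) := by
    rw [← Finset.card_univ]
    exact Finset.card_le_card_of_injOn Φ (fun _ _ => Finset.mem_univ _) hinj
  have hcard' : (Z.card : ℝ) ≤ (e : ℝ) ^ V.card * ∏ w : InfinitePlace K, (N w : ℝ) := by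
    have h := hcard
    simp only [Fintype.card_prod, Fintype.card_fin, Fintype.card_pi, Finset.prod_const,
      Finset.card_univ, Fintype.card_coe] at h
    exact_mod_cast h
  have hNprod : ∏ w : InfinitePlace K, (N w : ℝ) ≤ C0 ^ r * (ρ⁻¹) ^ d := by
    calc ∏ w : InfinitePlace K, (N w : ℝ) ≤ ∏ w : InfinitePlace K, (C0 * (ρ⁻¹) ^ w.mult) :=
          Finset.prod_le_prod (fun _ _ => Nat.cast_nonneg _) (fun w _ => hN w)
      _ = C0 ^ r * (ρ⁻¹) ^ d := by
          rw [Finset.prod_mul_distrib, Finset.prod_const, Finset.card_univ,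
            Finset.prod_pow_eq_pow_sum, InfinitePlace.sum_mult_eq]
  have hρd : (ρ⁻¹) ^ d = Real.exp (C1 + 1) * Real.exp Ω := by
    rw [hρdef, ← Real.exp_neg, ← Real.exp_nat_mul, ← Real.exp_add]
    congr 1
    field_simp
    ring
  calc (Z.card : ℝ) ≤ (e : ℝ) ^ V.card * ∏ w : InfinitePlace K, (N w : ℝ) := hcard'
    _ ≤ (e : ℝ) ^ V.card * (C0 ^ r * (ρ⁻¹) ^ d) := by gcongr
    _ = C0 ^ r * Real.exp (C1 + 1) * (e : ℝ) ^ V.card * Real.exp Ω := by
        rw [hρd]; ring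

end Pool.Agent.AbcF
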