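import Mathlib
import Pool.Agent.AbcF.Defs

/-!
Counting sets of places, and tuples of sets of places.
-/

namespace Pool.Agent.AbcF

open NumberField IsDedekindDomain Pool.Agent.H7.Abc Pool.Agent.AbcE

variable {K : Type*} [Field K] [NumberField K]

theorem exp_neg_mul_ln (σ : ℝ) (v : HeightOneSpectrum (𝓞 K)) :
    Real.exp (-(σ * ln v)) = (Ideal.absNorm v.asIdeal : ℝ) ^ (-σ) := by
  have hN : (0 : ℝ) < Ideal.absNorm v.asIdeal := by linarith [one_lt_norm v]
  rw [Real.rpow_def_of_pos hN]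
  congr 1
  unfold ln
  ring

theorem LN_mono {X Y : Finset (HeightOneSpectrum (𝓞 K))} (h : X ⊆ Y) : LN X ≤ LN Y :=
  Finset.sum_le_sum_of_subset_of_nonneg h fun v _ _ => (tc_ln_pos v).le

theorem card_sets (K : Type*) [Field K] [NumberField K] {ε : ℝ} (hε : 0 < ε) :
    ∃ C : ℝ, 0 < C ∧ ∀ (n : ℝ) (S : Finset (Finset (HeightOneSpectrum (𝓞 K)))),
      (∀ X ∈ S, LN X ≤ n) → (S.card : ℝ) ≤ C * Real.exp ((1 + ε) * n) := by
  classical
  obtain ⟨Z, hZ⟩ := exists_bound K (σ := 1 + ε) (by linarith)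
  refine ⟨Real.exp Z, Real.exp_pos _, fun n S hS => ?_⟩
  set F : Finset (HeightOneSpectrum (𝓞 K)) := S.biUnion id with hF
  have hsub : S ⊆ F.powerset := by
    intro X hX
    rw [Finset.mem_powerset]
    exact Finset.subset_biUnion_of_mem id hX
  have h1 : ∀ X ∈ S, (1 : ℝ) ≤ Real.exp ((1 + ε) * n) *
      ∏ v ∈ X, (Ideal.absNorm v.asIdeal : ℝ) ^ (-(1 + ε)) := by
    intro X hX
    have h2 : ∏ v ∈ X, (Ideal.absNorm v.asIdeal : ℝ) ^ (-(1 + ε)) =
        Real.exp (-((1 + ε) * LN X)) := by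
      rw [Finset.prod_congr rfl fun v _ => (exp_neg_mul_ln (1 + ε) v).symm, ← Real.exp_sum]
      congr 1
      unfold LN
      rw [Finset.sum_neg_distrib, Finset.mul_sum]
    rw [h2, ← Real.exp_add]
    apply Real.one_le_exp
    nlinarith [hS X hX]
  calc (S.card : ℝ) = ∑ X ∈ S, (1 : ℝ) := by simp
    _ ≤ ∑ X ∈ S, Real.exp ((1 + ε) * n) *
      ∏ v ∈ X, (Ideal.absNorm v.asIdeal : ℝ) ^ (-(1 + ε)) := Finset.sum_le_sum h1
    _ ≤ ∑ X ∈ F.powerset, Real.exp ((1 + ε) * n) *
      ∏ v ∈ X, (Ideal.absNorm v.asIdeal : ℝ) ^ (-(1 + ε)) := by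
        refine Finset.sum_le_sum_of_subset_of_nonneg hsub fun X _ _ => ?_
        exact mul_nonneg (Real.exp_pos _).le (Finset.prod_nonneg fun v _ => by positivity)
    _ = Real.exp ((1 + ε) * n) *
      ∏ v ∈ F, (1 + (Ideal.absNorm v.asIdeal : ℝ) ^ (-(1 + ε))) := by
        rw [← Finset.mul_sum, Finset.prod_one_add]
    _ ≤ Real.exp ((1 + ε) * n) *
      ∏ v ∈ F, Real.exp ((Ideal.absNorm v.asIdeal : ℝ) ^ (-(1 + ε))) := by
        refine mul_le_mul_of_nonneg_left (Finset.prod_le_prod (fun v _ => by positivity)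
          fun v _ => ?_) (Real.exp_pos _).le
        rw [add_comm]
        exact Real.add_one_le_exp _
    _ ≤ Real.exp ((1 + ε) * n) * Real.exp Z := by
        rw [← Real.exp_sum]
        exact mul_le_mul_of_nonneg_left (Real.exp_le_exp.2 (hZ F)) (Real.exp_pos _).le
    _ = Real.exp Z * Real.exp ((1 + ε) * n) := mul_comm _ _

theorem pow_card (K : Type*) [Field K] [NumberField K] {ε : ℝ} (hε : 0 < ε) {B : ℝ}
    (hB : 1 ≤ B) :
    ∃ C : ℝ, 0 < C ∧ ∀ X : Finset (HeightOneSpectrum (𝓞 K)),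
      B ^ X.card ≤ C * Real.exp (ε * LN X) := by
  classical
  have hB0 : 0 < B := by linarith
  set T : Finset (HeightOneSpectrum (𝓞 K)) :=
    (finite_norm_le K (Real.exp (Real.log B / ε))).toFinset with hT
  refine ⟨B ^ T.card, by positivity, fun X => ?_⟩
  have hsplit : X.card = (X ∩ T).card + (X \ T).card := (Finset.card_inter_add_card_sdiff X T).symm
  rw [hsplit, pow_add]
  have h1 : B ^ (X ∩ T).card ≤ B ^ T.card :=
    pow_le_pow_right₀ hB (Finset.card_le_card Finset.inter_subset_right)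
  have h2 : B ^ (X \ T).card ≤ Real.exp (ε * LN X) := by
    have h3 : B ^ (X \ T).card = ∏ v ∈ X \ T, B := by rw [Finset.prod_const]
    rw [h3]
    have h4 : ∏ v ∈ X \ T, B ≤ ∏ v ∈ X \ T, Real.exp (ε * ln v) := by
      refine Finset.prod_le_prod (fun v _ => hB0.le) fun v hv => ?_
      have h5 : v ∉ T := (Finset.mem_sdiff.mp hv).2
      rw [hT, Set.Finite.mem_toFinset] at h5
      have h6 : Real.exp (Real.log B / ε) < (Ideal.absNorm v.asIdeal : ℝ) := not_le.mp h5
      have hN : (0 : ℝ) < Ideal.absNorm v.asIdeal := by linarith [one_lt_norm v]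
      have h7 : Real.log B / ε < ln v := by
        unfold ln
        rw [Real.lt_log_iff_exp_lt hN]
        exact h6
      rw [div_lt_iff₀ hε] at h7
      calc B = Real.exp (Real.log B) := (Real.exp_log hB0).symm
        _ ≤ Real.exp (ε * ln v) := Real.exp_le_exp.2 (by linarith)
    refine h4.trans ?_
    rw [← Real.exp_sum, ← Finset.mul_sum]
    exact Real.exp_le_exp.2 (mul_le_mul_of_nonneg_left (LN_mono Finset.sdiff_subset) hε.le)
  exact mul_le_mul h1 h2 (by positivity) (by positivity)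

open Classical in
theorem card_tuples (K : Type*) [Field K] [NumberField K] {ε : ℝ} (hε : 0 < ε) (k : ℕ) :
    ∃ C : ℝ, 0 < C ∧ ∀ (n : ℝ) (S : Finset (Fin k → Finset (HeightOneSpectrum (𝓞 K)))),
      (∀ p ∈ S, ∑ l, LN (p l) ≤ n) →
      (∀ p ∈ S, ∀ q ∈ S, ∀ v, (∑ l, if v ∈ p l then (1 : ℤ) else 0) =
        ∑ l, if v ∈ q l then (1 : ℤ) else 0) →
        (S.card : ℝ) ≤ C * Real.exp (ε * n) := by
  have h2k : (1 : ℝ) ≤ 2 ^ k := one_le_pow₀ (by norm_num)
  obtain ⟨C, hC, hCard⟩ := pow_card K hε h2k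
  refine ⟨C, hC, fun n S hn hS => ?_⟩
  rcases Finset.eq_empty_or_nonempty S with rfl | ⟨p0, hp0⟩
  · simp only [Finset.card_empty, Nat.cast_zero]
    positivity
  set U : Finset (HeightOneSpectrum (𝓞 K)) := Finset.univ.biUnion p0 with hU
  have hsub : S ⊆ Fintype.piFinset (fun _ : Fin k => U.powerset) := by
    intro p hp
    rw [Fintype.mem_piFinset]
    intro l
    rw [Finset.mem_powerset]
    intro v hv
    have h1 := hS p hp p0 hp0 v
    have h2 : (1 : ℤ) ≤ ∑ l, if v ∈ p l then (1 : ℤ) else 0 := by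
      have h3 := Finset.single_le_sum (f := fun l => if v ∈ p l then (1 : ℤ) else 0)
        (fun i _ => by positivity) (Finset.mem_univ l)
      simpa [hv] using h3
    rw [h1] at h2
    by_contra hvU
    have h4 : ∑ l, (if v ∈ p0 l then (1 : ℤ) else 0) = 0 := by
      refine Finset.sum_eq_zero fun l' _ => ?_
      rw [if_neg]
      intro hv'
      exact hvU (Finset.mem_biUnion.mpr ⟨l', Finset.mem_univ _, hv'⟩)
    omega
  have hcard : S.card ≤ (2 ^ k) ^ U.card := by
    refine (Finset.card_le_card hsub).trans ?_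
    rw [Fintype.card_piFinset, Finset.prod_const, Finset.card_univ, Fintype.card_fin,
      Finset.card_powerset, ← pow_mul, ← pow_mul, mul_comm]
  have hLU : LN U ≤ n := by
    refine le_trans ?_ (hn p0 hp0)
    unfold LN
    rw [Finset.sum_comm' (s := Finset.univ) (t := p0) (t' := U)
      (s' := fun v => Finset.univ.filter (fun l => v ∈ p0 l)) (by
        intro l v
        simp only [hU, Finset.mem_univ, true_and, Finset.mem_filter, Finset.mem_biUnion]
        exact ⟨fun h => ⟨h, l, h⟩, fun h => h.1⟩)]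
    refine Finset.sum_le_sum fun v hv => ?_
    obtain ⟨l, _, hl⟩ := Finset.mem_biUnion.mp hv
    rw [Finset.sum_const, nsmul_eq_mul]
    have h5 : 1 ≤ (Finset.univ.filter (fun l => v ∈ p0 l)).card :=
      Finset.card_pos.mpr ⟨l, Finset.mem_filter.mpr ⟨Finset.mem_univ _, hl⟩⟩
    have h6 : (1 : ℝ) ≤ ((Finset.univ.filter (fun l => v ∈ p0 l)).card : ℝ) := by
      exact_mod_cast h5
    nlinarith [tc_ln_pos v]
  calc (S.card : ℝ) ≤ (((2 ^ k) ^ U.card : ℕ) : ℝ) := by exact_mod_cast hcard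
    _ = ((2 : ℝ) ^ k) ^ U.card := by push_cast; rfl
    _ ≤ C * Real.exp (ε * LN U) := hCard U
    _ ≤ C * Real.exp (ε * n) := by
      refine mul_le_mul_of_nonneg_left (Real.exp_le_exp.2 ?_) hC.le
      exact mul_le_mul_of_nonneg_left hLU hε.le

end Pool.Agent.AbcF
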