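import Mathlib
import Pool.Agent.AbcF.Defs
import Pool.Agent.AbcF.Sets
import Pool.Agent.AbcF.PowGap

/-!
Module E: the bound for the multiplicative energy modulo a divisor.
-/

namespace Pool.Agent.AbcF

open NumberField IsDedekindDomain Pool.Agent.H7.Abc Pool.Agent.AbcE

namespace EnergyBoundAux

variable {K : Type*} [Field K] [NumberField K]

theorem eb_card_le {α β : Type*} [DecidableEq β] (s : Finset α) (t : Finset β) (f : α → β)
    (hf : ∀ a ∈ s, f a ∈ t) (M : ℝ)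
    (hM : ∀ b ∈ t, ((s.filter (fun a => f a = b)).card : ℝ) ≤ M) :
    (s.card : ℝ) ≤ t.card * M := by
  rw [Finset.card_eq_sum_card_fiberwise hf]
  push_cast
  refine le_trans (Finset.sum_le_sum hM) ?_
  rw [Finset.sum_const, nsmul_eq_mul]

theorem eb_ord_prod (v : HeightOneSpectrum (𝓞 K)) {ι : Type*} (s : Finset ι) (f : ι → K)
    (hf : ∀ i ∈ s, f i ≠ 0) : ord v (∏ i ∈ s, f i) = ∑ i ∈ s, ord v (f i) := by
  classical
  induction s using Finset.induction_on with
  | empty => simp [SelmerAux.ord_one]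
  | insert a s ha ih =>
    rw [Finset.prod_insert ha, Finset.sum_insert ha,
      SelmerAux.ord_mul v (hf a (Finset.mem_insert_self _ _))
        (Finset.prod_ne_zero_iff.2 fun i hi => hf i (Finset.mem_insert_of_mem hi)),
      ih fun i hi => hf i (Finset.mem_insert_of_mem hi)]

open Classical in
theorem eb_ord {k : ℕ} {X0 : Finset (HeightOneSpectrum (𝓞 K))}
    {S : Finset (Finset (HeightOneSpectrum (𝓞 K)))}
    {ξ : Finset (HeightOneSpectrum (𝓞 K)) → Kˣ}
    (hord : ∀ X ∈ S, ∀ v, ord v (ξ X : K) = (if v ∈ X then 1 else 0) - (if v ∈ X0 then 1 else 0))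
    {p q : Fin k → Finset (HeightOneSpectrum (𝓞 K))} (hp : ∀ l, p l ∈ S) (hq : ∀ l, q l ∈ S)
    (v : HeightOneSpectrum (𝓞 K)) :
    ord v ((∏ l, (ξ (p l) : K)) / ∏ l, (ξ (q l) : K)) =
      (∑ l, if v ∈ p l then (1 : ℤ) else 0) - ∑ l, if v ∈ q l then (1 : ℤ) else 0 := by
  have hne : ∀ r : Fin k → Finset (HeightOneSpectrum (𝓞 K)), (∏ l, (ξ (r l) : K)) ≠ 0 :=
    fun r => Finset.prod_ne_zero_iff.2 fun l _ => (ξ (r l)).ne_zero
  rw [ord_div v (hne p) (hne q), eb_ord_prod v _ _ (fun l _ => (ξ (p l)).ne_zero),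
    eb_ord_prod v _ _ (fun l _ => (ξ (q l)).ne_zero),
    Finset.sum_congr rfl fun l _ => hord (p l) (hp l) v,
    Finset.sum_congr rfl fun l _ => hord (q l) (hq l) v,
    Finset.sum_sub_distrib, Finset.sum_sub_distrib]
  ring

omit [NumberField K] in
theorem eb_log {k : ℕ} {S : Finset (Finset (HeightOneSpectrum (𝓞 K)))} {B : ℝ}
    {ξ : Finset (HeightOneSpectrum (𝓞 K)) → Kˣ}
    (hlog : ∀ X ∈ S, ∀ w : InfinitePlace K, |Real.log (w (ξ X : K))| ≤ B)
    {p q : Fin k → Finset (HeightOneSpectrum (𝓞 K))} (hp : ∀ l, p l ∈ S) (hq : ∀ l, q l ∈ S)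
    (w : InfinitePlace K) :
    |Real.log (w ((∏ l, (ξ (p l) : K)) / ∏ l, (ξ (q l) : K)))| ≤ 2 * k * |B| := by
  have hne : ∀ X : Finset (HeightOneSpectrum (𝓞 K)), w (ξ X : K) ≠ 0 :=
    fun X => (InfinitePlace.pos_iff.2 (ξ X).ne_zero).ne'
  have h1 : ∀ r : Fin k → Finset (HeightOneSpectrum (𝓞 K)), (∀ l, r l ∈ S) →
      |Real.log (w (∏ l, (ξ (r l) : K)))| ≤ k * |B| := by
    intro r hr
    rw [map_prod, Real.log_prod fun l _ => hne (r l)]
    refine le_trans (Finset.abs_sum_le_sum_abs _ _) ?_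
    refine le_trans (Finset.sum_le_sum fun l _ =>
      (hlog (r l) (hr l) w).trans (le_abs_self B)) ?_
    rw [Finset.sum_const, Finset.card_univ, Fintype.card_fin, nsmul_eq_mul]
  rw [map_div₀, Real.log_div (by rw [map_prod]; exact Finset.prod_ne_zero_iff.2 fun l _ => hne _)
    (by rw [map_prod]; exact Finset.prod_ne_zero_iff.2 fun l _ => hne _)]
  refine le_trans (abs_sub _ _) ?_
  have := h1 p hp
  have := h1 q hq
  linarith

open Classical in
theorem eb_sz {k : ℕ} {x : K} (hx : x ≠ 0) (q : Fin k → Finset (HeightOneSpectrum (𝓞 K)))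
    (h : ∀ v, ord v x ≤ ∑ l, if v ∈ q l then (1 : ℤ) else 0) :
    sz x Set.univ ≤ ∑ l, LN (q l) := by
  set B : Finset (HeightOneSpectrum (𝓞 K)) :=
    (finite_support hx).toFinset ∪ Finset.univ.biUnion q with hB
  rw [gap_sz hx Set.univ B (by
    intro v hv
    rw [hB, Finset.mem_union]
    left
    exact (finite_support hx).mem_toFinset.2 hv)]
  have h2 : ∀ l, LN (q l) = ∑ v ∈ B, if v ∈ q l then ln v else 0 := by
    intro l
    rw [Finset.sum_ite_mem, Finset.inter_eq_right.2 (by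
      intro v hv
      rw [hB, Finset.mem_union]
      right
      exact Finset.mem_biUnion.2 ⟨l, Finset.mem_univ _, hv⟩)]
    rfl
  rw [Finset.sum_congr rfl fun l _ => h2 l, Finset.sum_comm]
  refine Finset.sum_le_sum fun v _ => ?_
  have hl := tc_ln_pos v
  have h3 : (∑ l, if v ∈ q l then ln v else 0) =
      ((∑ l, if v ∈ q l then (1 : ℤ) else 0 : ℤ) : ℝ) * ln v := by
    push_cast
    rw [Finset.sum_mul]
    refine Finset.sum_congr rfl fun l _ => ?_
    split_ifs <;> simp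
  have h0 : (0 : ℤ) ≤ ∑ l, if v ∈ q l then (1 : ℤ) else 0 :=
    Finset.sum_nonneg fun l _ => by split_ifs <;> norm_num
  rw [h3]
  split_ifs with h4
  · have : (ord v x : ℝ) ≤ ((∑ l, if v ∈ q l then (1 : ℤ) else 0 : ℤ) : ℝ) := by
      exact_mod_cast h v
    exact mul_le_mul_of_nonneg_right this hl.le
  · have : (0 : ℝ) ≤ ((∑ l, if v ∈ q l then (1 : ℤ) else 0 : ℤ) : ℝ) := by exact_mod_cast h0
    positivity

end EnergyBoundAux

open EnergyBoundAux

open Classical in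
theorem energy_bound (K : Type*) [Field K] [NumberField K] (e : ℕ) (he : 1 ≤ e) (B : ℝ)
    (k : ℕ) (hk : 1 ≤ k) {ε : ℝ} (hε : 0 < ε) :
    ∃ C : ℝ, 0 < C ∧ ∀ (V : Finset (HeightOneSpectrum (𝓞 K)))
      (j : HeightOneSpectrum (𝓞 K) → ℕ) (n : ℝ) (X0 : Finset (HeightOneSpectrum (𝓞 K)))
      (S : Finset (Finset (HeightOneSpectrum (𝓞 K))))
      (ξ : Finset (HeightOneSpectrum (𝓞 K)) → Kˣ),
      (∀ v ∈ V, 1 ≤ j v) → 0 ≤ n → LN X0 ≤ n → (∀ X ∈ S, LN X ≤ n) →
      (∀ v ∈ V, v ∉ X0) → (∀ X ∈ S, ∀ v ∈ V, v ∉ X) →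
      (∀ X ∈ S, ∀ v, ord v (ξ X : K) = (if v ∈ X then 1 else 0) - (if v ∈ X0 then 1 else 0)) →
      (∀ X ∈ S, ∀ w : InfinitePlace K, |Real.log (w (ξ X : K))| ≤ B) →
        (energy S (fun X => (QuotientGroup.mk (ξ X) : Kˣ ⧸ Hs V j) ^ e) k : ℝ) ≤
          C * Real.exp (ε * (n + ∑ v ∈ V, (j v : ℝ) * ln v)) *
            Real.exp (k * n + max 0 (k * n - ∑ v ∈ V, (j v : ℝ) * ln v)) := by
  have hk0 : (0 : ℝ) < k := by exact_mod_cast hk
  obtain ⟨C1, hC1, h1⟩ := card_sets K (ε := ε / (2 * k)) (by positivity)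
  obtain ⟨C2, hC2, h2⟩ := pow_gap K e he (2 * k * |B|)
  obtain ⟨C3, hC3, h3⟩ := card_tuples K (ε := ε / (2 * k)) (by positivity) k
  obtain ⟨C4, hC4, h4⟩ := pow_card K hε (B := (e : ℝ)) (by exact_mod_cast he)
  refine ⟨C1 ^ k * (C2 * C4 * C3), by positivity, ?_⟩
  intro V j n X0 S ξ hj hn hX0 hS hV0 hVS hord hlog
  set ν := ∑ v ∈ V, (j v : ℝ) * ln v with hν
  set T : Finset (Fin k → Finset (HeightOneSpectrum (𝓞 K))) :=
    Fintype.piFinset fun _ : Fin k => S with hT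
  have hTm : ∀ p, p ∈ T ↔ ∀ l, p l ∈ S := by
    intro p
    rw [hT, Fintype.mem_piFinset]
  set z : (Fin k → Finset (HeightOneSpectrum (𝓞 K))) × (Fin k → Finset (HeightOneSpectrum (𝓞 K))) →
    K := fun p => (∏ l, (ξ (p.1 l) : K)) / ∏ l, (ξ (p.2 l) : K) with hz
  have hprod : ∀ r : Fin k → Finset (HeightOneSpectrum (𝓞 K)), (∏ l, (ξ (r l) : K)) ≠ 0 :=
    fun r => Finset.prod_ne_zero_iff.2 fun l _ => (ξ (r l)).ne_zero
  have hz0 : ∀ p, z p ≠ 0 := fun p => div_ne_zero (hprod p.1) (hprod p.2)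
  unfold energy
  set E := (T ×ˢ T).filter (fun p =>
    ∏ l, (QuotientGroup.mk (ξ (p.1 l)) : Kˣ ⧸ Hs V j) ^ e =
      ∏ l, (QuotientGroup.mk (ξ (p.2 l)) : Kˣ ⧸ Hs V j) ^ e) with hE
  have hEm : ∀ p ∈ E, (∀ l, p.1 l ∈ S) ∧ (∀ l, p.2 l ∈ S) := by
    intro p hp
    rw [hE, Finset.mem_filter, Finset.mem_product, hTm, hTm] at hp
    exact hp.1
  -- the ratio lies in the subgroup
  have hHs : ∀ p ∈ E, ∀ v ∈ V, FinitePlace.mk v (z p ^ e - 1) ≤
      Real.exp (-((j v : ℝ) * ln v)) := by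
    intro p hp
    rw [hE, Finset.mem_filter] at hp
    have h5 := hp.2
    rw [Finset.prod_pow, Finset.prod_pow] at h5
    have h6 : (QuotientGroup.mk (((∏ l, ξ (p.2 l)) ^ e)) : Kˣ ⧸ Hs V j) =
        QuotientGroup.mk ((∏ l, ξ (p.1 l)) ^ e) := by
      have h7 : ∀ r : Fin k → Finset (HeightOneSpectrum (𝓞 K)),
          (QuotientGroup.mk (((∏ l, ξ (r l)) ^ e)) : Kˣ ⧸ Hs V j) =
            (∏ l, (QuotientGroup.mk (ξ (r l)) : Kˣ ⧸ Hs V j)) ^ e := by
        intro r
        have := map_prod (QuotientGroup.mk' (Hs V j)) (fun l => ξ (r l)) Finset.univ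
        rw [QuotientGroup.mk_pow]
        congr 1
      rw [h7, h7, h5]
    rw [QuotientGroup.eq] at h6
    intro v hv
    obtain ⟨-, h8⟩ := h6 v hv
    have h9 : ((((∏ l, ξ (p.2 l)) ^ e)⁻¹ * (∏ l, ξ (p.1 l)) ^ e : Kˣ) : K) = z p ^ e := by
      rw [hz]
      push_cast
      rw [div_pow]
      field_simp
    rw [h9] at h8
    exact h8
  have hone : ∀ p ∈ E, ∀ v ∈ V, FinitePlace.mk v (z p) = 1 := by
    intro p hp v hv
    obtain ⟨h5, h6⟩ := hEm p hp
    rw [← ord_eq_zero_iff v (hz0 p), hz]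
    rw [eb_ord hord h5 h6 v, Finset.sum_congr rfl fun l _ => if_neg (hVS (p.1 l) (h5 l) v hv),
      Finset.sum_congr rfl fun l _ => if_neg (hVS (p.2 l) (h6 l) v hv)]
    simp
  -- the fibres
  have hfib : ∀ q ∈ T, ((E.filter (fun p => p.2 = q)).card : ℝ) ≤
      C2 * (e : ℝ) ^ V.card * Real.exp (max 0 (k * n - ν)) *
        (C3 * Real.exp (ε / (2 * k) * (k * n))) := by
    intro q hq
    have hqS := (hTm q).1 hq
    set Eq := E.filter (fun p => p.2 = q) with hEq
    have hEqm : ∀ p, p ∈ Eq ↔ p ∈ E ∧ p.2 = q := by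
      intro p
      rw [hEq, Finset.mem_filter]
    refine le_trans (eb_card_le Eq (Eq.image z) z (fun a ha => Finset.mem_image_of_mem z ha)
      (C3 * Real.exp (ε / (2 * k) * (k * n))) ?_) ?_
    · intro b _
      have hinj : ∀ a ∈ Eq.filter (fun a => z a = b), ∀ a' ∈ Eq.filter (fun a => z a = b),
          a.1 = a'.1 → a = a' := by
        intro a ha a' ha' haa
        rw [Finset.mem_filter, hEqm] at ha ha'
        exact Prod.ext haa (ha.1.2.trans ha'.1.2.symm)
      rw [← Finset.card_image_of_injOn (f := Prod.fst) (fun a ha a' ha' haa =>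
        hinj a (Finset.mem_coe.1 ha) a' (Finset.mem_coe.1 ha') haa)]
      refine h3 (k * n) _ ?_ ?_
      · intro p hp
        obtain ⟨a, ha, rfl⟩ := Finset.mem_image.1 hp
        rw [Finset.mem_filter, hEqm] at ha
        have h5 := (hEm a ha.1.1).1
        refine le_trans (Finset.sum_le_sum fun l _ => hS (a.1 l) (h5 l)) ?_
        rw [Finset.sum_const, Finset.card_univ, Fintype.card_fin, nsmul_eq_mul]
      · intro p hp p' hp' v
        obtain ⟨a, ha, rfl⟩ := Finset.mem_image.1 hp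
        obtain ⟨a', ha', rfl⟩ := Finset.mem_image.1 hp'
        rw [Finset.mem_filter, hEqm] at ha ha'
        have h5 := eb_ord hord (hEm a ha.1.1).1 (hEm a ha.1.1).2 v
        have h6 := eb_ord hord (hEm a' ha'.1.1).1 (hEm a' ha'.1.1).2 v
        have h7 : (∏ l, (ξ (a.1 l) : K)) / ∏ l, (ξ (a.2 l) : K) =
            (∏ l, (ξ (a'.1 l) : K)) / ∏ l, (ξ (a'.2 l) : K) := ha.2.trans ha'.2.symm
        rw [h7, h6, ha.1.2, ha'.1.2] at h5
        linarith
    · refine mul_le_mul_of_nonneg_right ?_ (by positivity)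
      refine h2 V j (k * n) (Eq.image z) ?_ ?_ ?_ ?_
      · intro x hx
        obtain ⟨a, _, rfl⟩ := Finset.mem_image.1 hx
        exact hz0 a
      · intro x hx v hv
        obtain ⟨a, ha, rfl⟩ := Finset.mem_image.1 hx
        rw [hEqm] at ha
        exact ⟨hone a ha.1 v hv, hHs a ha.1 v hv⟩
      · intro x hx w
        obtain ⟨a, ha, rfl⟩ := Finset.mem_image.1 hx
        rw [hEqm] at ha
        exact eb_log hlog (hEm a ha.1).1 (hEm a ha.1).2 w
      · intro x hx y hy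
        obtain ⟨a, ha, rfl⟩ := Finset.mem_image.1 hx
        obtain ⟨a', ha', rfl⟩ := Finset.mem_image.1 hy
        rw [hEqm] at ha ha'
        have h5 : (z a / z a')⁻¹ = (∏ l, (ξ (a'.1 l) : K)) / ∏ l, (ξ (a.1 l) : K) := by
          have hp1 := hprod a.1
          have hp2 := hprod a'.1
          have hp3 := hprod q
          simp only [hz, ha.2, ha'.2]
          field_simp
        rw [h5]
        refine le_trans (eb_sz (div_ne_zero (hprod _) (hprod _)) a'.1 ?_) ?_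
        · intro v
          rw [eb_ord hord (hEm a' ha'.1).1 (hEm a ha.1).1 v]
          have : (0 : ℤ) ≤ ∑ l, if v ∈ a.1 l then (1 : ℤ) else 0 :=
            Finset.sum_nonneg fun l _ => by split_ifs <;> norm_num
          linarith
        · refine le_trans (Finset.sum_le_sum fun l _ => hS (a'.1 l) ((hEm a' ha'.1).1 l)) ?_
          rw [Finset.sum_const, Finset.card_univ, Fintype.card_fin, nsmul_eq_mul]
  have hmain : (E.card : ℝ) ≤ T.card * (C2 * (e : ℝ) ^ V.card * Real.exp (max 0 (k * n - ν)) *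
        (C3 * Real.exp (ε / (2 * k) * (k * n)))) := by
    refine eb_card_le E T Prod.snd ?_ _ hfib
    intro a ha
    exact (hTm _).2 (hEm a ha).2
  have hTc : (T.card : ℝ) ≤ C1 ^ k * Real.exp (k * ((1 + ε / (2 * k)) * n)) := by
    rw [hT, Fintype.card_piFinset_const]
    push_cast
    rw [Real.exp_nat_mul, ← mul_pow]
    exact pow_le_pow_left₀ (Nat.cast_nonneg _) (h1 n S hS) k
  have hLV : LN V ≤ ν := by
    rw [hν]
    unfold LN
    refine Finset.sum_le_sum fun v hv => ?_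
    have h5 : (1 : ℝ) ≤ j v := by exact_mod_cast hj v hv
    have := tc_ln_pos v
    nlinarith
  have hVc : (e : ℝ) ^ V.card ≤ C4 * Real.exp (ε * ν) := by
    refine le_trans (h4 V) ?_
    refine mul_le_mul_of_nonneg_left (Real.exp_le_exp.2 ?_) hC4.le
    exact mul_le_mul_of_nonneg_left hLV hε.le
  refine le_trans (le_of_eq ?_) (hmain.trans ?_)
  · rw [hE, hT]
    congr!
  have hexp : C1 ^ k * (C2 * C4 * C3) * Real.exp (ε * (n + ν)) *
      Real.exp (k * n + max 0 (k * n - ν)) =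
      (C1 ^ k * Real.exp (k * ((1 + ε / (2 * k)) * n))) *
        (C2 * (C4 * Real.exp (ε * ν)) * Real.exp (max 0 (k * n - ν)) *
          (C3 * Real.exp (ε / (2 * k) * (k * n)))) := by
    have h5 : ε * (n + ν) + (k * n + max 0 (k * n - ν)) =
        k * ((1 + ε / (2 * k)) * n) + (ε * ν + (max 0 (k * n - ν) + ε / (2 * k) * (k * n))) := by
      field_simp
      ring
    have h6 : Real.exp (ε * (n + ν)) * Real.exp (k * n + max 0 (k * n - ν)) =
        Real.exp (k * ((1 + ε / (2 * k)) * n)) * (Real.exp (ε * ν) *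
          (Real.exp (max 0 (k * n - ν)) * Real.exp (ε / (2 * k) * (k * n)))) := by
      rw [← Real.exp_add, h5, Real.exp_add, Real.exp_add, Real.exp_add]
    calc C1 ^ k * (C2 * C4 * C3) * Real.exp (ε * (n + ν)) *
          Real.exp (k * n + max 0 (k * n - ν))
        = C1 ^ k * (C2 * C4 * C3) * (Real.exp (ε * (n + ν)) *
          Real.exp (k * n + max 0 (k * n - ν))) := by ring
      _ = _ := by rw [h6]; ring
  rw [hexp]
  gcongr

end Pool.Agent.AbcF
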