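import Mathlib
import Pool.Agent.AbcF.Defs
import Pool.Agent.AbcF.Energy
import Pool.Agent.AbcF.Balanced
import Pool.Agent.AbcF.Sets
import Pool.Agent.AbcF.EnergyBound
import Pool.Agent.AbcF.Parts

/-!
The cell bound for the energy tool: the sets of places, the numerical inequality, the reduction of
one class to an equation in the group of classes modulo a divisor, and the count.
-/

namespace Pool.Agent.AbcF

open NumberField IsDedekindDomain Pool.Agent.H7.Abc Pool.Agent.AbcE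

namespace T6

section

variable {K : Type*} [Field K] [NumberField K]

open Classical in
/-- The free sets of places of `y`. -/
noncomputable def fs (T : Tool) (E : ℕ) (y : K) (i : Bool × Fin E) :
    Finset (HeightOneSpectrum (𝓞 K)) :=
  if i.1 = true then (if (i.2 : ℕ) + 1 ∈ T.F0 then Zs y ((i.2 : ℕ) + 1) else ∅)
  else (if (i.2 : ℕ) + 1 ∈ T.F1 then Zs y⁻¹ ((i.2 : ℕ) + 1) else ∅)

theorem fs_ord (T : Tool) (E : ℕ) {y : K} (hy : y ≠ 0) (i : Bool × Fin E)
    {v : HeightOneSpectrum (𝓞 K)} (hv : v ∈ fs T E y i) : (1 : ℝ) ≤ |(ord v y : ℝ)| := by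
  have key : ∀ n : ℤ, n ≠ 0 → (1 : ℝ) ≤ |(n : ℝ)| := by
    intro n hn
    have h1 : (1 : ℤ) ≤ |n| := Int.one_le_abs hn
    exact_mod_cast h1
  unfold fs at hv
  split_ifs at hv with h1 h2 h3
  · rw [mem_Zs hy (by omega)] at hv
    apply key
    rw [hv]
    push_cast
    omega
  · simp at hv
  · rw [mem_Zs (inv_ne_zero hy) (by omega), tc_ord_inv v hy] at hv
    apply key
    intro h
    rw [h] at hv
    push_cast at hv
    omega
  · simp at hv

theorem LN_fs_le (T : Tool) (E : ℕ) {y : K} (hy : y ≠ 0) (i : Bool × Fin E) :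
    LN (fs T E y i) ≤ 2 * hgt y := by
  refine le_trans ?_ (sum_abs_ord_le hy (fs T E y i))
  unfold LN
  refine Finset.sum_le_sum fun v hv => ?_
  have h1 := fs_ord T E hy i hv
  have h2 : 0 < ln v := tc_ln_pos v
  calc ln v = 1 * ln v := (one_mul _).symm
    _ ≤ |(ord v y : ℝ)| * ln v := mul_le_mul_of_nonneg_right h1 h2.le

theorem Sf_eq (T : Tool) (E : ℕ) (h0 : ∀ n ∈ T.F0, 1 ≤ n ∧ n ≤ E) (h1 : ∀ n ∈ T.F1, 1 ≤ n ∧ n ≤ E)
    {y : K} (hy : y ≠ 0) : Sf T y = ∑ i, LN (fs T E y i) := by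
  classical
  have hLN : LN (∅ : Finset (HeightOneSpectrum (𝓞 K))) = 0 := by simp [LN]
  unfold Sf
  rw [rd_eq_sum hy T.F0 E h0, rd_eq_sum (inv_ne_zero hy) T.F1 E h1,
    Fintype.sum_prod_type, Fintype.sum_bool, Finset.sum_range_succ', Finset.sum_range_succ',
    Finset.sum_range, Finset.sum_range]
  have e0 : (0 : ℕ) ∉ T.F0 := fun h => by have := (h0 0 h).1; omega
  have e1 : (0 : ℕ) ∉ T.F1 := fun h => by have := (h1 0 h).1; omega
  rw [if_neg e0, if_neg e1, add_zero, add_zero]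
  congr 1
  · refine Finset.sum_congr rfl fun i _ => ?_
    unfold fs
    simp only [if_true]
    split_ifs
    · rfl
    · exact hLN.symm
  · refine Finset.sum_congr rfl fun i _ => ?_
    unfold fs
    simp only [Bool.false_eq_true, if_false]
    split_ifs
    · rfl
    · exact hLN.symm

/-- The choice of the powers of two. -/
theorem exists_m {ι : Type*} [Fintype ι] (n : ι → ℝ) (hn : ∀ i, 0 < n i) :
    ∃ m : ι → ℕ, ∑ i, ((1 : ℝ) / 2) ^ m i ≤ 2 ∧ ∀ i, (2 : ℝ) ^ m i * n i ≤ ∑ i, n i := by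
  have h1 : ∀ i, ∃ m : ℕ, (2 : ℝ) ^ m ≤ (∑ i, n i) / n i ∧ (∑ i, n i) / n i < 2 ^ (m + 1) := by
    intro i
    apply exists_nat_pow_near
    · rw [le_div_iff₀ (hn i), one_mul]
      exact Finset.single_le_sum (f := n) (fun j _ => (hn j).le) (Finset.mem_univ i)
    · norm_num
  choose m hm using h1
  refine ⟨m, ?_, fun i => ?_⟩
  · rcases isEmpty_or_nonempty ι with h | ⟨⟨i0⟩⟩
    · simp
    have hS : 0 < ∑ i, n i := lt_of_lt_of_le (hn i0)
      (Finset.single_le_sum (f := n) (fun j _ => (hn j).le) (Finset.mem_univ i0))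
    have h2 : ∀ i, ((1 : ℝ) / 2) ^ m i ≤ 2 * (n i / ∑ i, n i) := by
      intro i
      have h3 := (hm i).2
      rw [div_lt_iff₀ (hn i), pow_succ] at h3
      rw [one_div, inv_pow, inv_eq_one_div, div_le_iff₀ (by positivity), mul_div_assoc', div_mul_eq_mul_div,
        le_div_iff₀ hS]
      nlinarith
    refine (Finset.sum_le_sum fun i _ => h2 i).trans ?_
    rw [← Finset.mul_sum, ← Finset.sum_div, div_self hS.ne', mul_one]
  · exact (le_div_iff₀ (hn i)).1 (hm i).1

/-- The numerical inequality. -/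
theorem num_bound {ι : Type*} [Fintype ι] (n : ι → ℝ) (hn : ∀ i, 0 < n i) (m : ι → ℕ)
    (hm : ∀ i, (2 : ℝ) ^ m i * n i ≤ ∑ i, n i) {ν ε C : ℝ} (hν : 0 ≤ ν) (hε : 0 ≤ ε) (hC : 1 ≤ C)
    (F : ι → ℝ) (hF0 : ∀ i, 0 ≤ F i)
    (hF : ∀ i, F i ≤ C * Real.exp (ε * (n i + ν)) *
      Real.exp (((2 ^ m i : ℕ) : ℝ) * n i + max 0 (((2 ^ m i : ℕ) : ℝ) * n i - ν))) :
    ∏ i, F i ^ ((1 : ℝ) / 2 ^ (m i + 1)) ≤ C ^ (Fintype.card ι) *
      Real.exp (ε * ∑ i, (n i + ν) + (∑ i, n i) / 2 + max 0 ((∑ i, n i) - ν) / 2) := by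
  have hS0 : 0 ≤ ∑ i, n i := Finset.sum_nonneg fun i _ => (hn i).le
  have h1 : ∀ i, F i ^ ((1 : ℝ) / 2 ^ (m i + 1)) ≤ C * Real.exp (ε * (n i + ν) + n i / 2 +
      (n i / ∑ i, n i) * max 0 ((∑ i, n i) - ν) / 2) := by
    intro i
    have hS : 0 < ∑ i, n i := lt_of_lt_of_le (hn i)
      (Finset.single_le_sum (f := n) (fun j _ => (hn j).le) (Finset.mem_univ i))
    obtain ⟨k, hk⟩ : ∃ k : ℝ, k = 2 ^ m i := ⟨_, rfl⟩
    have hk1 : 1 ≤ k := by rw [hk]; exact one_le_pow₀ (by norm_num)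
    have hk0 : 0 < k := by linarith
    have hki := hm i
    rw [← hk] at hki
    have h2 := hF i
    push_cast at h2
    rw [← hk] at h2
    have h3 : ((1 : ℝ) / 2 ^ (m i + 1)) = 1 / (2 * k) := by rw [hk, pow_succ]; ring
    rw [h3]
    have hexp : 0 ≤ 1 / (2 * k) := by positivity
    refine (Real.rpow_le_rpow (hF0 i) h2 hexp).trans ?_
    rw [mul_assoc, ← Real.exp_add, Real.mul_rpow (by linarith) (Real.exp_pos _).le]
    refine mul_le_mul ?_ ?_ (by positivity) (by linarith)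
    · calc C ^ (1 / (2 * k)) ≤ C ^ (1 : ℝ) :=
          Real.rpow_le_rpow_of_exponent_le hC (by
            rw [div_le_one (by positivity)]; linarith)
        _ = C := Real.rpow_one C
    · rw [← Real.exp_mul]
      apply Real.exp_le_exp.2
      have h4 : max 0 (k * n i - ν) ≤ k * ((n i / ∑ i, n i) * max 0 ((∑ i, n i) - ν)) := by
        apply max_le
        · have := hn i
          positivity
        · have h5 : (n i / ∑ i, n i) * ((∑ i, n i) - ν) ≤
              (n i / ∑ i, n i) * max 0 ((∑ i, n i) - ν) :=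
            mul_le_mul_of_nonneg_left (le_max_right _ _) (by have := hn i; positivity)
          have h6 : k * n i - ν ≤ k * ((n i / ∑ i, n i) * ((∑ i, n i) - ν)) := by
            have h7 : (n i / ∑ i, n i) * ((∑ i, n i) - ν) = n i - (n i / ∑ i, n i) * ν := by
              field_simp
            rw [h7, mul_sub]
            have h8 : k * (n i / ∑ i, n i) ≤ 1 := by
              rw [mul_div_assoc', div_le_one hS]
              exact hki
            nlinarith
          nlinarith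
      have h9 : (ε * (n i + ν) + (k * n i + max 0 (k * n i - ν))) * (1 / (2 * k)) ≤
          (ε * (n i + ν) + (k * n i + k * ((n i / ∑ i, n i) * max 0 ((∑ i, n i) - ν)))) *
            (1 / (2 * k)) := mul_le_mul_of_nonneg_right (by linarith) hexp
      refine h9.trans ?_
      have h10 : (ε * (n i + ν) + (k * n i + k * ((n i / ∑ i, n i) * max 0 ((∑ i, n i) - ν)))) *
            (1 / (2 * k)) = ε * (n i + ν) * (1 / (2 * k)) + n i / 2 +
            (n i / ∑ i, n i) * max 0 ((∑ i, n i) - ν) / 2 := by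
        have hk2 : k * (1 / (2 * k)) = 1 / 2 := by field_simp
        generalize 1 / (2 * k) = c at hk2
        linear_combination (n i + (n i / ∑ i, n i) * max 0 ((∑ i, n i) - ν)) * hk2
      rw [h10]
      have h11 : ε * (n i + ν) * (1 / (2 * k)) ≤ ε * (n i + ν) * 1 := by
        refine mul_le_mul_of_nonneg_left ?_ (by have := hn i; positivity)
        rw [div_le_one (by positivity)]; linarith
      linarith
  refine (Finset.prod_le_prod (fun i _ => Real.rpow_nonneg (hF0 i) _) (fun i _ => h1 i)).trans ?_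
  rw [Finset.prod_mul_distrib, Finset.prod_const, Finset.card_univ, ← Real.exp_sum]
  refine mul_le_mul_of_nonneg_left (Real.exp_le_exp.2 ?_) (by positivity)
  rw [Finset.sum_add_distrib, Finset.sum_add_distrib, ← Finset.mul_sum, ← Finset.sum_div,
    ← Finset.sum_div, ← Finset.sum_mul, ← Finset.sum_div]
  have h12 : (∑ i, n i) / (∑ i, n i) ≤ 1 := div_self_le_one _
  have h13 : (∑ i, n i) / (∑ i, n i) * max 0 ((∑ i, n i) - ν) ≤ 1 * max 0 ((∑ i, n i) - ν) :=
    mul_le_mul_of_nonneg_right h12 (le_max_left _ _)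
  linarith

/-- The factor of the exponent `i`. -/
noncomputable def gf {G : Type*} [Group G] {E : ℕ} (i : Bool × Fin E) (x : G) : G :=
  if i.1 = true then x ^ ((i.2 : ℕ) + 1) else (x ^ ((i.2 : ℕ) + 1))⁻¹

theorem gf_map {G H : Type*} [Group G] [Group H] (φ : G →* H) {E : ℕ} (i : Bool × Fin E) (x : G) :
    φ (gf i x) = gf i (φ x) := by
  unfold gf
  split_ifs
  · rw [map_pow]
  · rw [map_inv, map_pow]

theorem abs_log_gf {E : ℕ} (i : Bool × Fin E) (x : Kˣ) {C0 : ℝ} (w : InfinitePlace K)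
    (hx : |Real.log (w (x : K))| ≤ C0) :
    |Real.log (w ((gf i x : Kˣ) : K))| ≤ E * C0 := by
  have hC : 0 ≤ C0 := (abs_nonneg _).trans hx
  have hn : (((i.2 : ℕ) + 1 : ℕ) : ℝ) ≤ E := by exact_mod_cast i.2.2
  have h1 : |Real.log (w ((x : K) ^ ((i.2 : ℕ) + 1)))| ≤ E * C0 := by
    rw [map_pow, Real.log_pow, abs_mul, Nat.abs_cast]
    exact mul_le_mul hn hx (abs_nonneg _) (Nat.cast_nonneg _)
  unfold gf
  split_ifs
  · rw [Units.val_pow_eq_pow_val]; exact h1
  · rw [Units.val_inv_eq_inv_val, Units.val_pow_eq_pow_val, map_inv₀, Real.log_inv, abs_neg]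
    exact h1

theorem abs_log_prod {ι : Type*} (s : Finset ι) (f : ι → Kˣ) {B : ℝ} (w : InfinitePlace K)
    (h : ∀ i ∈ s, |Real.log (w (f i : K))| ≤ B) :
    |Real.log (w ((∏ i ∈ s, f i : Kˣ) : K))| ≤ s.card * B := by
  classical
  induction s using Finset.induction_on with
  | empty => simp
  | insert a s ha ih =>
    rw [Finset.prod_insert ha, Finset.card_insert_of_notMem ha, Units.val_mul, map_mul,
      Real.log_mul (InfinitePlace.pos_iff.2 (f a).ne_zero).ne'
        (InfinitePlace.pos_iff.2 (Units.ne_zero _)).ne']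
    have h1 := h a (Finset.mem_insert_self a s)
    have h2 := ih fun i hi => h i (Finset.mem_insert_of_mem hi)
    refine (abs_add_le _ _).trans ?_
    rw [Nat.cast_add, Nat.cast_one]
    linarith

open Classical in
/-- The unit part. -/
theorem unit_part' (T : Tool) (E : ℕ)
    (h0 : ∀ n ∈ T.F0, 1 ≤ n ∧ n ≤ E) (h1 : ∀ n ∈ T.F1, 1 ≤ n ∧ n ≤ E) {y y1 : K} (hy : y ≠ 0)
    (hy1 : y1 ≠ 0) (hk : ∀ v, kf T y v = kf T y1 v) (x : Bool × Fin E → Kˣ)
    (hx : ∀ i v, ord v (x i : K) = (if v ∈ fs T E y i then 1 else 0) -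
      (if v ∈ fs T E y1 i then 1 else 0)) (v : HeightOneSpectrum (𝓞 K)) :
    ord v (y / (y1 * ((∏ i, gf i (x i) : Kˣ) : K))) = 0 := by
  set ξ : ℕ → K := fun n => if h : 1 ≤ n ∧ n - 1 < E then ((x (true, ⟨n - 1, h.2⟩) : Kˣ) : K) else 1
    with hξ
  set υ : ℕ → K := fun n => if h : 1 ≤ n ∧ n - 1 < E then ((x (false, ⟨n - 1, h.2⟩) : Kˣ) : K) else 1
    with hυ
  have e0 : (0 : ℕ) ∉ T.F0 := fun h => by have := (h0 0 h).1; omega
  have e1 : (0 : ℕ) ∉ T.F1 := fun h => by have := (h1 0 h).1; omega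
  have key := unit_part K T E h0 h1 y y1 hy hy1 hk ξ υ
    (fun n hn => by
      simp only [hξ, hυ]
      constructor
      · split_ifs
        · exact Units.ne_zero _
        · exact one_ne_zero
      · split_ifs
        · exact Units.ne_zero _
        · exact one_ne_zero)
    (fun n hn v => by
      simp only [hξ]
      by_cases hn1 : 1 ≤ n
      · have hn2 : n - 1 < E := by
          have := Finset.mem_range.1 hn
          omega
        rw [dif_pos ⟨hn1, hn2⟩, hx]
        have e2 : n - 1 + 1 = n := by omega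
        unfold fs
        simp only [if_true, e2]
        by_cases hF : n ∈ T.F0
        · simp only [if_pos hF]
        · simp only [if_neg hF]
          simp
      · have hn0 : n = 0 := by omega
        subst hn0
        rw [dif_neg (by simp), if_neg e0, SelmerAux.ord_one])
    (fun n hn v => by
      simp only [hυ]
      by_cases hn1 : 1 ≤ n
      · have hn2 : n - 1 < E := by
          have := Finset.mem_range.1 hn
          omega
        rw [dif_pos ⟨hn1, hn2⟩, hx]
        have e2 : n - 1 + 1 = n := by omega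
        unfold fs
        simp only [Bool.false_eq_true, if_false, e2]
        by_cases hF : n ∈ T.F1
        · simp only [if_pos hF]
        · simp only [if_neg hF]
          simp
      · have hn0 : n = 0 := by omega
        subst hn0
        rw [dif_neg (by simp), if_neg e1, SelmerAux.ord_one]) v
  have e3 : (∏ n ∈ Finset.range (E + 1), ξ n ^ n) =
      ((∏ i : Fin E, (x (true, i)) ^ ((i : ℕ) + 1) : Kˣ) : K) := by
    rw [Finset.prod_range_succ', pow_zero, mul_one, Finset.prod_range, Units.coe_prod]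
    refine Finset.prod_congr rfl fun i _ => ?_
    simp only [hξ]
    rw [dif_pos ⟨by omega, by have := i.2; omega⟩, Units.val_pow_eq_pow_val]
    rfl
  have e4 : (∏ n ∈ Finset.range (E + 1), υ n ^ n) =
      ((∏ i : Fin E, (x (false, i)) ^ ((i : ℕ) + 1) : Kˣ) : K) := by
    rw [Finset.prod_range_succ', pow_zero, mul_one, Finset.prod_range, Units.coe_prod]
    refine Finset.prod_congr rfl fun i _ => ?_
    simp only [hυ]
    rw [dif_pos ⟨by omega, by have := i.2; omega⟩, Units.val_pow_eq_pow_val]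
    rfl
  have e5 : (∏ i, gf i (x i)) = (∏ i : Fin E, (x (true, i)) ^ ((i : ℕ) + 1)) *
      (∏ i : Fin E, (x (false, i)) ^ ((i : ℕ) + 1))⁻¹ := by
    rw [Fintype.prod_prod_type, Fintype.prod_bool, ← Finset.prod_inv_distrib]
    congr 1
  rw [e3, e4] at key
  rw [e5, Units.val_mul, Units.val_inv_eq_inv_val, ← mul_assoc, ← div_eq_mul_inv]
  exact key

/-- An element of the family is in the subgroup. -/
theorem mem_Hs (T : Tool) {y y1 : K} (hy : y ≠ 0) (hy1 : y ≠ 1)
    (hj : ∀ v, jf T y v = jf T y1 v) (V : Finset (HeightOneSpectrum (𝓞 K)))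
    (j : HeightOneSpectrum (𝓞 K) → ℕ) (hV : ∀ v ∈ V, 1 ≤ j v ∧ ((j v : ℕ) : ℤ) = jf T y1 v) :
    Units.mk0 y hy ∈ Hs V j := by
  intro v hv
  obtain ⟨h1, h2⟩ := hV v hv
  have h3 : 0 < jf T y v := by rw [hj v, ← h2]; exact_mod_cast h1
  have h4 : jf T y v = ord v (y - 1) := by
    unfold jf at h3 ⊢
    split_ifs at h3 ⊢ with h
    · rfl
    · exact absurd h3 (lt_irrefl _)
  have hy1' : y - 1 ≠ 0 := sub_ne_zero.2 hy1
  have h5 : FinitePlace.mk v (y - 1) = Real.exp (-((j v : ℝ) * ln v)) := by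
    have h6 := log_mk v hy1'
    rw [← h4, hj v, ← h2] at h6
    rw [← Real.exp_log (FinitePlace.pos_iff.2 hy1'), h6]
    congr 1
    unfold ln
    push_cast
    ring
  have h6 : FinitePlace.mk v (y - 1) < 1 := by
    rw [h5, Real.exp_lt_one_iff]
    have : (1 : ℝ) ≤ (j v : ℝ) := by exact_mod_cast h1
    have h7 : 0 < ln v := tc_ln_pos v
    have : 0 < (j v : ℝ) * ln v := by positivity
    linarith
  refine ⟨?_, ?_⟩
  · have h8 : FinitePlace.mk v (Units.mk0 y hy : Kˣ) = 1 := by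
      rw [Units.val_mk0]
      exact Cell.mk_eq_one_of v h6
    exact h8
  · rw [Units.val_mk0, h5]

open Classical in
/-- The reduction of one class to an equation. -/
theorem class_card (T : Tool) (E : ℕ)
    (h0 : ∀ n ∈ T.F0, 1 ≤ n ∧ n ≤ E) (h1 : ∀ n ∈ T.F1, 1 ≤ n ∧ n ≤ E) {C0 B1 : ℝ}
    (hB1 : 1 + (Fintype.card (Bool × Fin E) : ℝ) * (E * C0) ≤ B1) (U : Finset K)
    (hU : ∀ η : K, η ≠ 0 → (∀ v : HeightOneSpectrum (𝓞 K), ord v η = 0) →
      (∀ w : InfinitePlace K, |Real.log (w η)| ≤ B1) → η ∈ U)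
    {P : Finset K} {y1 : K} (hy1 : y1 ∈ P) (hP : ∀ y ∈ P, y ≠ 0 ∧ y ≠ 1) (hS : SameData T P y1)
    (ξ : Bool × Fin E → Finset (HeightOneSpectrum (𝓞 K)) → Kˣ)
    (hξ : ∀ y ∈ P, ∀ i, (∀ v, ord v (ξ i (fs T E y i) : K) =
      (if v ∈ fs T E y i then 1 else 0) - (if v ∈ fs T E y1 i then 1 else 0)) ∧
        ∀ w : InfinitePlace K, |Real.log (w (ξ i (fs T E y i) : K))| ≤ C0)
    (V : Finset (HeightOneSpectrum (𝓞 K))) (j : HeightOneSpectrum (𝓞 K) → ℕ)
    (hV : ∀ v ∈ V, 1 ≤ j v ∧ ((j v : ℕ) : ℤ) = jf T y1 v) {N : ℝ}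
    (hN : ∀ q : Kˣ ⧸ Hs V j, ((((Fintype.piFinset (fun i => P.image (fun y => fs T E y i))).filter
      (fun x => ∏ i, gf i (QuotientGroup.mk (ξ i (x i)) : Kˣ ⧸ Hs V j) = q)).card : ℕ) : ℝ) ≤ N) :
    (P.card : ℝ) ≤ U.card * N := by
  have hy10 : y1 ≠ 0 := (hP y1 hy1).1
  obtain ⟨g, hg⟩ : ∃ g : (Bool × Fin E → Finset (HeightOneSpectrum (𝓞 K))) → Kˣ,
    g = fun x => ∏ i, gf i (ξ i (x i)) := ⟨_, rfl⟩
  obtain ⟨η, hη⟩ : ∃ η : K → K, η = fun y => y / (y1 * ((g (fs T E y) : Kˣ) : K)) := ⟨_, rfl⟩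
  have hηy : ∀ y ∈ P, y = y1 * η y * ((g (fs T E y) : Kˣ) : K) := by
    intro y hy
    rw [hη]
    have h2 : ((g (fs T E y) : Kˣ) : K) ≠ 0 := Units.ne_zero _
    simp only
    field_simp
  have hη0 : ∀ y ∈ P, η y ≠ 0 := by
    intro y hy
    rw [hη]
    exact div_ne_zero (hP y hy).1 (mul_ne_zero hy10 (Units.ne_zero _))
  have hηU : ∀ y ∈ P, η y ∈ U := by
    intro y hy
    have hy0 := (hP y hy).1
    refine hU _ (hη0 y hy) (fun v => ?_) (fun w => ?_)
    · rw [hη, hg]
      exact unit_part' T E h0 h1 hy0 hy10 (hS y hy).1 (fun i => ξ i (fs T E y i))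
        (fun i v => (hξ y hy i).1 v) v
    · have e1 : |Real.log (w y) - Real.log (w y1)| ≤ 1 :=
        Cell.abs_sub_le_one ((hS y hy).2.2.1 w) rfl
      have e2 : |Real.log (w ((g (fs T E y) : Kˣ) : K))| ≤
          (Fintype.card (Bool × Fin E) : ℝ) * (E * C0) := by
        rw [hg, ← Finset.card_univ]
        exact abs_log_prod Finset.univ _ w fun i _ => abs_log_gf i _ w ((hξ y hy i).2 w)
      have p1 : w y ≠ 0 := (InfinitePlace.pos_iff.2 hy0).ne'
      have p2 : w y1 ≠ 0 := (InfinitePlace.pos_iff.2 hy10).ne'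
      have p3 : w ((g (fs T E y) : Kˣ) : K) ≠ 0 := (InfinitePlace.pos_iff.2 (Units.ne_zero _)).ne'
      rw [hη]
      simp only
      rw [map_div₀, map_mul, Real.log_div p1 (mul_ne_zero p2 p3), Real.log_mul p2 p3]
      have e3 := abs_le.1 e1
      have e4 := abs_le.1 e2
      rw [abs_le]
      constructor <;> linarith [e3.1, e3.2, e4.1, e4.2]
  have hcard : P.card = ∑ t ∈ U, (P.filter (fun y => η y = t)).card :=
    Finset.card_eq_sum_card_fiberwise (f := η) (t := U) fun y hy => hηU y (Finset.mem_coe.1 hy)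
  rw [hcard, Nat.cast_sum, ← nsmul_eq_mul, ← Finset.sum_const]
  refine Finset.sum_le_sum fun t ht => ?_
  rcases (P.filter (fun y => η y = t)).eq_empty_or_nonempty with he | ⟨y2, hy2⟩
  · rw [he, Finset.card_empty, Nat.cast_zero]
    exact (Nat.cast_nonneg _).trans (hN 1)
  have ht0 : t ≠ 0 := by
    rw [Finset.mem_filter] at hy2
    rw [← hy2.2]
    exact hη0 y2 hy2.1
  have hq := hN (QuotientGroup.mk (Units.mk0 (y1 * t) (mul_ne_zero hy10 ht0)))⁻¹
  refine le_trans ?_ hq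
  rw [Nat.cast_le]
  refine Finset.card_le_card_of_injOn (fun y => fs T E y) ?_ ?_
  · intro y hy
    have hy' := Finset.mem_filter.1 (Finset.mem_coe.1 hy)
    rw [Finset.mem_coe, Finset.mem_filter, Fintype.mem_piFinset]
    refine ⟨fun i => Finset.mem_image.2 ⟨y, hy'.1, rfl⟩, ?_⟩
    have e1 : Units.mk0 y (hP y hy'.1).1 = Units.mk0 (y1 * t) (mul_ne_zero hy10 ht0) *
        g (fs T E y) := by
      apply Units.ext
      rw [Units.val_mul, Units.val_mk0, Units.val_mk0, ← hy'.2]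
      exact hηy y hy'.1
    have e2 : (QuotientGroup.mk (Units.mk0 y (hP y hy'.1).1) : Kˣ ⧸ Hs V j) = 1 := by
      rw [QuotientGroup.eq_one_iff]
      exact mem_Hs T _ (hP y hy'.1).2 (hS y hy'.1).2.1 V j hV
    rw [e1, QuotientGroup.mk_mul] at e2
    have e3 : (∏ i, gf i (QuotientGroup.mk (ξ i (fs T E y i)) : Kˣ ⧸ Hs V j)) =
        (QuotientGroup.mk (g (fs T E y)) : Kˣ ⧸ Hs V j) := by
      rw [hg]
      have e4 := map_prod (QuotientGroup.mk' (Hs V j)) (fun i => gf i (ξ i (fs T E y i)))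
        Finset.univ
      simp only [gf_map] at e4
      exact e4.symm
    rw [e3]
    exact (inv_eq_of_mul_eq_one_right e2).symm
  · intro y hy y' hy' h
    have g1 := Finset.mem_filter.1 (Finset.mem_coe.1 hy)
    have g2 := Finset.mem_filter.1 (Finset.mem_coe.1 hy')
    have h' : fs T E y = fs T E y' := h
    rw [hηy y g1.1, hηy y' g2.1, g1.2, g2.2, h']

end

open Classical in
/-- The bound for one class. -/
theorem class_bound (K : Type*) [Field K] [NumberField K] (T : Tool) (E : ℕ)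
    (h0 : ∀ n ∈ T.F0, 1 ≤ n ∧ n ≤ E) (h1 : ∀ n ∈ T.F1, 1 ≤ n ∧ n ≤ E)
    {M : ℕ} (cl : Finset (HeightOneSpectrum (𝓞 K)) → Fin M) {C0 : ℝ} (hC0 : 0 < C0)
    (hbal : ∀ X Y, cl X = cl Y → |LN X - LN Y| ≤ 1 →
        ∃ ξ : K, ξ ≠ 0 ∧ (∀ v, ord v ξ = (if v ∈ X then 1 else 0) - (if v ∈ Y then 1 else 0)) ∧
          ∀ w : InfinitePlace K, |Real.log (w ξ)| ≤ C0)
    {ε1 ε2 : ℝ} (hε1 : 0 < ε1) (hε11 : ε1 ≤ 1) (hε2 : 0 < ε2) :
    ∃ C : ℝ, 1 ≤ C ∧ ∀ (D : ℝ) (P : Finset K) (y1 : K), 0 ≤ D → y1 ∈ P →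
      (∀ y ∈ P, y ≠ 0 ∧ y ≠ 1 ∧ hgt y ≤ D) → SameData T P y1 →
      (∀ y ∈ P, ∀ i, cl (fs T E y i) = cl (fs T E y1 i) ∧
        |LN (fs T E y i) - LN (fs T E y1 i)| ≤ 1) →
        (P.card : ℝ) ≤ C * Real.exp (ε2 * ((Fintype.card (Bool × Fin E) : ℝ) *
          (5 * D + 1 + 2 * (Module.finrank ℚ K * Real.log 2))) +
          (Fintype.card (Bool × Fin E) : ℝ) * (ε1 * D + 1) + Om T y1) := by
  obtain ⟨Nι, hNι⟩ : ∃ Nι : ℝ, Nι = (Fintype.card (Bool × Fin E) : ℝ) := ⟨_, rfl⟩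
  have hNι0 : 0 ≤ Nι := by rw [hNι]; exact Nat.cast_nonneg _
  obtain ⟨B1, hB1⟩ : ∃ B1 : ℝ, B1 = 1 + Nι * (E * C0) := ⟨_, rfl⟩
  have hUf := units_bdd K B1
  obtain ⟨mm, hmm⟩ : ∃ mm : ℕ, 3 * Nι / ε1 ≤ mm := exists_nat_ge _
  have hen := fun (i : Bool × Fin E) (m : ℕ) =>
    energy_bound K ((i.2 : ℕ) + 1) (by omega) C0 (2 ^ m) Nat.one_le_two_pow hε2
  choose CE hCE0 hCE using hen
  obtain ⟨C1, hC1⟩ : ∃ C1 : ℝ, C1 = 1 + ∑ i, ∑ m ∈ Finset.range (mm + 1), CE i m := ⟨_, rfl⟩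
  have hC1' : ∀ i m, m ≤ mm → CE i m ≤ C1 := by
    intro i m hm
    have e1 : CE i m ≤ ∑ m ∈ Finset.range (mm + 1), CE i m :=
      Finset.single_le_sum (f := fun m => CE i m) (fun m _ => (hCE0 i m).le)
        (Finset.mem_range.2 (by omega))
    have e2 : ∑ m ∈ Finset.range (mm + 1), CE i m ≤
        ∑ i, ∑ m ∈ Finset.range (mm + 1), CE i m :=
      Finset.single_le_sum (f := fun i => ∑ m ∈ Finset.range (mm + 1), CE i m)
        (fun i _ => Finset.sum_nonneg fun m _ => (hCE0 i m).le) (Finset.mem_univ i)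
    linarith
  have hC11 : 1 ≤ C1 := by
    have : 0 ≤ ∑ i, ∑ m ∈ Finset.range (mm + 1), CE i m :=
      Finset.sum_nonneg fun i _ => Finset.sum_nonneg fun m _ => (hCE0 i m).le
    linarith
  refine ⟨(hUf.toFinset.card + 1 : ℝ) * C1 ^ (Fintype.card (Bool × Fin E)), ?_, ?_⟩
  · have e1 : 1 ≤ C1 ^ (Fintype.card (Bool × Fin E)) := one_le_pow₀ hC11
    have e2 : (0 : ℝ) ≤ hUf.toFinset.card := Nat.cast_nonneg _
    nlinarith
  intro D P y1 hD hy1 hP hS hcl
  have hy10 : y1 ≠ 0 := (hP y1 hy1).1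
  have hy11 : y1 - 1 ≠ 0 := sub_ne_zero.2 (hP y1 hy1).2.1
  -- the generators
  have hgen : ∀ (i : Bool × Fin E) (X : Finset (HeightOneSpectrum (𝓞 K))), ∃ ξ : Kˣ,
      cl X = cl (fs T E y1 i) → |LN X - LN (fs T E y1 i)| ≤ 1 →
        (∀ v, ord v (ξ : K) = (if v ∈ X then 1 else 0) - (if v ∈ fs T E y1 i then 1 else 0)) ∧
          ∀ w : InfinitePlace K, |Real.log (w (ξ : K))| ≤ C0 := by
    intro i X
    by_cases h : cl X = cl (fs T E y1 i) ∧ |LN X - LN (fs T E y1 i)| ≤ 1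
    · obtain ⟨ξ, e1, e2, e3⟩ := hbal _ _ h.1 h.2
      exact ⟨Units.mk0 ξ e1, fun _ _ => ⟨e2, e3⟩⟩
    · exact ⟨1, fun e1 e2 => absurd ⟨e1, e2⟩ h⟩
  choose ξ hξ using hgen
  -- the modulus
  obtain ⟨V, hV⟩ : ∃ V : Finset (HeightOneSpectrum (𝓞 K)),
    V = (finite_support hy11).toFinset.filter (fun v => jf T y1 v ≠ 0) := ⟨_, rfl⟩
  obtain ⟨j, hj⟩ : ∃ j : HeightOneSpectrum (𝓞 K) → ℕ, j = fun v => (jf T y1 v).toNat := ⟨_, rfl⟩
  have hVj : ∀ v ∈ V, 1 ≤ j v ∧ ((j v : ℕ) : ℤ) = jf T y1 v := by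
    intro v hv
    rw [hV, Finset.mem_filter] at hv
    have e1 := Cell.jf_nonneg T y1 v
    have e2 := hv.2
    rw [hj]
    simp only
    omega
  have hVord : ∀ v ∈ V, jf T y1 v = ord v (y1 - 1) := by
    intro v hv
    rw [hV, Finset.mem_filter] at hv
    have e2 := hv.2
    unfold jf at e2 ⊢
    split_ifs at e2 ⊢ with h
    · rfl
    · exact absurd rfl e2
  obtain ⟨ν, hν⟩ : ∃ ν : ℝ, ν = ∑ v ∈ V, (j v : ℝ) * ln v := ⟨_, rfl⟩
  have hν0 : 0 ≤ ν := by
    rw [hν]
    exact Finset.sum_nonneg fun v _ => mul_nonneg (Nat.cast_nonneg _) (tc_ln_pos v).le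
  have hνle : ν ≤ 2 * (Module.finrank ℚ K * Real.log 2) + 2 * D := by
    have e1 := sum_abs_ord_le hy11 V
    have e2 := hgt_sub_one y1
    have e3 := (hP y1 hy1).2.2
    have e4 : ν ≤ ∑ v ∈ V, |(ord v (y1 - 1) : ℝ)| *
        Real.log (Ideal.absNorm v.asIdeal : ℝ) := by
      rw [hν]
      refine Finset.sum_le_sum fun v hv => ?_
      have e5 : (j v : ℝ) = (ord v (y1 - 1) : ℝ) := by
        have := (hVj v hv).2
        rw [hVord v hv] at this
        exact_mod_cast this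
      rw [e5]
      exact mul_le_mul_of_nonneg_right (le_abs_self _) (tc_ln_pos v).le
    linarith
  have hνsz : ν = sz (y1 - 1) T.Gᶜ := by
    rw [hν]
    unfold sz
    rw [finsum_eq_sum_of_support_subset (s := (finite_support hy11).toFinset)]
    · rw [hV, Finset.sum_filter]
      refine Finset.sum_congr rfl fun v _ => ?_
      rw [hj]
      simp only
      by_cases hc : 0 < ord v (y1 - 1) ∧ (ord v (y1 - 1)).toNat ∈ T.Gᶜ
      · have e1 : jf T y1 v = ord v (y1 - 1) := by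
          unfold jf
          rw [if_pos (show 0 < ord v (y1 - 1) ∧ (ord v (y1 - 1)).toNat ∉ T.G from hc)]
        rw [if_pos hc, if_pos (by rw [e1]; omega), e1]
        congr 1
        have := Int.toNat_of_nonneg hc.1.le
        exact_mod_cast this
      · have e1 : jf T y1 v = 0 := by
          unfold jf
          rw [if_neg (show ¬ (0 < ord v (y1 - 1) ∧ (ord v (y1 - 1)).toNat ∉ T.G) from hc)]
        rw [if_neg hc, if_neg (by rw [e1]; simp)]
    · intro v hv
      rw [Set.Finite.coe_toFinset]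
      intro hm
      apply hv
      have e2 := (ord_eq_zero_iff v hy11).2 hm
      simp [e2]
  -- the sizes
  obtain ⟨n, hn⟩ : ∃ n : Bool × Fin E → ℝ, n = fun i => LN (fs T E y1 i) + ε1 * D + 1 := ⟨_, rfl⟩
  have hnpos : ∀ i, ε1 * (D + 1) ≤ n i := by
    intro i
    rw [hn]
    have := LN_nonneg (fs T E y1 i)
    simp only
    linarith
  have hnpos' : ∀ i, 0 < n i := fun i => lt_of_lt_of_le (by positivity) (hnpos i)
  have hnle : ∀ i, n i ≤ 3 * D + 1 := by
    intro i
    rw [hn]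
    have e1 := LN_fs_le T E hy10 i
    have e2 := (hP y1 hy1).2.2
    simp only
    nlinarith
  have hSn : ∑ i, n i = Sf T y1 + Nι * (ε1 * D + 1) := by
    rw [Sf_eq T E h0 h1 hy10, hn, hNι]
    simp only
    rw [← Finset.card_univ, ← nsmul_eq_mul, ← Finset.sum_const, ← Finset.sum_add_distrib]
    exact Finset.sum_congr rfl fun i _ => by ring
  have hSnle : ∑ i, n i ≤ Nι * (3 * D + 1) := by
    rw [hNι, ← Finset.card_univ, ← nsmul_eq_mul, ← Finset.sum_const]
    exact Finset.sum_le_sum fun i _ => hnle i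
  obtain ⟨m, hm1, hm2⟩ := exists_m n hnpos'
  have hmle : ∀ i, m i ≤ mm := by
    intro i
    have e1 := hm2 i
    have e2 : (2 : ℝ) ^ m i * (ε1 * (D + 1)) ≤ Nι * (3 * D + 1) :=
      (mul_le_mul_of_nonneg_left (hnpos i) (by positivity)).trans (e1.trans hSnle)
    have e3 : (2 : ℝ) ^ m i ≤ 3 * Nι / ε1 := by
      rw [le_div_iff₀ hε1]
      have hD1 : 0 < D + 1 := by linarith
      have e4 : (2 : ℝ) ^ m i * ε1 * (D + 1) ≤ 3 * Nι * (D + 1) := by nlinarith
      exact le_of_mul_le_mul_right e4 hD1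
    have e5 : (m i : ℝ) < 2 ^ m i := by exact_mod_cast Nat.lt_two_pow_self
    have e6 : (m i : ℝ) ≤ mm := (e5.le.trans e3).trans hmm
    exact_mod_cast e6
  -- the count
  have hcc := class_card T E h0 h1 (C0 := C0) (B1 := B1) (by rw [hB1, hNι]) hUf.toFinset
    (fun η e1 e2 e3 => by
      rw [Set.Finite.mem_toFinset]
      exact ⟨e1, e2, e3⟩) hy1 (fun y hy => ⟨(hP y hy).1, (hP y hy).2.1⟩) hS ξ
    (fun y hy i => hξ i _ (hcl y hy i).1 (hcl y hy i).2) V j hVj
    (N := C1 ^ (Fintype.card (Bool × Fin E)) *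
      Real.exp (ε2 * ∑ i, (n i + ν) + (∑ i, n i) / 2 + max 0 ((∑ i, n i) - ν) / 2)) (by
    intro q
    have e1 := energy_holder (fun i : Bool × Fin E => P.image (fun y => fs T E y i))
      (fun i X => gf i (QuotientGroup.mk (ξ i X) : Kˣ ⧸ Hs V j)) m hm1 q
    have e2 := num_bound n hnpos' m hm2 hν0 hε2.le hC11
      (fun i => (energy (P.image (fun y => fs T E y i))
        (fun X => gf i (QuotientGroup.mk (ξ i X) : Kˣ ⧸ Hs V j)) (2 ^ m i) : ℝ))
      (fun i => Nat.cast_nonneg _) (by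
        intro i
        have e3 := hCE i (m i) V j (n i) (fs T E y1 i) (P.image (fun y => fs T E y i)) (ξ i)
          (fun v hv => (hVj v hv).1) (hnpos' i).le (by
            rw [hn]; simp only
            have : 0 ≤ ε1 * D := by positivity
            linarith) (by
            intro X hX
            obtain ⟨y, hy, rfl⟩ := Finset.mem_image.1 hX
            have e4 := (abs_le.1 (hcl y hy i).2).2
            rw [hn]; simp only
            have : 0 ≤ ε1 * D := by positivity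
            linarith) (by
            intro v hv hvX
            have e4 := fs_ord T E hy10 i hvX
            have e5 := mem_Hs T hy10 (hP y1 hy1).2.1 (hS y1 hy1).2.1 V j hVj v hv
            have e6 := (ord_eq_zero_iff v hy10).2 e5.1
            rw [e6] at e4
            simp at e4
            linarith) (by
            intro X hX v hv hvX
            obtain ⟨y, hy, rfl⟩ := Finset.mem_image.1 hX
            have e4 := fs_ord T E (hP y hy).1 i hvX
            have e5 := mem_Hs T (hP y hy).1 (hP y hy).2.1 (hS y hy).2.1 V j hVj v hv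
            have e6 := (ord_eq_zero_iff v (hP y hy).1).2 e5.1
            rw [e6] at e4
            simp at e4
            linarith) (by
            intro X hX
            obtain ⟨y, hy, rfl⟩ := Finset.mem_image.1 hX
            exact (hξ i _ (hcl y hy i).1 (hcl y hy i).2).1) (by
            intro X hX
            obtain ⟨y, hy, rfl⟩ := Finset.mem_image.1 hX
            exact (hξ i _ (hcl y hy i).1 (hcl y hy i).2).2)
        rw [← hν] at e3
        have e7 : energy (P.image (fun y => fs T E y i))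
            (fun X => gf i (QuotientGroup.mk (ξ i X) : Kˣ ⧸ Hs V j)) (2 ^ m i) =
            energy (P.image (fun y => fs T E y i))
            (fun X => (QuotientGroup.mk (ξ i X) : Kˣ ⧸ Hs V j) ^ ((i.2 : ℕ) + 1)) (2 ^ m i) := by
          unfold gf
          split_ifs
          · rfl
          · exact energy_inv _ _ _
        rw [e7]
        refine e3.trans ?_
        refine mul_le_mul_of_nonneg_right (mul_le_mul_of_nonneg_right (hC1' i (m i) (hmle i)) ?_) ?_
        · exact (Real.exp_pos _).le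
        · exact (Real.exp_pos _).le)
    refine (le_of_eq ?_).trans (e1.trans e2)
    congr
    all_goals exact Subsingleton.elim _ _)
  refine hcc.trans ?_
  rw [mul_assoc]
  refine mul_le_mul (by linarith) ?_ (by positivity) (by positivity)
  refine mul_le_mul_of_nonneg_left (Real.exp_le_exp.2 ?_) (by positivity)
  rw [← hNι]
  have f1 : ∑ i, (n i + ν) ≤ Nι * (5 * D + 1 + 2 * (Module.finrank ℚ K * Real.log 2)) := by
    rw [hNι, ← Finset.card_univ, ← nsmul_eq_mul, ← Finset.sum_const]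
    refine Finset.sum_le_sum fun i _ => ?_
    have := hnle i
    linarith
  have f2 : (∑ i, n i) / 2 + max 0 ((∑ i, n i) - ν) / 2 ≤ Nι * (ε1 * D + 1) + Om T y1 := by
    unfold Om
    rw [← hνsz, hSn]
    have f3 : 0 ≤ Nι * (ε1 * D + 1) := by positivity
    have f4 : max 0 (Sf T y1 + Nι * (ε1 * D + 1) - ν) ≤
        max 0 (Sf T y1 - ν) + Nι * (ε1 * D + 1) := by
      apply max_le
      · have := le_max_left 0 (Sf T y1 - ν)
        linarith
      · have := le_max_right 0 (Sf T y1 - ν)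
        linarith
    linarith
  have f5 := mul_le_mul_of_nonneg_left f1 hε2.le
  linarith

end T6

open T6

open Classical in
theorem cell_t6 (K : Type*) [Field K] [NumberField K] (T : Tool) (E : ℕ)
    (h0 : ∀ n ∈ T.F0, 1 ≤ n ∧ n ≤ E) (h1 : ∀ n ∈ T.F1, 1 ≤ n ∧ n ≤ E) {ε : ℝ} (hε : 0 < ε) :
    ∃ C : ℝ, 0 < C ∧ ∀ (D W : ℝ) (P : Finset K) (y0 : K), 0 ≤ D → y0 ∈ P →
      (∀ y ∈ P, y ≠ 0 ∧ y ≠ 1 ∧ hgt y ≤ D ∧ Om T y ≤ W) → SameData T P y0 →
        (P.card : ℝ) ≤ C * Real.exp (ε * D) * Real.exp W := by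
  obtain ⟨C0, M, cl, hC0, hbal⟩ := balanced K
  obtain ⟨I, hI⟩ : ∃ I : ℕ, I = Fintype.card (Bool × Fin E) := ⟨_, rfl⟩
  have hI0 : (0 : ℝ) ≤ (I : ℝ) := Nat.cast_nonneg _
  obtain ⟨ε1, hε1⟩ : ∃ ε1 : ℝ, ε1 = min 1 (ε / (4 * (I + 1))) := ⟨_, rfl⟩
  obtain ⟨ε2, hε2⟩ : ∃ ε2 : ℝ, ε2 = ε / (20 * (I + 1)) := ⟨_, rfl⟩
  have hε1p : 0 < ε1 := by rw [hε1]; exact lt_min one_pos (by positivity)
  have hε2p : 0 < ε2 := by rw [hε2]; positivity
  have hε1I : (I : ℝ) * ε1 ≤ ε / 4 := by
    have e1 : ε1 ≤ ε / (4 * (I + 1)) := by rw [hε1]; exact min_le_right _ _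
    have e2 : (I : ℝ) * (ε / (4 * (I + 1))) ≤ ε / 4 := by
      rw [mul_div_assoc', div_le_div_iff₀ (by positivity) (by norm_num)]
      nlinarith
    exact (mul_le_mul_of_nonneg_left e1 hI0).trans e2
  have hε2I : ε2 * (I : ℝ) ≤ ε / 20 := by
    rw [hε2, div_mul_eq_mul_div, div_le_div_iff₀ (by positivity) (by norm_num)]
    nlinarith
  obtain ⟨Cb, hCb, hb⟩ := class_bound K T E h0 h1 cl hC0 hbal hε1p
    (by rw [hε1]; exact min_le_left _ _) hε2p
  obtain ⟨CP, hCP, hPo⟩ := tc_poly_le_exp I 1 (by norm_num) (show 0 < ε / 4 by positivity)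
  obtain ⟨d, hd⟩ : ∃ d : ℝ, d = 1 + 2 * ((Module.finrank ℚ K : ℝ) * Real.log 2) := ⟨_, rfl⟩
  have hd0 : 0 ≤ d := by
    rw [hd]
    have : 0 ≤ (Module.finrank ℚ K : ℝ) * Real.log 2 :=
      mul_nonneg (Nat.cast_nonneg _) (Real.log_nonneg (by norm_num))
    linarith
  rw [← hI] at hb
  refine ⟨((M : ℝ) ^ I + 1) * CP * Cb * Real.exp (ε * d + I), by positivity, ?_⟩
  intro D W P y0 hD hy0 hP hS
  set κ : K → (Bool × Fin E → Fin M) × (Bool × Fin E → ℕ) :=
    fun y => (fun i => cl (fs T E y i), fun i => ⌊LN (fs T E y i)⌋₊) with hκ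
  set Q : Finset ((Bool × Fin E → Fin M) × (Bool × Fin E → ℕ)) :=
    Finset.univ ×ˢ Fintype.piFinset (fun _ => Finset.range (⌊2 * D⌋₊ + 1)) with hQ
  have hκQ : ∀ y ∈ P, κ y ∈ Q := by
    intro y hy
    rw [hQ, Finset.mem_product, Fintype.mem_piFinset]
    refine ⟨Finset.mem_univ _, fun i => ?_⟩
    rw [Finset.mem_range, hκ]
    simp only
    have e1 := LN_fs_le T E (hP y hy).1 i
    have e2 := (hP y hy).2.2.1
    have e3 : ⌊LN (fs T E y i)⌋₊ ≤ ⌊2 * D⌋₊ := Nat.floor_le_floor (by linarith)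
    omega
  have hQc : (Q.card : ℝ) ≤ ((M : ℝ) ^ I + 1) * (CP * Real.exp (ε / 4 * D)) := by
    rw [hQ, Finset.card_product, Finset.card_univ, Fintype.card_fun, Fintype.card_fin,
      Fintype.card_piFinset, Finset.prod_const, Finset.card_univ, Finset.card_range, ← hI]
    push_cast
    refine mul_le_mul (by linarith) ?_ (by positivity) (by positivity)
    refine le_trans ?_ (hPo D hD)
    refine pow_le_pow_left₀ (by positivity) ?_ _
    have := Nat.floor_le (show 0 ≤ 2 * D by positivity)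
    linarith
  have hcard : P.card = ∑ t ∈ Q, (P.filter (fun y => κ y = t)).card :=
    Finset.card_eq_sum_card_fiberwise (f := κ) (t := Q) fun y hy => hκQ y (Finset.mem_coe.1 hy)
  have hone : ∀ t ∈ Q, ((P.filter (fun y => κ y = t)).card : ℝ) ≤
      Cb * Real.exp (ε * d + I + ε / 2 * D + W) := by
    intro t ht
    rcases (P.filter (fun y => κ y = t)).eq_empty_or_nonempty with he | ⟨y1, hy1⟩
    · rw [he, Finset.card_empty, Nat.cast_zero]
      positivity
    have hmem : ∀ y ∈ P.filter (fun y => κ y = t), y ∈ P ∧ κ y = t := fun y hy =>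
      Finset.mem_filter.1 hy
    have hy1' := hmem y1 hy1
    have e1 := hb D (P.filter (fun y => κ y = t)) y1 hD hy1
      (fun y hy => by
        have := hP y (hmem y hy).1
        exact ⟨this.1, this.2.1, this.2.2.1⟩)
      (fun y hy => by
        have e2 := hS y (hmem y hy).1
        have e3 := hS y1 hy1'.1
        exact ⟨fun v => (e2.1 v).trans (e3.1 v).symm, fun v => (e2.2.1 v).trans (e3.2.1 v).symm,
          fun w => (e2.2.2.1 w).trans (e3.2.2.1 w).symm,
          fun w => (e2.2.2.2 w).trans (e3.2.2.2 w).symm⟩)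
      (fun y hy i => by
        have e2 : κ y = κ y1 := (hmem y hy).2.trans hy1'.2.symm
        have e3 : cl (fs T E y i) = cl (fs T E y1 i) := congrFun (congrArg Prod.fst e2) i
        have e4 : ⌊LN (fs T E y i)⌋₊ = ⌊LN (fs T E y1 i)⌋₊ := congrFun (congrArg Prod.snd e2) i
        refine ⟨e3, ?_⟩
        have f1 := Nat.floor_le (LN_nonneg (fs T E y i))
        have f2 := Nat.lt_floor_add_one (LN (fs T E y i))
        have f3 := Nat.floor_le (LN_nonneg (fs T E y1 i))
        have f4 := Nat.lt_floor_add_one (LN (fs T E y1 i))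
        rw [e4] at f1 f2
        rw [abs_le]
        constructor <;> linarith)
    refine e1.trans (mul_le_mul_of_nonneg_left (Real.exp_le_exp.2 ?_) (by linarith))
    have g1 := (hP y1 hy1'.1).2.2.2
    have g2 : ε2 * ((I : ℝ) * (5 * D + 1 + 2 * (Module.finrank ℚ K * Real.log 2))) ≤
        ε / 20 * (5 * D + d) := by
      rw [hd, ← mul_assoc]
      have : 0 ≤ 5 * D + (1 + 2 * ((Module.finrank ℚ K : ℝ) * Real.log 2)) := by
        rw [← hd]; positivity
      have h9 := mul_le_mul_of_nonneg_right hε2I this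
      calc _ = ε2 * (I : ℝ) * (5 * D + (1 + 2 * ((Module.finrank ℚ K : ℝ) * Real.log 2))) := by ring
        _ ≤ _ := h9
    have g3 : (I : ℝ) * (ε1 * D + 1) ≤ ε / 4 * D + I := by
      have := mul_le_mul_of_nonneg_right hε1I hD
      linarith
    have g4 : 0 ≤ ε * d := by positivity
    linarith
  calc (P.card : ℝ) = ∑ t ∈ Q, ((P.filter (fun y => κ y = t)).card : ℝ) := by
        rw [hcard, Nat.cast_sum]
    _ ≤ ∑ t ∈ Q, Cb * Real.exp (ε * d + I + ε / 2 * D + W) := Finset.sum_le_sum hone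
    _ = (Q.card : ℝ) * (Cb * Real.exp (ε * d + I + ε / 2 * D + W)) := by
        rw [Finset.sum_const, nsmul_eq_mul]
    _ ≤ (((M : ℝ) ^ I + 1) * (CP * Real.exp (ε / 4 * D))) *
        (Cb * Real.exp (ε * d + I + ε / 2 * D + W)) :=
        mul_le_mul_of_nonneg_right hQc (by positivity)
    _ = ((M : ℝ) ^ I + 1) * CP * Cb * Real.exp (ε * d + I) *
        Real.exp (3 / 4 * ε * D) * Real.exp W := by
        have e1 : Real.exp (ε * d + I + ε / 2 * D + W) =
            Real.exp (ε * d + I) * Real.exp (ε / 2 * D) * Real.exp W := by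
          rw [← Real.exp_add, ← Real.exp_add]
        have e2 : Real.exp (3 / 4 * ε * D) = Real.exp (ε / 4 * D) * Real.exp (ε / 2 * D) := by
          rw [← Real.exp_add]; congr 1; ring
        rw [e1, e2]; ring
    _ ≤ ((M : ℝ) ^ I + 1) * CP * Cb * Real.exp (ε * d + I) *
        Real.exp (ε * D) * Real.exp W := by
        refine mul_le_mul_of_nonneg_right (mul_le_mul_of_nonneg_left ?_ (by positivity))
          (Real.exp_pos _).le
        apply Real.exp_le_exp.2
        nlinarith [mul_nonneg hε.le hD]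

end Pool.Agent.AbcF
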