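import Mathlib
import Pool.Agent.AbcF.Defs

/-! Definitions for the final assembly. -/

namespace Pool.Agent.AbcF

open NumberField IsDedekindDomain Pool.Agent.H7.Abc Pool.Agent.AbcE

/-- There is a cheap gap tool. -/
def GapT (E : ℕ) (a : Fin 3 → ℕ → ℝ) (h L : ℝ) : Prop :=
  ∃ (r : Fin 3) (e : ℕ) (S : Fin 3 → Finset ℕ), 1 ≤ e ∧ e ≤ 10 ∧
    (∀ g, S g ⊆ Finset.range (E + 1)) ∧ (∀ g, g ≠ r → ∀ n ∈ S g, e ∣ n) ∧
    L - ∑ g, ∑ n ∈ S g, a g n +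
      max 0 ((∑ g, if g = r then 0 else ∑ n ∈ S g, (n : ℝ) * a g n) / e +
        ∑ n ∈ S r, (n : ℝ) * a r n - h) ≤ 4 / 7 * L

/-- There is a cheap energy tool. -/
def EnT (E : ℕ) (a : Fin 3 → ℕ → ℝ) (L : ℝ) : Prop :=
  ∃ (r : Fin 3) (M : Finset ℕ), M ⊆ Finset.range (E + 1) ∧
      ∑ n ∈ M, a r n + (L - ∑ n ∈ Finset.range (E + 1), a r n) / 2 +
        max 0 ((L - ∑ n ∈ Finset.range (E + 1), a r n) - ∑ n ∈ M, (n : ℝ) * a r n) / 2 ≤
          4 / 7 * L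

/-- There is a cheap determinant tool. -/
def BpT (E : ℕ) (a : Fin 3 → ℕ → ℝ) (L : ℝ) : Prop :=
  ∃ (g g' : Fin 3) (e f : ℕ), g ≠ g' ∧ 1 ≤ e ∧ 2 ≤ f ∧ e ≤ E ∧ f ≤ E ∧
      L - a g e - a g' f + a g e / f ≤ 4 / 7 * L

variable {K : Type*} [Field K] [NumberField K]

/-- The sum of the three radicals. -/
noncomputable def RR (x : K) : ℝ := cnd x + cnd x⁻¹ + cnd (x - 1)

/-- The radical of the places with the exponent `n`. -/
noncomputable def aa (x : K) (g : Fin 3) (n : ℕ) : ℝ := rd (grp x g) {n}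

/-- The bound of the height of the three groups. -/
noncomputable def hh (x : K) : ℝ := hgt x + Module.finrank ℚ K * Real.log 2

/-- The functions whose sublevel sets are counted. -/
def Cnt (K : Type*) [Field K] [NumberField K] (Φ : K → ℝ) : Prop :=
  ∀ ε : ℝ, 0 < ε → ∃ C : ℝ, 0 < C ∧ ∀ D θ : ℝ, 0 ≤ D →
    (({y : K | y ≠ 0 ∧ y ≠ 1 ∧ hgt y ≤ D ∧ Φ y ≤ θ}.ncard : ℕ) : ℝ) ≤
      C * Real.exp (θ + ε * D)

open Classical in
/-- The gap tool. -/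
noncomputable def gapTool (r : Fin 3) (e : ℕ) (S : Fin 3 → Finset ℕ) : Tool :=
  if h : 1 ≤ e ∧ ∀ g, g ≠ r → ∀ n ∈ S g, e ∣ n then
    { e := e
      F0 := (S (gz r) : Set ℕ)
      F1 := (S (gp r) : Set ℕ)
      G := (S r : Set ℕ)
      he := h.1
      h0 := fun n hn => h.2 _ (gz_ne r) n (Finset.mem_coe.1 hn)
      h1 := fun n hn => h.2 _ (gp_ne r) n (Finset.mem_coe.1 hn) }
  else
    { e := 1, F0 := ∅, F1 := ∅, G := ∅, he := le_rfl, h0 := by simp, h1 := by simp }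

/-- The energy tool: the exponents `1, …, E` are free in `y`, the exponents outside `M` are free in
the zero divisor of `y - 1`. -/
def enTool (E : ℕ) (M : Finset ℕ) : Tool where
  e := 1
  F0 := {n | 1 ≤ n ∧ n ≤ E}
  F1 := {n | 1 ≤ n ∧ n ≤ E}
  G := {n | (1 ≤ n ∧ n ≤ E) ∧ n ∉ M}
  he := le_rfl
  h0 := fun _ _ => one_dvd _
  h1 := fun _ _ => one_dvd _

/-- The six roles. -/
noncomputable def rolb (r : Fin 3) (b : Bool) (x : K) : K := if b then (role r x)⁻¹ else role r x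

end Pool.Agent.AbcF
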