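import Mathlib
import Pool.Agent.AbcF.Defs2
import Pool.Agent.AbcF.CellT6
import Pool.Agent.AbcF.CellBP
import Pool.Agent.AbcF.CellsSum
import Pool.Agent.AbcE.ToolCount
import Pool.Agent.AbcE.Assemble

/-!
The counts of the elements whose cost is small, for the three kinds of tools.
-/

namespace Pool.Agent.AbcF

open NumberField IsDedekindDomain Pool.Agent.H7.Abc Pool.Agent.AbcE

theorem cnts_finite {K : Type*} [Field K] [NumberField K] (D : ℝ) (p : K → Prop) :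
    {y : K | y ≠ 0 ∧ y ≠ 1 ∧ hgt y ≤ D ∧ p y}.Finite := by
  refine (NumberField.finite_setOfPred_logHeight₁_le K D).subset ?_
  rintro x ⟨-, -, h, -⟩
  rw [hgt_eq] at h
  exact h

/-- from `Pool.Agent.AbcE.tool_count`, by summation over the unit intervals of the height. -/
theorem cnt_gap (K : Type*) [Field K] [NumberField K] (T : Tool) :
    Cnt K (fun y => RK T y + max 0 (Ov T y)) := by
  classical
  intro ε hε
  obtain ⟨C, hC, h⟩ := tool_count K T (show 0 < ε / 2 by positivity)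
  obtain ⟨CP, hCP, hP⟩ := tc_poly_le_exp 1 2 (by norm_num) (show 0 < ε / 2 by positivity)
  refine ⟨C * Real.exp (ε / 2) * CP, by positivity, fun D θ hD => ?_⟩
  obtain ⟨S, hS⟩ : ∃ S : Set K, S = {y : K | y ≠ 0 ∧ y ≠ 1 ∧ hgt y ≤ D ∧
    RK T y + max 0 (Ov T y) ≤ θ} := ⟨_, rfl⟩
  have hfin : S.Finite := by rw [hS]; exact cnts_finite D _
  obtain ⟨Z, hZ⟩ : ∃ Z : ℕ → Set K, Z = fun n : ℕ => {y : K | y ≠ 0 ∧ y ≠ 1 ∧ (n : ℝ) - 1 ≤ hgt y ∧
    hgt y ≤ n ∧ RK T y + max 0 (Ov T y) ≤ θ} := ⟨_, rfl⟩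
  have hZfin : ∀ n, (Z n).Finite := by
    intro n
    rw [hZ]
    refine (cnts_finite (K := K) (n : ℝ) (fun _ => True)).subset ?_
    rintro x ⟨h1, h2, -, h3, -⟩
    exact ⟨h1, h2, h3, trivial⟩
  have hcover : hfin.toFinset ⊆ (Finset.range (⌈D⌉₊ + 1)).biUnion
      (fun n => (hZfin n).toFinset) := by
    intro y hy
    rw [Set.Finite.mem_toFinset, hS] at hy
    obtain ⟨h1, h2, h3, h4⟩ := hy
    rw [Finset.mem_biUnion]
    refine ⟨⌈hgt y⌉₊, ?_, ?_⟩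
    · rw [Finset.mem_range, Nat.lt_succ_iff]
      exact Nat.ceil_mono h3
    · rw [Set.Finite.mem_toFinset, hZ]
      refine ⟨h1, h2, ?_, Nat.le_ceil _, h4⟩
      have := Nat.ceil_lt_add_one (hgt_nonneg y)
      linarith
  have hN : (⌈D⌉₊ : ℝ) ≤ D + 1 := (Nat.ceil_lt_add_one hD).le
  have h1 : (S.ncard : ℝ) ≤ ∑ n ∈ Finset.range (⌈D⌉₊ + 1), ((Z n).ncard : ℝ) := by
    rw [Set.ncard_eq_toFinset_card _ hfin]
    have h2 := le_trans (Finset.card_le_card hcover) (Finset.card_biUnion_le)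
    have h3 : ((hfin.toFinset.card : ℕ) : ℝ) ≤
        ∑ n ∈ Finset.range (⌈D⌉₊ + 1), (((hZfin n).toFinset.card : ℕ) : ℝ) := by
      exact_mod_cast h2
    refine h3.trans (le_of_eq (Finset.sum_congr rfl fun n _ => ?_))
    rw [Set.ncard_eq_toFinset_card _ (hZfin n)]
  have h2 : ∀ n ∈ Finset.range (⌈D⌉₊ + 1), ((Z n).ncard : ℝ) ≤
      C * Real.exp (θ + ε / 2 * (D + 1)) := by
    intro n hn
    rw [hZ]
    refine (h (n : ℝ) θ (Nat.cast_nonneg _)).trans ?_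
    refine mul_le_mul_of_nonneg_left (Real.exp_le_exp.2 ?_) hC.le
    have : (n : ℝ) ≤ ⌈D⌉₊ := by exact_mod_cast Nat.lt_succ_iff.1 (Finset.mem_range.1 hn)
    have h5 := mul_le_mul_of_nonneg_left (this.trans hN) (show 0 ≤ ε / 2 by positivity)
    linarith
  have h3 := hP D hD
  rw [pow_one] at h3
  rw [← hS]
  calc (S.ncard : ℝ) ≤ _ := h1
    _ ≤ ∑ n ∈ Finset.range (⌈D⌉₊ + 1), C * Real.exp (θ + ε / 2 * (D + 1)) :=
        Finset.sum_le_sum h2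
    _ = ((⌈D⌉₊ : ℝ) + 1) * (C * Real.exp (θ + ε / 2 * (D + 1))) := by
        rw [Finset.sum_const, Finset.card_range, nsmul_eq_mul]; push_cast; ring
    _ ≤ (CP * Real.exp (ε / 2 * D)) * (C * Real.exp (θ + ε / 2 * (D + 1))) := by
        refine mul_le_mul_of_nonneg_right (le_trans ?_ h3) (by positivity)
        linarith
    _ = _ := by
        have e1 : Real.exp (θ + ε / 2 * (D + 1)) =
            Real.exp θ * (Real.exp (ε / 2 * D) * Real.exp (ε / 2)) := by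
          rw [← Real.exp_add, ← Real.exp_add]; congr 1; ring
        have e2 : Real.exp (θ + ε * D) =
            Real.exp θ * (Real.exp (ε / 2 * D) * Real.exp (ε / 2 * D)) := by
          rw [← Real.exp_add, ← Real.exp_add]; congr 1; ring
        rw [e1, e2]; ring

/-- from `cell_t6` and `cells_sum` (`Stmt.lean`). -/
theorem cnt_t6 (K : Type*) [Field K] [NumberField K] (T : Tool) (E : ℕ)
    (h0 : ∀ n ∈ T.F0, 1 ≤ n ∧ n ≤ E) (h1 : ∀ n ∈ T.F1, 1 ≤ n ∧ n ≤ E) :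
    Cnt K (fun y => RK T y + Om T y) := by
  intro ε hε
  refine cells_sum K T (Om T) (fun y => ?_)
    (fun δ hδ => cell_t6 K T E h0 h1 hδ) hε
  unfold Om Sf
  have a1 := rd_nonneg y T.F0
  have a2 := rd_nonneg y⁻¹ T.F1
  positivity

/-- from `cell_bp` and `cells_sum` (`Stmt.lean`). -/
theorem cnt_bp (K : Type*) [Field K] [NumberField K] (e f I J : ℕ) (he : 1 ≤ e) (hf : 1 ≤ f)
    (hI : 1 ≤ I) (hJ : 1 ≤ J) (hJf : J ≤ f) (hIJ : 2 ≤ I * J) :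
    Cnt K (fun y => RK (TB e f) y + Ob e f I J y) := by
  intro ε hε
  refine cells_sum K (TB e f) (Ob e f I J) (fun y => ?_)
    (fun δ hδ => cell_bp K e f I J he hf hI hJ hJf hIJ hδ) hε
  unfold Ob
  have a1 := rd_nonneg y {e}
  have a2 := rd_nonneg y⁻¹ {f}
  have b1 : (0 : ℝ) ≤ (I : ℝ) - 1 := by
    have : (1 : ℝ) ≤ (I : ℝ) := by exact_mod_cast hI
    linarith
  have b2 : (0 : ℝ) ≤ (J : ℝ) - 1 := by
    have : (1 : ℝ) ≤ (J : ℝ) := by exact_mod_cast hJ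
    linarith
  have b3 : (0 : ℝ) ≤ (I : ℝ) * J - 1 := by
    have : (2 : ℝ) ≤ (I : ℝ) * (J : ℝ) := by exact_mod_cast hIJ
    linarith
  positivity

theorem rolb_hgt {K : Type*} [Field K] [NumberField K] {x : K} (hx : x ≠ 0) (hx1 : x ≠ 1)
    (r : Fin 3) (b : Bool) :
    hgt (rolb r b x) ≤ hgt x + Module.finrank ℚ K * Real.log 2 := by
  unfold rolb
  split_ifs
  · rw [hgt_inv]; exact (hgt_role_le hx hx1 r).1
  · exact (hgt_role_le hx hx1 r).1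

theorem rolb_inj {K : Type*} [Field K] [NumberField K] {x y : K} (hx1 : x ≠ 1) (hy1 : y ≠ 1)
    (r : Fin 3) (b : Bool) (h : rolb r b x = rolb r b y) : x = y := by
  unfold rolb at h
  split_ifs at h
  · exact role_inj hx1 hy1 r (inv_injective h)
  · exact role_inj hx1 hy1 r h

/-- pull back by a role (`hgt_role_le`, `role_inj`, `role_ne_zero`, `role_ne_one`, `hgt_inv`). -/
theorem cnt_rolb (K : Type*) [Field K] [NumberField K] {Φ : K → ℝ} (hΦ : Cnt K Φ) (r : Fin 3)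
    (b : Bool) : Cnt K (fun x => Φ (rolb r b x)) := by
  classical
  intro ε hε
  obtain ⟨C, hC, h⟩ := hΦ ε hε
  obtain ⟨c, hc⟩ : ∃ c : ℝ, c = Module.finrank ℚ K * Real.log 2 := ⟨_, rfl⟩
  have hc0 : 0 ≤ c := by
    rw [hc]; positivity
  refine ⟨C * Real.exp (ε * c), by positivity, fun D θ hD => ?_⟩
  have hT : {y : K | y ≠ 0 ∧ y ≠ 1 ∧ hgt y ≤ D + c ∧ Φ y ≤ θ}.Finite := cnts_finite _ _
  have hcard : ({x : K | x ≠ 0 ∧ x ≠ 1 ∧ hgt x ≤ D ∧ Φ (rolb r b x) ≤ θ}.ncard) ≤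
      ({y : K | y ≠ 0 ∧ y ≠ 1 ∧ hgt y ≤ D + c ∧ Φ y ≤ θ}.ncard) := by
    refine Set.ncard_le_ncard_of_injOn (rolb r b) ?_ ?_ hT
    · rintro x ⟨h1, h2, h3, h4⟩
      refine ⟨?_, ?_, ?_, h4⟩
      · unfold rolb
        split_ifs
        · exact inv_ne_zero (role_ne_zero h1 h2 r)
        · exact role_ne_zero h1 h2 r
      · unfold rolb
        split_ifs
        · intro h
          exact role_ne_one h1 h2 r (by rw [← inv_inv (role r x), h, inv_one])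
        · exact role_ne_one h1 h2 r
      · have := rolb_hgt h1 h2 r b
        rw [← hc] at this
        linarith
    · rintro x ⟨-, h2, -, -⟩ y ⟨-, h2', -, -⟩ hxy
      exact rolb_inj h2 h2' r b hxy
  have h5 := h (D + c) θ (by positivity)
  calc (({x : K | x ≠ 0 ∧ x ≠ 1 ∧ hgt x ≤ D ∧ Φ (rolb r b x) ≤ θ}.ncard : ℕ) : ℝ)
      ≤ (({y : K | y ≠ 0 ∧ y ≠ 1 ∧ hgt y ≤ D + c ∧ Φ y ≤ θ}.ncard : ℕ) : ℝ) := by
        exact_mod_cast hcard
    _ ≤ C * Real.exp (θ + ε * (D + c)) := h5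
    _ = _ := by
        rw [mul_assoc, ← Real.exp_add]; congr 2; ring

/-- finite unions. -/
theorem cnt_union (K : Type*) [Field K] [NumberField K] {ι : Type*} (I : Finset ι)
    (Φ : ι → K → ℝ) (hΦ : ∀ i ∈ I, Cnt K (Φ i)) {ε : ℝ} (hε : 0 < ε) :
    ∃ C : ℝ, 0 < C ∧ ∀ D θ : ℝ, 0 ≤ D →
      (({y : K | y ≠ 0 ∧ y ≠ 1 ∧ hgt y ≤ D ∧ ∃ i ∈ I, Φ i y ≤ θ}.ncard : ℕ) : ℝ) ≤
        C * Real.exp (θ + ε * D) := by
  classical
  have h1 : ∀ i : ι, ∃ C : ℝ, 0 < C ∧ (i ∈ I → ∀ D θ : ℝ, 0 ≤ D →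
    (({y : K | y ≠ 0 ∧ y ≠ 1 ∧ hgt y ≤ D ∧ Φ i y ≤ θ}.ncard : ℕ) : ℝ) ≤
      C * Real.exp (θ + ε * D)) := by
    intro i
    by_cases hi : i ∈ I
    · obtain ⟨C, hC, h⟩ := hΦ i hi ε hε
      exact ⟨C, hC, fun _ => h⟩
    · exact ⟨1, one_pos, fun h => absurd h hi⟩
  choose C hC hb using h1
  have hCs : 0 ≤ ∑ i ∈ I, C i := Finset.sum_nonneg fun i _ => (hC i).le
  refine ⟨∑ i ∈ I, C i + 1, by positivity, fun D θ hD => ?_⟩
  have hfin : {y : K | y ≠ 0 ∧ y ≠ 1 ∧ hgt y ≤ D ∧ ∃ i ∈ I, Φ i y ≤ θ}.Finite :=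
    cnts_finite _ _
  have hZfin : ∀ i, {y : K | y ≠ 0 ∧ y ≠ 1 ∧ hgt y ≤ D ∧ Φ i y ≤ θ}.Finite :=
    fun i => cnts_finite _ _
  have hcover : hfin.toFinset ⊆ I.biUnion (fun i => (hZfin i).toFinset) := by
    intro y hy
    rw [Set.Finite.mem_toFinset] at hy
    obtain ⟨a1, a2, a3, i, hi, a4⟩ := hy
    rw [Finset.mem_biUnion]
    refine ⟨i, hi, ?_⟩
    rw [Set.Finite.mem_toFinset]
    exact ⟨a1, a2, a3, a4⟩
  have h2 := le_trans (Finset.card_le_card hcover) (Finset.card_biUnion_le)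
  have h3 : ((hfin.toFinset.card : ℕ) : ℝ) ≤ ∑ i ∈ I, (((hZfin i).toFinset.card : ℕ) : ℝ) := by
    exact_mod_cast h2
  rw [Set.ncard_eq_toFinset_card _ hfin]
  refine h3.trans ?_
  calc ∑ i ∈ I, (((hZfin i).toFinset.card : ℕ) : ℝ)
      ≤ ∑ i ∈ I, C i * Real.exp (θ + ε * D) := by
        refine Finset.sum_le_sum fun i hi => ?_
        rw [← Set.ncard_eq_toFinset_card _ (hZfin i)]
        exact hb i hi D θ hD
    _ = (∑ i ∈ I, C i) * Real.exp (θ + ε * D) := by rw [Finset.sum_mul]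
    _ ≤ _ := by
        refine mul_le_mul_of_nonneg_right ?_ (Real.exp_pos _).le
        linarith

end Pool.Agent.AbcF
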