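import Mathlib
import Pool.Agent.AbcF.Defs2

/-! Module T: the data of `x` and the cost of the gap tool. -/

namespace Pool.Agent.AbcF

open NumberField IsDedekindDomain Pool.Agent.H7.Abc Pool.Agent.AbcE

section general

variable {K : Type*} [Field K] [NumberField K]

theorem rd_finset {x : K} (hx : x ≠ 0) (S : Finset ℕ) :
    rd x (S : Set ℕ) = ∑ n ∈ S, rd x {n} := by
  classical
  have h1 : ∀ n, rd x {n} = ∑ᶠ v : HeightOneSpectrum (𝓞 K),
      (if 0 < ord v x ∧ (ord v x).toNat = n then ln v else 0) := by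
    intro n
    unfold rd
    refine finsum_congr fun v => ?_
    simp only [Set.mem_singleton_iff]
  rw [Finset.sum_congr rfl fun i _ => h1 i, ← finsum_sum_comm]
  · unfold rd
    refine finsum_congr fun v => ?_
    by_cases hv : 0 < ord v x
    · by_cases hS : (ord v x).toNat ∈ S
      · rw [Finset.sum_eq_single (ord v x).toNat]
        · simp [hv, hS]
        · intro i _ hi
          rw [if_neg (fun h => hi h.2.symm)]
        · intro h
          exact absurd hS h
      · rw [Finset.sum_eq_zero]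
        · simp [hS]
        · intro i hi
          rw [if_neg]
          rintro ⟨-, h⟩
          exact hS (h ▸ hi)
    · simp [hv]
  · intro i _
    refine finite_supp hx _ fun v hv => ?_
    simp [hv]

theorem sz_finset {x : K} (hx : x ≠ 0) (S : Finset ℕ) :
    sz x (S : Set ℕ) = ∑ n ∈ S, (n : ℝ) * rd x {n} := by
  classical
  have h2 : ∀ n : ℕ, (n : ℝ) * rd x {n} = ∑ᶠ v : HeightOneSpectrum (𝓞 K),
      (if 0 < ord v x ∧ (ord v x).toNat = n then (ord v x : ℝ) * ln v else 0) := by
    intro n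
    rw [← sz_singleton hx]
    unfold sz
    refine finsum_congr fun v => ?_
    simp only [Set.mem_singleton_iff]
  rw [Finset.sum_congr rfl fun i _ => h2 i, ← finsum_sum_comm]
  · unfold sz
    refine finsum_congr fun v => ?_
    by_cases hv : 0 < ord v x
    · by_cases hS : (ord v x).toNat ∈ S
      · rw [Finset.sum_eq_single (ord v x).toNat]
        · simp [hv, hS]
        · intro i _ hi
          rw [if_neg (fun h => hi h.2.symm)]
        · intro h
          exact absurd hS h
      · rw [Finset.sum_eq_zero]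
        · simp [hS]
        · intro i hi
          rw [if_neg]
          rintro ⟨-, h⟩
          exact hS (h ▸ hi)
    · simp [hv]
  · intro i _
    refine finite_supp hx _ fun v hv => ?_
    simp [hv]

theorem rd_add_compl {x : K} (hx : x ≠ 0) (A : Set ℕ) :
    rd x A + rd x Aᶜ = rd x Set.univ := by
  classical
  unfold rd
  rw [← finsum_add_distrib]
  · refine finsum_congr fun v => ?_
    by_cases hv : 0 < ord v x
    · by_cases hA : (ord v x).toNat ∈ A
      · simp [hv, hA]
      · simp [hv, hA]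
    · simp [hv]
  · refine finite_supp hx _ fun v hv => ?_
    simp [hv]
  · refine finite_supp hx _ fun v hv => ?_
    simp [hv]

theorem sz_add_compl {x : K} (hx : x ≠ 0) (A : Set ℕ) :
    sz x A + sz x Aᶜ = sz x Set.univ := by
  classical
  unfold sz
  rw [← finsum_add_distrib]
  · refine finsum_congr fun v => ?_
    by_cases hv : 0 < ord v x
    · by_cases hA : (ord v x).toNat ∈ A
      · simp [hv, hA]
      · simp [hv, hA]
    · simp [hv]
  · refine finite_supp hx _ fun v hv => ?_
    simp [hv]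
  · refine finite_supp hx _ fun v hv => ?_
    simp [hv]

theorem mul_rd_le_sz {x : K} (hx : x ≠ 0) (A : Set ℕ) (m : ℕ) (hA : ∀ n ∈ A, m ≤ n) :
    (m : ℝ) * rd x A ≤ sz x A := by
  classical
  unfold rd sz
  rw [mul_finsum']
  · refine finsum_le_finsum' ?_ ?_ fun v => ?_
    · refine finite_supp hx _ fun v hv => ?_
      simp [hv]
    · refine finite_supp hx _ fun v hv => ?_
      simp [hv]
    · dsimp only
      split_ifs with h
      · have h1 : m ≤ (ord v x).toNat := hA _ h.2
        have h2 : (m : ℝ) ≤ ord v x := by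
          have : (m : ℤ) ≤ ord v x := by omega
          exact_mod_cast this
        exact mul_le_mul_of_nonneg_right h2 (ln_pos' v).le
      · simp
  · refine finite_supp hx _ fun v hv => ?_
    simp [hv]

theorem grp_hgt_le {x : K} (g : Fin 3) : hgt (grp x g) ≤ hh x := by
  have hc0 : (0 : ℝ) ≤ Module.finrank ℚ K * Real.log 2 := by positivity
  unfold grp hh
  split_ifs
  · linarith
  · rw [hgt_inv]; linarith
  · have := hgt_sub_one x; linarith

theorem RR_eq {x : K} (hx : x ≠ 0) (hx1 : x ≠ 1) : RR x = ∑ g, rd (grp x g) Set.univ := by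
  have e2 : rd (grp x 0) Set.univ = cnd x := by rw [cnd_eq_rd hx]; simp [grp]
  have e3 : rd (grp x 1) Set.univ = cnd x⁻¹ := by
    rw [cnd_eq_rd (inv_ne_zero hx)]; simp [grp]
  have e4 : rd (grp x 2) Set.univ = cnd (x - 1) := by
    rw [cnd_eq_rd (sub_ne_zero.2 hx1)]; simp [grp]
  rw [Fin.sum_univ_three, e2, e3, e4]
  rfl

end general

theorem aa_nonneg {K : Type*} [Field K] [NumberField K] (x : K) (g : Fin 3) (n : ℕ) :
    0 ≤ aa x g n := rd_nonneg _ _

theorem aa_zero {K : Type*} [Field K] [NumberField K] (x : K) (g : Fin 3) : aa x g 0 = 0 := by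
  classical
  unfold aa rd
  refine Eq.trans (finsum_congr fun v => ?_) (finsum_zero (α := HeightOneSpectrum (𝓞 K)) (M := ℝ))
  rw [if_neg]
  rintro ⟨h1, h2⟩
  rw [Set.mem_singleton_iff] at h2
  omega

theorem aa_size {K : Type*} [Field K] [NumberField K] {x : K} (hx : x ≠ 0) (hx1 : x ≠ 1)
    (E : ℕ) (g : Fin 3) : ∑ n ∈ Finset.range (E + 1), (n : ℝ) * aa x g n ≤ hh x := by
  have hg := grp_ne_zero hx hx1 g
  unfold aa
  rw [← sz_finset hg]
  have h1 := sz_add_compl hg ((Finset.range (E + 1) : Finset ℕ) : Set ℕ)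
  have h2 := sz_nonneg (grp x g) (((Finset.range (E + 1) : Finset ℕ) : Set ℕ)ᶜ)
  have h3 := sz_univ_le_hgt hg
  have h4 := grp_hgt_le (x := x) g
  linarith

theorem aa_tail {K : Type*} [Field K] [NumberField K] {x : K} (hx : x ≠ 0) (hx1 : x ≠ 1)
    (E : ℕ) : ∑ g, ∑ n ∈ Finset.range (E + 1), aa x g n ≤ RR x ∧
      RR x ≤ ∑ g, ∑ n ∈ Finset.range (E + 1), aa x g n + 3 * hh x / (E + 1) := by
  have key : ∀ g, ∑ n ∈ Finset.range (E + 1), aa x g n ≤ rd (grp x g) Set.univ ∧
      rd (grp x g) Set.univ ≤ ∑ n ∈ Finset.range (E + 1), aa x g n + hh x / (E + 1) := by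
    intro g
    have hg := grp_ne_zero hx hx1 g
    unfold aa
    rw [← rd_finset hg]
    have h1 := rd_add_compl hg ((Finset.range (E + 1) : Finset ℕ) : Set ℕ)
    have h2 := rd_nonneg (grp x g) (((Finset.range (E + 1) : Finset ℕ) : Set ℕ)ᶜ)
    have h3 := mul_rd_le_sz hg (((Finset.range (E + 1) : Finset ℕ) : Set ℕ)ᶜ) (E + 1) (by
      intro n hn
      simp only [Set.mem_compl_iff, Finset.mem_coe, Finset.mem_range, not_lt] at hn
      exact hn)
    have h4 := sz_add_compl hg ((Finset.range (E + 1) : Finset ℕ) : Set ℕ)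
    have h5 := sz_nonneg (grp x g) ((Finset.range (E + 1) : Finset ℕ) : Set ℕ)
    have h6 := sz_univ_le_hgt hg
    have h7 := grp_hgt_le (x := x) g
    have hE : (0 : ℝ) < (E : ℝ) + 1 := by positivity
    refine ⟨by linarith, ?_⟩
    have h8 : rd (grp x g) (((Finset.range (E + 1) : Finset ℕ) : Set ℕ)ᶜ) ≤ hh x / (E + 1) := by
      rw [le_div_iff₀ hE]
      have h9 : ((E + 1 : ℕ) : ℝ) = (E : ℝ) + 1 := by push_cast; ring
      rw [h9] at h3
      linarith
    linarith
  rw [RR_eq hx hx1]
  refine ⟨Finset.sum_le_sum fun g _ => (key g).1, ?_⟩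
  refine le_trans (Finset.sum_le_sum fun g _ => (key g).2) ?_
  rw [Finset.sum_add_distrib]
  refine le_of_eq ?_
  simp only [Finset.sum_const, Finset.card_univ, Fintype.card_fin, nsmul_eq_mul]
  push_cast
  ring

theorem cost_gap {K : Type*} [Field K] [NumberField K] {x : K} (hx : x ≠ 0) (hx1 : x ≠ 1)
    (E : ℕ) (r : Fin 3) (e : ℕ) (S : Fin 3 → Finset ℕ) (he : 1 ≤ e)
    (hS : ∀ g, S g ⊆ Finset.range (E + 1)) (hd : ∀ g, g ≠ r → ∀ n ∈ S g, e ∣ n) :
    RK (gapTool r e S) (role r x) + max 0 (Ov (gapTool r e S) (role r x)) ≤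
      RR x - ∑ g, ∑ n ∈ S g, aa x g n +
      max 0 ((∑ g, if g = r then 0 else ∑ n ∈ S g, (n : ℝ) * aa x g n) / e +
        ∑ n ∈ S r, (n : ℝ) * aa x r n - hh x) + 2 * (Module.finrank ℚ K * Real.log 2) := by
  have hg := fun g => grp_ne_zero hx hx1 g
  have hA : 1 ≤ e ∧ ∀ g, g ≠ r → ∀ n ∈ S g, e ∣ n := ⟨he, hd⟩
  have he' : (gapTool r e S).e = e := by unfold gapTool; rw [dif_pos hA]
  have hF0 : (gapTool r e S).F0 = (S (gz r) : Set ℕ) := by unfold gapTool; rw [dif_pos hA]
  have hF1 : (gapTool r e S).F1 = (S (gp r) : Set ℕ) := by unfold gapTool; rw [dif_pos hA]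
  have hG : (gapTool r e S).G = (S r : Set ℕ) := by unfold gapTool; rw [dif_pos hA]
  have hc0 : (0 : ℝ) ≤ Module.finrank ℚ K * Real.log 2 := by positivity
  have hRK : RK (gapTool r e S) (role r x) = RR x - ∑ g, ∑ n ∈ S g, aa x g n := by
    unfold RK
    rw [hF0, hF1, hG, (role_rd hx hx1 r _).1, (role_rd hx hx1 r _).2.1, (role_rd hx hx1 r _).2.2,
      RR_eq hx hx1, sum_all r, sum_all r]
    have k : ∀ g, rd (grp x g) ((S g : Set ℕ)ᶜ) =
        rd (grp x g) Set.univ - ∑ n ∈ S g, aa x g n := by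
      intro g
      have h1 := rd_add_compl (hg g) (S g : Set ℕ)
      have h2 := rd_finset (hg g) (S g)
      unfold aa
      linarith
    rw [k, k, k]
    ring
  have hOv : Ov (gapTool r e S) (role r x) ≤
      (∑ g, if g = r then 0 else ∑ n ∈ S g, (n : ℝ) * aa x g n) / e +
        ∑ n ∈ S r, (n : ℝ) * aa x r n - hh x + 2 * (Module.finrank ℚ K * Real.log 2) := by
    unfold Ov
    rw [he', hF0, hF1, hG, (role_sz hx hx1 r _).1, (role_sz hx hx1 r _).2.1,
      (role_sz hx hx1 r _).2.2, sum_ne r]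
    have h1 := hgt_eq_arch_add (x := (role r x - 1)⁻¹)
      (inv_ne_zero (sub_ne_zero.2 (role_ne_one hx hx1 r)))
    rw [inv_inv, hgt_inv, (role_sz hx hx1 r _).2.2] at h1
    have h2 := role_hgt hx r
    have k1 := sz_finset (hg (gz r)) (S (gz r))
    have k2 := sz_finset (hg (gp r)) (S (gp r))
    have k3 := sz_finset (hg r) (S r)
    have k4 := sz_add_compl (hg r) (S r : Set ℕ)
    rw [k1, k2]
    unfold aa hh
    linarith
  rw [hRK]
  have hmax : max 0 (Ov (gapTool r e S) (role r x)) ≤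
      max 0 ((∑ g, if g = r then 0 else ∑ n ∈ S g, (n : ℝ) * aa x g n) / e +
        ∑ n ∈ S r, (n : ℝ) * aa x r n - hh x) + 2 * (Module.finrank ℚ K * Real.log 2) := by
    apply max_le
    · have := le_max_left 0 ((∑ g, if g = r then 0 else
        ∑ n ∈ S g, (n : ℝ) * aa x g n) / e + ∑ n ∈ S r, (n : ℝ) * aa x r n - hh x)
      linarith
    · refine le_trans hOv ?_
      have := le_max_right 0 ((∑ g, if g = r then 0 else
        ∑ n ∈ S g, (n : ℝ) * aa x g n) / e + ∑ n ∈ S r, (n : ℝ) * aa x r n - hh x)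
      linarith
  linarith

end Pool.Agent.AbcF
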