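import Mathlib
import Pool.Agent.AbcF.Defs2

/-!
The costs of the energy tool and of the determinant tool.
-/

namespace Pool.Agent.AbcF

open NumberField IsDedekindDomain Pool.Agent.H7.Abc Pool.Agent.AbcE

variable {K : Type*} [Field K] [NumberField K]

theorem c2_rd_empty (x : K) : rd x ∅ = 0 := by
  unfold rd
  simp

theorem c2_sz_empty (x : K) : sz x ∅ = 0 := by
  unfold sz
  simp

theorem c2_rd_zero (x : K) : rd x {0} = 0 := by
  unfold rd
  refine (finsum_congr fun v => if_neg ?_).trans (finsum_zero (α := HeightOneSpectrum (𝓞 K)))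
  rintro ⟨h1, h2⟩
  have h3 : (ord v x).toNat = 0 := h2
  omega

theorem c2_rd_compl {x : K} (hx : x ≠ 0) (A : Set ℕ) :
    rd x Set.univ = rd x A + rd x Aᶜ := by
  rw [← rd_add hx disjoint_compl_right, Set.union_compl_self]

theorem c2_rd_finset {x : K} (hx : x ≠ 0) (S : Finset ℕ) :
    rd x (S : Set ℕ) = ∑ n ∈ S, rd x {n} := by
  classical
  induction S using Finset.induction_on with
  | empty => simp [c2_rd_empty]
  | insert a s ha ih =>
    rw [Finset.sum_insert ha, Finset.coe_insert, Set.insert_eq, rd_add hx, ih]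
    rw [Set.disjoint_singleton_left]
    exact fun h => ha (Finset.mem_coe.1 h)

theorem c2_sz_finset {x : K} (hx : x ≠ 0) (S : Finset ℕ) :
    sz x (S : Set ℕ) = ∑ n ∈ S, (n : ℝ) * rd x {n} := by
  classical
  induction S using Finset.induction_on with
  | empty => simp [c2_sz_empty]
  | insert a s ha ih =>
    rw [Finset.sum_insert ha, Finset.coe_insert, Set.insert_eq, sz_add hx, ih, sz_singleton hx]
    rw [Set.disjoint_singleton_left]
    exact fun h => ha (Finset.mem_coe.1 h)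

theorem c2_sz_mono {x : K} (hx : x ≠ 0) {A B : Set ℕ} (h : A ⊆ B) : sz x A ≤ sz x B := by
  have h1 : B = A ∪ (B \ A) := by rw [Set.union_sdiff_cancel h]
  rw [h1, sz_add hx Set.disjoint_sdiff_right]
  have := sz_nonneg x (B \ A)
  linarith

/-- without the exponent zero -/
theorem c2_rd_pos {x : K} (hx : x ≠ 0) (S : Finset ℕ) :
    rd x {n | 1 ≤ n ∧ n ∈ S} = ∑ n ∈ S, rd x {n} := by
  classical
  have h1 : {n | 1 ≤ n ∧ n ∈ S} = ((S.erase 0 : Finset ℕ) : Set ℕ) := by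
    ext n
    simp only [Set.mem_ofPred_eq, Finset.coe_erase, Set.mem_sdiff, Finset.mem_coe,
      Set.mem_singleton_iff]
    constructor
    · rintro ⟨h2, h3⟩; exact ⟨h3, by omega⟩
    · rintro ⟨h2, h3⟩; exact ⟨by omega, h2⟩
  rw [h1, c2_rd_finset hx]
  by_cases h0 : 0 ∈ S
  · rw [← Finset.add_sum_erase S _ h0, c2_rd_zero, zero_add]
  · rw [Finset.erase_eq_of_notMem h0]

theorem c2_range (E : ℕ) : {n : ℕ | 1 ≤ n ∧ n ≤ E} = {n | 1 ≤ n ∧ n ∈ Finset.range (E + 1)} := by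
  ext n
  simp only [Set.mem_ofPred_eq, Finset.mem_range]
  omega

theorem c2_RR {x : K} (hx : x ≠ 0) (hx1 : x ≠ 1) : RR x = ∑ g, rd (grp x g) Set.univ := by
  rw [Fin.sum_univ_three]
  have e2 : rd (grp x 0) Set.univ = cnd x := by rw [cnd_eq_rd hx]; simp [grp]
  have e3 : rd (grp x 1) Set.univ = cnd x⁻¹ := by
    rw [cnd_eq_rd (inv_ne_zero hx)]; simp [grp]
  have e4 : rd (grp x 2) Set.univ = cnd (x - 1) := by
    rw [cnd_eq_rd (sub_ne_zero.2 hx1)]; simp [grp]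
  rw [e2, e3, e4]
  rfl

theorem cost_en {x : K} (hx : x ≠ 0) (hx1 : x ≠ 1)
    (E : ℕ) (r : Fin 3) (M : Finset ℕ) (hM : M ⊆ Finset.range (E + 1)) (L : ℝ)
    (hL : L = ∑ g, ∑ n ∈ Finset.range (E + 1), aa x g n) :
    RK (enTool E M) (role r x) + Om (enTool E M) (role r x) ≤
      (RR x - L) + (∑ n ∈ M, aa x r n + (L - ∑ n ∈ Finset.range (E + 1), aa x r n) / 2 +
        max 0 ((L - ∑ n ∈ Finset.range (E + 1), aa x r n) -
          ∑ n ∈ M, (n : ℝ) * aa x r n) / 2) := by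
  have hg := fun g => grp_ne_zero hx hx1 g
  set F : Set ℕ := {n | 1 ≤ n ∧ n ≤ E} with hF
  have hFs : ∀ g, rd (grp x g) F = ∑ n ∈ Finset.range (E + 1), aa x g n := by
    intro g
    rw [hF, c2_range, c2_rd_pos (hg g)]
    rfl
  have hc : ∀ g, rd (grp x g) Set.univ = ∑ n ∈ Finset.range (E + 1), aa x g n +
      rd (grp x g) Fᶜ := fun g => by rw [c2_rd_compl (hg g) F, hFs]
  have hG : {n : ℕ | (1 ≤ n ∧ n ≤ E) ∧ n ∉ M}ᶜ = Fᶜ ∪ {n | 1 ≤ n ∧ n ∈ M} := by
    ext n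
    simp only [hF, Set.mem_compl_iff, Set.mem_ofPred_eq, Set.mem_union]
    have hn : n ∈ M → n < E + 1 := fun h => Finset.mem_range.1 (hM h)
    by_cases h1 : n ∈ M
    · have := hn h1
      simp only [h1, not_true_eq_false, and_false, not_false_eq_true, and_true, true_iff]
      omega
    · simp only [h1, not_false_eq_true, and_true, and_false, or_false]
  have hdis : Disjoint Fᶜ {n | 1 ≤ n ∧ n ∈ M} := by
    rw [Set.disjoint_left]
    intro n h1 h2
    apply h1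
    have := Finset.mem_range.1 (hM h2.2)
    exact ⟨h2.1, by omega⟩
  have hRr : rd (grp x r) {n : ℕ | (1 ≤ n ∧ n ≤ E) ∧ n ∉ M}ᶜ =
      rd (grp x r) Fᶜ + ∑ n ∈ M, aa x r n := by
    rw [hG, rd_add (hg r) hdis, c2_rd_pos (hg r)]
    rfl
  have hsz : ∑ n ∈ M, (n : ℝ) * aa x r n ≤
      sz (grp x r) {n : ℕ | (1 ≤ n ∧ n ≤ E) ∧ n ∉ M}ᶜ := by
    have h1 : ∑ n ∈ M, (n : ℝ) * aa x r n = sz (grp x r) (M : Set ℕ) :=
      (c2_sz_finset (hg r) M).symm
    rw [h1]
    apply c2_sz_mono (hg r)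
    intro n hn
    exact fun h => h.2 (Finset.mem_coe.1 hn)
  have hRK : RK (enTool E M) (role r x) = (RR x - L) + ∑ n ∈ M, aa x r n := by
    have h1 : RK (enTool E M) (role r x) = rd (grp x (gz r)) Fᶜ + rd (grp x (gp r)) Fᶜ +
        rd (grp x r) {n : ℕ | (1 ≤ n ∧ n ≤ E) ∧ n ∉ M}ᶜ := by
      unfold RK
      rw [(role_rd hx hx1 r _).1, (role_rd hx hx1 r _).2.1, (role_rd hx hx1 r _).2.2]
      rfl
    have h2 : RR x - L = ∑ g, rd (grp x g) Fᶜ := by
      rw [c2_RR hx hx1, hL, ← Finset.sum_sub_distrib]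
      refine Finset.sum_congr rfl fun g _ => ?_
      rw [hc g]; ring
    rw [h1, h2, hRr, sum_all r]
    ring
  have hSf : Sf (enTool E M) (role r x) = L - ∑ n ∈ Finset.range (E + 1), aa x r n := by
    have h1 : Sf (enTool E M) (role r x) = rd (grp x (gz r)) F + rd (grp x (gp r)) F := by
      unfold Sf
      rw [(role_rd hx hx1 r _).1, (role_rd hx hx1 r _).2.1]
      rfl
    rw [h1, hFs, hFs, hL, sum_all r]
    ring
  have hOm : Om (enTool E M) (role r x) ≤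
      (L - ∑ n ∈ Finset.range (E + 1), aa x r n) / 2 +
        max 0 ((L - ∑ n ∈ Finset.range (E + 1), aa x r n) -
          ∑ n ∈ M, (n : ℝ) * aa x r n) / 2 := by
    unfold Om
    rw [hSf, (role_sz hx hx1 r _).2.2]
    have h1 : sz (grp x r) (enTool E M).Gᶜ =
        sz (grp x r) {n : ℕ | (1 ≤ n ∧ n ≤ E) ∧ n ∉ M}ᶜ := rfl
    rw [h1]
    have h2 := max_le_max (le_refl (0 : ℝ)) (sub_le_sub_left hsz
      (L - ∑ n ∈ Finset.range (E + 1), aa x r n))
    linarith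
  rw [hRK]
  linarith

theorem c2_inv_sub_one {x : K} (hx : x ≠ 0) (hx1 : x ≠ 1) (A : Set ℕ) :
    rd (x⁻¹ - 1) A = rd (x - 1) A := by
  have h1 := (rd_quot hx hx1 A).2.1
  have hi : x⁻¹ ≠ 1 := by
    intro h
    exact hx1 (inv_eq_one.1 h)
  have h2 := (rd_one_sub (inv_ne_zero hx) hi A).1
  have h3 : (x / (x - 1))⁻¹ = 1 - x⁻¹ := by
    rw [inv_div]
    field_simp
  rw [h3, h2] at h1
  exact h1

theorem c2_roles (g g' : Fin 3) (hg : g ≠ g') :
    ∃ (r : Fin 3) (b : Bool), (b = false ∧ gz r = g ∧ gp r = g') ∨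
      (b = true ∧ gp r = g ∧ gz r = g') := by
  revert g g'
  decide

/-- the data of the element `rolb r b x` -/
theorem c2_rolb {x : K} (hx : x ≠ 0) (hx1 : x ≠ 1) (g g' : Fin 3) (hg : g ≠ g') :
    ∃ (r : Fin 3) (b : Bool), r ≠ g ∧ r ≠ g' ∧ ∀ A : Set ℕ,
      rd (rolb r b x) A = rd (grp x g) A ∧ rd (rolb r b x)⁻¹ A = rd (grp x g') A ∧
      rd (rolb r b x - 1) A = rd (grp x r) A := by
  obtain ⟨r, b, h⟩ := c2_roles g g' hg
  refine ⟨r, b, ?_, ?_, fun A => ?_⟩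
  · rcases h with ⟨-, h1, h2⟩ | ⟨-, h1, h2⟩
    · rw [← h1]; exact (gz_ne r).symm
    · rw [← h1]; exact (gp_ne r).symm
  · rcases h with ⟨-, h1, h2⟩ | ⟨-, h1, h2⟩
    · rw [← h2]; exact (gp_ne r).symm
    · rw [← h2]; exact (gz_ne r).symm
  · rcases h with ⟨rfl, h1, h2⟩ | ⟨rfl, h1, h2⟩
    · have := role_rd hx hx1 r A
      rw [h1, h2] at this
      exact this
    · have := role_rd hx hx1 r A
      rw [h1, h2] at this
      have hr : rolb r true x = (role r x)⁻¹ := rfl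
      rw [hr, inv_inv, c2_inv_sub_one (role_ne_zero hx hx1 r) (role_ne_one hx hx1 r)]
      exact ⟨this.2.1, this.1, this.2.2⟩

theorem c2_sum3 (g g' r : Fin 3) (h1 : g ≠ g') (h2 : r ≠ g) (h3 : r ≠ g') (f : Fin 3 → ℝ) :
    ∑ i, f i = f g + f g' + f r := by
  rw [Fin.sum_univ_three]
  revert h1 h2 h3
  fin_cases g <;> fin_cases g' <;> fin_cases r <;> simp <;> ring

theorem c2_hgt_grp (x : K) (g : Fin 3) : hgt (grp x g) ≤ hh x := by
  have hc0 : (0 : ℝ) ≤ Module.finrank ℚ K * Real.log 2 := by positivity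
  unfold grp hh
  split_ifs
  · linarith
  · rw [hgt_inv]; linarith
  · have := hgt_sub_one x; linarith

theorem cost_bp {x : K} (hx : x ≠ 0) (hx1 : x ≠ 1)
    (g g' : Fin 3) (hg : g ≠ g') (e f I : ℕ) (he : 1 ≤ e) (hf : 2 ≤ f) (hI : 1 ≤ I) :
    ∃ (r : Fin 3) (b : Bool), RK (TB e f) (rolb r b x) + Ob e f I f (rolb r b x) ≤
      RR x - aa x g e - aa x g' f + aa x g e / f + hh x / I := by
  obtain ⟨r, b, hr, hr', hd⟩ := c2_rolb hx hx1 g g' hg
  refine ⟨r, b, ?_⟩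
  have hg0 := fun g => grp_ne_zero hx hx1 g
  have hRK : RK (TB e f) (rolb r b x) = RR x - aa x g e - aa x g' f := by
    have h1 : RK (TB e f) (rolb r b x) =
        rd (rolb r b x) {e}ᶜ + rd (rolb r b x)⁻¹ {f}ᶜ + rd (rolb r b x - 1) ∅ᶜ := rfl
    rw [h1, (hd _).1, (hd _).2.1, (hd _).2.2, c2_RR hx hx1, c2_sum3 g g' r hg hr hr',
      c2_rd_compl (hg0 g) {e}, c2_rd_compl (hg0 g') {f}, Set.compl_empty]
    unfold aa
    ring
  have hα : 0 ≤ aa x g e := rd_nonneg _ _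
  have hβ : 0 ≤ aa x g' f := rd_nonneg _ _
  have hβ2 : (f : ℝ) * aa x g' f ≤ hh x := by
    have h1 : (f : ℝ) * aa x g' f = sz (grp x g') {f} := (sz_singleton (hg0 g') f).symm
    rw [h1]
    exact ((c2_sz_mono (hg0 g') (Set.subset_univ _)).trans (sz_univ_le_hgt (hg0 g'))).trans
      (c2_hgt_grp x g')
  have hf' : (2 : ℝ) ≤ f := by exact_mod_cast hf
  have hI' : (1 : ℝ) ≤ I := by exact_mod_cast hI
  have hIf : 0 < (I : ℝ) * f - 1 := by nlinarith
  have hOb : Ob e f I f (rolb r b x) ≤ aa x g e / f + hh x / I := by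
    have h1 : Ob e f I f (rolb r b x) =
        (((I : ℝ) - 1) * aa x g e + ((f : ℝ) - 1) * aa x g' f) / ((I : ℝ) * f - 1) := by
      unfold Ob
      rw [(hd _).1, (hd _).2.1]
      rfl
    rw [h1, add_div]
    have h2 : ((I : ℝ) - 1) * aa x g e / ((I : ℝ) * f - 1) ≤ aa x g e / f := by
      rw [div_le_div_iff₀ hIf (by linarith)]
      nlinarith [mul_nonneg hα (by linarith : (0 : ℝ) ≤ f - 1)]
    have h3 : ((f : ℝ) - 1) * aa x g' f / ((I : ℝ) * f - 1) ≤ hh x / I := by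
      rw [div_le_div_iff₀ hIf (by linarith)]
      have h4 : ((f : ℝ) - 1) * I ≤ f * ((I : ℝ) * f - 1) := by nlinarith
      have h5 : ((f : ℝ) - 1) * aa x g' f * I ≤ (f * ((I : ℝ) * f - 1)) * aa x g' f := by
        have := mul_le_mul_of_nonneg_right h4 hβ
        linarith
      have h6 : (f * ((I : ℝ) * f - 1)) * aa x g' f ≤ hh x * ((I : ℝ) * f - 1) := by
        have := mul_le_mul_of_nonneg_right hβ2 hIf.le
        linarith
      linarith
    linarith
  linarith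

end Pool.Agent.AbcF
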