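import Mathlib
import Pool.Agent.AbcF.Defs2
import Pool.Agent.AbcF.Base

/-! The linear programme for large radical. -/

namespace Pool.Agent.AbcF

open Cert

theorem sum_K_gap (E s : ℕ) (a : ℕ → ℝ) (c d : ℤ) :
    ∑ i ∈ Finset.range 12, (((if i = 11 then 0 else (if bit s i then 0 else c) - d) : ℤ) : ℝ) *
      xx E a i = c * (∑ n ∈ Finset.range (E + 1), a n - ∑ n ∈ SS E s, a n) -
        d * ∑ n ∈ Finset.range (E + 1), a n := by
  have h1 := rad_all E a
  have h2 := rad_SS E s a
  rw [h1, h2, Finset.sum_range_succ _ 11, if_pos rfl, ← Finset.sum_sub_distrib,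
    Finset.mul_sum, Finset.mul_sum, ← Finset.sum_sub_distrib]
  simp only [Int.cast_zero, zero_mul, add_zero]
  refine Finset.sum_congr rfl fun i hi => ?_
  have hi11 : i ≠ 11 := by have := Finset.mem_range.1 hi; omega
  rw [if_neg hi11]
  cases bit s i <;> simp <;> ring

theorem sum_O_gap (E s : ℕ) {a : ℕ → ℝ} (h0 : a 0 = 0) (c : ℤ) :
    ∑ i ∈ Finset.range 12, (((if bit s i then c * wt i else 0) : ℤ) : ℝ) *
      xx E a i = c * ∑ n ∈ SS E s, (n : ℝ) * a n := by
  rw [size_SS E s h0, Finset.mul_sum]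
  refine Finset.sum_congr rfl fun i _ => ?_
  cases bit s i <;> simp <;> ring

theorem sum_K_en (E s : ℕ) (a : ℕ → ℝ) :
    ∑ i ∈ Finset.range 12, (((if i = 11 then 0 else (if bit s i then 14 else 0) - 8) : ℤ) : ℝ) *
      xx E a i = 14 * (∑ n ∈ SS E s, a n) - 8 * ∑ n ∈ Finset.range (E + 1), a n := by
  have h1 := rad_all E a
  have h2 := rad_SS E s a
  rw [h1, h2, Finset.sum_range_succ _ 11, if_pos rfl,
    Finset.mul_sum, Finset.mul_sum, ← Finset.sum_sub_distrib]
  simp only [Int.cast_zero, zero_mul, add_zero]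
  refine Finset.sum_congr rfl fun i hi => ?_
  have hi11 : i ≠ 11 := by have := Finset.mem_range.1 hi; omega
  rw [if_neg hi11]
  cases bit s i <;> simp <;> ring

theorem sum_const_rad (E : ℕ) (a : ℕ → ℝ) (c : ℤ) :
    ∑ i ∈ Finset.range 12, (((if i = 11 then 0 else c) : ℤ) : ℝ) * xx E a i =
      c * ∑ n ∈ Finset.range (E + 1), a n := by
  have h1 := rad_all E a
  rw [h1, Finset.sum_range_succ _ 11, if_pos rfl, Finset.mul_sum]
  simp only [Int.cast_zero, zero_mul, add_zero]
  refine Finset.sum_congr rfl fun i hi => ?_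
  have hi11 : i ≠ 11 := by have := Finset.mem_range.1 hi; omega
  rw [if_neg hi11]

theorem sum_O_en (E s : ℕ) {a : ℕ → ℝ} (h0 : a 0 = 0) :
    ∑ i ∈ Finset.range 12, (((if bit s i then -7 * wt i else 0) : ℤ) : ℝ) *
      xx E a i = -7 * ∑ n ∈ SS E s, (n : ℝ) * a n := by
  have := sum_O_gap E s h0 (-7)
  rw [this]
  push_cast
  ring

theorem sum_single (E : ℕ) (a : ℕ → ℝ) (e : ℕ) (he : 1 ≤ e) (he2 : e ≤ 10) (c : ℤ) :
    ∑ i ∈ Finset.range 12, (((if i + 1 = e then c else 0) : ℤ) : ℝ) * xx E a i =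
      c * xx E a (e - 1) := by
  rw [Finset.sum_eq_single (e - 1)]
  · rw [if_pos (by omega)]
  · intro i _ hi
    rw [if_neg (by omega)]
    simp
  · intro h
    exact absurd (Finset.mem_range.2 (by omega)) h

theorem sum_bp (E : ℕ) (a : ℕ → ℝ) (p q : Prop) [Decidable p] [Decidable q] (e f : ℕ)
    (he : 1 ≤ e) (he2 : e ≤ 10) (hf : 1 ≤ f) (hf2 : f ≤ 10) (c d b : ℤ) :
    ∑ i ∈ Finset.range 12, (((if i = 11 then 0 else c - (if p ∧ i + 1 = e then d else 0) -
      (if q ∧ i + 1 = f then b else 0)) : ℤ) : ℝ) * xx E a i =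
      c * ∑ n ∈ Finset.range (E + 1), a n - (if p then (d : ℝ) * xx E a (e - 1) else 0) -
        (if q then (b : ℝ) * xx E a (f - 1) else 0) := by
  have h1 := sum_const_rad E a c
  have h2 := sum_single E a e he he2 d
  have h3 := sum_single E a f hf hf2 b
  rw [← h1, ← h2, ← h3]
  have e1 : (if p then ∑ i ∈ Finset.range 12, (((if i + 1 = e then d else 0) : ℤ) : ℝ) *
      xx E a i else 0) = ∑ i ∈ Finset.range 12,
        (((if p ∧ i + 1 = e then d else 0) : ℤ) : ℝ) * xx E a i := by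
    by_cases hp : p <;> simp [hp]
  have e2 : (if q then ∑ i ∈ Finset.range 12, (((if i + 1 = f then b else 0) : ℤ) : ℝ) *
      xx E a i else 0) = ∑ i ∈ Finset.range 12,
        (((if q ∧ i + 1 = f then b else 0) : ℤ) : ℝ) * xx E a i := by
    by_cases hq : q <;> simp [hq]
  rw [e1, e2, ← Finset.sum_sub_distrib, ← Finset.sum_sub_distrib]
  refine Finset.sum_congr rfl fun i _ => ?_
  by_cases hi : i = 11
  · rw [if_pos hi, if_pos hi, if_neg (by omega), if_neg (by omega)]
    simp
  · rw [if_neg hi, if_neg hi]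
    push_cast
    ring

theorem gap_fin {e A S q Q : ℝ} (he : 0 < e) (hQ : Q = q * (7 * e))
    (hc : 7 * e * (A - S) - 4 * e * A + max 0 Q ≤ 0) : A - S + max 0 q ≤ 4 / 7 * A := by
  have h1 : max 0 Q = max 0 q * (7 * e) := by
    rw [hQ, max_mul_of_nonneg _ _ (by positivity), zero_mul]
  rw [h1] at hc
  have h2 : (7 * e) * (A - S + max 0 q - 4 / 7 * A) ≤ 0 := by
    linarith [mul_comm (max 0 q) (7 * e)]
  have h3 : (0 : ℝ) < 7 * e := by positivity
  by_contra hcon
  push Not at hcon
  have := mul_pos h3 (sub_pos.2 hcon)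
  linarith

theorem en_fin {Ar B M Z L : ℝ} (hL : L = Ar + B)
    (hc : 14 * M - 8 * Ar - B + max 0 (-7 * Z + 7 * B) ≤ 0) :
    M + (L - Ar) / 2 + max 0 ((L - Ar) - Z) / 2 ≤ 4 / 7 * L := by
  have h1 : max 0 (-7 * Z + 7 * B) = max 0 ((L - Ar) - Z) * 7 := by
    rw [max_mul_of_nonneg _ _ (by norm_num), zero_mul, hL]
    congr 1
    ring
  rw [h1] at hc
  linarith

theorem single_gap (E : ℕ) (a : Fin 3 → ℕ → ℝ) (h : ℝ) (ha : ∀ g n, 0 ≤ a g n)
    (hs : ∀ g, ∑ n ∈ Finset.range (E + 1), (n : ℝ) * a g n ≤ h) (L : ℝ) (g : Fin 3) (n : ℕ)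
    (hn : n ≤ E) (hb : 3 / 7 * L ≤ a g n) : GapT E a h L := by
  classical
  refine ⟨g, 1, fun g' => if g' = g then {n} else ∅, le_rfl, by norm_num, ?_, ?_, ?_⟩
  · intro g'
    dsimp only
    split_ifs
    · intro m hm
      rw [Finset.mem_singleton] at hm
      rw [Finset.mem_range]
      omega
    · exact Finset.empty_subset _
  · intro g' _ m _
    exact one_dvd _
  · have h1 : ∑ g', ∑ m ∈ (if g' = g then ({n} : Finset ℕ) else ∅), a g' m = a g n := by
      rw [Finset.sum_eq_single g]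
      · rw [if_pos rfl, Finset.sum_singleton]
      · intro b _ hb
        rw [if_neg hb, Finset.sum_empty]
      · intro h; exact absurd (Finset.mem_univ _) h
    have h2 : (∑ g', if g' = g then (0 : ℝ) else
        ∑ m ∈ (if g' = g then ({n} : Finset ℕ) else ∅), (m : ℝ) * a g' m) = 0 := by
      refine Finset.sum_eq_zero fun g' _ => ?_
      split_ifs
      · rfl
      · exact Finset.sum_empty
    have h3 : (n : ℝ) * a g n ≤ h := by
      refine le_trans ?_ (hs g)
      exact Finset.single_le_sum (f := fun m : ℕ => (m : ℝ) * a g m)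
        (fun m _ => mul_nonneg (Nat.cast_nonneg _) (ha g m)) (Finset.mem_range.2 (by omega))
    have h4 : ∑ m ∈ (if g = g then ({n} : Finset ℕ) else ∅), (m : ℝ) * a g m = n * a g n := by
      rw [if_pos rfl, Finset.sum_singleton]
    have h5 : L - ∑ g', ∑ m ∈ (if g' = g then ({n} : Finset ℕ) else ∅), a g' m +
        max 0 ((∑ g', if g' = g then (0 : ℝ) else
          ∑ m ∈ (if g' = g then ({n} : Finset ℕ) else ∅), (m : ℝ) * a g' m) / ((1 : ℕ) : ℝ) +
          ∑ m ∈ (if g = g then ({n} : Finset ℕ) else ∅), (m : ℝ) * a g m - h) ≤ 4 / 7 * L := by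
      rw [h1, h2, h4, zero_div, zero_add, max_eq_left (by linarith)]
      linarith
    exact h5

theorem lp_large_sorted (E : ℕ) (a : Fin 3 → ℕ → ℝ) (h : ℝ) (ha : ∀ g n, 0 ≤ a g n)
    (h0 : ∀ g, a g 0 = 0)
    (hs : ∀ g, ∑ n ∈ Finset.range (E + 1), (n : ℝ) * a g n ≤ h)
    (L : ℝ) (hL : L = ∑ g, ∑ n ∈ Finset.range (E + 1), a g n) (hbig : 21 * h ≤ 50 * L)
    (hle : L ≤ h) (hh : 0 < h)
    (o1 : ∑ n ∈ Finset.range (E + 1), a 1 n ≤ ∑ n ∈ Finset.range (E + 1), a 0 n)
    (o2 : ∑ n ∈ Finset.range (E + 1), a 2 n ≤ ∑ n ∈ Finset.range (E + 1), a 1 n) :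
    GapT E a h L ∨ EnT E a L ∨ BpT E a L := by
  classical
  set x : ℕ → ℕ → ℝ := fun g i => if g = 0 then xx E (a 0) i else if g = 1 then xx E (a 1) i
    else xx E (a 2) i with hx
  have hx0 : x 0 = xx E (a 0) := by funext i; simp [hx]
  have hx1 : x 1 = xx E (a 1) := by funext i; simp [hx]
  have hx2 : x 2 = xx E (a 2) := by funext i; simp [hx]
  have hD : ∀ (f : ℕ → ℕ → ℤ) (c : ℤ), dot (mk f c) (pt x h) =
      (∑ i ∈ Finset.range 12, (f 0 i : ℝ) * xx E (a 0) i) +
      (∑ i ∈ Finset.range 12, (f 1 i : ℝ) * xx E (a 1) i) +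
      (∑ i ∈ Finset.range 12, (f 2 i : ℝ) * xx E (a 2) i) + (c : ℝ) * h := by
    intro f c
    rw [dot_mk, hx0, hx1, hx2]
  have hX : ∀ y ∈ pt x h, 0 ≤ y := by
    intro y hy
    unfold pt at hy
    simp only [List.mem_append, List.mem_map, List.mem_singleton] at hy
    rcases hy with ⟨i, -, rfl⟩ | ⟨i, -, rfl⟩ | ⟨i, -, rfl⟩ | rfl
    · rw [hx0]; exact xx_nonneg E (ha 0) i
    · rw [hx1]; exact xx_nonneg E (ha 1) i
    · rw [hx2]; exact xx_nonneg E (ha 2) i
    · exact hh.le
  rw [Fin.sum_univ_three] at hL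
  have z12 : ∀ a : ℕ → ℝ, ∑ i ∈ Finset.range 12, (((0 : ℤ)) : ℝ) * xx E a i = 0 := by
    intro a; simp
  have tl12 : ∀ g, ∑ i ∈ Finset.range 12,
      (((if i = 11 then 1 else if i = 10 then -11 else 0) : ℤ) : ℝ) * xx E (a g) i =
        xx E (a g) 11 - 11 * xx E (a g) 10 := by
    intro g
    rw [Finset.sum_range_succ, Finset.sum_range_succ, Finset.sum_eq_zero]
    · norm_num
      ring
    · intro i hi
      have := Finset.mem_range.1 hi
      rw [if_neg (by omega), if_neg (by omega)]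
      simp
  have sz12 : ∀ g, ∑ i ∈ Finset.range 12, (((-wt i : ℤ)) : ℝ) * xx E (a g) i =
      -∑ n ∈ Finset.range (E + 1), (n : ℝ) * a g n := by
    intro g
    rw [size_all E (h0 g), ← Finset.sum_neg_distrib]
    refine Finset.sum_congr rfl fun i _ => ?_
    push_cast
    ring
  have hbase : ∀ p ∈ base, holds (pt x h) p := by
    intro p hp
    unfold base at hp
    simp only [List.mem_cons, List.not_mem_nil, or_false] at hp
    unfold holds
    rcases hp with rfl | rfl | rfl | rfl | rfl | rfl | rfl | rfl | rfl | rfl | rfl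
    · rw [hD]
      simp only [z12]
      norm_num
      exact ⟨hh.le, hh⟩
    · refine ⟨?_, fun h => absurd h (by simp)⟩
      rw [hD]
      simp only [if_true, if_false, one_ne_zero, zero_ne_one, OfNat.ofNat_ne_zero,
        OfNat.ofNat_ne_one, Nat.reduceEqDiff]
      rw [sum_const_rad, sum_const_rad, sum_const_rad]
      push_cast
      linarith
    · refine ⟨?_, fun h => absurd h (by simp)⟩
      rw [hD]
      simp only [if_true, if_false, one_ne_zero, zero_ne_one, OfNat.ofNat_ne_zero,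
        OfNat.ofNat_ne_one, Nat.reduceEqDiff]
      rw [sum_const_rad, sum_const_rad, sum_const_rad]
      push_cast
      linarith
    · refine ⟨?_, fun h => absurd h (by simp)⟩
      rw [hD, sum_const_rad, sum_const_rad, sum_const_rad]
      push_cast
      linarith
    · refine ⟨?_, fun h => absurd h (by simp)⟩
      rw [hD, sum_const_rad, sum_const_rad, sum_const_rad]
      push_cast
      linarith
    · refine ⟨?_, fun h => absurd h (by simp)⟩
      rw [hD]
      simp only [if_true, if_false, one_ne_zero, zero_ne_one, OfNat.ofNat_ne_zero,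
        OfNat.ofNat_ne_one, Nat.reduceEqDiff]
      rw [z12, z12, tl12]
      have := tail_le E (ha 2)
      push_cast
      linarith
    · refine ⟨?_, fun h => absurd h (by simp)⟩
      rw [hD]
      simp only [if_true, if_false, one_ne_zero, zero_ne_one, OfNat.ofNat_ne_zero,
        OfNat.ofNat_ne_one, Nat.reduceEqDiff]
      rw [z12, z12, tl12]
      have := tail_le E (ha 1)
      push_cast
      linarith
    · refine ⟨?_, fun h => absurd h (by simp)⟩
      rw [hD]
      simp only [if_true, if_false, one_ne_zero, zero_ne_one, OfNat.ofNat_ne_zero,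
        OfNat.ofNat_ne_one, Nat.reduceEqDiff]
      rw [z12, z12, tl12]
      have := tail_le E (ha 0)
      push_cast
      linarith
    · refine ⟨?_, fun h => absurd h (by simp)⟩
      rw [hD]
      simp only [if_true, if_false, one_ne_zero, zero_ne_one, OfNat.ofNat_ne_zero,
        OfNat.ofNat_ne_one, Nat.reduceEqDiff]
      rw [z12, z12, sz12]
      have := hs 2
      push_cast
      linarith
    · refine ⟨?_, fun h => absurd h (by simp)⟩
      rw [hD]
      simp only [if_true, if_false, one_ne_zero, zero_ne_one, OfNat.ofNat_ne_zero,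
        OfNat.ofNat_ne_one, Nat.reduceEqDiff]
      rw [z12, z12, sz12]
      have := hs 1
      push_cast
      linarith
    · refine ⟨?_, fun h => absurd h (by simp)⟩
      rw [hD]
      simp only [if_true, if_false, one_ne_zero, zero_ne_one, OfNat.ofNat_ne_zero,
        OfNat.ofNat_ne_one, Nat.reduceEqDiff]
      rw [z12, z12, sz12]
      have := hs 0
      push_cast
      linarith
  obtain ⟨t, hv, hc⟩ := check_sound (pt x h) hX root pbase
    (match2_sound _ base pbase match_base hbase) check_root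
  rw [hD, hD] at hc
  cases t with
  | gap e r s0 s1 s2 =>
    left
    simp only [val, Bool.and_eq_true, decide_eq_true_eq, Bool.or_eq_true] at hv
    obtain ⟨⟨⟨he1, he10⟩, hr⟩, hdiv⟩ := hv
    have hr' : ∀ g : Fin 3, ((g : ℕ) = r) ↔ g = ⟨r, hr⟩ := fun g => by
      constructor
      · intro h; exact Fin.ext h
      · intro h; rw [h]
    set S : Fin 3 → Finset ℕ := fun g => SS E (sel s0 s1 s2 g) with hS
    refine ⟨⟨r, hr⟩, e, S, he1, he10, fun g => Finset.filter_subset _ _, ?_, ?_⟩
    · intro g hg n hn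
      rcases hdiv with h1 | h1
      · rw [h1]; exact one_dvd _
      · rw [List.all_eq_true] at h1
        have h2 := h1 g (List.mem_range.2 g.2)
        simp only [Bool.or_eq_true, decide_eq_true_eq] at h2
        rcases h2 with h2 | h2
        · exact absurd ((hr' g).1 h2) hg
        · rw [List.all_eq_true] at h2
          have hb := (Finset.mem_filter.1 hn).2
          have h3 := h2 (cl n) (List.mem_range.2 (cl_lt n))
          simp only [hb, Bool.not_true, Bool.false_or, Bool.and_eq_true,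
            decide_eq_true_eq] at h3
          obtain ⟨h3, h4⟩ := h3
          rcases Nat.eq_zero_or_pos n with rfl | hn0
          · exact dvd_zero _
          · have : n = cl n + 1 := by
              unfold cl at h3 ⊢
              split_ifs at h3 ⊢ <;> omega
            rw [this]
            exact Nat.dvd_of_mod_eq_zero h4
    · simp only [cK, cO, cH] at hc
      rw [sum_K_gap, sum_K_gap, sum_K_gap] at hc
      have hO : ∀ g : Fin 3, ∑ i ∈ Finset.range 12,
          (((if bit (sel s0 s1 s2 g) i = true then (if (g : ℕ) = r then 7 * (e : ℤ) else 7) * wt i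
            else 0) : ℤ) : ℝ) * xx E (a g) i =
            (if (g : ℕ) = r then 7 * (e : ℝ) else 7) * ∑ n ∈ S g, (n : ℝ) * a g n := by
        intro g
        rw [sum_O_gap E _ (h0 g)]
        split_ifs <;> push_cast <;> ring
      have hO0 := hO 0
      have hO1 := hO 1
      have hO2 := hO 2
      simp only [Fin.val_zero, Fin.val_one, Fin.val_two] at hO0 hO1 hO2
      rw [hO0, hO1, hO2] at hc
      have he0 : (0 : ℝ) < e := by exact_mod_cast he1
      rw [Fin.sum_univ_three, Fin.sum_univ_three]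
      have hS0 : S 0 = SS E (sel s0 s1 s2 0) := rfl
      have hS1 : S 1 = SS E (sel s0 s1 s2 1) := rfl
      have hS2 : S 2 = SS E (sel s0 s1 s2 2) := rfl
      rw [← hS0, ← hS1, ← hS2] at hc
      push_cast at hc
      rcases (by omega : r = 0 ∨ r = 1 ∨ r = 2) with rfl | rfl | rfl
      · have e0 : (⟨0, hr⟩ : Fin 3) = 0 := rfl
        rw [e0]
        simp only [if_true, if_false, one_ne_zero, zero_ne_one, OfNat.ofNat_ne_zero,
          OfNat.ofNat_ne_one, Nat.reduceEqDiff, Fin.isValue, Fin.reduceEq] at hc ⊢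
        refine gap_fin (Q := 7 * (e : ℝ) * ∑ n ∈ S 0, (n : ℝ) * a 0 n +
          7 * ∑ n ∈ S 1, (n : ℝ) * a 1 n + 7 * ∑ n ∈ S 2, (n : ℝ) * a 2 n +
            -7 * (e : ℝ) * h) he0 ?_ ?_
        · field_simp
          ring
        · rw [hL]
          linarith
      · have e0 : (⟨1, hr⟩ : Fin 3) = 1 := rfl
        rw [e0]
        simp only [if_true, if_false, one_ne_zero, zero_ne_one, OfNat.ofNat_ne_zero,
          OfNat.ofNat_ne_one, Nat.reduceEqDiff, Fin.isValue, Fin.reduceEq] at hc ⊢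
        refine gap_fin (Q := 7 * ∑ n ∈ S 0, (n : ℝ) * a 0 n +
          7 * (e : ℝ) * ∑ n ∈ S 1, (n : ℝ) * a 1 n + 7 * ∑ n ∈ S 2, (n : ℝ) * a 2 n +
            -7 * (e : ℝ) * h) he0 ?_ ?_
        · field_simp
          ring
        · rw [hL]
          linarith
      · have e0 : (⟨2, hr⟩ : Fin 3) = 2 := rfl
        rw [e0]
        simp only [if_true, if_false, one_ne_zero, zero_ne_one, OfNat.ofNat_ne_zero,
          OfNat.ofNat_ne_one, Nat.reduceEqDiff, Fin.isValue, Fin.reduceEq] at hc ⊢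
        refine gap_fin (Q := 7 * ∑ n ∈ S 0, (n : ℝ) * a 0 n +
          7 * ∑ n ∈ S 1, (n : ℝ) * a 1 n + 7 * (e : ℝ) * ∑ n ∈ S 2, (n : ℝ) * a 2 n +
            -7 * (e : ℝ) * h) he0 ?_ ?_
        · field_simp
          ring
        · rw [hL]
          linarith
  | en r m =>
    right; left
    simp only [val, decide_eq_true_eq] at hv
    simp only [cK, cO, cH] at hc
    refine ⟨⟨r, hv⟩, SS E m, Finset.filter_subset _ _, ?_⟩
    rcases (by omega : r = 0 ∨ r = 1 ∨ r = 2) with rfl | rfl | rfl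
    · have e0 : (⟨0, hv⟩ : Fin 3) = 0 := rfl
      rw [e0]
      simp only [if_true, if_false, one_ne_zero, zero_ne_one, OfNat.ofNat_ne_zero,
        OfNat.ofNat_ne_one, Nat.reduceEqDiff] at hc
      rw [sum_K_en, sum_const_rad, sum_const_rad, sum_O_en E m (h0 0), sum_const_rad,
        sum_const_rad] at hc
      refine en_fin (B := ∑ n ∈ Finset.range (E + 1), a 1 n + ∑ n ∈ Finset.range (E + 1), a 2 n)
        (by rw [hL]; ring) (le_trans (le_of_eq ?_) hc)
      push_cast
      ring_nf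
    · have e0 : (⟨1, hv⟩ : Fin 3) = 1 := rfl
      rw [e0]
      simp only [if_true, if_false, one_ne_zero, zero_ne_one, OfNat.ofNat_ne_zero,
        OfNat.ofNat_ne_one, Nat.reduceEqDiff] at hc
      rw [sum_const_rad, sum_K_en, sum_const_rad, sum_const_rad, sum_O_en E m (h0 1),
        sum_const_rad] at hc
      refine en_fin (B := ∑ n ∈ Finset.range (E + 1), a 0 n + ∑ n ∈ Finset.range (E + 1), a 2 n)
        (by rw [hL]; ring) (le_trans (le_of_eq ?_) hc)
      push_cast
      ring_nf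
    · have e0 : (⟨2, hv⟩ : Fin 3) = 2 := rfl
      rw [e0]
      simp only [if_true, if_false, one_ne_zero, zero_ne_one, OfNat.ofNat_ne_zero,
        OfNat.ofNat_ne_one, Nat.reduceEqDiff] at hc
      rw [sum_const_rad, sum_const_rad, sum_K_en, sum_const_rad, sum_const_rad,
        sum_O_en E m (h0 2)] at hc
      refine en_fin (B := ∑ n ∈ Finset.range (E + 1), a 0 n + ∑ n ∈ Finset.range (E + 1), a 1 n)
        (by rw [hL]; ring) (le_trans (le_of_eq ?_) hc)
      push_cast
      ring_nf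
  | bp g g' e f =>
    simp only [val, Bool.and_eq_true, decide_eq_true_eq] at hv
    obtain ⟨⟨⟨⟨⟨⟨h1, h2⟩, h3⟩, h4⟩, h5⟩, h6⟩, h7⟩ := hv
    simp only [cK, cO, cH] at hc
    rw [sum_bp E _ _ _ e f h4 h5 (by omega) h7, sum_bp E _ _ _ e f h4 h5 (by omega) h7,
      sum_bp E _ _ _ e f h4 h5 (by omega) h7] at hc
    have hf0 : (0 : ℝ) < f := by exact_mod_cast (by omega : 0 < f)
    have hf2 : (2 : ℝ) ≤ f := by exact_mod_cast h6
    have hkey : 3 * (f : ℝ) * L - (7 * (f : ℝ) - 7) * xx E (a ⟨g, h1⟩) (e - 1) -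
        7 * (f : ℝ) * xx E (a ⟨g', h2⟩) (f - 1) ≤ 0 := by
      have hz : (0 : ℝ) ≤ max 0 ((∑ i ∈ Finset.range 12, ((0 : ℤ) : ℝ) * xx E (a 0) i) +
          (∑ i ∈ Finset.range 12, ((0 : ℤ) : ℝ) * xx E (a 1) i) +
          (∑ i ∈ Finset.range 12, ((0 : ℤ) : ℝ) * xx E (a 2) i) + ((0 : ℤ) : ℝ) * h) :=
        le_max_left _ _
      have hc2 := le_trans (le_add_of_nonneg_right hz) hc
      have k0 : ∀ h, (⟨0, h⟩ : Fin 3) = 0 := fun _ => rfl
      have k1 : ∀ h, (⟨1, h⟩ : Fin 3) = 1 := fun _ => rfl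
      have k2 : ∀ h, (⟨2, h⟩ : Fin 3) = 2 := fun _ => rfl
      rw [hL]
      rcases (by omega : g = 0 ∨ g = 1 ∨ g = 2) with rfl | rfl | rfl <;>
      rcases (by omega : g' = 0 ∨ g' = 1 ∨ g' = 2) with rfl | rfl | rfl <;>
      first
        | exact absurd rfl h3
        | (simp only [k0, k1, k2]
           norm_num at hc2
           linarith)
    have hxe : (xx E (a ⟨g, h1⟩) (e - 1) = a ⟨g, h1⟩ e ∧ e ≤ E) ∨
        xx E (a ⟨g, h1⟩) (e - 1) = 0 := by
      by_cases hE : e ≤ E
      · exact Or.inl ⟨xx_single E (h0 _) h4 h5 hE, hE⟩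
      · exact Or.inr (xx_zero E (h0 _) h4 h5 (by omega))
    have hxf : (xx E (a ⟨g', h2⟩) (f - 1) = a ⟨g', h2⟩ f ∧ f ≤ E) ∨
        xx E (a ⟨g', h2⟩) (f - 1) = 0 := by
      by_cases hE : f ≤ E
      · exact Or.inl ⟨xx_single E (h0 _) (by omega) h7 hE, hE⟩
      · exact Or.inr (xx_zero E (h0 _) (by omega) h7 (by omega))
    rcases hxe with ⟨hxe, heE⟩ | hxe
    · rcases hxf with ⟨hxf, hfE⟩ | hxf
      · right; right
        refine ⟨⟨g, h1⟩, ⟨g', h2⟩, e, f, ?_, h4, h6, heE, hfE, ?_⟩
        · intro hh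
          exact h3 (congrArg Fin.val hh)
        · rw [hxe, hxf] at hkey
          have e1 : (a ⟨g, h1⟩ e / f) * (7 * f) = 7 * a ⟨g, h1⟩ e := by field_simp
          by_contra hcon
          push Not at hcon
          have := mul_pos (show (0 : ℝ) < 7 * f by positivity) (sub_pos.2 hcon)
          nlinarith
      · left
        refine single_gap E a h ha hs L ⟨g, h1⟩ e heE ?_
        rw [hxe, hxf] at hkey
        have := ha ⟨g, h1⟩ e
        by_contra hcon
        push Not at hcon
        nlinarith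
    · rcases hxf with ⟨hxf, hfE⟩ | hxf
      · left
        refine single_gap E a h ha hs L ⟨g', h2⟩ f hfE ?_
        rw [hxe, hxf] at hkey
        by_contra hcon
        push Not at hcon
        nlinarith
      · exfalso
        rw [hxe, hxf] at hkey
        nlinarith

end Pool.Agent.AbcF
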