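import Mathlib

/-!
The linear programme of the squad AbcF, small radical: elementary real inequalities.
-/

namespace Pool.Agent.AbcF

open Finset

theorem lpS_A' {E : ℕ} {b : ℕ → ℝ} {u : ℝ}
    (hA : ∀ M ⊆ range (E + 1), 4 / 7 < ∑ n ∈ M, b n + (1 - u) / 2 +
      max 0 ((1 - u) - ∑ n ∈ M, (n : ℝ) * b n) / 2)
    {M : Finset ℕ} (hM : M ⊆ range (E + 1)) (h : 1 - u ≤ ∑ n ∈ M, (n : ℝ) * b n) :
    (u + 1 / 7) / 2 < ∑ n ∈ M, b n := by
  have := hA M hM
  rw [max_eq_left (by linarith)] at this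
  linarith

theorem lpS_A {E : ℕ} {b : ℕ → ℝ} {u : ℝ}
    (hA : ∀ M ⊆ range (E + 1), 4 / 7 < ∑ n ∈ M, b n + (1 - u) / 2 +
      max 0 ((1 - u) - ∑ n ∈ M, (n : ℝ) * b n) / 2)
    {M : Finset ℕ} (hM : M ⊆ range (E + 1)) (h : ∑ n ∈ M, (n : ℝ) * b n ≤ 1 - u) :
    ∑ n ∈ M, (n : ℝ) * b n < 2 * ∑ n ∈ M, b n + (6 / 7 - 2 * u) := by
  have := hA M hM
  rw [max_eq_right (by linarith)] at this
  linarith

/-- a group without a big exponent has small size -/
theorem lpS_single {E : ℕ} {b : ℕ → ℝ} {u : ℝ} (hb : ∀ n, 0 ≤ b n)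
    (hu : u = ∑ n ∈ range (E + 1), b n) (h1 : 1 / 7 < u) (h2 : u < 3 / 7)
    (hA : ∀ M ⊆ range (E + 1), 4 / 7 < ∑ n ∈ M, b n + (1 - u) / 2 +
      max 0 ((1 - u) - ∑ n ∈ M, (n : ℝ) * b n) / 2)
    (hnb : ∀ w ∈ range (E + 1), (w : ℝ) * b w < 1 - u) :
    ∑ n ∈ range (E + 1), (n : ℝ) * b n < 12 / 7 - 2 * u ∨
      ∑ n ∈ range (E + 1), (n : ℝ) * b n < u * (8 - 14 * u) := by
  classical
  by_cases h3 : ∑ n ∈ (range (E + 1)).filter (fun n => 3 ≤ n), (n : ℝ) * b n ≤ 1 - u
  · left
    have hA3 := lpS_A hA (filter_subset _ _) h3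
    have hs := sum_filter_add_sum_filter_not (range (E + 1)) (fun n => 3 ≤ n)
      (fun n => (n : ℝ) * b n)
    have hr := sum_filter_add_sum_filter_not (range (E + 1)) (fun n => 3 ≤ n) b
    have hle : ∑ n ∈ (range (E + 1)).filter (fun n => ¬ 3 ≤ n), (n : ℝ) * b n ≤
        2 * ∑ n ∈ (range (E + 1)).filter (fun n => ¬ 3 ≤ n), b n := by
      rw [mul_sum]
      apply sum_le_sum
      intro n hn
      have hn2 : n ≤ 2 := by
        have := (mem_filter.1 hn).2
        omega
      have : (n : ℝ) ≤ 2 := by exact_mod_cast hn2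
      exact mul_le_mul_of_nonneg_right this (hb n)
    rw [← hu] at hr
    linarith
  · push Not at h3
    set Pr : ℕ → Prop := fun w => 1 - u ≤ ∑ n ∈ (range (E + 1)).filter (fun n => w ≤ n),
      (n : ℝ) * b n with hPr
    have hP3 : Pr 3 := h3.le
    have hE : 3 ≤ E := by
      by_contra hE
      have : (range (E + 1)).filter (fun n => 3 ≤ n) = ∅ := by
        apply filter_eq_empty_iff.2
        intro n hn
        have := mem_range.1 hn
        omega
      rw [this] at h3
      simp at h3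
      linarith
    obtain ⟨w, hw3, hwE, hPw, hPn⟩ : ∃ w, 3 ≤ w ∧ w ≤ E ∧ Pr w ∧ ¬ Pr (w + 1) := by
      refine ⟨Nat.findGreatest Pr E, Nat.le_findGreatest hE hP3, Nat.findGreatest_le _,
        Nat.findGreatest_spec hE hP3, ?_⟩
      rcases lt_or_eq_of_le (Nat.findGreatest_le (P := Pr) E) with h | h
      · exact Nat.findGreatest_is_greatest (Nat.lt_succ_self _) h
      · rw [h]
        have : (range (E + 1)).filter (fun n => E + 1 ≤ n) = ∅ := by
          apply filter_eq_empty_iff.2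
          intro n hn
          have := mem_range.1 hn
          omega
        simp only [hPr, this, sum_empty, not_le]
        linarith
    have hwm : w ∈ range (E + 1) := mem_range.2 (by omega)
    have hins : (range (E + 1)).filter (fun n => w ≤ n) =
        insert w ((range (E + 1)).filter (fun n => w + 1 ≤ n)) := by
      ext n
      simp only [mem_filter, mem_range, mem_insert]
      omega
    have hnot : w ∉ (range (E + 1)).filter (fun n => w + 1 ≤ n) := by simp
    have hρw : ∑ n ∈ (range (E + 1)).filter (fun n => w ≤ n), b n =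
        b w + ∑ n ∈ (range (E + 1)).filter (fun n => w + 1 ≤ n), b n := by
      rw [hins, sum_insert hnot]
    have hPw' : 1 - u ≤ ∑ n ∈ (range (E + 1)).filter (fun n => w ≤ n), (n : ℝ) * b n := hPw
    have hPn' : ∑ n ∈ (range (E + 1)).filter (fun n => w + 1 ≤ n), (n : ℝ) * b n < 1 - u := by
      have : ¬ (1 - u ≤ ∑ n ∈ (range (E + 1)).filter (fun n => w + 1 ≤ n), (n : ℝ) * b n) := hPn
      linarith
    have hge := lpS_A' hA (filter_subset _ _) hPw'
    by_cases hbw : (u - 1 / 7) / 2 < b w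
    · left
      have her := sum_erase_eq_sub (f := b) hwm
      have hes := sum_erase_eq_sub (f := fun n : ℕ => (n : ℝ) * b n) hwm
      have hlt : ∑ n ∈ (range (E + 1)).erase w, (n : ℝ) * b n < 1 - u := by
        by_contra hcon
        push Not at hcon
        have := lpS_A' hA (erase_subset _ _) hcon
        rw [her, ← hu] at this
        linarith
      have h4 := lpS_A hA (erase_subset _ _) hlt.le
      have h5 := lpS_A hA (M := {w}) (by simpa using hwm) (by simpa using (hnb w hwm).le)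
      rw [sum_singleton, sum_singleton] at h5
      rw [her, hes, ← hu] at h4
      linarith
    · right
      push Not at hbw
      set p := ∑ n ∈ (range (E + 1)).filter (fun n => w + 1 ≤ n), b n with hp
      have hp7 : 1 / 7 < p := by
        rw [hρw] at hge
        linarith
      have hσ := lpS_A hA (filter_subset _ _) hPn'.le
      rw [← hp] at hσ
      have hwp : (w : ℝ) * p ≤
          ∑ n ∈ (range (E + 1)).filter (fun n => w + 1 ≤ n), (n : ℝ) * b n := by
        rw [hp, mul_sum]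
        apply sum_le_sum
        intro n hn
        have hn2 : w ≤ n := by
          have := (mem_filter.1 hn).2
          omega
        have : (w : ℝ) ≤ n := by exact_mod_cast hn2
        exact mul_le_mul_of_nonneg_right this (hb n)
      have hs := sum_filter_add_sum_filter_not (range (E + 1)) (fun n => w + 1 ≤ n)
        (fun n => (n : ℝ) * b n)
      have hr := sum_filter_add_sum_filter_not (range (E + 1)) (fun n => w + 1 ≤ n) b
      rw [← hu, ← hp] at hr
      have hle : ∑ n ∈ (range (E + 1)).filter (fun n => ¬ w + 1 ≤ n), (n : ℝ) * b n ≤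
          w * ∑ n ∈ (range (E + 1)).filter (fun n => ¬ w + 1 ≤ n), b n := by
        rw [mul_sum]
        apply sum_le_sum
        intro n hn
        have hn2 : n ≤ w := by
          have := (mem_filter.1 hn).2
          omega
        have : (n : ℝ) ≤ w := by exact_mod_cast hn2
        exact mul_le_mul_of_nonneg_right this (hb n)
      have hrest : ∑ n ∈ (range (E + 1)).filter (fun n => ¬ w + 1 ≤ n), b n = u - p := by
        linarith
      have hup : 0 ≤ u - p := by
        rw [← hrest]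
        exact sum_nonneg (fun n _ => hb n)
      rw [hrest] at hle
      set η := 6 / 7 - 2 * u with hη
      have hη0 : 0 < η := by rw [hη]; linarith
      have hp0 : 0 < p := by linarith
      have hw2 : (w : ℝ) < 2 + η / p := by
        rw [← sub_lt_iff_lt_add', lt_div_iff₀ hp0]
        linarith
      have h6 : (w : ℝ) * (u - p) ≤ (2 + η / p) * (u - p) :=
        mul_le_mul_of_nonneg_right hw2.le hup
      have h7 : 2 * p + η + (2 + η / p) * (u - p) = 2 * u + η * u / p := by
        field_simp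
        ring
      have h8 : η * u / p ≤ 7 * η * u := by
        rw [div_le_iff₀ hp0]
        have : 0 < η * u := mul_pos hη0 (by linarith)
        nlinarith
      have h9 : 2 * u + 7 * η * u = u * (8 - 14 * u) := by
        rw [hη]; ring
      linarith

theorem lpS_f {x y : ℝ} {sx sy : ℝ} (hx2 : x < 3 / 7)
    (hy2 : y < 3 / 7) (hxy : 4 / 7 < x + y) (hx : sx < 12 / 7 - 2 * x ∨ sx < x * (8 - 14 * x))
    (hy : sy < 12 / 7 - 2 * y ∨ sy < y * (8 - 14 * y)) : sx + sy < 33 / 14 := by
  rcases hx with hx | hx <;> rcases hy with hy | hy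
  · linarith
  · nlinarith [sq_nonneg (y - 5 / 14)]
  · nlinarith [sq_nonneg (x - 5 / 14)]
  · nlinarith [sq_nonneg (x - y), sq_nonneg (x + y - 4 / 7)]

theorem lpS_third {x sx : ℝ} (hx1 : 1 / 3 < x)
    (hx : sx < 12 / 7 - 2 * x ∨ sx < x * (8 - 14 * x)) : sx < 10 / 9 := by
  rcases hx with hx | hx
  · linarith
  · nlinarith [sq_nonneg (x - 1 / 3)]

/-- the atom of a big group -/
theorem lpS_big {E : ℕ} {b : ℕ → ℝ} {u : ℝ}
    (hu : u = ∑ n ∈ range (E + 1), b n) (h1 : 1 / 7 < u) (h2 : u < 3 / 7)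
    (hb : ∀ n, 0 ≤ b n)
    (hA : ∀ M ⊆ range (E + 1), 4 / 7 < ∑ n ∈ M, b n + (1 - u) / 2 +
      max 0 ((1 - u) - ∑ n ∈ M, (n : ℝ) * b n) / 2)
    {w : ℕ} (hw : w ∈ range (E + 1)) (hbig : 1 - u ≤ (w : ℝ) * b w) :
    2 ≤ w ∧ w ≤ E ∧ u - b w < b w - 1 / 7 ∧ b w < 3 / 7 ∧
      ∑ n ∈ (range (E + 1)).erase w, b n = u - b w ∧
      ∑ n ∈ (range (E + 1)).erase w, (n : ℝ) * b n < 1 - u := by
  have hle : b w ≤ u := by
    rw [hu]
    exact single_le_sum (f := b) (fun n _ => hb n) hw
  have h3 : (u + 1 / 7) / 2 < b w := by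
    have := lpS_A' hA (M := {w}) (by simpa using hw) (by simpa using hbig)
    simpa using this
  have her := sum_erase_eq_sub (f := b) hw
  rw [← hu] at her
  refine ⟨?_, ?_, by linarith, by linarith, her, ?_⟩
  · by_contra hcon
    have : w = 0 ∨ w = 1 := by omega
    rcases this with rfl | rfl
    · simp at hbig
      linarith
    · simp at hbig
      linarith
  · have := mem_range.1 hw
    omega
  · by_contra hcon
    push Not at hcon
    have := lpS_A' hA (erase_subset _ _) hcon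
    rw [her] at this
    linarith

/-- size of an atom -/
theorem lpS_atom {h1 h2 : ℝ} {e : ℕ} (he : 2 ≤ e) (h1n : 0 < h1) (h2n : 0 < h2)
    (h1s : h1 < 3 / 7) (h2s : h2 < 3 / 7)
    (ht : 10 / 21 ≤ h1 + h2) (hB : h1 + h2 - h1 / e < 3 / 7) : (e : ℝ) * h2 < 25 / 21 := by
  have he0 : (0 : ℝ) < e := by
    have : (2 : ℝ) ≤ e := by exact_mod_cast he
    linarith
  have h3 : h1 + h2 - 3 / 7 < h1 / e := by linarith
  rw [lt_div_iff₀ he0] at h3
  have hτ : 0 < h1 + h2 - 3 / 7 := by linarith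
  have h4 : (h1 + h2 - 3 / 7) * ((e : ℝ) * h2) < h1 * h2 := by
    have := mul_lt_mul_of_pos_right h3 h2n
    linarith
  have h5 : h1 * h2 ≤ (h1 + h2 - 3 / 7) * (25 / 21) := by
    nlinarith [sq_nonneg (h1 - h2), mul_nonneg (sub_nonneg.2 ht) (sub_nonneg.2
      (show h1 + h2 ≤ 30 / 7 by linarith))]
  by_contra hcon
  push Not at hcon
  have := mul_le_mul_of_nonneg_left hcon hτ.le
  linarith

theorem lpS_sum3 (F : Fin 3 → ℝ) {x y z : Fin 3} (hxy : x ≠ y) (hxz : x ≠ z) (hyz : y ≠ z) :
    ∑ g, F g = F x + F y + F z := by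
  have hun : (Finset.univ : Finset (Fin 3)) = {x, y, z} := by
    revert x y z
    decide
  rw [hun, sum_insert (by simp [hxy, hxz]), sum_insert (by simp [hyz]), sum_singleton]
  ring

/-- the normalised statement -/
theorem lpS_core (E : ℕ) (a : Fin 3 → ℕ → ℝ) (h : ℝ) (ha : ∀ g n, 0 ≤ a g n)
    (hs : ∀ g, ∑ n ∈ range (E + 1), (n : ℝ) * a g n ≤ h)
    (hL : 1 = ∑ g, ∑ n ∈ range (E + 1), a g n) (hsmall : 50 / 21 ≤ h)
    (hT : ∀ S : Fin 3 → Finset ℕ, (∀ g, S g ⊆ range (E + 1)) →
      ∑ g, ∑ n ∈ S g, (n : ℝ) * a g n ≤ h → ∑ g, ∑ n ∈ S g, a g n < 3 / 7)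
    (hA : ∀ (g : Fin 3), ∀ M ⊆ range (E + 1), 4 / 7 < ∑ n ∈ M, a g n +
      (1 - ∑ n ∈ range (E + 1), a g n) / 2 +
      max 0 ((1 - ∑ n ∈ range (E + 1), a g n) - ∑ n ∈ M, (n : ℝ) * a g n) / 2)
    (hB : ∀ (g g' : Fin 3) (e f : ℕ), g ≠ g' → 1 ≤ e → 2 ≤ f → e ≤ E → f ≤ E →
      a g e + a g' f - a g e / f < 3 / 7) : False := by
  classical
  -- (T) for three sets
  have hT3 : ∀ (x y z : Fin 3) (A B C : Finset ℕ), x ≠ y → x ≠ z → y ≠ z →
      A ⊆ range (E + 1) → B ⊆ range (E + 1) → C ⊆ range (E + 1) →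
      ∑ n ∈ A, (n : ℝ) * a x n + ∑ n ∈ B, (n : ℝ) * a y n + ∑ n ∈ C, (n : ℝ) * a z n ≤ h →
      ∑ n ∈ A, a x n + ∑ n ∈ B, a y n + ∑ n ∈ C, a z n < 3 / 7 := by
    intro x y z A B C hxy hxz hyz hAs hBs hCs hle
    have key := hT (fun g => if g = x then A else if g = y then B else C) (by
      intro g
      split_ifs <;> assumption)
    rw [lpS_sum3 _ hxy hxz hyz, lpS_sum3 _ hxy hxz hyz] at key
    simp only [if_true, if_neg hxy.symm, if_neg hxz.symm, if_neg hyz.symm] at key
    exact key hle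
  set u : Fin 3 → ℝ := fun g => ∑ n ∈ range (E + 1), a g n with hu
  have hsum : ∀ x y z : Fin 3, x ≠ y → x ≠ z → y ≠ z → u x + u y + u z = 1 := by
    intro x y z hxy hxz hyz
    rw [← lpS_sum3 u hxy hxz hyz]
    exact hL.symm
  have hup : ∀ x y z : Fin 3, x ≠ y → x ≠ z → y ≠ z → u x < 3 / 7 := by
    intro x y z hxy hxz hyz
    have := hT3 x y z (range (E + 1)) ∅ ∅ hxy hxz hyz (subset_refl _) (empty_subset _)
      (empty_subset _) (by simpa using hs x)
    simpa using this
  have hup' : ∀ x : Fin 3, u x < 3 / 7 := by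
    intro x
    fin_cases x
    · exact hup 0 1 2 (by decide) (by decide) (by decide)
    · exact hup 1 0 2 (by decide) (by decide) (by decide)
    · exact hup 2 0 1 (by decide) (by decide) (by decide)
  have hlow' : ∀ x : Fin 3, 1 / 7 < u x := by
    intro x
    fin_cases x
    · have := hsum 0 1 2 (by decide) (by decide) (by decide)
      have h1 := hup' 1
      have h2 := hup' 2
      show 1 / 7 < u 0
      linarith
    · have := hsum 0 1 2 (by decide) (by decide) (by decide)
      have h1 := hup' 0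
      have h2 := hup' 2
      show 1 / 7 < u 1
      linarith
    · have := hsum 0 1 2 (by decide) (by decide) (by decide)
      have h1 := hup' 0
      have h2 := hup' 1
      show 1 / 7 < u 2
      linarith
  set Big : Fin 3 → Prop := fun g => ∃ w ∈ range (E + 1), 1 - u g ≤ (w : ℝ) * a g w with hBig
  have hsingle : ∀ g, ¬ Big g → ∑ n ∈ range (E + 1), (n : ℝ) * a g n < 12 / 7 - 2 * u g ∨
      ∑ n ∈ range (E + 1), (n : ℝ) * a g n < u g * (8 - 14 * u g) := by
    intro g hg
    refine lpS_single (ha g) rfl (hlow' g) (hup' g) (hA g) ?_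
    intro w hw
    by_contra hcon
    push Not at hcon
    exact hg ⟨w, hw, hcon⟩
  -- two groups that are not big
  have caseA : ∀ x y z : Fin 3, x ≠ y → x ≠ z → y ≠ z → ¬ Big y → ¬ Big z → False := by
    intro x y z hxy hxz hyz hy hz
    have h1 := hsum x y z hxy hxz hyz
    have h2 := hup' x
    have h3 := lpS_f (hup' y) (hup' z) (by linarith) (hsingle y hy)
      (hsingle z hz)
    have h4 := hT3 x y z ∅ (range (E + 1)) (range (E + 1)) hxy hxz hyz (empty_subset _)
      (subset_refl _) (subset_refl _) (by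
        rw [sum_empty]
        linarith)
    rw [sum_empty] at h4
    have h5 : ∑ n ∈ range (E + 1), a y n = u y := rfl
    have h6 : ∑ n ∈ range (E + 1), a z n = u z := rfl
    rw [h5, h6] at h4
    linarith
  -- two big groups have small atoms
  have pair : ∀ (x y z : Fin 3) (e f : ℕ), x ≠ y → x ≠ z → y ≠ z → e ∈ range (E + 1) →
      f ∈ range (E + 1) → 1 - u x ≤ (e : ℝ) * a x e → 1 - u y ≤ (f : ℝ) * a y f →
      a x e + a y f < 10 / 21 := by
    intro x y z e f hxy hxz hyz he hf hbe hbf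
    obtain ⟨he2, heE, hre, hse, -, -⟩ := lpS_big (b := a x) (u := u x) rfl (hlow' x) (hup' x)
      (ha x) (hA x) he hbe
    obtain ⟨hf2, hfE, hrf, hsf, -, -⟩ := lpS_big (b := a y) (u := u y) rfl (hlow' y) (hup' y)
      (ha y) (hA y) hf hbf
    by_contra hcon
    push Not at hcon
    have hle1 : a x e ≤ u x := single_le_sum (f := a x) (fun n _ => ha x n) he
    have hle2 : a y f ≤ u y := single_le_sum (f := a y) (fun n _ => ha y n) hf
    have hpx : 0 < a x e := by linarith [hlow' x]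
    have hpy : 0 < a y f := by linarith [hlow' y]
    have h1 := lpS_atom hf2 hpx hpy hse hsf hcon (hB x y e f hxy (by omega) hf2 heE hfE)
    have h2 := lpS_atom he2 hpy hpx hsf hse (by linarith)
      (hB y x f e hxy.symm (by omega) he2 hfE heE)
    have h3 := hT3 x y z {e} {f} ∅ hxy hxz hyz (by simpa using he) (by simpa using hf)
      (empty_subset _) (by
        rw [sum_singleton, sum_singleton, sum_empty]
        linarith)
    rw [sum_singleton, sum_singleton, sum_empty] at h3
    linarith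
  -- exactly two big groups
  have caseB : ∀ x y z : Fin 3, x ≠ y → x ≠ z → y ≠ z → Big x → Big y → ¬ Big z → False := by
    intro x y z hxy hxz hyz ⟨e, he, hbe⟩ ⟨f, hf, hbf⟩ hz
    have ht := pair x y z e f hxy hxz hyz he hf hbe hbf
    obtain ⟨he2, heE, hre, hse, hex, hsx⟩ := lpS_big (b := a x) (u := u x) rfl (hlow' x)
      (hup' x) (ha x) (hA x) he hbe
    obtain ⟨hf2, hfE, hrf, hsf, hey, hsy⟩ := lpS_big (b := a y) (u := u y) rfl (hlow' y)
      (hup' y) (ha y) (hA y) hf hbf
    have h1 := hsum x y z hxy hxz hyz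
    have hz3 : 1 / 3 < u z := by linarith
    have hσz := lpS_third hz3 (hsingle z hz)
    have h6 : ∑ n ∈ range (E + 1), a z n = u z := rfl
    have hlx := hlow' x
    have hly := hlow' y
    have h2 := hT3 z x y (range (E + 1)) ((range (E + 1)).erase e) ∅ hxz.symm hyz.symm hxy
      (subset_refl _) (erase_subset _ _) (empty_subset _) (by
        rw [sum_empty]
        linarith)
    have h3 := hT3 z y x (range (E + 1)) ((range (E + 1)).erase f) ∅ hyz.symm hxz.symm hxy.symm
      (subset_refl _) (erase_subset _ _) (empty_subset _) (by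
        rw [sum_empty]
        linarith)
    rw [sum_empty, hex, h6] at h2
    rw [sum_empty, hey, h6] at h3
    linarith
  by_cases b0 : Big 0 <;> by_cases b1 : Big 1 <;> by_cases b2 : Big 2
  · obtain ⟨e, he, hbe⟩ := b0
    obtain ⟨f, hf, hbf⟩ := b1
    obtain ⟨k, hk, hbk⟩ := b2
    have t01 := pair 0 1 2 e f (by decide) (by decide) (by decide) he hf hbe hbf
    have t02 := pair 0 2 1 e k (by decide) (by decide) (by decide) he hk hbe hbk
    have t12 := pair 1 2 0 f k (by decide) (by decide) (by decide) hf hk hbf hbk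
    obtain ⟨-, -, r0, -, -, -⟩ := lpS_big (b := a 0) (u := u 0) rfl (hlow' 0) (hup' 0)
      (ha 0) (hA 0) he hbe
    obtain ⟨-, -, r1, -, -, -⟩ := lpS_big (b := a 1) (u := u 1) rfl (hlow' 1) (hup' 1)
      (ha 1) (hA 1) hf hbf
    obtain ⟨-, -, r2, -, -, -⟩ := lpS_big (b := a 2) (u := u 2) rfl (hlow' 2) (hup' 2)
      (ha 2) (hA 2) hk hbk
    have h1 := hsum 0 1 2 (by decide) (by decide) (by decide)
    linarith
  · exact caseB 0 1 2 (by decide) (by decide) (by decide) b0 b1 b2
  · exact caseB 0 2 1 (by decide) (by decide) (by decide) b0 b2 b1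
  · exact caseA 0 1 2 (by decide) (by decide) (by decide) b1 b2
  · exact caseB 1 2 0 (by decide) (by decide) (by decide) b1 b2 b0
  · exact caseA 1 0 2 (by decide) (by decide) (by decide) b0 b2
  · exact caseA 2 0 1 (by decide) (by decide) (by decide) b0 b1
  · exact caseA 2 0 1 (by decide) (by decide) (by decide) b0 b1

theorem lp_small (E : ℕ) (a : Fin 3 → ℕ → ℝ) (h : ℝ) (ha : ∀ g n, 0 ≤ a g n)
    (h0 : ∀ g, a g 0 = 0)
    (hs : ∀ g, ∑ n ∈ Finset.range (E + 1), (n : ℝ) * a g n ≤ h)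
    (L : ℝ) (hL : L = ∑ g, ∑ n ∈ Finset.range (E + 1), a g n) (hsmall : 50 * L ≤ 21 * h) :
    (∃ S : Fin 3 → Finset ℕ, (∀ g, S g ⊆ Finset.range (E + 1)) ∧
      ∑ g, ∑ n ∈ S g, (n : ℝ) * a g n ≤ h ∧ L - ∑ g, ∑ n ∈ S g, a g n ≤ 4 / 7 * L) ∨
    (∃ (r : Fin 3) (M : Finset ℕ), M ⊆ Finset.range (E + 1) ∧
      ∑ n ∈ M, a r n + (L - ∑ n ∈ Finset.range (E + 1), a r n) / 2 +
        max 0 ((L - ∑ n ∈ Finset.range (E + 1), a r n) - ∑ n ∈ M, (n : ℝ) * a r n) / 2 ≤
          4 / 7 * L) ∨
    (∃ (g g' : Fin 3) (e f : ℕ), g ≠ g' ∧ 1 ≤ e ∧ 2 ≤ f ∧ e ≤ E ∧ f ≤ E ∧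
      L - a g e - a g' f + a g e / f ≤ 4 / 7 * L) := by
  have hL0 : 0 ≤ L := by
    rw [hL]
    exact sum_nonneg fun g _ => sum_nonneg fun n _ => ha g n
  rcases hL0.eq_or_lt with hL1 | hL1
  · left
    refine ⟨fun _ => ∅, fun _ => empty_subset _, ?_, ?_⟩
    · have h1 := hs 0
      have h2 : 0 ≤ ∑ n ∈ Finset.range (E + 1), (n : ℝ) * a 0 n :=
        sum_nonneg fun n _ => mul_nonneg (Nat.cast_nonneg n) (ha 0 n)
      simp only [sum_empty, sum_const_zero]
      linarith
    · simp [← hL1]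
  · by_contra hcon
    push Not at hcon
    obtain ⟨hc1, hc2, hc3⟩ := hcon
    have hLn : L ≠ 0 := hL1.ne'
    refine lpS_core E (fun g n => a g n / L) (h / L) (fun g n => div_nonneg (ha g n) hL0)
      ?_ ?_ ?_ ?_ ?_ ?_
    · intro g
      have : ∑ n ∈ range (E + 1), (n : ℝ) * (a g n / L) =
          (∑ n ∈ range (E + 1), (n : ℝ) * a g n) / L := by
        rw [sum_div]
        exact sum_congr rfl fun n _ => by ring
      rw [this]
      exact div_le_div_of_nonneg_right (hs g) hL0
    · have : ∑ g, ∑ n ∈ range (E + 1), a g n / L = (∑ g, ∑ n ∈ range (E + 1), a g n) / L := by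
        rw [sum_div]
        exact sum_congr rfl fun g _ => by rw [sum_div]
      rw [this, ← hL, div_self hLn]
    · rw [le_div_iff₀ hL1]
      linarith
    · intro S hS hle
      have e1 : ∑ g, ∑ n ∈ S g, (n : ℝ) * (a g n / L) =
          (∑ g, ∑ n ∈ S g, (n : ℝ) * a g n) / L := by
        rw [sum_div]
        refine sum_congr rfl fun g _ => ?_
        rw [sum_div]
        exact sum_congr rfl fun n _ => by ring
      have e2 : ∑ g, ∑ n ∈ S g, a g n / L = (∑ g, ∑ n ∈ S g, a g n) / L := by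
        rw [sum_div]
        exact sum_congr rfl fun g _ => by rw [sum_div]
      rw [e1, div_le_div_iff_of_pos_right hL1] at hle
      have := hc1 S hS hle
      rw [e2, div_lt_iff₀ hL1]
      linarith
    · intro g M hM
      have e1 : ∑ n ∈ M, (n : ℝ) * (a g n / L) = (∑ n ∈ M, (n : ℝ) * a g n) / L := by
        rw [sum_div]
        exact sum_congr rfl fun n _ => by ring
      have e2 : ∑ n ∈ M, a g n / L = (∑ n ∈ M, a g n) / L := by rw [sum_div]
      have e3 : ∑ n ∈ range (E + 1), a g n / L = (∑ n ∈ range (E + 1), a g n) / L := by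
        rw [sum_div]
      have := hc2 g M hM
      rw [e1, e2, e3]
      have e4 : max 0 (1 - (∑ n ∈ range (E + 1), a g n) / L - (∑ n ∈ M, (n : ℝ) * a g n) / L) =
          max 0 (L - ∑ n ∈ range (E + 1), a g n - ∑ n ∈ M, (n : ℝ) * a g n) / L := by
        rw [← max_div_div_right hL0, zero_div]
        congr 1
        field_simp
      rw [e4]
      have e5 : (∑ n ∈ M, a g n) / L + (1 - (∑ n ∈ range (E + 1), a g n) / L) / 2 +
          max 0 (L - ∑ n ∈ range (E + 1), a g n - ∑ n ∈ M, (n : ℝ) * a g n) / L / 2 =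
          (∑ n ∈ M, a g n + (L - ∑ n ∈ range (E + 1), a g n) / 2 +
          max 0 (L - ∑ n ∈ range (E + 1), a g n - ∑ n ∈ M, (n : ℝ) * a g n) / 2) / L := by
        field_simp
      rw [e5, lt_div_iff₀ hL1]
      exact this
    · intro g g' e f hgg he hf heE hfE
      have := hc3 g g' e f hgg he hf heE hfE
      have e1 : a g e / L + a g' f / L - a g e / L / f = (a g e + a g' f - a g e / f) / L := by
        field_simp
      rw [e1, div_lt_iff₀ hL1]
      linarith

end Pool.Agent.AbcF
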