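import Mathlib
import Pool.Agent.AbcF.Defs2
import Pool.Agent.AbcF.LPSmall
import Pool.Agent.AbcF.LPLarge

/-!
The linear programme of the squad AbcF: sort the groups by a permutation and add the small case.
-/

namespace Pool.Agent.AbcF

open Finset

/-- the three sums do not change under a permutation of the groups -/
theorem lpA_sum (σ : Equiv.Perm (Fin 3)) (F : Fin 3 → ℝ) : ∑ g, F (σ g) = ∑ g, F g :=
  Equiv.sum_comp σ F

theorem gapT_perm {E : ℕ} {a : Fin 3 → ℕ → ℝ} {h L : ℝ} (σ : Equiv.Perm (Fin 3))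
    (H : GapT E (fun g => a (σ g)) h L) : GapT E a h L := by
  obtain ⟨r, e, S, he1, he2, hS, hd, hle⟩ := H
  refine ⟨σ r, e, fun g => S (σ.symm g), he1, he2, fun g => hS _, ?_, ?_⟩
  · intro g hg n hn
    refine hd (σ.symm g) ?_ n hn
    intro h1
    apply hg
    rw [← h1, Equiv.apply_symm_apply]
  · have e1 : ∑ g, ∑ n ∈ S (σ.symm g), a g n = ∑ g, ∑ n ∈ S g, a (σ g) n := by
      rw [← lpA_sum σ (fun g => ∑ n ∈ S (σ.symm g), a g n)]
      simp only [Equiv.symm_apply_apply]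
    have e2 : (∑ g, if g = σ r then 0 else ∑ n ∈ S (σ.symm g), (n : ℝ) * a g n) =
        ∑ g, if g = r then 0 else ∑ n ∈ S g, (n : ℝ) * a (σ g) n := by
      rw [← lpA_sum σ (fun g => if g = σ r then 0 else
        ∑ n ∈ S (σ.symm g), (n : ℝ) * a g n)]
      refine Finset.sum_congr rfl fun g _ => ?_
      simp only [Equiv.symm_apply_apply, EmbeddingLike.apply_eq_iff_eq]
    simp only [Equiv.symm_apply_apply]
    rw [e1, e2]
    exact hle

theorem enT_perm {E : ℕ} {a : Fin 3 → ℕ → ℝ} {L : ℝ} (σ : Equiv.Perm (Fin 3))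
    (H : EnT E (fun g => a (σ g)) L) : EnT E a L := by
  obtain ⟨r, M, hM, hle⟩ := H
  exact ⟨σ r, M, hM, hle⟩

theorem bpT_perm {E : ℕ} {a : Fin 3 → ℕ → ℝ} {L : ℝ} (σ : Equiv.Perm (Fin 3))
    (H : BpT E (fun g => a (σ g)) L) : BpT E a L := by
  obtain ⟨g, g', e, f, hg, h1, h2, h3, h4, hle⟩ := H
  exact ⟨σ g, σ g', e, f, fun h => hg (σ.injective h), h1, h2, h3, h4, hle⟩

/-- the linear programme, from the case of a large radical and sorted groups -/
theorem lp_all_of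
    (HL : ∀ (E : ℕ) (a : Fin 3 → ℕ → ℝ) (h : ℝ), (∀ g n, 0 ≤ a g n) → (∀ g, a g 0 = 0) →
      (∀ g, ∑ n ∈ Finset.range (E + 1), (n : ℝ) * a g n ≤ h) →
      ∀ L : ℝ, L = ∑ g, ∑ n ∈ Finset.range (E + 1), a g n → 21 * h ≤ 50 * L →
      L ≤ h → 0 < h →
      ∑ n ∈ Finset.range (E + 1), a 1 n ≤ ∑ n ∈ Finset.range (E + 1), a 0 n →
      ∑ n ∈ Finset.range (E + 1), a 2 n ≤ ∑ n ∈ Finset.range (E + 1), a 1 n →
      GapT E a h L ∨ EnT E a L ∨ BpT E a L)
    (E : ℕ) (a : Fin 3 → ℕ → ℝ) (h : ℝ) (ha : ∀ g n, 0 ≤ a g n)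
    (h0 : ∀ g, a g 0 = 0)
    (hs : ∀ g, ∑ n ∈ Finset.range (E + 1), (n : ℝ) * a g n ≤ h)
    (L : ℝ) (hL : L = ∑ g, ∑ n ∈ Finset.range (E + 1), a g n) (hle : L ≤ h) :
    GapT E a h L ∨ EnT E a L ∨ BpT E a L := by
  rcases le_or_gt (50 * L) (21 * h) with hsm | hbig
  · rcases lp_small E a h ha h0 hs L hL hsm with ⟨S, hS, h1, h2⟩ | H | H
    · left
      refine ⟨0, 1, S, le_rfl, by norm_num, hS, fun g _ n _ => one_dvd _, ?_⟩
      have e1 : (∑ g : Fin 3, if g = 0 then 0 else ∑ n ∈ S g, (n : ℝ) * a g n) +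
          ∑ n ∈ S 0, (n : ℝ) * a 0 n = ∑ g, ∑ n ∈ S g, (n : ℝ) * a g n := by
        rw [Fin.sum_univ_three, Fin.sum_univ_three]
        simp only [if_true, Fin.isValue, one_ne_zero, if_false]
        rw [if_neg (by decide)]
        ring
      rw [Nat.cast_one, div_one, e1, max_eq_left (by linarith), add_zero]
      exact h2
    · exact Or.inr (Or.inl H)
    · exact Or.inr (Or.inr H)
  · have hh : 0 < h := by linarith
    set A : Fin 3 → ℝ := fun g => -∑ n ∈ Finset.range (E + 1), a g n with hA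
    set σ := Tuple.sort A with hσ
    have hmono := Tuple.monotone_sort A
    have m1 : A (σ 0) ≤ A (σ 1) := hmono (by decide : (0 : Fin 3) ≤ 1)
    have m2 : A (σ 1) ≤ A (σ 2) := hmono (by decide : (1 : Fin 3) ≤ 2)
    have h1 := HL E (fun g => a (σ g)) h (fun g n => ha _ n) (fun g => h0 _) (fun g => hs _) L
      (by rw [hL]; exact (lpA_sum σ (fun g => ∑ n ∈ Finset.range (E + 1), a g n)).symm)
      hbig.le hle hh (by simp only [hA] at m1; linarith) (by simp only [hA] at m2; linarith)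
    rcases h1 with H | H | H
    · exact Or.inl (gapT_perm σ H)
    · exact Or.inr (Or.inl (enT_perm σ H))
    · exact Or.inr (Or.inr (bpT_perm σ H))

end Pool.Agent.AbcF
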