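import Mathlib
import Pool.Agent.AbcF.LPAll
import Pool.Agent.AbcF.Cnts
import Pool.Agent.AbcF.Costs1
import Pool.Agent.AbcF.Costs2

/-! The count of the exceptions. -/

namespace Pool.Agent.AbcF

open NumberField IsDedekindDomain Pool.Agent.H7.Abc Pool.Agent.AbcE

variable {K : Type*} [Field K] [NumberField K]

/-- The gap tools. -/
noncomputable def I1 (E : ℕ) : Finset (Fin 3 × ℕ × (Fin 3 → Finset ℕ)) :=
  Finset.univ ×ˢ Finset.range 11 ×ˢ Fintype.piFinset fun _ => (Finset.range (E + 1)).powerset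

/-- The costs of the gap tools. -/
noncomputable def Φ1 (i : Fin 3 × ℕ × (Fin 3 → Finset ℕ)) (x : K) : ℝ :=
  RK (gapTool i.1 i.2.1 i.2.2) (rolb i.1 false x) +
    max 0 (Ov (gapTool i.1 i.2.1 i.2.2) (rolb i.1 false x))

/-- The energy tools. -/
noncomputable def I2 (E : ℕ) : Finset (Fin 3 × Finset ℕ) :=
  Finset.univ ×ˢ (Finset.range (E + 1)).powerset

/-- The costs of the energy tools. -/
noncomputable def Φ2 (E : ℕ) (i : Fin 3 × Finset ℕ) (x : K) : ℝ :=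
  RK (enTool E i.2) (rolb i.1 false x) + Om (enTool E i.2) (rolb i.1 false x)

/-- The determinant tools. -/
def I3 (E : ℕ) : Finset (Fin 3 × Bool × ℕ × ℕ) :=
  Finset.univ ×ˢ Finset.univ ×ˢ Finset.Icc 1 E ×ˢ Finset.Icc 2 E

/-- The costs of the determinant tools. -/
noncomputable def Φ3 (E : ℕ) (i : Fin 3 × Bool × ℕ × ℕ) (x : K) : ℝ :=
  RK (TB i.2.2.1 i.2.2.2) (rolb i.1 i.2.1 x) +
    Ob i.2.2.1 i.2.2.2 E i.2.2.2 (rolb i.1 i.2.1 x)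

theorem lp_all (E : ℕ) (a : Fin 3 → ℕ → ℝ) (h : ℝ) (ha : ∀ g n, 0 ≤ a g n)
    (h0 : ∀ g, a g 0 = 0)
    (hs : ∀ g, ∑ n ∈ Finset.range (E + 1), (n : ℝ) * a g n ≤ h)
    (L : ℝ) (hL : L = ∑ g, ∑ n ∈ Finset.range (E + 1), a g n) (hle : L ≤ h) :
    GapT E a h L ∨ EnT E a L ∨ BpT E a L :=
  lp_all_of lp_large_sorted E a h ha h0 hs L hL hle

theorem cover {x : K} (hx : x ≠ 0) (hx1 : x ≠ 1) {l Y : ℝ} (hl : 0 ≤ l) (hl1 : l ≤ 1)
    (hY : hgt x ≤ Y) (hc : RR x ≤ l * hgt x) {E : ℕ} (hE : 1 ≤ E) {θ : ℝ}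
    (hθ : θ = 4 / 7 * (l * Y) + 4 * (Y + Module.finrank ℚ K * Real.log 2) / E +
      2 * (Module.finrank ℚ K * Real.log 2)) :
    (∃ i ∈ I1 E, Φ1 i x ≤ θ) ∨ (∃ i ∈ I2 E, Φ2 E i x ≤ θ) ∨ (∃ i ∈ I3 E, Φ3 E i x ≤ θ) := by
  classical
  set c : ℝ := Module.finrank ℚ K * Real.log 2 with hcdef
  have hc0 : 0 ≤ c := by positivity
  have hg0 := hgt_nonneg x
  have hhx : hh x = hgt x + c := rfl
  obtain ⟨t1, t2⟩ := aa_tail hx hx1 E
  set L : ℝ := ∑ g, ∑ n ∈ Finset.range (E + 1), aa x g n with hL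
  have hE0 : (0 : ℝ) < E := by exact_mod_cast hE
  have hlY : l * hgt x ≤ l * Y := mul_le_mul_of_nonneg_left hY hl
  have hLh : L ≤ hh x := by
    have : l * hgt x ≤ 1 * hgt x := mul_le_mul_of_nonneg_right hl1 hg0
    linarith
  have hL2 : L ≤ l * Y := by linarith
  have hLR : RR x - L ≤ 3 * (Y + c) / E := by
    have h1 : 3 * hh x / (E + 1) ≤ 3 * (Y + c) / E := by
      apply div_le_div₀ (by linarith) (by linarith) hE0 (by linarith)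
    linarith
  have h3 : 3 * (Y + c) / E ≤ 4 * (Y + c) / E := by
    apply div_le_div_of_nonneg_right _ hE0.le
    nlinarith
  have h4 : 3 * (Y + c) / E + (Y + c) / E = 4 * (Y + c) / E := by ring
  have hrol : ∀ r, rolb r false x = role r x := fun r => by simp [rolb]
  rcases lp_all E (aa x) (hh x) (aa_nonneg x) (aa_zero x) (aa_size hx hx1 E) L hL hLh with
    ⟨r, e, S, he, he10, hS, hd, hcost⟩ | ⟨r, M, hM, hcost⟩ | ⟨g, g', e, f, hg, he, hf, heE, hfE, hcost⟩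
  · left
    refine ⟨(r, e, S), ?_, ?_⟩
    · simp only [I1, Finset.mem_product, Finset.mem_univ, true_and, Finset.mem_range,
        Fintype.mem_piFinset, Finset.mem_powerset]
      exact ⟨by omega, hS⟩
    · have h := cost_gap hx hx1 E r e S he hS hd
      rw [← hcdef] at h
      simp only [Φ1, hrol]
      rw [hθ]
      linarith
  · right; left
    refine ⟨(r, M), ?_, ?_⟩
    · simp only [I2, Finset.mem_product, Finset.mem_univ, true_and, Finset.mem_powerset]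
      exact hM
    · have h := cost_en hx hx1 E r M hM L hL
      simp only [Φ2, hrol]
      rw [hθ]
      linarith
  · right; right
    obtain ⟨r, b, h⟩ := cost_bp hx hx1 g g' hg e f E he hf hE
    refine ⟨(r, b, e, f), ?_, ?_⟩
    · simp only [I3, Finset.mem_product, Finset.mem_univ, true_and, Finset.mem_Icc]
      exact ⟨⟨he, heE⟩, hf, hfE⟩
    · simp only [Φ3]
      rw [hθ]
      have h5 : hh x / E ≤ (Y + c) / E := div_le_div_of_nonneg_right (by linarith) hE0.le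
      linarith

theorem cnt1 (E : ℕ) : ∀ i ∈ I1 E, Cnt K (Φ1 i) := by
  intro i _
  exact cnt_rolb K (cnt_gap K (gapTool i.1 i.2.1 i.2.2)) i.1 false

theorem cnt2 (E : ℕ) : ∀ i ∈ I2 E, Cnt K (Φ2 E i) := by
  intro i _
  exact cnt_rolb K (cnt_t6 K (enTool E i.2) E (fun n hn => hn) (fun n hn => hn)) i.1 false

theorem cnt3 {E : ℕ} (hE : 1 ≤ E) : ∀ i ∈ I3 E, Cnt K (Φ3 E i) := by
  intro i hi
  simp only [I3, Finset.mem_product, Finset.mem_univ, true_and, Finset.mem_Icc] at hi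
  obtain ⟨⟨he, -⟩, hf, -⟩ := hi
  exact cnt_rolb K (cnt_bp K i.2.2.1 i.2.2.2 E i.2.2.2 he (by omega) hE (by omega) le_rfl
    (by nlinarith)) i.1 i.2.1

/-- The count. -/
theorem count2 (K : Type*) [Field K] [NumberField K] {ε : ℝ} (hε : 0 < ε) :
    ∃ C : ℝ, 0 < C ∧ ∀ l Y : ℝ, 0 ≤ l → l ≤ 1 → 0 ≤ Y →
      ((Exc K l Y).ncard : ℝ) ≤ C * Real.exp ((4 / 7 * l + ε) * Y) := by
  classical
  set c : ℝ := Module.finrank ℚ K * Real.log 2 with hcdef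
  have hc0 : 0 ≤ c := by positivity
  obtain ⟨E, hE1, hE2⟩ : ∃ E : ℕ, 1 ≤ E ∧ 8 / ε ≤ E := by
    refine ⟨⌈8 / ε⌉₊ + 1, by omega, ?_⟩
    push_cast
    have := Nat.le_ceil (8 / ε)
    linarith
  have hE0 : (0 : ℝ) < E := by exact_mod_cast hE1
  obtain ⟨C1, hC1, h1⟩ := cnt_union K (I1 E) Φ1 (cnt1 E) (half_pos hε)
  obtain ⟨C2, hC2, h2⟩ := cnt_union K (I2 E) (Φ2 E) (cnt2 E) (half_pos hε)
  obtain ⟨C3, hC3, h3⟩ := cnt_union K (I3 E) (Φ3 E) (cnt3 hE1) (half_pos hε)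
  refine ⟨(C1 + C2 + C3) * Real.exp (ε / 2 * c + 2 * c), by positivity, fun l Y hl hl1 hY => ?_⟩
  set θ : ℝ := 4 / 7 * (l * Y) + 4 * (Y + c) / E + 2 * c with hθ
  have hsub : Exc K l Y ⊆
      ({y : K | y ≠ 0 ∧ y ≠ 1 ∧ hgt y ≤ Y ∧ ∃ i ∈ I1 E, Φ1 i y ≤ θ} ∪
      {y : K | y ≠ 0 ∧ y ≠ 1 ∧ hgt y ≤ Y ∧ ∃ i ∈ I2 E, Φ2 E i y ≤ θ}) ∪
      {y : K | y ≠ 0 ∧ y ≠ 1 ∧ hgt y ≤ Y ∧ ∃ i ∈ I3 E, Φ3 E i y ≤ θ} := by
    rintro x ⟨hx, hx1, hY', hc⟩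
    rcases cover hx hx1 hl hl1 hY' hc hE1 hθ with h | h | h
    · exact Or.inl (Or.inl ⟨hx, hx1, hY', h⟩)
    · exact Or.inl (Or.inr ⟨hx, hx1, hY', h⟩)
    · exact Or.inr ⟨hx, hx1, hY', h⟩
  have hfin : ∀ P : K → Prop, {y : K | y ≠ 0 ∧ y ≠ 1 ∧ hgt y ≤ Y ∧ P y}.Finite := by
    intro P
    refine (NumberField.finite_setOfPred_logHeight₁_le K Y).subset ?_
    rintro x ⟨-, -, h, -⟩
    rw [hgt_eq] at h
    exact h
  have h4 := Set.ncard_le_ncard hsub (((hfin _).union (hfin _)).union (hfin _))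
  have h5 := h4.trans (Set.ncard_union_le _ _)
  have h6 := Set.ncard_union_le
    {y : K | y ≠ 0 ∧ y ≠ 1 ∧ hgt y ≤ Y ∧ ∃ i ∈ I1 E, Φ1 i y ≤ θ}
    {y : K | y ≠ 0 ∧ y ≠ 1 ∧ hgt y ≤ Y ∧ ∃ i ∈ I2 E, Φ2 E i y ≤ θ}
  have h7 : ((Exc K l Y).ncard : ℝ) ≤
      (({y : K | y ≠ 0 ∧ y ≠ 1 ∧ hgt y ≤ Y ∧ ∃ i ∈ I1 E, Φ1 i y ≤ θ}.ncard : ℕ) : ℝ) +
      (({y : K | y ≠ 0 ∧ y ≠ 1 ∧ hgt y ≤ Y ∧ ∃ i ∈ I2 E, Φ2 E i y ≤ θ}.ncard : ℕ) : ℝ) +
      (({y : K | y ≠ 0 ∧ y ≠ 1 ∧ hgt y ≤ Y ∧ ∃ i ∈ I3 E, Φ3 E i y ≤ θ}.ncard : ℕ) : ℝ) := by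
    have := h5.trans (Nat.add_le_add_right h6 _)
    exact_mod_cast this
  have e1 := h1 Y θ hY
  have e2 := h2 Y θ hY
  have e3 := h3 Y θ hY
  have h8 : Real.exp (θ + ε / 2 * Y) ≤
      Real.exp (ε / 2 * c + 2 * c) * Real.exp ((4 / 7 * l + ε) * Y) := by
    rw [← Real.exp_add]
    apply Real.exp_le_exp.2
    have h9 : 4 * (Y + c) / E ≤ ε / 2 * (Y + c) := by
      rw [div_le_iff₀ hE0]
      have h10 : 4 ≤ ε / 2 * E := by
        rw [div_le_iff₀ hε] at hE2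
        linarith
      have : 0 ≤ Y + c := by linarith
      nlinarith
    rw [hθ]
    nlinarith
  calc ((Exc K l Y).ncard : ℝ) ≤ (C1 + C2 + C3) * Real.exp (θ + ε / 2 * Y) := by linarith
    _ ≤ (C1 + C2 + C3) * (Real.exp (ε / 2 * c + 2 * c) * Real.exp ((4 / 7 * l + ε) * Y)) :=
        mul_le_mul_of_nonneg_left h8 (by positivity)
    _ = _ := by ring

end Pool.Agent.AbcF
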